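import Pool.Agent.Lib.MP_2794d1_ag.PC.CA3
import Pool.Agent.Lib.MP_2794d1_ag.F07

/-!
CA8: growth of the one-parameter group and the integral powers of the parabolic element.
`R_pow`: `ic (D.R (D.T ^ n)) = D.G.E n`: induction with `G_one`, `PolyGroup.add'` (`E (n + 1) = E n * E 1`), `map_pow`,
multiplicativity of `ic`. `mob_T_pow`: `mob (D.T ^ n) z = z + n` for `0 < im z` by induction with `mob_mob` (F07) and `D.T_eq`.
`E_norm`: the entries of `G.E z` are values at `z` of finitely many polynomials (`Polynomial.aeval`), so there is `C ≥ 1` with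
`‖entry‖ ≤ C (1 + ‖z‖) ^ C`, hence `‖G.E z *ᵥ v‖ ≤ C (1 + ‖z‖) ^ C ‖v‖` after enlarging `C`.
`E_inv`: `v = G.E (-z) *ᵥ (G.E z *ᵥ v)`, so `‖v‖ ≤ C (1 + ‖z‖) ^ C * ‖G.E z *ᵥ v‖`.
-/

namespace MP2794d1.PC

open Matrix Complex Filter Topology

variable {Γ : Subgroup (Matrix.SpecialLinearGroup (Fin 2) ℝ)} {ι : Type} [Fintype ι]
  [DecidableEq ι]

theorem ic_mul {ι : Type} [Fintype ι] (X Y : Matrix ι ι ℤ) : ic (X * Y) = ic X * ic Y :=
  Matrix.map_mul (f := Int.castRingHom ℂ)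

theorem ic_one {ι : Type} [DecidableEq ι] : ic (1 : Matrix ι ι ℤ) = 1 :=
  Matrix.map_one (fun q : ℤ => (q : ℂ)) Int.cast_zero Int.cast_one

theorem R_pow (D : Datum Γ ι) (n : ℕ) : ic (D.R (D.T ^ n)) = D.G.E n := by
  induction n with
  | zero =>
    rw [pow_zero, map_one, ic_one, Nat.cast_zero]
    exact D.G.zero'.symm
  | succ n ih =>
    rw [pow_succ, map_mul, ic_mul, ih, D.G_one, Nat.cast_succ]
    exact (D.G.add' n 1).symm

theorem mob_T_pow (D : Datum Γ ι) (n : ℕ) (z : ℂ) (hz : 0 < z.im) :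
    mob (D.T ^ n : Γ) z = z + n := by
  induction n with
  | zero =>
    rw [pow_zero, Nat.cast_zero, add_zero]
    exact mob_one z
  | succ n ih =>
    rw [pow_succ', Subgroup.coe_mul, ← mob_mob _ _ z hz, D.T_eq, ih, Nat.cast_succ, add_assoc]

private theorem CA8_aeval (p : Polynomial ℚ) : ∃ C : ℕ, ∀ z : ℂ,
    ‖Polynomial.aeval z p‖ ≤ C * (1 + ‖z‖) ^ C := by
  set S : ℝ := ∑ i ∈ Finset.range (p.natDegree + 1), ‖((p.coeff i : ℚ) : ℂ)‖ with hS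
  have hS0 : 0 ≤ S := Finset.sum_nonneg fun i _ => norm_nonneg _
  refine ⟨⌈S⌉₊ + p.natDegree, fun z => ?_⟩
  have h1z : 1 ≤ 1 + ‖z‖ := by linarith [norm_nonneg z]
  rw [Polynomial.aeval_eq_sum_range]
  refine (norm_sum_le _ _).trans ?_
  have h1 : ∀ i ∈ Finset.range (p.natDegree + 1), ‖p.coeff i • z ^ i‖ ≤
      ‖((p.coeff i : ℚ) : ℂ)‖ * (1 + ‖z‖) ^ (⌈S⌉₊ + p.natDegree) := by
    intro i hi
    rw [Finset.mem_range] at hi
    rw [Rat.smul_def, norm_mul, norm_pow]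
    have h2 : ‖z‖ ^ i ≤ (1 + ‖z‖) ^ i := by gcongr; linarith
    have h3 : (1 + ‖z‖) ^ i ≤ (1 + ‖z‖) ^ (⌈S⌉₊ + p.natDegree) :=
      pow_le_pow_right₀ h1z (by omega)
    exact mul_le_mul_of_nonneg_left (h2.trans h3) (norm_nonneg _)
  refine (Finset.sum_le_sum h1).trans ?_
  rw [← Finset.sum_mul, ← hS]
  have h4 : S ≤ ((⌈S⌉₊ + p.natDegree : ℕ) : ℝ) := by
    push_cast
    linarith [Nat.le_ceil S, (Nat.cast_nonneg p.natDegree : (0 : ℝ) ≤ p.natDegree)]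
  gcongr

theorem E_norm (G : PolyGroup ι) : ∃ C : ℕ, 1 ≤ C ∧ ∀ (z : ℂ) (v : ι → ℂ),
    ‖G.E z *ᵥ v‖ ≤ C * (1 + ‖z‖) ^ C * ‖v‖ ∧ ‖v‖ ≤ C * (1 + ‖z‖) ^ C * ‖G.E z *ᵥ v‖ := by
  choose c hc using fun i j => CA8_aeval (G.P i j)
  set C : ℕ := (∑ i, ∑ j, c i j) + 1 with hC
  have hcC : ∀ i j, c i j ≤ C := by
    intro i j
    have h1 : c i j ≤ ∑ j, c i j := Finset.single_le_sum (fun _ _ => Nat.zero_le _) (Finset.mem_univ j)
    have h2 : ∑ j, c i j ≤ ∑ i, ∑ j, c i j :=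
      Finset.single_le_sum (f := fun i => ∑ j, c i j) (fun _ _ => Nat.zero_le _) (Finset.mem_univ i)
    omega
  have key : ∀ (z : ℂ) (v : ι → ℂ), ‖G.E z *ᵥ v‖ ≤ C * (1 + ‖z‖) ^ C * ‖v‖ := by
    intro z v
    have h1z : 1 ≤ 1 + ‖z‖ := by linarith [norm_nonneg z]
    rw [pi_norm_le_iff_of_nonneg (by positivity)]
    intro i
    have e1 : (G.E z *ᵥ v) i = ∑ j, Polynomial.aeval z (G.P i j) * v j := rfl
    rw [e1]
    refine (norm_sum_le _ _).trans ?_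
    have h2 : ∀ j ∈ Finset.univ, ‖Polynomial.aeval z (G.P i j) * v j‖ ≤
        (c i j : ℝ) * ((1 + ‖z‖) ^ C * ‖v‖) := by
      intro j _
      rw [norm_mul]
      have h3 : (1 + ‖z‖) ^ c i j ≤ (1 + ‖z‖) ^ C := pow_le_pow_right₀ h1z (hcC i j)
      calc ‖Polynomial.aeval z (G.P i j)‖ * ‖v j‖ ≤ (c i j * (1 + ‖z‖) ^ c i j) * ‖v‖ := by
            gcongr
            · exact hc i j z
            · exact norm_le_pi_norm v j
        _ ≤ (c i j * (1 + ‖z‖) ^ C) * ‖v‖ := by gcongr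
        _ = (c i j : ℝ) * ((1 + ‖z‖) ^ C * ‖v‖) := by ring
    refine (Finset.sum_le_sum h2).trans ?_
    rw [← Finset.sum_mul]
    have h4 : (∑ j, (c i j : ℝ)) ≤ C := by
      have h5 : ∑ j, c i j ≤ ∑ i, ∑ j, c i j :=
        Finset.single_le_sum (f := fun i => ∑ j, c i j) (fun _ _ => Nat.zero_le _)
          (Finset.mem_univ i)
      have h6 : ∑ j, c i j ≤ C := by omega
      exact_mod_cast h6
    calc (∑ j, (c i j : ℝ)) * ((1 + ‖z‖) ^ C * ‖v‖) ≤ C * ((1 + ‖z‖) ^ C * ‖v‖) := by gcongr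
      _ = C * (1 + ‖z‖) ^ C * ‖v‖ := by ring
  refine ⟨C, by omega, fun z v => ⟨key z v, ?_⟩⟩
  have h1 : G.E (-z) * G.E z = 1 := by
    have h2 := G.add' (-z) z
    rw [neg_add_cancel, G.zero'] at h2
    exact h2.symm
  have h3 : v = G.E (-z) *ᵥ (G.E z *ᵥ v) := by
    rw [Matrix.mulVec_mulVec, h1, Matrix.one_mulVec]
  have h4 := key (-z) (G.E z *ᵥ v)
  rw [← h3, norm_neg] at h4
  exact h4

theorem E_analytic (G : PolyGroup ι) (M : ℂ → ι → ℂ) (z₀ : ℂ)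
    (hM : ∀ i, AnalyticAt ℂ (fun z => M z i) z₀) :
    ∀ i, AnalyticAt ℂ (fun z => (G.E z *ᵥ M z) i) z₀ := by
  intro i
  have e1 : (fun z => (G.E z *ᵥ M z) i) = fun z => ∑ j, Polynomial.aeval z (G.P i j) * M z j := rfl
  rw [e1]
  refine Finset.analyticAt_fun_sum _ fun j _ => ?_
  refine AnalyticAt.mul ?_ (hM j)
  exact AnalyticAt.aeval_polynomial analyticAt_id _

end MP2794d1.PC
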