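import Pool.Agent.Lib.MP_2794d1_ag.PC.CP1
import Pool.Agent.Lib.MP_2794d1_ag.B07

/-!
CP5: the one-parameter group on the products of tensor powers: `P f g = ∏ p, ∏ i, Q (f p i) (g p i)` where `Q` is the polynomial
matrix of `uexp_poly` (B07). Its value at `s` is `pt r (uexp (cm N) s)` (`map_prod`), so `zero'`, `add'` follow from
`uexp_zero`, `uexp_add`, `pt_mul`, `pt_one` (compare B08 `exists_tensGroup`).
-/

namespace MP2794d1.PC

open Matrix Complex

theorem exists_ptGroup {n m : ℕ} (r : Fin m → ℕ) (N : Matrix (Fin n) (Fin n) ℚ) (hN : N ^ n = 0) :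
    ∃ G : PolyGroup (PIdx n m r), ∀ s : ℂ, G.E s = pt r (uexp (cm N) s) := by
  obtain ⟨P0, hP0⟩ := uexp_poly N
  let P : Matrix (PIdx n m r) (PIdx n m r) (Polynomial ℚ) :=
    Matrix.of fun f g => ∏ p, ∏ i, P0 (f p i) (g p i)
  have hP : ∀ s : ℂ, P.map (fun p => Polynomial.aeval s p) = pt r (uexp (cm N) s) := by
    intro s
    ext f g
    rw [hP0 s]
    simp only [P, Matrix.map_apply, Matrix.of_apply, pt, map_prod]
  refine ⟨⟨P, ?_, fun s t => ?_⟩, hP⟩
  · rw [hP, uexp_zero, pt_one]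
  · rw [hP, hP, hP, uexp_add (cm N) (cm_pow N hN), pt_mul]

end MP2794d1.PC
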