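import Pool.Agent.Lib.MP_2794d1_ag.PC.Defs
import Pool.Agent.Lib.MP_2794d1_ag.B06

/-!
CP1: the representation `pt`. `pmin_mul`: `∑ g, ∏ p, ∏ i, A (f p i) (g p i) * ∏ p, minor (W p) (g p)
= ∏ p, ∑ g_p, (∏ i, A (f p i) (g_p i)) * minor (W p) g_p = ∏ p, minor (A * W p) (f p)`
by `Finset.prod_univ_sum` / `Fintype.piFinset_univ` and `minor_mul` (B06: `minor (A * W) f = (tens r A *ᵥ minor W) f`).
`pt_mul`: the same with `tens_mul` (or expand), `pt_one`: the product is `1` if `f = g` and `0` otherwise.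
-/

namespace MP2794d1.PC

open Matrix Complex

theorem CP1_gen {R : Type} [CommRing R] {n m : ℕ} (r : Fin m → ℕ) (A B : Matrix (Fin n) (Fin n) R)
    (f h : PIdx n m r) :
    ∏ p, ∏ i, (A * B) (f p i) (h p i) =
      ∑ g : PIdx n m r, (∏ p, ∏ i, A (f p i) (g p i)) * ∏ p, ∏ i, B (g p i) (h p i) := by
  have h1 : ∀ p : Fin m, ∏ i, (A * B) (f p i) (h p i) =
      ∑ g : Fin (r p) → Fin n, (∏ i, A (f p i) (g i)) * ∏ i, B (g i) (h p i) := by
    intro p
    simp only [Matrix.mul_apply]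
    rw [Finset.prod_univ_sum, Fintype.piFinset_univ]
    apply Finset.sum_congr rfl
    intro g _
    rw [Finset.prod_mul_distrib]
  rw [Finset.prod_congr rfl fun p _ => h1 p, Finset.prod_univ_sum, Fintype.piFinset_univ]
  apply Finset.sum_congr rfl
  intro g _
  rw [Finset.prod_mul_distrib]

theorem CP1_one {R : Type} [CommRing R] {n m : ℕ} (r : Fin m → ℕ) (f g : PIdx n m r) :
    ∏ p, ∏ i, (1 : Matrix (Fin n) (Fin n) R) (f p i) (g p i) =
      (1 : Matrix (PIdx n m r) (PIdx n m r) R) f g := by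
  rw [Matrix.one_apply]
  by_cases h : f = g
  · subst h; simp
  · rw [if_neg h]
    obtain ⟨p, hp⟩ := Function.ne_iff.1 h
    obtain ⟨i, hi⟩ := Function.ne_iff.1 hp
    refine Finset.prod_eq_zero (Finset.mem_univ p) ?_
    exact Finset.prod_eq_zero (Finset.mem_univ i) (by rw [Matrix.one_apply, if_neg hi])

theorem pt_mul {n m : ℕ} (r : Fin m → ℕ) (A B : Matrix (Fin n) (Fin n) ℂ) :
    pt r (A * B) = pt r A * pt r B := by
  ext f h
  rw [Matrix.mul_apply]
  exact CP1_gen r A B f h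

theorem pt_one {n m : ℕ} (r : Fin m → ℕ) : pt r (1 : Matrix (Fin n) (Fin n) ℂ) = 1 := by
  ext f g
  exact CP1_one r f g

theorem ptZ_mul {n m : ℕ} (r : Fin m → ℕ) (A B : Matrix (Fin n) (Fin n) ℤ) :
    ptZ r (A * B) = ptZ r A * ptZ r B := by
  ext f h
  rw [Matrix.mul_apply]
  exact CP1_gen r A B f h

theorem ptZ_one {n m : ℕ} (r : Fin m → ℕ) : ptZ r (1 : Matrix (Fin n) (Fin n) ℤ) = 1 := by
  ext f g
  exact CP1_one r f g

theorem ic_ptZ {n m : ℕ} (r : Fin m → ℕ) (A : Matrix (Fin n) (Fin n) ℤ) :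
    ic (ptZ r A) = pt r (im A) := by
  ext f g
  simp only [ic, ptZ, pt, im, Matrix.map_apply, Matrix.of_apply]
  push_cast
  rfl

theorem pmin_mul {n m : ℕ} (r : Fin m → ℕ) (A : Matrix (Fin n) (Fin n) ℂ)
    (W : (p : Fin m) → Matrix (Fin n) (Fin (r p)) ℂ) :
    pmin r (fun p => A * W p) = pt r A *ᵥ pmin r W := by
  funext f
  have h1 : ∀ p : Fin m, minor (A * W p) (f p) =
      ∑ g : Fin (r p) → Fin n, (∏ i, A (f p i) (g i)) * minor (W p) g := by
    intro p
    exact congrFun (minor_mul A (W p)) (f p)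
  have h2 : pmin r (fun p => A * W p) f = ∏ p, minor (A * W p) (f p) := rfl
  rw [h2, Finset.prod_congr rfl fun p _ => h1 p, Finset.prod_univ_sum, Fintype.piFinset_univ]
  have h3 : (pt r A *ᵥ pmin r W) f =
      ∑ g : PIdx n m r, (∏ p, ∏ i, A (f p i) (g p i)) * ∏ p, minor (W p) (g p) := rfl
  rw [h3]
  apply Finset.sum_congr rfl
  intro g _
  rw [Finset.prod_mul_distrib]

end MP2794d1.PC
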