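import Pool.Agent.Lib.MP_2794d1_ag.PC.CP8
import Pool.Agent.Lib.MP_2794d1_ag.PC.CP1
import Pool.Agent.Lib.MP_2794d1_ag.B01
import Pool.Agent.Lib.MP_2794d1_ag.B05

/-!
CP9: an infinitesimal version of the injectivity of the Pluecker map. `A t` is a family of matrices, `A 0 = 1`, derivative `X` at
`0`. Suppose that the derivative at `0` of `pmin (A t * W)` is `a • pmin W`. Then `X` preserves the range of every `W p`.

Proof. Let `m_q(φ)(t) = minor (A t * W q) φ`, differentiable at `0` (determinants: `HasDerivAt` of finite sums of products).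
Choose `f⁰ p` with `minor (W p) (f⁰ p) ≠ 0` (B01). Fix `p` and let `φ` be arbitrary; `h` at `f = Function.update f⁰ p φ` says
`(∏_{q ≠ p} m_q(f⁰ q) * m_p(φ))'(0) = a * ∏_{q ≠ p} m_q(f⁰ q)(0) * m_p(φ)(0)`, so `m_p(φ)'(0) = μ * m_p(φ)(0)` with
`μ = a - (log ∏_{q ≠ p} m_q(f⁰ q))'(0)` independent of `φ` (write `g = ∏_{q ≠ p} m_q(f⁰ q)`, `g 0 ≠ 0`, `g` differentiable).
Let `U t = (A t * W p) * adjugate ((A t * W p).submatrix (f⁰ p) id)`. By `B05_mul_adjugate` its entries are
`minor (A t * W p) (update (f⁰ p) j i)`, so `U'(0) = μ • U 0`. On the other hand `U'(0) = X * W p * B + W p * B'` with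
`B = adjugate (W p).submatrix (f⁰ p) id` (invertible: `submatrix * adjugate = minor • 1`) and `B'` the derivative of the
adjugate (the entries of an adjugate are determinants, so differentiable). So `X * W p * B = W p * (μ • B - B')` and
`X * W p = W p * (μ • B - B') * B⁻¹`.
-/

namespace MP2794d1.PC

open Matrix Complex Filter Topology

theorem CP9_det {r : ℕ} (M : ℂ → Matrix (Fin r) (Fin r) ℂ)
    (hM : ∀ i j, DifferentiableAt ℂ (fun t => M t i j) 0) :
    DifferentiableAt ℂ (fun t => (M t).det) 0 := by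
  simp only [Matrix.det_apply]
  refine DifferentiableAt.fun_sum (fun σ _ => ?_)
  refine DifferentiableAt.const_smul ?_ _
  exact DifferentiableAt.fun_finset_prod (fun i _ => hM _ _)

theorem CP9_adj {r : ℕ} (M : ℂ → Matrix (Fin r) (Fin r) ℂ)
    (hM : ∀ i j, DifferentiableAt ℂ (fun t => M t i j) 0) (i j : Fin r) :
    DifferentiableAt ℂ (fun t => (M t).adjugate i j) 0 := by
  simp only [Matrix.adjugate_apply]
  apply CP9_det (fun t => (M t).updateRow j (Pi.single i 1))
  intro a b
  by_cases h : a = j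
  · subst h
    simp only [Matrix.updateRow_self]
    exact differentiableAt_const _
  · simp only [Matrix.updateRow_ne h]
    exact hM a b

theorem CP9_mul {n r : ℕ} (W : Matrix (Fin n) (Fin r) ℂ) (A : ℂ → Matrix (Fin n) (Fin n) ℂ)
    (X : Matrix (Fin n) (Fin n) ℂ)
    (hA : ∀ i j, HasDerivAt (fun t => A t i j) (X i j) 0) (i : Fin n) (j : Fin r) :
    HasDerivAt (fun t => (A t * W) i j) ((X * W) i j) 0 := by
  simp only [Matrix.mul_apply]
  exact HasDerivAt.fun_sum (fun k _ => (hA i k).mul_const (W k j))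

theorem tangent {n m : ℕ} (r : Fin m → ℕ) (W : (p : Fin m) → Matrix (Fin n) (Fin (r p)) ℂ)
    (hW : ∀ p, LinearIndependent ℂ (W p)ᵀ) (A : ℂ → Matrix (Fin n) (Fin n) ℂ)
    (X : Matrix (Fin n) (Fin n) ℂ) (hA0 : A 0 = 1)
    (hA : ∀ i j, HasDerivAt (fun t => A t i j) (X i j) 0) (a : ℂ)
    (h : ∀ f : PIdx n m r, HasDerivAt (fun t => pmin r (fun p => A t * W p) f) (a * pmin r W f) 0) :
    ∀ p, ∀ x ∈ LinearMap.range (W p).mulVecLin, X *ᵥ x ∈ LinearMap.range (W p).mulVecLin := by
  intro p
  have hmul : ∀ q i j, HasDerivAt (fun t => (A t * W q) i j) ((X * W q) i j) 0 :=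
    fun q i j => CP9_mul (W q) A X hA i j
  have hmin : ∀ (q : Fin m) (φ : Fin (r q) → Fin n),
      DifferentiableAt ℂ (fun t => minor (A t * W q) φ) 0 := by
    intro q φ
    unfold minor
    apply CP9_det (fun t => (A t * W q).submatrix φ id)
    intro i j
    simp only [Matrix.submatrix_apply, id_eq]
    exact (hmul q _ _).differentiableAt
  choose f0 hf0 using fun q => exists_minor_ne (W q) (hW q)
  set g : ℂ → ℂ := fun t => ∏ q ∈ Finset.univ.erase p, minor (A t * W q) (f0 q) with hg
  have hgd : DifferentiableAt ℂ g 0 :=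
    DifferentiableAt.fun_finset_prod (fun q _ => hmin q (f0 q))
  have hg0 : g 0 ≠ 0 := by
    rw [hg]
    simp only [hA0, Matrix.one_mul]
    exact Finset.prod_ne_zero_iff.2 (fun q _ => hf0 q)
  have hpm : ∀ (W' : (q : Fin m) → Matrix (Fin n) (Fin (r q)) ℂ) (φ : Fin (r p) → Fin n),
      pmin r W' (Function.update f0 p φ) =
        minor (W' p) φ * ∏ q ∈ Finset.univ.erase p, minor (W' q) (f0 q) := by
    intro W' φ
    rw [pmin, ← Finset.mul_prod_erase Finset.univ _ (Finset.mem_univ p), Function.update_self]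
    congr 1
    refine Finset.prod_congr rfl (fun q hq => ?_)
    rw [Function.update_of_ne (Finset.ne_of_mem_erase hq)]
  set μ : ℂ := a - deriv g 0 / g 0 with hμ
  have hd : ∀ φ : Fin (r p) → Fin n,
      HasDerivAt (fun t => minor (A t * W p) φ) (μ * minor (W p) φ) 0 := by
    intro φ
    have h1 := h (Function.update f0 p φ)
    simp only [hpm] at h1
    have h2 : HasDerivAt (fun t => minor (A t * W p) φ * g t)
        (deriv (fun t => minor (A t * W p) φ) 0 * g 0 +
          minor (A 0 * W p) φ * deriv g 0) 0 :=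
      (hmin p φ).hasDerivAt.mul hgd.hasDerivAt
    have h3 := h1.unique h2
    have h4 : g 0 = ∏ q ∈ Finset.univ.erase p, minor (W q) (f0 q) := by
      rw [hg]
      simp only [hA0, Matrix.one_mul]
    rw [← h4, hA0, Matrix.one_mul] at h3
    have h5 : deriv (fun t => minor (A t * W p) φ) 0 = μ * minor (W p) φ := by
      rw [hμ]
      field_simp
      linear_combination -h3
    rw [← h5]
    exact (hmin p φ).hasDerivAt
  set S : Matrix (Fin (r p)) (Fin (r p)) ℂ := (W p).submatrix (f0 p) id with hS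
  set Bt : ℂ → Matrix (Fin (r p)) (Fin (r p)) ℂ :=
    fun t => ((A t * W p).submatrix (f0 p) id).adjugate with hBt
  have hBd : ∀ k j, DifferentiableAt ℂ (fun t => Bt t k j) 0 := by
    intro k j
    apply CP9_adj (fun t => (A t * W p).submatrix (f0 p) id)
    intro i j
    simp only [Matrix.submatrix_apply, id_eq]
    exact (hmul p _ _).differentiableAt
  set B' : Matrix (Fin (r p)) (Fin (r p)) ℂ := Matrix.of fun k j => deriv (fun t => Bt t k j) 0
    with hB'
  have hB0 : Bt 0 = S.adjugate := by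
    simp only [hBt, hA0, Matrix.one_mul, hS]
  have hU : X * W p * S.adjugate + W p * B' = μ • (W p * S.adjugate) := by
    ext i j
    have h1 : HasDerivAt (fun t => ((A t * W p) * Bt t) i j)
        (μ * minor (W p) (Function.update (f0 p) j i)) 0 := by
      have h2 : (fun t => ((A t * W p) * Bt t) i j) =
          fun t => minor (A t * W p) (Function.update (f0 p) j i) := by
        ext t
        exact B05_mul_adjugate (A t * W p) (f0 p) i j
      rw [h2]
      exact hd _
    have h3 : HasDerivAt (fun t => ((A t * W p) * Bt t) i j)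
        (∑ k, ((X * W p) i k * Bt 0 k j + (A 0 * W p) i k * B' k j)) 0 := by
      simp only [Matrix.mul_apply (M := A _ * W p)]
      refine HasDerivAt.fun_sum (fun k _ => ?_)
      exact (hmul p i k).mul (hBd k j).hasDerivAt
    have h4 := h1.unique h3
    have h5 : minor (W p) (Function.update (f0 p) j i) = (W p * S.adjugate) i j :=
      (B05_mul_adjugate (W p) (f0 p) i j).symm
    rw [Matrix.add_apply, Matrix.smul_apply, smul_eq_mul, ← h5, h4, Finset.sum_add_distrib, hB0,
      hA0, Matrix.one_mul]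
    rfl
  have hdet : S.adjugate * S = (minor (W p) (f0 p)) • (1 : Matrix (Fin (r p)) (Fin (r p)) ℂ) := by
    rw [Matrix.adjugate_mul]
    rfl
  have hX : (minor (W p) (f0 p)) • (X * W p) = W p * ((μ • S.adjugate - B') * S) := by
    have h1 : X * W p * S.adjugate = W p * (μ • S.adjugate - B') := by
      rw [Matrix.mul_sub, Matrix.mul_smul, ← hU]
      abel
    calc (minor (W p) (f0 p)) • (X * W p) = X * W p * (S.adjugate * S) := by
          rw [hdet, Matrix.mul_smul, Matrix.mul_one]
      _ = (X * W p * S.adjugate) * S := by rw [Matrix.mul_assoc (X * W p)]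
      _ = W p * ((μ • S.adjugate - B') * S) := by rw [h1, Matrix.mul_assoc]
  rintro x ⟨y, rfl⟩
  rw [Matrix.mulVecLin_apply, Matrix.mulVec_mulVec]
  refine ⟨(minor (W p) (f0 p))⁻¹ • (((μ • S.adjugate - B') * S) *ᵥ y), ?_⟩
  rw [Matrix.mulVecLin_apply, Matrix.mulVec_smul, Matrix.mulVec_mulVec, ← hX, Matrix.smul_mulVec,
    smul_smul, inv_mul_cancel₀ (hf0 p), one_smul]

end MP2794d1.PC
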