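import Pool.Agent.Lib.MP_2794d1_ag.PC.CP2
import Pool.Agent.Lib.MP_2794d1_ag.PC.CP5
import Pool.Agent.Lib.MP_2794d1_ag.PC.CP9
import Pool.Agent.Lib.MP_2794d1_ag.PC.CA8
import Pool.Agent.Lib.MP_2794d1_ag.S01
import Pool.Agent.Lib.MP_2794d1_ag.F04

/-!
CP10: independence. Let `D : Datum V.grp (PIdx n (len V) (rk V))` with `D.R g = ptZ (V.rho g)`, `D.G.E s = pt (uexp (cm c.N) s)`
and `D.L z v = PL V .. z v`. Suppose `a • v + b • (dN g₁ *ᵥ v) + b' • (dN g₂ *ᵥ v) = 0` with `v = c' • pmin W`, `c' ≠ 0`.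
Put `A t = ρ(g₁) uexp(N)(b t) ρ(g₁⁻¹) ρ(g₂) uexp(N)(b' t) ρ(g₂⁻¹)` (`ρ = im (V.rho ·)`), `A 0 = 1` (`uexp_zero`, `rho_mul_inv`),
`A' 0 = b • cm (c.conj g₁) + b' • cm (c.conj g₂)` (`uexp_deriv`, `cm_conj`). `pmin (A t * W) = pt (A t) *ᵥ pmin W` and
`pt (A t) = ic (D.R g₁) * D.G.E (b t) * ic (D.R g₁⁻¹) * ic (D.R g₂) * D.G.E (b' t) * ic (D.R g₂⁻¹)` (`pt_mul`, `ic_ptZ`), whose
derivative at `0` is `b • dN g₁ + b' • dN g₂` (entries of `D.G.E` are polynomials: `Polynomial.hasDerivAt_aeval`; products: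
product rule entrywise or `HasDerivAt.mul` for matrices; `D.G.E 0 = 1`). So the derivative of `pmin (A t * W)` is
`- a • pmin W`. By `tangent` (CP9) `X = b N_{g₁} + b' N_{g₂}` preserves `V.F (lo + p) z` for all `p : Fin (len V)`; also for
all other indices (`f04_top`, `f04_bot`), so `X ∈ FEnd (V.F · z) 0` and `b = b' = 0` by hypothesis; then `a • v = 0`, `a = 0`.
-/

namespace MP2794d1.PC

open Matrix Complex Filter Topology

/-- entrywise derivative at `0` -/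
def cp10_D {ι : Type} (A : ℂ → Matrix ι ι ℂ) (A' : Matrix ι ι ℂ) : Prop :=
  ∀ i j, HasDerivAt (fun t => A t i j) (A' i j) 0

lemma cp10_mul {ι : Type} [Fintype ι] {A B : ℂ → Matrix ι ι ℂ} {A' B' : Matrix ι ι ℂ}
    (hA : cp10_D A A') (hB : cp10_D B B') :
    cp10_D (fun t => A t * B t) (A' * B 0 + A 0 * B') := by
  intro i j
  have h1 : HasDerivAt (fun t => ∑ k, A t i k * B t k j)
      (∑ k, (A' i k * B 0 k j + A 0 i k * B' k j)) 0 :=
    HasDerivAt.fun_sum fun k _ => (hA i k).mul (hB k j)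
  have e1 : (fun t => (A t * B t) i j) = fun t => ∑ k, A t i k * B t k j := by
    funext t; rw [Matrix.mul_apply]
  have e2 : (A' * B 0 + A 0 * B') i j = ∑ k, (A' i k * B 0 k j + A 0 i k * B' k j) := by
    rw [Matrix.add_apply, Matrix.mul_apply, Matrix.mul_apply, Finset.sum_add_distrib]
  rw [e1, e2]
  exact h1

lemma cp10_const {ι : Type} (C : Matrix ι ι ℂ) : cp10_D (fun _ => C) 0 :=
  fun i j => hasDerivAt_const 0 (C i j)

lemma cp10_scale {ι : Type} {A : ℂ → Matrix ι ι ℂ} {A' : Matrix ι ι ℂ} (hA : cp10_D A A')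
    (b : ℂ) : cp10_D (fun t => A (b * t)) (b • A') := by
  intro i j
  have h1 : HasDerivAt (fun t : ℂ => b * t) b 0 := by
    simpa using (hasDerivAt_id (0 : ℂ)).const_mul b
  have h2 : HasDerivAt (fun t => A t i j) (A' i j) (b * 0) := by
    rw [mul_zero]; exact hA i j
  have h3 := h2.comp (0 : ℂ) h1
  have e : (b • A') i j = A' i j * b := by
    rw [Matrix.smul_apply, smul_eq_mul, mul_comm]
  rw [e]
  exact h3

lemma cp10_sandwich {ι : Type} [Fintype ι] [DecidableEq ι] {U : ℂ → Matrix ι ι ℂ}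
    {U' : Matrix ι ι ℂ} (hU : cp10_D U U') (ρ ρ' : Matrix ι ι ℂ) (b : ℂ) :
    cp10_D (fun t => ρ * U (b * t) * ρ') (b • (ρ * U' * ρ')) := by
  have h1 := cp10_mul (cp10_mul (cp10_const ρ) (cp10_scale hU b)) (cp10_const ρ')
  have e : (0 * U (b * 0) + ρ * (b • U')) * ρ' + (ρ * U (b * 0)) * 0 = b • (ρ * U' * ρ') := by
    rw [Matrix.zero_mul, zero_add, Matrix.mul_zero, add_zero, Matrix.mul_smul, Matrix.smul_mul]
  rw [e] at h1
  exact h1

lemma cp10_pair {ι : Type} [Fintype ι] [DecidableEq ι] {U : ℂ → Matrix ι ι ℂ}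
    {U' : Matrix ι ι ℂ} (hU : cp10_D U U') (hU0 : U 0 = 1) (ρ₁ ρ₁' ρ₂ ρ₂' : Matrix ι ι ℂ)
    (h₁ : ρ₁ * ρ₁' = 1) (h₂ : ρ₂ * ρ₂' = 1) (b b' : ℂ) :
    cp10_D (fun t => ρ₁ * U (b * t) * ρ₁' * (ρ₂ * U (b' * t) * ρ₂'))
      (b • (ρ₁ * U' * ρ₁') + b' • (ρ₂ * U' * ρ₂')) := by
  have h := cp10_mul (cp10_sandwich hU ρ₁ ρ₁' b) (cp10_sandwich hU ρ₂ ρ₂' b')
  simp only [mul_zero, hU0, Matrix.mul_one, h₁, h₂, Matrix.one_mul] at h
  exact h

theorem indep_of {n : ℕ} (V : PolVHS n) (c : Cusp V) (D : Datum V.grp (PIdx n (len V) (rk V)))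
    (hR : ∀ g : V.grp, D.R g = ptZ (rk V) (V.rho g : Matrix (Fin n) (Fin n) ℤ))
    (hG : ∀ s : ℂ, D.G.E s = pt (rk V) (uexp (cm c.N) s))
    (z : ℂ) (hz : 0 < z.im) (v : PIdx n (len V) (rk V) → ℂ) (hv : PL V (len V) (rk V) z v)
    (g₁ g₂ : V.grp)
    (h : ∀ a b : ℂ, a • cm (c.conj g₁) + b • cm (c.conj g₂) ∈ FEnd (fun p => V.F p z) 0 →
      a = 0 ∧ b = 0) : Indep D g₁ g₂ v := by
  intro a b b' hab
  have hv0 : v ≠ 0 := PL_ne V (len V) (rk V) z v hv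
  obtain ⟨W, c', hc', hW, hvW⟩ := hv
  set ρ₁ := im (V.rho g₁ : Matrix (Fin n) (Fin n) ℤ) with hρ₁
  set ρ₁' := im (V.rho g₁⁻¹ : Matrix (Fin n) (Fin n) ℤ) with hρ₁'
  set ρ₂ := im (V.rho g₂ : Matrix (Fin n) (Fin n) ℤ) with hρ₂
  set ρ₂' := im (V.rho g₂⁻¹ : Matrix (Fin n) (Fin n) ℤ) with hρ₂'
  have hinv1 : ρ₁ * ρ₁' = 1 := (rho_mul_inv V g₁).1
  have hinv2 : ρ₂ * ρ₂' = 1 := (rho_mul_inv V g₂).1
  have hNn := cm_pow c.N c.nil
  -- the family of matrices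
  let A : ℂ → Matrix (Fin n) (Fin n) ℂ := fun t =>
    ρ₁ * uexp (cm c.N) (b * t) * ρ₁' * (ρ₂ * uexp (cm c.N) (b' * t) * ρ₂')
  have hU : cp10_D (fun s => uexp (cm c.N) s) (cm c.N) := by
    intro i j
    have h1 := uexp_deriv (cm c.N) hNn 0 i j
    rw [uexp_zero, Matrix.mul_one] at h1
    exact h1
  have hA : cp10_D A (b • cm (c.conj g₁) + b' • cm (c.conj g₂)) := by
    have h1 := cp10_pair hU (uexp_zero _) ρ₁ ρ₁' ρ₂ ρ₂' hinv1 hinv2 b b'
    rw [← cm_conj V c g₁, ← cm_conj V c g₂] at h1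
    exact h1
  have hA0 : A 0 = 1 := by
    show ρ₁ * uexp (cm c.N) (b * 0) * ρ₁' * (ρ₂ * uexp (cm c.N) (b' * 0) * ρ₂') = 1
    rw [mul_zero, mul_zero, uexp_zero, Matrix.mul_one, Matrix.mul_one, hinv1, hinv2,
      Matrix.mul_one]
  -- the same on the tensor level
  have hRpt : ∀ g : V.grp, ic (D.R g) = pt (rk V) (im (V.rho g : Matrix (Fin n) (Fin n) ℤ)) := by
    intro g; rw [hR, ic_ptZ]
  have hRinv : ∀ g : V.grp, ic (D.R g) * ic (D.R g⁻¹) = 1 := by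
    intro g
    rw [hRpt, hRpt, ← pt_mul, (rho_mul_inv V g).1, pt_one]
  have hE0 : D.G.E 0 = 1 := D.G.zero'
  have hEd : cp10_D (fun s => D.G.E s) D.dG := by
    intro i j
    have h1 := (D.G.P i j).hasDerivAt_aeval (0 : ℂ)
    exact h1
  have hP := cp10_pair hEd hE0 (ic (D.R g₁)) (ic (D.R g₁⁻¹)) (ic (D.R g₂)) (ic (D.R g₂⁻¹))
    (hRinv g₁) (hRinv g₂) b b'
  have hptA : ∀ t, pt (rk V) (A t) = ic (D.R g₁) * D.G.E (b * t) * ic (D.R g₁⁻¹) *
      (ic (D.R g₂) * D.G.E (b' * t) * ic (D.R g₂⁻¹)) := by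
    intro t
    show pt (rk V) (ρ₁ * uexp (cm c.N) (b * t) * ρ₁' * (ρ₂ * uexp (cm c.N) (b' * t) * ρ₂')) = _
    rw [pt_mul, pt_mul, pt_mul, pt_mul, pt_mul, hRpt, hRpt, hRpt, hRpt, hG, hG]
  -- the derivative of the Pluecker vector
  set w := pmin (rk V) W with hw
  have hlin : b • (D.dN g₁ *ᵥ w) + b' • (D.dN g₂ *ᵥ w) = (-a) • w := by
    rw [hvW] at hab
    rw [Matrix.mulVec_smul, Matrix.mulVec_smul] at hab
    have h1 : c' • (a • w + (b • (D.dN g₁ *ᵥ w) + b' • (D.dN g₂ *ᵥ w))) = 0 := by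
      rw [← hab]
      simp only [smul_add, smul_smul]
      rw [mul_comm c' a, mul_comm c' b, mul_comm c' b']
      abel
    have h2 := (smul_eq_zero.1 h1).resolve_left hc'
    rw [neg_smul]
    exact (neg_eq_of_add_eq_zero_right h2).symm
  have hder : ∀ f : PIdx n (len V) (rk V),
      HasDerivAt (fun t => pmin (rk V) (fun p => A t * W p) f) ((-a) * w f) 0 := by
    intro f
    have e1 : (fun t => pmin (rk V) (fun p => A t * W p) f)
        = fun t => ∑ g, (ic (D.R g₁) * D.G.E (b * t) * ic (D.R g₁⁻¹) *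
          (ic (D.R g₂) * D.G.E (b' * t) * ic (D.R g₂⁻¹))) f g * w g := by
      funext t
      rw [pmin_mul, hptA t]
      rfl
    have h1 : HasDerivAt (fun t => ∑ g, (ic (D.R g₁) * D.G.E (b * t) * ic (D.R g₁⁻¹) *
          (ic (D.R g₂) * D.G.E (b' * t) * ic (D.R g₂⁻¹))) f g * w g)
        (∑ g, (b • (ic (D.R g₁) * D.dG * ic (D.R g₁⁻¹)) +
          b' • (ic (D.R g₂) * D.dG * ic (D.R g₂⁻¹))) f g * w g) 0 :=
      HasDerivAt.fun_sum fun g _ => (hP f g).mul_const (w g)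
    rw [e1]
    refine h1.congr_deriv ?_
    have e2 : ∑ g, (b • (ic (D.R g₁) * D.dG * ic (D.R g₁⁻¹)) +
          b' • (ic (D.R g₂) * D.dG * ic (D.R g₂⁻¹))) f g * w g
        = ((b • D.dN g₁ + b' • D.dN g₂) *ᵥ w) f := rfl
    rw [e2, Matrix.add_mulVec, Matrix.smul_mulVec, Matrix.smul_mulVec, hlin]
    rfl
  have htan := tangent (rk V) W (fun p => (hW p).1) A _ hA0 hA (-a) hder
  have hX : b • cm (c.conj g₁) + b' • cm (c.conj g₂) ∈ FEnd (fun p => V.F p z) 0 := by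
    intro p x hx
    show (b • cm (c.conj g₁) + b' • cm (c.conj g₂)) *ᵥ x ∈ V.F (p + 0) z
    rw [add_zero]
    have hx' : x ∈ V.F p z := hx
    rcases le_or_gt p V.lo with hp | hp
    · rw [f04_top V hz hp]; exact Submodule.mem_top
    · rcases le_or_gt V.hi p with hp2 | hp2
      · rw [f04_bot V hz hp2, Submodule.mem_bot] at hx'
        rw [hx', Matrix.mulVec_zero]
        exact Submodule.zero_mem _
      · have hlt : (p - V.lo).toNat < len V := by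
          unfold len; omega
        have hpk : V.lo + (((⟨(p - V.lo).toNat, hlt⟩ : Fin (len V)) : ℕ) : ℤ) = p := by
          show V.lo + (((p - V.lo).toNat : ℕ) : ℤ) = p
          omega
        have h1 := (hW ⟨(p - V.lo).toNat, hlt⟩).2
        rw [hpk] at h1
        rw [h1] at hx' ⊢
        exact htan ⟨(p - V.lo).toNat, hlt⟩ x hx'
  obtain ⟨hb, hb'⟩ := h b b' hX
  refine ⟨?_, hb, hb'⟩
  rw [hb, hb', zero_smul, zero_smul, add_zero, add_zero] at hab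
  exact (smul_eq_zero.1 hab).resolve_right hv0

end MP2794d1.PC
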