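import Pool.Agent.Lib.MP_2794d1_ag.PC.CP3
import Pool.Agent.Lib.MP_2794d1_ag.B07

/-!
CP6: the cusp. For every `p : Fin (len V)` take `W p, a p` from `c.ext (V.lo + p)`; the number of columns is `rk V p`: at a
point `z` with `a p < im z`, `0 < im z` (and large imaginary part, so that the columns of `W p (qq z)` are independent, as
they are at `q = 0`: a non-zero maximal minor at `0`, B01 `exists_minor_ne`, `linInd_of_minor_ne`, stays non-zero near `0`;
`qq z → 0` as `im z → ∞`, compare `C11_qq_small` in C11) `V.F (lo + p) z` is the range of `uexp (cm N) z * W p (qq z)` whose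
columns are independent (`uexp_neg_mul`), so its dimension is the number of columns; `rank_const`. Take
`M q = pmin (rk V) (fun p => W p q)`; `M 0 ≠ 0` by `pmin_ne`; `a` the maximum of the `a p` and of a bound for the independence
of the columns. `pmin_mul`.
-/

namespace MP2794d1.PC

open Matrix Complex Filter Topology

lemma cp6_qq_small (ε : ℝ) (hε : 0 < ε) : ∃ a : ℝ, ∀ z : ℂ, a < z.im → ‖qq z‖ < ε := by
  refine ⟨-(Real.log ε) / (2 * Real.pi), fun z hz => ?_⟩
  unfold qq
  rw [Complex.norm_exp]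
  have h1 : (2 * (Real.pi : ℂ) * Complex.I * z).re = -(2 * Real.pi * z.im) := by
    simp
  rw [h1]
  have hpi : 0 < 2 * Real.pi := by positivity
  rw [div_lt_iff₀ hpi] at hz
  calc Real.exp (-(2 * Real.pi * z.im)) < Real.exp (Real.log ε) := by
        apply Real.exp_lt_exp.2
        nlinarith
    _ = ε := Real.exp_log hε

lemma cp6_minor_analytic {n r : ℕ} (W : ℂ → Matrix (Fin n) (Fin r) ℂ)
    (hW : ∀ i j, AnalyticAt ℂ (fun q => W q i j) 0) (f : Fin r → Fin n) :
    AnalyticAt ℂ (fun q => minor (W q) f) 0 := by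
  have h1 : (fun q => minor (W q) f) =
      fun q => ∑ σ : Equiv.Perm (Fin r), ((Equiv.Perm.sign σ : ℤ) : ℂ) *
        ∏ i, W q (f (σ i)) i := by
    funext q
    unfold minor
    rw [Matrix.det_apply']
    rfl
  rw [h1]
  apply Finset.analyticAt_fun_sum
  intro σ _
  apply AnalyticAt.mul analyticAt_const
  apply Finset.analyticAt_fun_prod
  intro i _
  exact hW _ _

lemma cp6_inj {n r : ℕ} (W : Matrix (Fin n) (Fin r) ℂ) :
    LinearIndependent ℂ Wᵀ ↔ Function.Injective W.mulVec := by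
  have h := Matrix.mulVec_injective_iff (R := ℂ) (M := W)
  exact h.symm

lemma cp6_mul_indep {n r : ℕ} (N : Matrix (Fin n) (Fin n) ℂ) (hN : N ^ n = 0) (z : ℂ)
    (W : Matrix (Fin n) (Fin r) ℂ) (hW : LinearIndependent ℂ Wᵀ) :
    LinearIndependent ℂ (uexp N z * W)ᵀ := by
  rw [cp6_inj] at hW ⊢
  intro x y hxy
  apply hW
  have h1 : (uexp N z * W) *ᵥ x = (uexp N z * W) *ᵥ y := hxy
  rw [← Matrix.mulVec_mulVec, ← Matrix.mulVec_mulVec] at h1
  have h2 := congrArg (fun v => uexp N (-z) *ᵥ v) h1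
  simp only [Matrix.mulVec_mulVec] at h2
  rw [← Matrix.mul_assoc, uexp_neg_mul N hN, Matrix.one_mul] at h2
  exact h2

lemma cp6_finrank {n r : ℕ} (W : Matrix (Fin n) (Fin r) ℂ) (hW : LinearIndependent ℂ Wᵀ) :
    Module.finrank ℂ (LinearMap.range W.mulVecLin) = r := by
  rw [cp6_inj] at hW
  have h1 : Function.Injective W.mulVecLin := fun x y h => hW h
  rw [LinearMap.finrank_range_of_inj h1]
  simp

lemma cp6_one {n : ℕ} (V : PolVHS n) (c : Cusp V) (p : Fin (len V)) :
    ∃ (W : ℂ → Matrix (Fin n) (Fin (rk V p)) ℂ) (a : ℝ),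
      (∀ i j, AnalyticAt ℂ (fun q => W q i j) 0) ∧ LinearIndependent ℂ (W 0)ᵀ ∧
      ∀ z : ℂ, a < z.im → 0 < z.im →
        LinearIndependent ℂ (uexp (cm c.N) z * W (qq z))ᵀ ∧
        V.F (V.lo + ((p : ℕ) : ℤ)) z = LinearMap.range (uexp (cm c.N) z * W (qq z)).mulVecLin := by
  obtain ⟨r, W, a, hW, hW0, hF⟩ := c.ext (V.lo + ((p : ℕ) : ℤ))
  obtain ⟨f0, hf0⟩ := exists_minor_ne (W 0) hW0
  have hcont : ∀ᶠ q in 𝓝 (0 : ℂ), minor (W q) f0 ≠ 0 :=
    (cp6_minor_analytic W hW f0).continuousAt.eventually_ne hf0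
  obtain ⟨ε, hε, hball⟩ := Metric.eventually_nhds_iff.1 hcont
  obtain ⟨a2, ha2⟩ := cp6_qq_small ε hε
  have hind : ∀ z : ℂ, a2 < z.im → LinearIndependent ℂ (uexp (cm c.N) z * W (qq z))ᵀ := by
    intro z hz
    apply cp6_mul_indep _ (cm_pow c.N c.nil)
    apply linInd_of_minor_ne _ f0
    apply hball
    rw [dist_zero_right]
    exact ha2 z hz
  have hr : r = rk V p := by
    let z : ℂ := Complex.I * ((max (max a a2) 0 + 1 : ℝ) : ℂ)
    have hzi : z.im = max (max a a2) 0 + 1 := by simp [z]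
    have h1 : a < z.im := by
      rw [hzi]
      have := le_trans (le_max_left a a2) (le_max_left (max a a2) 0)
      linarith
    have h2 : a2 < z.im := by
      rw [hzi]
      have := le_trans (le_max_right a a2) (le_max_left (max a a2) 0)
      linarith
    have h3 : 0 < z.im := by
      rw [hzi]
      have := le_max_right (max a a2) (0 : ℝ)
      linarith
    have h4 := cp6_finrank _ (hind z h2)
    have hFz : V.F (V.lo + ((p : ℕ) : ℤ)) z
        = LinearMap.range (uexp (cm c.N) z * W (qq z)).mulVecLin := hF z h1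
    rw [← hFz] at h4
    unfold rk
    rw [← h4]
    exact rank_const V _ z Complex.I h3 (by simp)
  subst hr
  refine ⟨W, max a a2, hW, hW0, fun z hz _ => ⟨?_, ?_⟩⟩
  · exact hind z (lt_of_le_of_lt (le_max_right _ _) hz)
  · exact hF z (lt_of_le_of_lt (le_max_left _ _) hz)

theorem PL_cusp {n : ℕ} (V : PolVHS n) (c : Cusp V) :
    ∃ (a : ℝ) (M : ℂ → PIdx n (len V) (rk V) → ℂ), (∀ i, AnalyticAt ℂ (fun q => M q i) 0) ∧
      M 0 ≠ 0 ∧ ∀ z : ℂ, a < z.im → 0 < z.im →
        PL V (len V) (rk V) z (pt (rk V) (uexp (cm c.N) z) *ᵥ M (qq z)) := by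
  choose W a hW hW0 hF using cp6_one V c
  obtain ⟨A, hA⟩ := (Set.finite_range a).bddAbove
  refine ⟨A, fun q => pmin (rk V) (fun p => W p q), ?_, ?_, ?_⟩
  · intro f
    unfold pmin
    apply Finset.analyticAt_fun_prod
    intro p _
    exact cp6_minor_analytic (W p) (hW p) (f p)
  · exact pmin_ne (rk V) _ hW0
  · intro z hz hz0
    refine ⟨fun p => uexp (cm c.N) z * W p (qq z), 1, one_ne_zero, fun p => ?_, ?_⟩
    · exact hF p z (lt_of_le_of_lt (hA ⟨p, rfl⟩) hz) hz0
    · rw [one_smul, pmin_mul]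

end MP2794d1.PC
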