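import Pool.Agent.Lib.MP_2794d1_ag.PC.CP2

/-!
CP3: the ranks are constant and there are local analytic lifts. `rank_const`: by `V.hol` (`HolAt`), near any `z₀` of the half
plane `V.F p z` is the range of `W z` with `r` independent columns, so its dimension is `r` (`finrank` of the range of an
injective map; `LinearIndependent` of `(W z)ᵀ` gives injectivity of `mulVecLin`) for all `z` near `z₀`: locally constant on the
half plane, which is convex, so preconnected (`IsPreconnected.induction₂'` with `P z z' : finrank (F p z) = finrank (F p z')`).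
`PL_lift`: for every `p : Fin (len V)` take `W p` from `V.hol (V.lo + p) z₀`; its number of columns is `rk V p` by `rank_const`
(evaluate at `z₀`; use `subst` or a cast `Fin r' = Fin (rk V p)`); `M z = pmin (rk V) (fun p => W p z)` is analytic (products
of determinants of analytic functions: `Matrix.det_apply`, `Finset.analyticAt_fun_prod`, `Finset.analyticAt_fun_sum`; compare
`C11_minor_analytic` in C11) and `PL V (len V) (rk V) z (M z)` with `c = 1` for all `z` near `z₀`.
-/

namespace MP2794d1.PC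

open Matrix Complex Filter Topology

theorem CP3_rank {n r : ℕ} (W : Matrix (Fin n) (Fin r) ℂ) (h : LinearIndependent ℂ Wᵀ) :
    Module.finrank ℂ (LinearMap.range W.mulVecLin) = r := by
  have h1 : W.rank = r := by
    rw [← Matrix.rank_transpose]
    have := LinearIndependent.rank_matrix (M := Wᵀ) h
    simpa using this
  exact h1

theorem rank_const {n : ℕ} (V : PolVHS n) (p : ℤ) (z z' : ℂ) (hz : 0 < z.im) (hz' : 0 < z'.im) :
    Module.finrank ℂ (V.F p z) = Module.finrank ℂ (V.F p z') := by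
  have hU : IsPreconnected {y : ℂ | 0 < y.im} := (convex_halfSpace_im_gt 0).isPreconnected
  have hf : ContinuousOn (fun y : ℂ => Module.finrank ℂ (V.F p y)) {y : ℂ | 0 < y.im} := by
    intro y hy
    obtain ⟨r, W, -, hev⟩ := V.hol p y hy
    have h1 : (fun _ : ℂ => r) =ᶠ[𝓝 y] fun y : ℂ => Module.finrank ℂ (V.F p y) := by
      filter_upwards [hev] with u hu
      rw [hu.2, CP3_rank _ hu.1]
    exact (continuousAt_const.congr h1).continuousWithinAt
  exact hU.constant hf hz hz'

theorem CP3_loc {n : ℕ} (V : PolVHS n) (z₀ : ℂ) (hz₀ : 0 < z₀.im) (p : Fin (len V)) :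
    ∃ W : ℂ → Matrix (Fin n) (Fin (rk V p)) ℂ, (∀ i j, AnalyticAt ℂ (fun z => W z i j) z₀) ∧
      ∀ᶠ z in 𝓝 z₀, LinearIndependent ℂ (W z)ᵀ ∧
        V.F (V.lo + ((p : ℕ) : ℤ)) z = LinearMap.range (W z).mulVecLin := by
  obtain ⟨r, W, han, hev⟩ := V.hol (V.lo + ((p : ℕ) : ℤ)) z₀ hz₀
  have h0 := hev.self_of_nhds
  have h1 : r = rk V p := by
    rw [← CP3_rank _ h0.1, ← h0.2]
    exact rank_const V _ z₀ Complex.I hz₀ (by simp)
  subst h1
  exact ⟨W, han, hev⟩

theorem CP3_minor {n r : ℕ} (W : ℂ → Matrix (Fin n) (Fin r) ℂ) (z₀ : ℂ)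
    (hW : ∀ i j, AnalyticAt ℂ (fun q => W q i j) z₀) (f : Fin r → Fin n) :
    AnalyticAt ℂ (fun q => minor (W q) f) z₀ := by
  have h1 : (fun q => minor (W q) f) =
      fun q => ∑ σ : Equiv.Perm (Fin r), ((Equiv.Perm.sign σ : ℤ) : ℂ) *
        ∏ i, W q (f (σ i)) i := by
    funext q
    unfold minor
    rw [Matrix.det_apply']
    rfl
  rw [h1]
  apply Finset.analyticAt_fun_sum
  intro σ _
  apply AnalyticAt.mul analyticAt_const
  apply Finset.analyticAt_fun_prod
  intro i _
  exact hW _ _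

theorem PL_lift {n : ℕ} (V : PolVHS n) (z₀ : ℂ) (hz₀ : 0 < z₀.im) :
    ∃ M : ℂ → PIdx n (len V) (rk V) → ℂ, (∀ i, AnalyticAt ℂ (fun z => M z i) z₀) ∧
      ∀ᶠ z in 𝓝 z₀, PL V (len V) (rk V) z (M z) := by
  choose W hW1 hW2 using CP3_loc V z₀ hz₀
  refine ⟨fun z => pmin (rk V) (fun p => W p z), fun f => ?_, ?_⟩
  · show AnalyticAt ℂ (fun z => ∏ p, minor (W p z) (f p)) z₀
    apply Finset.analyticAt_fun_prod
    intro p _
    exact CP3_minor (W p) z₀ (hW1 p) (f p)
  · filter_upwards [eventually_all.2 hW2] with z hz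
    exact ⟨fun p => W p z, 1, one_ne_zero, fun p => hz p, by rw [one_smul]⟩

end MP2794d1.PC
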