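import Pool.Agent.Lib.MP_2794d1_ag.PC.CP7
import Pool.Agent.Lib.MP_2794d1_ag.PC.CP3
import Pool.Agent.Lib.MP_2794d1_ag.B02
import Pool.Agent.Lib.MP_2794d1_ag.B03

/-!
CP8: CM points. Let `A` be as in `IsCM V z h`, `e` the eigenvalues from `exists_eigs` (B02) for `im A`, with eigenvectors
`w j`. `κ = (Fin n → Fin n)`, `ω f = ∏ j, w j (f j)`, which is not `0`. `E j f g = A (f j) (g j) * ∏ l ≠ j, δ_{f l, g l}`
(an integral matrix with row sums at most `n h`) satisfies `ic (E j) *ᵥ ω = e j • ω`; so `Rep ω (n * h) (e j)`, and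
`Rep ω (n * h + 1) (e j)`. For every `p : Fin (len V)` the space `V.F (lo + p) z` is stable under `im A`, so it is the range of
`P = aeval (im A) (∏ j ∈ S_p, (X - C (e j)))` (B02) and by `minor_range` (B03) there are `J_p`, `c_p ≠ 0` with
`(P.submatrix f J_p).det = c_p * minor (W p) f` where `W p` are the matrices of a vector of `PL` (they exist: a basis of
`V.F (lo + p) z`, of dimension `rk V p` by `rank_const`; or `PL_lift` at `z`, which also gives `PL V .. z (M z)` at `z` itself).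
`v = (∏ p, c_p) • pmin W` has `PL V .. z v` and `v f = ∏ p, (P_p.submatrix (f p) J_p).det` is `Rep ω (C h ^ C)` by
`Rep.polymat`, `Rep.det`, `Rep.prod` (CP7), for all `f`; this is `IntRep κ (C h ^ C) v`. `C` only depends on `n` and `rk V`.
-/

namespace MP2794d1.PC

open Matrix Complex Filter Topology

/-- the matrix `A` acting on the `j`-th coordinate -/
def CP8_E {n : ℕ} (A : Matrix (Fin n) (Fin n) ℤ) (j : Fin n) :
    Matrix (Fin n → Fin n) (Fin n → Fin n) ℤ :=
  Matrix.of fun f g => if (∀ l, l ≠ j → f l = g l) then A (f j) (g j) else 0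

theorem CP8_sum {n : ℕ} {R : Type} [AddCommMonoid R] (f : Fin n → Fin n) (j : Fin n)
    (F : (Fin n → Fin n) → R) :
    (∑ g : Fin n → Fin n, if (∀ l, l ≠ j → f l = g l) then F g else 0) =
      ∑ b : Fin n, F (Function.update f j b) := by
  rw [← Finset.sum_filter]
  refine Finset.sum_nbij' (fun g => g j) (fun b => Function.update f j b) ?_ ?_ ?_ ?_ ?_
  · intro g _
    exact Finset.mem_univ _
  · intro b _
    rw [Finset.mem_filter]
    refine ⟨Finset.mem_univ _, fun l hl => ?_⟩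
    rw [Function.update_of_ne hl]
  · intro g hg
    rw [Finset.mem_filter] at hg
    ext l
    by_cases hl : l = j
    · subst hl
      simp
    · rw [Function.update_of_ne hl, hg.2 l hl]
  · intro b _
    simp
  · intro g hg
    rw [Finset.mem_filter] at hg
    congr 1
    ext l
    by_cases hl : l = j
    · subst hl
      simp
    · rw [Function.update_of_ne hl, hg.2 l hl]

theorem eig_rep {n : ℕ} (A : Matrix (Fin n) (Fin n) ℤ) {h : ℝ} (hA : ∀ i j, |(A i j : ℝ)| ≤ h)
    (e : Fin n → ℂ) (he : ∀ j, ∃ w : Fin n → ℂ, w ≠ 0 ∧ im A *ᵥ w = e j • w) :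
    ∃ ω : (Fin n → Fin n) → ℂ, ω ≠ 0 ∧ ∀ j, Rep ω (n * h) (e j) := by
  choose w hw0 hw using he
  refine ⟨fun f => ∏ j, w j (f j), ?_, fun j => ⟨CP8_E A j, ?_, ?_⟩⟩
  · have h1 : ∀ j, ∃ i, w j i ≠ 0 := fun j => Function.ne_iff.1 (hw0 j)
    choose i hi using h1
    intro h0
    have h2 := congrFun h0 i
    simp only [Pi.zero_apply] at h2
    exact (Finset.prod_ne_zero_iff.2 (fun j _ => hi j)) h2
  · ext f
    have h1 : (ic (CP8_E A j) *ᵥ fun f => ∏ j, w j (f j)) f =
        ∑ g : Fin n → Fin n, (if (∀ l, l ≠ j → f l = g l) then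
          ((A (f j) (g j) : ℤ) : ℂ) * ∏ l, w l (g l) else 0) := by
      rw [Matrix.mulVec, dotProduct]
      refine Finset.sum_congr rfl (fun g _ => ?_)
      simp only [ic, CP8_E, Matrix.map_apply, Matrix.of_apply]
      split_ifs <;> simp
    rw [h1, CP8_sum f j (fun g => ((A (f j) (g j) : ℤ) : ℂ) * ∏ l, w l (g l))]
    have h2 : ∀ b : Fin n, ∏ l, w l (Function.update f j b l) =
        w j b * ∏ l ∈ Finset.univ.erase j, w l (f l) := by
      intro b
      rw [← Finset.mul_prod_erase Finset.univ _ (Finset.mem_univ j), Function.update_self]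
      congr 1
      refine Finset.prod_congr rfl (fun l hl => ?_)
      rw [Function.update_of_ne (Finset.ne_of_mem_erase hl)]
    simp only [h2, Function.update_self]
    have h3 : ∑ b : Fin n, ((A (f j) b : ℤ) : ℂ) * w j b = e j * w j (f j) := by
      have h4 := congrFun (hw j) (f j)
      rw [Pi.smul_apply, smul_eq_mul] at h4
      rw [← h4]
      rfl
    rw [Pi.smul_apply, smul_eq_mul, ← Finset.mul_prod_erase Finset.univ _ (Finset.mem_univ j),
      ← mul_assoc, ← h3, Finset.sum_mul]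
    refine Finset.sum_congr rfl (fun b _ => ?_)
    ring
  · intro f
    have h1 : ∑ g : Fin n → Fin n, |((CP8_E A j f g : ℤ) : ℝ)| =
        ∑ g : Fin n → Fin n, (if (∀ l, l ≠ j → f l = g l) then
          |((A (f j) (g j) : ℤ) : ℝ)| else 0) := by
      refine Finset.sum_congr rfl (fun g _ => ?_)
      simp only [CP8_E, Matrix.of_apply]
      split_ifs <;> simp
    rw [h1, CP8_sum f j (fun g => |((A (f j) (g j) : ℤ) : ℝ)|)]
    calc ∑ b : Fin n, |((A (f j) (Function.update f j b j) : ℤ) : ℝ)|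
        ≤ ∑ _b : Fin n, h := Finset.sum_le_sum (fun b _ => hA _ _)
      _ = n * h := by simp

theorem CP8_basis {n r : ℕ} (F : Submodule ℂ (Fin n → ℂ)) (hr : Module.finrank ℂ F = r) :
    ∃ W : Matrix (Fin n) (Fin r) ℂ, LinearIndependent ℂ Wᵀ ∧
      F = LinearMap.range W.mulVecLin := by
  let b := Module.finBasisOfFinrankEq ℂ F hr
  refine ⟨Matrix.of fun i j => (b j : Fin n → ℂ) i, ?_, ?_⟩
  · have h1 : LinearIndependent ℂ (fun j => (b j : Fin n → ℂ)) :=
      b.linearIndependent.map' F.subtype (Submodule.ker_subtype F)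
    exact h1
  · rw [Matrix.range_mulVecLin]
    have h1 : Set.range (Matrix.of fun i j => (b j : Fin n → ℂ) i).col =
        F.subtype '' Set.range b := by
      ext x
      constructor
      · rintro ⟨j, rfl⟩
        exact ⟨b j, ⟨j, rfl⟩, rfl⟩
      · rintro ⟨y, ⟨j, rfl⟩, rfl⟩
        exact ⟨j, rfl⟩
    rw [h1, ← Submodule.map_span, b.span_eq, Submodule.map_top, Submodule.range_subtype]

theorem CP8_rk {n : ℕ} (V : PolVHS n) (p : Fin (len V)) : rk V p ≤ n := by
  have := Submodule.finrank_le (V.F (V.lo + ((p : ℕ) : ℤ)) Complex.I)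
  rwa [Module.finrank_fin_fun] at this

theorem cm_rep {n : ℕ} (V : PolVHS n) : ∃ C : ℕ, 1 ≤ C ∧ ∀ z : ℂ, 0 < z.im → ∀ h : ℝ, 1 ≤ h →
    IsCM V z h → ∃ v, PL V (len V) (rk V) z v ∧ IntRep (Fin n → Fin n) (C * h ^ C) v := by
  set K : ℕ := (n.factorial * ((n + 1) * (n + 2)) ^ (n * n)) ^ len V with hK
  refine ⟨K + n * n * len V + 1, by omega, fun z hz h hh hcm => ?_⟩
  obtain ⟨A, hA, hsep, hst⟩ := hcm
  obtain ⟨e, he, hT⟩ := exists_eigs (im A) hsep
  obtain ⟨ω, hω0, hω⟩ := eig_rep A hA e he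
  have hT' : ∀ p : Fin (len V), ∃ T : Finset (Fin n),
      V.F (V.lo + ((p : ℕ) : ℤ)) z = LinearMap.range (Polynomial.aeval (im A)
          (∏ j ∈ T, (Polynomial.X - Polynomial.C (e j)))).mulVecLin :=
    fun p => hT _ (hst _)
  choose T hTp using hT'
  have hW' : ∀ p : Fin (len V), ∃ W : Matrix (Fin n) (Fin (rk V p)) ℂ,
      LinearIndependent ℂ Wᵀ ∧ V.F (V.lo + ((p : ℕ) : ℤ)) z = LinearMap.range W.mulVecLin := by
    intro p
    apply CP8_basis
    rw [rk]
    exact rank_const V _ z Complex.I hz (by simp)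
  choose W hWi hWr using hW'
  have hJ' : ∀ p : Fin (len V), ∃ (J : Fin (rk V p) → Fin n) (c : ℂ), c ≠ 0 ∧
      ∀ f : Fin (rk V p) → Fin n, ((Polynomial.aeval (im A)
          (∏ j ∈ T p, (Polynomial.X - Polynomial.C (e j))) :
            Matrix (Fin n) (Fin n) ℂ).submatrix f J).det = c * minor (W p) f :=
    fun p => minor_range _ (W p) (hWi p) ((hTp p).symm.trans (hWr p))
  choose J c hc hJ using hJ'
  refine ⟨(∏ p, c p) • pmin (rk V) W, ⟨W, ∏ p, c p, Finset.prod_ne_zero_iff.2 (fun p _ => hc p),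
    fun p => ⟨hWi p, hWr p⟩, rfl⟩, ?_⟩
  -- the constants
  have hn0 : (0 : ℝ) ≤ n := Nat.cast_nonneg n
  have hnh : 0 ≤ (n : ℝ) * h := by positivity
  set D : ℝ := ((n : ℝ) + 1) * (n + 2) * h with hD
  have hD1 : 1 ≤ D := by
    rw [hD]
    nlinarith
  have hD0 : 0 ≤ D := by linarith
  have hent : ∀ (p : Fin (len V)) (a b : Fin n), Rep ω (D ^ n)
      ((Polynomial.aeval (im A) (∏ j ∈ T p, (Polynomial.X - Polynomial.C (e j))) :
        Matrix (Fin n) (Fin n) ℂ) a b) := by
    intro p a b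
    have h1 := Rep.polymat (w := ω) A (h := h) (B := n * h + 1) hh (by linarith) hA e
      (fun j => (hω j).mono (by linarith)) (T p) a b
    refine h1.mono ?_
    have h2 : ((n : ℝ) + 1) * (h + (n * h + 1)) ≤ D := by
      rw [hD, mul_assoc]
      apply mul_le_mul_of_nonneg_left _ (by linarith)
      nlinarith
    have h3 : (0 : ℝ) ≤ ((n : ℝ) + 1) * (h + (n * h + 1)) := by positivity
    have h4 : (T p).card ≤ n := by
      have := Finset.card_le_univ (T p)
      rwa [Fintype.card_fin] at this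
    exact (pow_le_pow_left₀ h3 h2 _).trans (pow_le_pow_right₀ hD1 h4)
  have hdet : ∀ (p : Fin (len V)) (f : Fin (rk V p) → Fin n),
      Rep ω (n.factorial * (D ^ n) ^ n) (c p * minor (W p) f) := by
    intro p f
    rw [← hJ p f]
    have h1 := Rep.det (w := ω) (B := D ^ n) (by positivity)
      ((Polynomial.aeval (im A) (∏ j ∈ T p, (Polynomial.X - Polynomial.C (e j))) :
        Matrix (Fin n) (Fin n) ℂ).submatrix f (J p)) (fun i j => hent p _ _)
    refine h1.mono ?_
    have h2 : ((rk V p).factorial : ℝ) ≤ n.factorial := by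
      exact_mod_cast Nat.factorial_le (CP8_rk V p)
    have h3 : (D ^ n) ^ rk V p ≤ (D ^ n) ^ n :=
      pow_le_pow_right₀ (one_le_pow₀ hD1) (CP8_rk V p)
    exact mul_le_mul h2 h3 (by positivity) (by positivity)
  have hfin : ∀ f : PIdx n (len V) (rk V),
      Rep ω (((K + n * n * len V + 1 : ℕ) : ℝ) * h ^ (K + n * n * len V + 1))
        (((∏ p, c p) • pmin (rk V) W) f) := by
    intro f
    have h1 : ((∏ p, c p) • pmin (rk V) W) f = ∏ p, (c p * minor (W p) (f p)) := by
      rw [Pi.smul_apply, smul_eq_mul, pmin, Finset.prod_mul_distrib]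
    rw [h1]
    have h2 := Rep.prod (w := ω) (Finset.univ : Finset (Fin (len V)))
      (B := n.factorial * (D ^ n) ^ n) (x := fun p => c p * minor (W p) (f p)) (by positivity)
      (fun p _ => hdet p (f p))
    refine h2.mono ?_
    rw [Finset.card_univ, Fintype.card_fin]
    have h3 : ((n.factorial : ℝ) * (D ^ n) ^ n) ^ len V = (K : ℝ) * h ^ (n * n * len V) := by
      rw [hK, hD]
      push_cast
      rw [← pow_mul, mul_pow (((n : ℝ) + 1) * (n + 2)) h, ← mul_assoc, mul_pow _ (h ^ (n * n)),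
        ← pow_mul h]
    rw [h3]
    have h4 : h ^ (n * n * len V) ≤ h ^ (K + n * n * len V + 1) :=
      pow_le_pow_right₀ hh (by omega)
    have h5 : (K : ℝ) ≤ ((K + n * n * len V + 1 : ℕ) : ℝ) := by
      exact_mod_cast (by omega : K ≤ K + n * n * len V + 1)
    exact mul_le_mul h5 h4 (by positivity) (by positivity)
  choose X hX using hfin
  exact ⟨X, ω, hω0, fun i => (hX i).1, fun i => (hX i).2⟩

end MP2794d1.PC
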