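import Pool.Agent.Lib.MP_2794d1_ag.PC.CP4
import Pool.Agent.Lib.MP_2794d1_ag.PC.CP6
import Pool.Agent.Lib.MP_2794d1_ag.PC.CP8
import Pool.Agent.Lib.MP_2794d1_ag.PC.CP10

/-!
CP11: assembly of the datum.
-/

namespace MP2794d1.PC

open Matrix Complex Filter Topology

theorem exists_datum {n : ℕ} (V : PolVHS n) (c : Cusp V) :
    ∃ (ι : Type) (_ : Fintype ι) (_ : DecidableEq ι) (D : Datum V.grp ι) (κ : Type)
      (_ : Fintype κ) (C : ℕ), 1 ≤ C ∧
      (∀ z : ℂ, 0 < z.im → ∀ h : ℝ, 1 ≤ h → IsCM V z h →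
        ∃ v, D.L z v ∧ IntRep κ (C * h ^ C) v) ∧
      (∀ z : ℂ, 0 < z.im → ∀ v, D.L z v → ∀ g₁ g₂ : V.grp,
        (∀ a b : ℂ, a • cm (c.conj g₁) + b • cm (c.conj g₂) ∈ FEnd (fun p => V.F p z) 0 →
          a = 0 ∧ b = 0) → Indep D g₁ g₂ v) := by
  classical
  obtain ⟨G, hG⟩ := exists_ptGroup (rk V) c.N c.nil
  obtain ⟨C, hC1, hC⟩ := cm_rep V
  refine ⟨PIdx n (len V) (rk V), inferInstance, inferInstance,
    { R := rhoZ V (rk V) (ptZ_one _) (ptZ_mul _)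
      T := c.T
      T_eq := c.T_eq
      G := G
      G_one := ?_
      L := PL V (len V) (rk V)
      L_ne := fun z v _ h => PL_ne V _ _ z v h
      L_smul := fun z v a _ ha h => PL_smul V _ _ z v a ha h
      L_uniq := fun z v v' _ h h' => PL_uniq V _ _ z v v' h h'
      L_lift := PL_lift V
      L_equiv := ?_
      L_cusp := ?_ }, Fin n → Fin n, inferInstance, C, hC1, hC, ?_⟩
  · show ic (ptZ (rk V) (V.rho c.T : Matrix (Fin n) (Fin n) ℤ)) = G.E 1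
    rw [ic_ptZ, hG, c.exp_eq]
  · intro g z v hz h
    show PL V (len V) (rk V) (mob g z)
      (ic (ptZ (rk V) (V.rho g : Matrix (Fin n) (Fin n) ℤ)) *ᵥ v)
    rw [ic_ptZ]
    exact PL_equiv V _ _ g z hz v h
  · obtain ⟨a, M, hM, hM0, h⟩ := PL_cusp V c
    refine ⟨a, M, hM, hM0, fun z hz hz0 => ?_⟩
    rw [hG]
    exact h z hz hz0
  · intro z hz v hv g₁ g₂ h
    exact indep_of V c _ (fun g => rfl) hG z hz v hv g₁ g₂ h

end MP2794d1.PC
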