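import Pool.Agent.Lib.MP_2794d1_ag.PC.CA3
import Pool.Agent.Lib.MP_2794d1_ag.F07

/-!
CA6: `step_equiv`. `mob g` is continuous at `z₁` (`mob_analytic` of F07; import it), so there is `δ₂ > 0` with
`mob g z ∈ ball (mob g z₁) δ₁` for `z ∈ ball z₁ δ₂`, `0 < z.im`. Let `K ≥ 1` with `‖ic (D.R g) *ᵥ v‖ ≤ K * ‖v‖` for all `v`
(sup norm: `K = 1 + card ι * max |entries|`, or `Matrix.mulVec` as a continuous linear map). For `Good D d (mob g z₁) δ₁ ε B F`: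
if `z ∈ ball z₁ δ₂`, `0 < z.im`, `D.L z v`, then `D.L (mob g z) (ic (D.R g) *ᵥ v)` (`D.L_equiv`), `0 < (mob g z).im`
(`mob_im_pos`), so `‖F (ic (D.R g) *ᵥ v)‖ ≤ ε * ‖ic (D.R g) *ᵥ v‖ ^ d ≤ ε * K ^ d * ‖v‖ ^ d`. Same for the bound `B`.
With `θ = 1`: `ε ^ 1 * B ^ 0 = ε` (also for `B = 0`: `0 ^ 0 = 1`). `step_lin` is the common part: a matrix of norm `≤ K`.
-/

namespace MP2794d1.PC

open Matrix Complex Filter Topology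

variable {Γ : Subgroup (Matrix.SpecialLinearGroup (Fin 2) ℝ)} {ι : Type} [Fintype ι]
  [DecidableEq ι]

theorem form_comp {d : ℕ} {B : ℝ} {F : (ι → ℂ) → ℂ} (h : Form d B F) (hB : 0 ≤ B)
    (A : Matrix ι ι ℂ) (K : ℝ) (hK : ∀ v, ‖A *ᵥ v‖ ≤ K * ‖v‖) :
    Form d (K ^ d * B) (fun v => F (A *ᵥ v)) := by
  refine ⟨?_, ?_, ?_⟩
  · intro c v
    rw [Matrix.mulVec_smul, h.hom]
  · intro v
    calc ‖F (A *ᵥ v)‖ ≤ B * ‖A *ᵥ v‖ ^ d := h.bd _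
      _ ≤ B * (K * ‖v‖) ^ d := by gcongr; exact hK v
      _ = K ^ d * B * ‖v‖ ^ d := by rw [mul_pow]; ring
  · have h1 : Differentiable ℂ (fun v : ι → ℂ => A *ᵥ v) :=
      (LinearMap.toContinuousLinearMap A.mulVecLin).differentiable
    exact h.diff.comp h1

theorem exists_norm (A : Matrix ι ι ℂ) : ∃ K : ℝ, 1 ≤ K ∧ ∀ v : ι → ℂ, ‖A *ᵥ v‖ ≤ K * ‖v‖ := by
  refine ⟨1 + ‖LinearMap.toContinuousLinearMap A.mulVecLin‖, by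
    linarith [norm_nonneg (LinearMap.toContinuousLinearMap A.mulVecLin)], fun v => ?_⟩
  have h := (LinearMap.toContinuousLinearMap A.mulVecLin).le_opNorm v
  have h2 : ‖A *ᵥ v‖ ≤ ‖LinearMap.toContinuousLinearMap A.mulVecLin‖ * ‖v‖ := h
  linarith [norm_nonneg v]

theorem step_equiv (D : Datum Γ ι) (g : Γ) (z₁ : ℂ) (h₁ : 0 < z₁.im) (δ₁ : ℝ) (hδ₁ : 0 < δ₁) :
    ∃ δ₂ : ℝ, 0 < δ₂ ∧ ∃ X : ℝ, 1 ≤ X ∧ Step D (ic (D.R g)) (mob g z₁) δ₁ z₁ δ₂ 1 X := by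
  have hc : ContinuousAt (fun z => mob (g : Matrix.SpecialLinearGroup (Fin 2) ℝ) z) z₁ :=
    (mob_analytic _ z₁ h₁).1.continuousAt
  obtain ⟨δ₂, hδ₂, hball⟩ := Metric.continuousAt_iff.mp hc δ₁ hδ₁
  obtain ⟨K, hK1, hK⟩ := exists_norm (ic (D.R g))
  refine ⟨δ₂, hδ₂, K, hK1, ?_⟩
  intro d ε B F hF
  have hB : 0 ≤ B := hF.nonneg.trans hF.le
  have hKd : 0 ≤ K ^ d := by positivity
  rw [sub_self, Real.rpow_zero, Real.rpow_one, mul_one]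
  refine ⟨form_comp hF.form hB _ K hK, mul_nonneg hKd hF.nonneg,
    mul_le_mul_of_nonneg_left hF.le hKd, ?_⟩
  intro z hz hzim v hv
  have h2 := D.L_equiv g z v hzim hv
  have h3 : 0 < (mob (g : Matrix.SpecialLinearGroup (Fin 2) ℝ) z).im := mob_im_pos _ z hzim
  have h4 := hF.small _ (hball hz) h3 _ h2
  have hε := hF.nonneg
  calc ‖F (ic (D.R g) *ᵥ v)‖ ≤ ε * ‖ic (D.R g) *ᵥ v‖ ^ d := h4
    _ ≤ ε * (K * ‖v‖) ^ d := by gcongr; exact hK v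
    _ = K ^ d * ε * ‖v‖ ^ d := by rw [mul_pow]; ring

end MP2794d1.PC
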