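import Pool.Agent.Lib.MP_2794d1_ag.PC.Defs

/-!
CA3: algebra of `Step`s. `interp_le`: for `0 ≤ ε ≤ B`: `ε ^ θ * B ^ (1 - θ) ≤ B`, and it is antitone in `θ`
(`ε ^ θ = ε ^ θ' * ε ^ (θ - θ') ≤ ε ^ θ' * B ^ (θ - θ')`; the case `B = 0` forces `ε = 0`, both sides are `0`).
`step_comp`: apply the two steps; `F (A *ᵥ (A' *ᵥ v)) = F ((A * A') *ᵥ v)` and, for `B > 0`, with
`ε₁ = X ^ d * (ε ^ θ * B ^ (1 - θ))`, `B₁ = X ^ d * B`: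
`X' ^ d * (ε₁ ^ θ' * B₁ ^ (1 - θ')) = (X * X') ^ d * (ε ^ (θ * θ') * B ^ (1 - θ * θ'))` (`Real.mul_rpow`, `Real.rpow_mul`,
`Real.rpow_add`); for `B = 0` all terms are `0`. `step_mono`, `step_start`: monotonicity of all the fields of `Good`.
-/

namespace MP2794d1.PC

open Matrix Complex Filter Topology

variable {Γ : Subgroup (Matrix.SpecialLinearGroup (Fin 2) ℝ)} {ι : Type} [Fintype ι]
  [DecidableEq ι]

theorem interp_anti {ε B θ θ' : ℝ} (hε : 0 ≤ ε) (hεB : ε ≤ B) (hθ' : 0 < θ') (h : θ' ≤ θ)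
    (hθ1 : θ ≤ 1) : ε ^ θ * B ^ (1 - θ) ≤ ε ^ θ' * B ^ (1 - θ') := by
  rcases hε.eq_or_lt with h0 | h0
  · subst h0
    rw [Real.zero_rpow (by linarith : θ ≠ 0), Real.zero_rpow hθ'.ne']
    simp
  · have hB : 0 < B := lt_of_lt_of_le h0 hεB
    have e1 : ε ^ θ = ε ^ θ' * ε ^ (θ - θ') := by rw [← Real.rpow_add h0]; congr 1; ring
    have e2 : B ^ (1 - θ') = B ^ (θ - θ') * B ^ (1 - θ) := by
      rw [← Real.rpow_add hB]; congr 1; ring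
    have e3 : ε ^ (θ - θ') ≤ B ^ (θ - θ') := Real.rpow_le_rpow hε hεB (by linarith)
    rw [e1, e2, mul_assoc]
    have h1 : 0 ≤ B ^ (1 - θ) := Real.rpow_nonneg hB.le _
    have h2 : 0 ≤ ε ^ θ' := Real.rpow_nonneg hε _
    exact mul_le_mul_of_nonneg_left (mul_le_mul_of_nonneg_right e3 h1) h2

theorem interp_le {ε B θ : ℝ} (hε : 0 ≤ ε) (hεB : ε ≤ B) (hθ : 0 < θ) (hθ1 : θ ≤ 1) :
    ε ^ θ * B ^ (1 - θ) ≤ B := by
  have hB : 0 ≤ B := hε.trans hεB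
  rcases hB.eq_or_lt with h0 | h0
  · subst h0
    have : ε = 0 := le_antisymm hεB hε
    rw [this, Real.zero_rpow hθ.ne', zero_mul]
  · calc ε ^ θ * B ^ (1 - θ) ≤ B ^ θ * B ^ (1 - θ) := by
          have h1 : 0 ≤ B ^ (1 - θ) := Real.rpow_nonneg hB _
          exact mul_le_mul_of_nonneg_right (Real.rpow_le_rpow hε hεB hθ.le) h1
      _ = B := by rw [← Real.rpow_add h0, add_sub_cancel, Real.rpow_one]

private theorem CA3_comp {ε B θ θ' X X' : ℝ} (d : ℕ) (hε : 0 ≤ ε) (hεB : ε ≤ B) (hX : 1 ≤ X)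
    (hθ : 0 < θ) (hθ' : 0 < θ') :
    X' ^ d * ((X ^ d * (ε ^ θ * B ^ (1 - θ))) ^ θ' * (X ^ d * B) ^ (1 - θ')) =
      (X * X') ^ d * (ε ^ (θ * θ') * B ^ (1 - θ * θ')) := by
  have hXd : 0 < X ^ d := by positivity
  have hB : 0 ≤ B := hε.trans hεB
  rcases hε.eq_or_lt with h0 | h0
  · subst h0
    rw [Real.zero_rpow hθ.ne', zero_mul, mul_zero, Real.zero_rpow hθ'.ne',
      Real.zero_rpow (mul_pos hθ hθ').ne']
    simp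
  · have hB0 : 0 < B := lt_of_lt_of_le h0 hεB
    have p1 : 0 < ε ^ θ := Real.rpow_pos_of_pos h0 _
    have p2 : 0 < B ^ (1 - θ) := Real.rpow_pos_of_pos hB0 _
    rw [Real.mul_rpow hXd.le (by positivity), Real.mul_rpow p1.le p2.le,
      Real.mul_rpow hXd.le hB, ← Real.rpow_mul hε, ← Real.rpow_mul hB]
    have e1 : (X ^ d) ^ θ' * (X ^ d) ^ (1 - θ') = X ^ d := by
      rw [← Real.rpow_add hXd, add_sub_cancel, Real.rpow_one]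
    have e2 : B ^ ((1 - θ) * θ') * B ^ (1 - θ') = B ^ (1 - θ * θ') := by
      rw [← Real.rpow_add hB0]; congr 1; ring
    calc X' ^ d * ((X ^ d) ^ θ' * (ε ^ (θ * θ') * B ^ ((1 - θ) * θ')) *
          ((X ^ d) ^ (1 - θ') * B ^ (1 - θ')))
        = X' ^ d * ((X ^ d) ^ θ' * (X ^ d) ^ (1 - θ')) * (ε ^ (θ * θ') *
            (B ^ ((1 - θ) * θ') * B ^ (1 - θ'))) := by ring
      _ = (X * X') ^ d * (ε ^ (θ * θ') * B ^ (1 - θ * θ')) := by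
          rw [e1, e2, mul_pow]; ring

theorem step_comp (D : Datum Γ ι) {A A' : Matrix ι ι ℂ} {z₁ z₂ z₃ : ℂ}
    {δ₁ δ₂ δ₃ θ θ' X X' : ℝ} (hX : 1 ≤ X) (hX' : 1 ≤ X') (hθ : 0 < θ) (hθ1 : θ ≤ 1) (hθ' : 0 < θ')
    (hθ1' : θ' ≤ 1) (h : Step D A z₁ δ₁ z₂ δ₂ θ X) (h' : Step D A' z₂ δ₂ z₃ δ₃ θ' X') :
    Step D (A * A') z₁ δ₁ z₃ δ₃ (θ * θ') (X * X') := by
  intro d ε B F hF
  have h1 := h d ε B F hF
  have h2 := h' d _ _ _ h1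
  have e1 : (fun v => F (A *ᵥ (A' *ᵥ v))) = fun v => F ((A * A') *ᵥ v) := by
    funext v; rw [Matrix.mulVec_mulVec]
  rw [CA3_comp d hF.nonneg hF.le hX hθ hθ'] at h2
  have e2 : X' ^ d * (X ^ d * B) = (X * X') ^ d * B := by rw [mul_pow]; ring
  rw [e2] at h2
  simp only [e1] at h2
  exact h2

/-- Weakening of `Good`. -/
theorem CA3_mono (D : Datum Γ ι) {d : ℕ} {z₀ : ℂ} {δ δ' ε ε' B B' : ℝ} {F : (ι → ℂ) → ℂ}
    (h : Good D d z₀ δ ε B F) (hδ : δ' ≤ δ) (hε : ε ≤ ε') (hB : B ≤ B') (hεB : ε' ≤ B') :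
    Good D d z₀ δ' ε' B' F := by
  refine ⟨⟨h.form.hom, fun v => (h.form.bd v).trans ?_, h.form.diff⟩, h.nonneg.trans hε, hεB, ?_⟩
  · gcongr
  · intro z hz hz0 v hv
    refine (h.small z (Metric.ball_subset_ball hδ hz) hz0 v hv).trans ?_
    gcongr

theorem step_mono (D : Datum Γ ι) {A : Matrix ι ι ℂ} {z₁ z₂ : ℂ} {δ₁ δ₂ δ₂' θ θ' X X' : ℝ}
    (hX : 1 ≤ X) (hXX : X ≤ X') (hθ' : 0 < θ') (hθθ : θ' ≤ θ) (hθ1 : θ ≤ 1) (hδ : δ₂' ≤ δ₂)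
    (h : Step D A z₁ δ₁ z₂ δ₂ θ X) : Step D A z₁ δ₁ z₂ δ₂' θ' X' := by
  intro d ε B F hF
  have hB : 0 ≤ B := hF.nonneg.trans hF.le
  have hX0 : 0 ≤ X' := by linarith
  have hXd : X ^ d ≤ X' ^ d := by gcongr
  have h1 := interp_anti hF.nonneg hF.le hθ' hθθ hθ1
  have h2 : 0 ≤ ε ^ θ' * B ^ (1 - θ') :=
    mul_nonneg (Real.rpow_nonneg hF.nonneg _) (Real.rpow_nonneg hB _)
  refine CA3_mono D (h d ε B F hF) hδ ?_ ?_ ?_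
  · exact mul_le_mul hXd h1 (mul_nonneg (Real.rpow_nonneg hF.nonneg _) (Real.rpow_nonneg hB _))
      (by positivity)
  · gcongr
  · have h3 := interp_le hF.nonneg hF.le hθ' (hθθ.trans hθ1)
    gcongr

theorem step_start (D : Datum Γ ι) {A : Matrix ι ι ℂ} {z₁ z₂ : ℂ} {δ₁ δ₁' δ₂ θ X : ℝ}
    (hδ : δ₁ ≤ δ₁') (h : Step D A z₁ δ₁ z₂ δ₂ θ X) : Step D A z₁ δ₁' z₂ δ₂ θ X := by
  intro d ε B F hF
  exact h d ε B F (CA3_mono D hF hδ le_rfl le_rfl hF.le)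

end MP2794d1.PC
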