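import Pool.Agent.Lib.MP_2794d1_ag.PC.CA1
import Pool.Agent.Lib.MP_2794d1_ag.PC.CA3

/-!
CA4: `local_step`. Let `M` be a lift near `z₀` (`D.L_lift`). Choose `ρ₀ > 0` such that on the closed ball of radius `ρ₀` around
`z₀`: `0 < im`, all coordinates of `M` are analytic, `D.L z (M z)`, and `m ≤ ‖M z‖ ≤ M'` with `0 < m` (`M z₀ ≠ 0` by `D.L_ne`,
continuity). Put `ρ = ρ₀ / 8`. Let `z₁ ∈ ball z₀ ρ`, `0 < δ₁`, and (`step_start`) assume `δ₁ ≤ ρ₀ / 8`. For `Good D d z₁ δ₁ ε B F`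
the function `f z = F (M z)` is differentiable on `ball z₁ (ρ₀ / 2)`, `‖f‖ ≤ B * M' ^ d` there, and `‖f‖ ≤ ε * M' ^ d` on
`ball z₁ δ₁`. Three circles (CA1 applied to `w ↦ f (z₁ + (ρ₀ / 2) w)`, `r = 2 δ₁ / ρ₀ ≤ 1/4`, and `‖w‖ ≤ 1/2` for
`z₁ + (ρ₀/2) w ∈ ball z₀ ρ`, since `‖z - z₁‖ < 2 ρ = ρ₀ / 4`): with `θ = log 2 / log (1 / r)` we get
`‖f z‖ ≤ ε ^ θ * B ^ (1 - θ) * M' ^ d` on `ball z₀ ρ`. If `D.L z v` then `v = c • M z` (`D.L_uniq`),
`‖F v‖ = ‖c‖ ^ d * ‖f z‖` and `‖c‖ = ‖v‖ / ‖M z‖ ≤ ‖v‖ / m`. So `X = M' / m ≥ 1` works.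
The other fields of `Good`: `F ((1 : Matrix) *ᵥ v) = F v`, `X ^ d ≥ 1`, CA3 `interp_le`.
-/

namespace MP2794d1.PC

open Matrix Complex Filter Topology

variable {Γ : Subgroup (Matrix.SpecialLinearGroup (Fin 2) ℝ)} {ι : Type} [Fintype ι]
  [DecidableEq ι]

/-- The last step, from a bound along a lift to a bound for all vectors of the line. -/
theorem CA4_fin {d : ℕ} {F : (ι → ℂ) → ℂ} {B m M' Y : ℝ} (hF : Form d B F) (hm : 0 < m)
    (v w : ι → ℂ) (c : ℂ) (hv : v = c • w) (hw : m ≤ ‖w‖) (hY : 0 ≤ Y)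
    (h : ‖F w‖ ≤ M' ^ d * Y) (hM' : 0 ≤ M') : ‖F v‖ ≤ (M' / m) ^ d * Y * ‖v‖ ^ d := by
  have h1 : ‖c‖ ≤ ‖v‖ / m := by
    rw [le_div_iff₀ hm, hv, norm_smul]
    gcongr
  have h2 : ‖F v‖ = ‖c‖ ^ d * ‖F w‖ := by rw [hv, hF.hom, norm_mul, norm_pow]
  rw [h2]
  calc ‖c‖ ^ d * ‖F w‖ ≤ (‖v‖ / m) ^ d * (M' ^ d * Y) := by gcongr
    _ = (M' / m) ^ d * Y * ‖v‖ ^ d := by rw [div_pow, div_pow]; ring

theorem CA4_rpow {ε B K θ : ℝ} (hε : 0 ≤ ε) (hB : 0 ≤ B) (hK : 0 < K) :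
    (ε * K) ^ θ * (B * K) ^ (1 - θ) = K * (ε ^ θ * B ^ (1 - θ)) := by
  rw [Real.mul_rpow hε hK.le, Real.mul_rpow hB hK.le]
  have e1 : K ^ θ * K ^ (1 - θ) = K := by
    rw [← Real.rpow_add hK, add_sub_cancel, Real.rpow_one]
  calc ε ^ θ * K ^ θ * (B ^ (1 - θ) * K ^ (1 - θ)) =
        (K ^ θ * K ^ (1 - θ)) * (ε ^ θ * B ^ (1 - θ)) := by ring
    _ = K * (ε ^ θ * B ^ (1 - θ)) := by rw [e1]

theorem local_step (D : Datum Γ ι) (z₀ : ℂ) (h₀ : 0 < z₀.im) :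
    ∃ ρ : ℝ, 0 < ρ ∧ ∀ z₁ ∈ Metric.ball z₀ ρ, ∀ δ₁ : ℝ, 0 < δ₁ →
      ∃ θ X : ℝ, 0 < θ ∧ θ ≤ 1 ∧ 1 ≤ X ∧ Step D 1 z₁ δ₁ z₀ ρ θ X := by
  obtain ⟨M, hMa, hML⟩ := D.L_lift z₀ h₀
  have hM0 : M z₀ ≠ 0 := D.L_ne z₀ _ h₀ hML.self_of_nhds
  have hn0 : 0 < ‖M z₀‖ := norm_pos_iff.mpr hM0
  have hMc : ContinuousAt M z₀ := continuousAt_pi.2 fun i => (hMa i).continuousAt
  set m : ℝ := ‖M z₀‖ / 2 with hm
  set M' : ℝ := ‖M z₀‖ + 1 with hM'
  have hm0 : 0 < m := by positivity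
  have hM'0 : 0 < M' := by positivity
  have hE1 : ∀ᶠ z in 𝓝 z₀, m < ‖M z‖ := hMc.norm.eventually (lt_mem_nhds (by linarith))
  have hE2 : ∀ᶠ z in 𝓝 z₀, ‖M z‖ < M' := hMc.norm.eventually (gt_mem_nhds (by linarith))
  have hE3 : ∀ᶠ z : ℂ in 𝓝 z₀, 0 < z.im := Complex.continuous_im.continuousAt.eventually
    (lt_mem_nhds h₀)
  have hE4 : ∀ᶠ z in 𝓝 z₀, ∀ i, AnalyticAt ℂ (fun z => M z i) z := by
    rw [Filter.eventually_all]
    exact fun i => (hMa i).eventually_analyticAt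
  obtain ⟨ρ₀, hρ₀, hall⟩ := Metric.eventually_nhds_iff_ball.mp
    (hE1.and (hE2.and (hE3.and (hE4.and hML))))
  refine ⟨ρ₀ / 8, by positivity, ?_⟩
  intro z₁ hz₁ δ₁' hδ₁'
  set δ₁ : ℝ := min δ₁' (ρ₀ / 8) with hδ
  have hδ₁ : 0 < δ₁ := lt_min hδ₁' (by positivity)
  have hδ₁8 : δ₁ ≤ ρ₀ / 8 := min_le_right _ _
  set r : ℝ := δ₁ / (ρ₀ / 2) with hr
  have hr0 : 0 < r := by positivity
  have hr4 : r ≤ 1 / 4 := by
    rw [hr, div_le_iff₀ (by positivity)]; linarith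
  have hlog2 : 0 < Real.log 2 := Real.log_pos (by norm_num)
  have hlogr : Real.log 2 < Real.log (1 / r) := by
    refine Real.log_lt_log (by norm_num) ?_
    rw [lt_div_iff₀ hr0]; linarith
  have hlogr0 : 0 < Real.log (1 / r) := hlog2.trans hlogr
  set θ : ℝ := Real.log 2 / Real.log (1 / r) with hθ
  have hθ0 : 0 < θ := by positivity
  have hθ1 : θ ≤ 1 := by rw [hθ, div_le_one hlogr0]; exact hlogr.le
  have hX : 1 ≤ M' / m := by rw [le_div_iff₀ hm0]; linarith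
  refine ⟨θ, M' / m, hθ0, hθ1, hX, step_start D (min_le_left _ _ : δ₁ ≤ δ₁') ?_⟩
  intro d ε B F hF
  have hB : 0 ≤ B := hF.nonneg.trans hF.le
  have hXd : 1 ≤ (M' / m) ^ d := one_le_pow₀ hX
  have hI0 : 0 ≤ ε ^ θ * B ^ (1 - θ) :=
    mul_nonneg (Real.rpow_nonneg hF.nonneg _) (Real.rpow_nonneg hB _)
  have hI := interp_le hF.nonneg hF.le hθ0 hθ1
  simp only [Matrix.one_mulVec]
  refine ⟨⟨hF.form.hom, fun v => (hF.form.bd v).trans ?_, hF.form.diff⟩, by positivity, ?_, ?_⟩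
  · have : B ≤ (M' / m) ^ d * B := le_mul_of_one_le_left hB hXd
    gcongr
  · gcongr
  · intro z hz hzim v hv
    rw [Metric.mem_ball] at hz hz₁
    have hzz : z ∈ Metric.ball z₀ ρ₀ := by rw [Metric.mem_ball]; linarith
    obtain ⟨a1, a2, a3, a4, a5⟩ := hall z hzz
    obtain ⟨c, hc⟩ := D.L_uniq z (M z) v hzim a5 hv
    refine CA4_fin hF.form hm0 v (M z) c hc a1.le hI0 ?_ hM'0.le
    -- three circles
    let f : ℂ → ℂ := fun w => F (M (z₁ + (ρ₀ / 2 : ℝ) * w))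
    have hin : ∀ w ∈ Metric.ball (0 : ℂ) 1, z₁ + ((ρ₀ / 2 : ℝ) : ℂ) * w ∈ Metric.ball z₀ ρ₀ := by
      intro w hw
      rw [Metric.mem_ball, dist_zero_right] at hw
      rw [Metric.mem_ball]
      have h1 : dist (z₁ + ((ρ₀ / 2 : ℝ) : ℂ) * w) z₁ ≤ ρ₀ / 2 := by
        rw [dist_eq_norm, add_sub_cancel_left, norm_mul, Complex.norm_real, Real.norm_eq_abs,
          abs_of_pos (by positivity)]
        nlinarith
      linarith [dist_triangle (z₁ + ((ρ₀ / 2 : ℝ) : ℂ) * w) z₁ z₀]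
    have hfd : DifferentiableOn ℂ f (Metric.ball 0 1) := by
      intro w hw
      obtain ⟨-, -, -, b4, -⟩ := hall _ (hin w hw)
      have h1 : DifferentiableAt ℂ M (z₁ + ((ρ₀ / 2 : ℝ) : ℂ) * w) :=
        differentiableAt_pi.2 fun i => (b4 i).differentiableAt
      have h2 : DifferentiableAt ℂ (fun w : ℂ => z₁ + ((ρ₀ / 2 : ℝ) : ℂ) * w) w := by fun_prop
      have h3 : DifferentiableAt ℂ (fun w : ℂ => M (z₁ + ((ρ₀ / 2 : ℝ) : ℂ) * w)) w :=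
        DifferentiableAt.comp w h1 h2
      exact ((hF.form.diff _).comp w h3).differentiableWithinAt
    have key := three_circles r hr0 (by linarith) f hfd (B * M' ^ d) (ε * M' ^ d)
      (mul_nonneg hF.nonneg (by positivity)) (by have := hF.le; gcongr)
      (by
        intro w hw
        obtain ⟨b1, b2, b3, b4, b5⟩ := hall _ (hin w hw)
        refine (hF.form.bd _).trans ?_
        gcongr)
      (by
        intro w hw
        have hw1 : w ∈ Metric.ball (0 : ℂ) 1 := Metric.ball_subset_ball (by linarith) hw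
        obtain ⟨b1, b2, b3, b4, b5⟩ := hall _ (hin w hw1)
        have hmem : z₁ + ((ρ₀ / 2 : ℝ) : ℂ) * w ∈ Metric.ball z₁ δ₁ := by
          rw [Metric.mem_ball, dist_zero_right] at hw
          rw [Metric.mem_ball, dist_eq_norm, add_sub_cancel_left, norm_mul, Complex.norm_real,
            Real.norm_eq_abs, abs_of_pos (by positivity)]
          have h1 : ρ₀ / 2 * ‖w‖ < ρ₀ / 2 * r := by gcongr
          have h2 : ρ₀ / 2 * r = δ₁ := by rw [hr]; field_simp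
          linarith
        refine (hF.small _ hmem b3 _ b5).trans ?_
        have := hF.nonneg
        gcongr)
      ((z - z₁) / (ρ₀ / 2 : ℝ)) (by
        rw [Metric.mem_ball, dist_zero_right, norm_div, Complex.norm_real, Real.norm_eq_abs,
          abs_of_pos (by positivity), div_lt_one (by positivity), ← dist_eq_norm]
        linarith [dist_triangle_right z z₁ z₀]) θ hθ0 hθ1 (by
        intro hw
        have h1 : θ * Real.log (1 / r) = Real.log 2 := by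
          rw [hθ]; field_simp
        rw [h1]
        have hpos : 0 < ‖(z - z₁) / ((ρ₀ / 2 : ℝ) : ℂ)‖ := norm_pos_iff.mpr hw
        refine Real.log_le_log (by norm_num) ?_
        rw [le_div_iff₀ hpos, norm_div, Complex.norm_real, Real.norm_eq_abs,
          abs_of_pos (by positivity), ← dist_eq_norm]
        have h2 : dist z z₁ ≤ ρ₀ / 4 := by linarith [dist_triangle_right z z₁ z₀]
        rw [← mul_div_assoc, div_le_one (by positivity)]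
        linarith)
    have e1 : f ((z - z₁) / (ρ₀ / 2 : ℝ)) = F (M z) := by
      have h1 : ((ρ₀ / 2 : ℝ) : ℂ) ≠ 0 := by
        exact_mod_cast (by positivity : (ρ₀ / 2 : ℝ) ≠ 0)
      simp only [f]
      rw [mul_div_cancel₀ _ h1]
      congr 2; ring
    rw [e1, CA4_rpow hF.nonneg hB (by positivity)] at key
    exact key

end MP2794d1.PC
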