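import Pool.Agent.Lib.MP_2794d1_ag.PC.CB1
import Pool.Agent.Lib.MP_2794d1_ag.A05
import Pool.Agent.Lib.MP_2794d1_ag.A06

/-!
CB2: Liouville inequality. `liouville_hp`: take `X, w` from `IntRep`; `ic (hpM k c (X ∘ α)) *ᵥ w = hp k c (v ∘ α) • w` (CB1),
entries of `hpM` are bounded by its row sums, so `A06_mat` with `B := (k + 1) ^ 2 * A * B ^ (2 k)` applies.
`IntRep.mul`: for `R` integral, `(ic R *ᵥ v) i` is the eigenvalue of `∑ j, R i j • X j`, row sums `≤ ∑ j ρ B = card ι * ρ * B`.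
`IntRep.norm_le`: `A05_eig` (entries of `ic (X i)` are bounded by `B`).
`hp_smul`: homogeneity, each monomial has degree `i + j + (2 k - i - j) = 2 k`. `hp_le`: `(k + 1) ^ 2` monomials.
`hp_form`: `v ↦ hp k c (v ∘ α)` is a form of degree `2 k` with bound `(k + 1) ^ 2 * A` (`‖v (α i)‖ ≤ ‖v‖`; differentiable as a
polynomial: `fun_prop` or `Differentiable.sum`, `differentiable_pi`).
-/

namespace MP2794d1.PC

open Matrix Complex Filter Topology

theorem CB2_entry {κ : Type} [Fintype κ] (X : Matrix κ κ ℤ) {B : ℝ}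
    (hX : ∀ a, ∑ b, |(X a b : ℝ)| ≤ B) (a b : κ) : |(X a b : ℝ)| ≤ B :=
  (Finset.single_le_sum (f := fun b => |(X a b : ℝ)|) (fun _ _ => abs_nonneg _)
    (Finset.mem_univ b)).trans (hX a)

theorem liouville_hp {κ ι : Type} [Fintype κ] (k : ℕ) (c : Fin (k + 1) → Fin (k + 1) → ℤ)
    {A B : ℝ} (hA : 0 ≤ A) (hB : 0 ≤ B) (hc : ∀ i j, |(c i j : ℝ)| ≤ A) (v : ι → ℂ)
    (hv : IntRep κ B v) (α : Fin 3 → ι) (hne : hp k c (v ∘ α) ≠ 0) :
    1 ≤ ‖hp k c (v ∘ α)‖ *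
      (Fintype.card κ * (((k : ℝ) + 1) ^ 2 * A * B ^ (2 * k)) + 1) ^ Fintype.card κ := by
  classical
  obtain ⟨X, w, hw, hX, hr⟩ := hv
  have h1 : ic (hpM k c (X ∘ α)) *ᵥ w = hp k c (v ∘ α) • w :=
    hpM_mulVec k c (X ∘ α) w (v ∘ α) (fun i => hX (α i))
  have h2 := hpM_row k c (X ∘ α) hA hB hc (fun i a => hr (α i) a)
  exact A06_mat (hpM k c (X ∘ α)) hw hne h1 (by positivity) (CB2_entry _ h2)

theorem IntRep.mul {κ ι : Type} [Fintype κ] [Fintype ι] {B ρ : ℝ} (R : Matrix ι ι ℤ)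
    (hR : ∀ i j, |(R i j : ℝ)| ≤ ρ) {v : ι → ℂ} (hv : IntRep κ B v) :
    IntRep κ (Fintype.card ι * ρ * B) (ic R *ᵥ v) := by
  classical
  obtain ⟨X, w, hw, hX, hr⟩ := hv
  refine ⟨fun i => ∑ j, R i j • X j, w, hw, ?_, ?_⟩
  · intro i
    rw [CB1_ic, map_sum, Matrix.sum_mulVec]
    have h1 : (ic R *ᵥ v) i = ∑ j, (R i j : ℂ) * v j := rfl
    rw [h1, Finset.sum_smul]
    refine Finset.sum_congr rfl fun j _ => ?_
    rw [map_zsmul, ← CB1_ic, ← Int.cast_smul_eq_zsmul ℂ, Matrix.smul_mulVec, hX j, smul_smul]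
  · intro i a
    have h1 : ∀ b, |((∑ j, R i j • X j : Matrix κ κ ℤ) a b : ℝ)| ≤
        ∑ j, |(R i j : ℝ)| * |(X j a b : ℝ)| := by
      intro b
      rw [Matrix.sum_apply]
      push_cast
      refine (Finset.abs_sum_le_sum_abs _ _).trans (Finset.sum_le_sum fun j _ => ?_)
      rw [Matrix.smul_apply, smul_eq_mul]
      push_cast
      rw [abs_mul]
    calc ∑ b, |((∑ j, R i j • X j : Matrix κ κ ℤ) a b : ℝ)| ≤
        ∑ b, ∑ j, |(R i j : ℝ)| * |(X j a b : ℝ)| := Finset.sum_le_sum fun b _ => h1 b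
      _ = ∑ j, |(R i j : ℝ)| * ∑ b, |(X j a b : ℝ)| := by
        rw [Finset.sum_comm]
        exact Finset.sum_congr rfl fun j _ => (Finset.mul_sum _ _ _).symm
      _ ≤ ∑ _j : ι, ρ * B := by
        refine Finset.sum_le_sum fun j _ => mul_le_mul (hR i j) (hr j a)
          (Finset.sum_nonneg fun _ _ => abs_nonneg _) ((abs_nonneg _).trans (hR i j))
      _ = Fintype.card ι * ρ * B := by
        rw [Finset.sum_const, Finset.card_univ, nsmul_eq_mul, mul_assoc]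

theorem IntRep.norm_le {κ ι : Type} [Fintype κ] {B : ℝ} {v : ι → ℂ} (hv : IntRep κ B v) (i : ι) :
    ‖v i‖ ≤ Fintype.card κ * B := by
  obtain ⟨X, w, hw, hX, hr⟩ := hv
  refine A05_eig hw (hX i) (fun a b => ?_)
  show ‖((X i a b : ℤ) : ℂ)‖ ≤ B
  rw [Complex.norm_intCast]
  exact CB2_entry _ (hr i) a b

theorem IntRep.mono {κ ι : Type} [Fintype κ] {B B' : ℝ} (hB : B ≤ B') {v : ι → ℂ}
    (hv : IntRep κ B v) : IntRep κ B' v := by
  obtain ⟨X, w, hw, hX, hr⟩ := hv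
  exact ⟨X, w, hw, hX, fun i a => (hr i a).trans hB⟩

theorem hp_smul (k : ℕ) (c : Fin (k + 1) → Fin (k + 1) → ℤ) (a : ℂ) (x : Fin 3 → ℂ) :
    hp k c (a • x) = a ^ (2 * k) * hp k c x := by
  unfold hp
  rw [Finset.mul_sum]
  refine Finset.sum_congr rfl fun i _ => ?_
  rw [Finset.mul_sum]
  refine Finset.sum_congr rfl fun j _ => ?_
  have hi := i.2
  have hj := j.2
  have h1 : a ^ (2 * k) = a ^ (i : ℕ) * a ^ (j : ℕ) * a ^ (2 * k - (i : ℕ) - (j : ℕ)) := by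
    rw [← pow_add, ← pow_add]
    congr 1
    omega
  rw [h1]
  simp only [Pi.smul_apply, smul_eq_mul, mul_pow]
  ring

theorem hp_form {ι : Type} [Fintype ι] (k : ℕ) (c : Fin (k + 1) → Fin (k + 1) → ℤ) {A : ℝ}
    (hc : ∀ i j, |(c i j : ℝ)| ≤ A) (α : Fin 3 → ι) :
    Form (2 * k) (((k : ℝ) + 1) ^ 2 * A) (fun v : ι → ℂ => hp k c (v ∘ α)) := by
  have hA : 0 ≤ A := (abs_nonneg _).trans (hc 0 0)
  refine ⟨?_, ?_, ?_⟩
  · intro a v
    exact hp_smul k c a (v ∘ α)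
  · intro v
    show ‖hp k c (v ∘ α)‖ ≤ _
    have h1 : ∀ i : Fin (k + 1), ∀ j : Fin (k + 1),
        ‖(c i j : ℂ) * ((v ∘ α) 0 ^ (i : ℕ) * (v ∘ α) 1 ^ (j : ℕ) *
          (v ∘ α) 2 ^ (2 * k - (i : ℕ) - (j : ℕ)))‖ ≤ A * ‖v‖ ^ (2 * k) := by
      intro i j
      have hi := i.2
      have hj := j.2
      have h2 : ‖v‖ ^ (2 * k) = ‖v‖ ^ (i : ℕ) * ‖v‖ ^ (j : ℕ) *
          ‖v‖ ^ (2 * k - (i : ℕ) - (j : ℕ)) := by
        rw [← pow_add, ← pow_add]
        congr 1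
        omega
      rw [norm_mul, norm_mul, norm_mul, norm_pow, norm_pow, norm_pow, h2, Complex.norm_intCast]
      have h3 : ∀ l : Fin 3, ‖(v ∘ α) l‖ ≤ ‖v‖ := fun l => norm_le_pi_norm v (α l)
      have h4 : ∀ l : Fin 3, ∀ e : ℕ, ‖(v ∘ α) l‖ ^ e ≤ ‖v‖ ^ e := fun l e =>
        pow_le_pow_left₀ (norm_nonneg _) (h3 l) e
      refine mul_le_mul (hc i j) ?_ (by positivity) hA
      exact mul_le_mul (mul_le_mul (h4 0 _) (h4 1 _) (by positivity) (by positivity)) (h4 2 _)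
        (by positivity) (by positivity)
    unfold hp
    refine (norm_sum_le _ _).trans ?_
    refine (Finset.sum_le_sum fun i _ => (norm_sum_le _ _).trans
      (Finset.sum_le_sum fun j _ => h1 i j)).trans (le_of_eq ?_)
    simp only [Finset.sum_const, Finset.card_univ, Fintype.card_fin, nsmul_eq_mul]
    push_cast
    ring
  · unfold hp
    fun_prop

end MP2794d1.PC
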