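import Pool.Agent.Lib.MP_2794d1_ag.PC.CB1

/-!
CB3: Siegel's lemma. If `S` is empty or `κ` is empty (then `IntRep` is impossible, so `S` is empty) take `c = 1` at `(0, 0)`.
Otherwise choose `X s, w s` from `IntRep` for `s ∈ S`. Unknowns `t : Fin (k+1) × Fin (k+1) → ℤ`, equations indexed by
`S × κ × κ`: the matrix `𝓐 (s, a, b) (i, j) = (X_{α 0} ^ i * X_{α 1} ^ j * X_{α 2} ^ (2 k - i - j)) a b`, with entries at most
`B ^ (2 k)` (CB1 `mono_row`). `Int.Matrix.exists_ne_zero_int_vec_norm_le` (Mathlib.NumberTheory.SiegelsLemma) with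
`m = #S * card κ ^ 2 > 0`, `n = (k + 1) ^ 2 ≥ 2 m > m` gives `t ≠ 0` with `𝓐 t = 0` and
`‖t‖ ≤ (n * max 1 ‖𝓐‖) ^ (m / (n - m)) ≤ (k + 1) ^ 2 * B ^ (2 k)`, since `m / (n - m) ≤ 1` and the base is `≥ 1`.
`𝓐 t = 0` says `hpM k c (X s ∘ α) = 0`, so `hp k c (v s ∘ α) • w s = 0` by CB1 `hpM_mulVec`, `w s ≠ 0`.
-/

namespace MP2794d1.PC

open Matrix Complex Filter Topology

attribute [local instance] Matrix.seminormedAddCommGroup in
theorem CB3_siegel {α β : Type} [Fintype α] [Fintype β] (A : Matrix α β ℤ) {M : ℝ} (hM : 1 ≤ M)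
    (hA : ∀ i j, |(A i j : ℝ)| ≤ M) (hα : 0 < Fintype.card α)
    (h : 2 * Fintype.card α ≤ Fintype.card β) :
    ∃ t : β → ℤ, t ≠ 0 ∧ A *ᵥ t = 0 ∧ ∀ j, |(t j : ℝ)| ≤ Fintype.card β * M := by
  obtain ⟨t, ht, h0, hn⟩ := Int.Matrix.exists_ne_zero_int_vec_norm_le A (by omega) hα
  refine ⟨t, ht, h0, fun j => ?_⟩
  have h1 : |(t j : ℝ)| ≤ ‖t‖ := by
    rw [← Int.norm_eq_abs]
    exact norm_le_pi_norm t j
  refine h1.trans (hn.trans ?_)
  have hA' : ‖A‖ ≤ M := by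
    rw [Matrix.norm_le_iff (zero_le_one.trans hM)]
    intro i j
    rw [Int.norm_eq_abs]
    exact hA i j
  have hmax : max 1 ‖A‖ ≤ M := max_le hM hA'
  have hmax1 : (1 : ℝ) ≤ max 1 ‖A‖ := le_max_left _ _
  have hβ : (1 : ℝ) ≤ Fintype.card β := by
    have : 1 ≤ Fintype.card β := by omega
    exact_mod_cast this
  have hbase : (1 : ℝ) ≤ Fintype.card β * max 1 ‖A‖ := one_le_mul_of_one_le_of_one_le hβ hmax1
  have hα' : (0 : ℝ) < Fintype.card α := by exact_mod_cast hα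
  have hαβ : 2 * (Fintype.card α : ℝ) ≤ Fintype.card β := by exact_mod_cast h
  have hexp : (Fintype.card α : ℝ) / ((Fintype.card β : ℝ) - Fintype.card α) ≤ 1 := by
    rw [div_le_one (by linarith)]
    linarith
  calc ((Fintype.card β : ℝ) * max 1 ‖A‖) ^
        ((Fintype.card α : ℝ) / ((Fintype.card β : ℝ) - Fintype.card α)) ≤
      ((Fintype.card β : ℝ) * max 1 ‖A‖) ^ (1 : ℝ) :=
        Real.rpow_le_rpow_of_exponent_le hbase hexp
    _ = (Fintype.card β : ℝ) * max 1 ‖A‖ := Real.rpow_one _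
    _ ≤ Fintype.card β * M := mul_le_mul_of_nonneg_left hmax (by positivity)

theorem siegel_hp {κ ι σ : Type} [Fintype κ] (α : Fin 3 → ι) (S : Finset σ) (v : σ → ι → ℂ)
    {B : ℝ} (hB : 1 ≤ B) (hv : ∀ s ∈ S, IntRep κ B (v s)) (k : ℕ)
    (hk : 2 * (S.card * Fintype.card κ ^ 2) ≤ (k + 1) ^ 2) :
    ∃ c : Fin (k + 1) → Fin (k + 1) → ℤ, (∃ i j, c i j ≠ 0) ∧
      (∀ i j, |(c i j : ℝ)| ≤ ((k : ℝ) + 1) ^ 2 * B ^ (2 * k)) ∧
      ∀ s ∈ S, hp k c (v s ∘ α) = 0 := by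
  classical
  have hB2 : (1 : ℝ) ≤ B ^ (2 * k) := one_le_pow₀ hB
  by_cases h0 : S.card * Fintype.card κ ^ 2 = 0
  · refine ⟨fun _ _ => 1, ⟨0, 0, one_ne_zero⟩, fun i j => ?_, fun s hs => ?_⟩
    · have h1 : (1 : ℝ) ≤ ((k : ℝ) + 1) ^ 2 := by
        have : (0 : ℝ) ≤ (k : ℝ) := Nat.cast_nonneg _
        nlinarith
      have h2 : (1 : ℝ) ≤ ((k : ℝ) + 1) ^ 2 * B ^ (2 * k) := one_le_mul_of_one_le_of_one_le h1 hB2
      simpa using h2
    · exfalso
      have h1 : S.card ≠ 0 := Finset.card_ne_zero_of_mem hs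
      have h2 : Fintype.card κ = 0 := by
        rcases Nat.mul_eq_zero.1 h0 with h3 | h3
        · exact absurd h3 h1
        · exact pow_eq_zero_iff (two_ne_zero) |>.1 h3
      obtain ⟨X, w, hw, -, -⟩ := hv s hs
      have : IsEmpty κ := Fintype.card_eq_zero_iff.1 h2
      exact hw (Subsingleton.elim _ _)
  · have hv' : ∀ s : {s // s ∈ S}, IntRep κ B (v s.1) := fun s => hv s.1 s.2
    choose X w hw hX hr using hv'
    let 𝓐 : Matrix ({s // s ∈ S} × κ × κ) (Fin (k + 1) × Fin (k + 1)) ℤ := Matrix.of fun p q =>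
      (X p.1 (α 0) ^ (q.1 : ℕ) * X p.1 (α 1) ^ (q.2 : ℕ) *
        X p.1 (α 2) ^ (2 * k - (q.1 : ℕ) - (q.2 : ℕ))) p.2.1 p.2.2
    have hent : ∀ p q, |(𝓐 p q : ℝ)| ≤ B ^ (2 * k) := by
      intro p q
      have h1 := mono_row k q.1 q.2 (X p.1 ∘ α) (zero_le_one.trans hB) (fun i a => hr p.1 (α i) a)
        p.2.1
      refine le_trans ?_ h1
      exact Finset.single_le_sum (f := fun b => |((((X p.1 ∘ α) 0 ^ (q.1 : ℕ) *
        (X p.1 ∘ α) 1 ^ (q.2 : ℕ) *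
        (X p.1 ∘ α) 2 ^ (2 * k - (q.1 : ℕ) - (q.2 : ℕ))) p.2.1 b : ℤ) : ℝ)|)
        (fun _ _ => abs_nonneg _) (Finset.mem_univ p.2.2)
    have hcα : Fintype.card ({s // s ∈ S} × κ × κ) = S.card * Fintype.card κ ^ 2 := by
      rw [Fintype.card_prod, Fintype.card_prod, Fintype.card_coe, sq]
    have hcβ : Fintype.card (Fin (k + 1) × Fin (k + 1)) = (k + 1) ^ 2 := by
      rw [Fintype.card_prod, Fintype.card_fin, sq]
    obtain ⟨t, ht, hAt, hb⟩ := CB3_siegel 𝓐 hB2 hent (by rw [hcα]; omega)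
      (by rw [hcα, hcβ]; exact hk)
    refine ⟨fun i j => t (i, j), ?_, ?_, ?_⟩
    · by_contra hcon
      push Not at hcon
      exact ht (funext fun q => hcon q.1 q.2)
    · intro i j
      refine (hb (i, j)).trans (le_of_eq ?_)
      rw [hcβ]
      push_cast
      ring
    · intro s hs
      have hM : hpM k (fun i j => t (i, j)) (X ⟨s, hs⟩ ∘ α) = 0 := by
        ext a b
        have h1 := congrFun hAt (⟨s, hs⟩, a, b)
        rw [Pi.zero_apply] at h1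
        rw [Matrix.zero_apply, ← h1]
        unfold hpM
        rw [Matrix.sum_apply]
        show _ = ∑ q : Fin (k + 1) × Fin (k + 1), 𝓐 (⟨s, hs⟩, a, b) q * t q
        rw [Fintype.sum_prod_type]
        refine Finset.sum_congr rfl fun i _ => ?_
        rw [Matrix.sum_apply]
        refine Finset.sum_congr rfl fun j _ => ?_
        rw [Matrix.smul_apply, smul_eq_mul, mul_comm]
        rfl
      have h2 := hpM_mulVec k (fun i j => t (i, j)) (X ⟨s, hs⟩ ∘ α) (w ⟨s, hs⟩) (v s ∘ α)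
        (fun i => hX ⟨s, hs⟩ (α i))
      rw [hM, CB1_ic, map_zero, Matrix.zero_mulVec] at h2
      rcases smul_eq_zero.1 h2.symm with h3 | h3
      · exact h3
      · exact absurd h3 (hw _)

end MP2794d1.PC
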