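import Mathlib

/-!
SC2: the two real inequalities of CC3 with `W ≤ B ^ C₂` instead of a constant `W`, and an additional factor `y ≥ 1`; the proofs
are the same (`log W ≤ C₂ log B`, so `2 k log W ≤ 2 C₂ k log B`; in `num_final2` use `1 ≤ y` to absorb all the terms without `y`).
`growth`: for `1 ≤ y ≤ K₂ log B`, `B ≥ 2`: `C y ^ C ≤ B ^ C₂` for a suitable `C₂`: `log B ≤ B`, `C ≤ 2 ^ C ≤ B ^ C`,
`K₂ ≤ 2 ^ l ≤ B ^ l`.
-/

namespace MP2794d1.PC

theorem SC2_logB {B : ℝ} (hB : 2 ≤ B) : 1 / 2 < Real.log B := by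
  have h1 : Real.log 2 ≤ Real.log B := Real.log_le_log (by norm_num) hB
  have h2 := Real.log_two_gt_d9
  linarith

/-- `x ≤ exp x` -/
theorem SC2_le_exp (x : ℝ) : x ≤ Real.exp x := by
  have := Real.add_one_le_exp x
  linarith

/-- the polynomial factors are at most `exp (C k log B)` -/
theorem SC2_fac (W : ℝ) (hW : 1 ≤ W) {B : ℝ} (hB : 2 ≤ B) (k : ℕ) :
    W ^ (2 * k) ≤ Real.exp (4 * W * (k * Real.log B)) := by
  have hL := SC2_logB hB
  calc W ^ (2 * k) ≤ (Real.exp W) ^ (2 * k) :=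
        pow_le_pow_left₀ (by linarith) (SC2_le_exp W) _
    _ = Real.exp (2 * k * W) := by
        rw [← Real.exp_nat_mul]; push_cast; ring_nf
    _ ≤ _ := by
        apply Real.exp_le_exp.mpr
        have hk : (0 : ℝ) ≤ k := Nat.cast_nonneg k
        nlinarith [mul_nonneg hk (by linarith : (0 : ℝ) ≤ W),
          mul_nonneg (mul_nonneg hk (by linarith : (0 : ℝ) ≤ W)) (by linarith : 0 ≤ Real.log B - 1 / 2)]

theorem SC2_kk {B : ℝ} (hB : 2 ≤ B) (k : ℕ) :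
    ((k : ℝ) + 1) ^ 2 ≤ Real.exp (4 * (k * Real.log B)) := by
  have hL := SC2_logB hB
  have hk : (0 : ℝ) ≤ k := Nat.cast_nonneg k
  calc ((k : ℝ) + 1) ^ 2 ≤ (Real.exp k) ^ 2 :=
        pow_le_pow_left₀ (by linarith) (Real.add_one_le_exp _) _
    _ = Real.exp (2 * k) := by
        rw [← Real.exp_nat_mul]; push_cast; ring_nf
    _ ≤ _ := by
        apply Real.exp_le_exp.mpr
        nlinarith [mul_nonneg hk (by linarith : 0 ≤ Real.log B - 1 / 2)]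

theorem SC2_BB {B : ℝ} (hB : 2 ≤ B) (k : ℕ) :
    B ^ (2 * k) = Real.exp (2 * (k * Real.log B)) := by
  have : B = Real.exp (Real.log B) := (Real.exp_log (by linarith)).symm
  conv_lhs => rw [this]
  rw [← Real.exp_nat_mul]; push_cast; ring_nf

theorem SC2_W {W B : ℝ} {C₂ : ℕ} (hW : 1 ≤ W) (hWB : W ≤ B ^ C₂) (hB : 2 ≤ B) (k : ℕ) :
    W ^ (2 * k) ≤ Real.exp (2 * C₂ * (k * Real.log B)) := by
  have h1 : B ^ C₂ = Real.exp (C₂ * Real.log B) := by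
    rw [Real.exp_nat_mul, Real.exp_log (by linarith)]
  calc W ^ (2 * k) ≤ (B ^ C₂) ^ (2 * k) := pow_le_pow_left₀ (by linarith) hWB _
    _ = Real.exp (2 * C₂ * (k * Real.log B)) := by
        rw [h1, ← Real.exp_nat_mul]; push_cast; ring_nf

theorem growth (C : ℕ) (K₂ : ℝ) : ∃ C₂ : ℕ, ∀ B : ℝ, 2 ≤ B → ∀ y : ℝ, 1 ≤ y →
    y ≤ K₂ * Real.log B → (C : ℝ) * y ^ C ≤ B ^ C₂ := by
  obtain ⟨l, hl⟩ := pow_unbounded_of_one_lt K₂ (one_lt_two : (1 : ℝ) < 2)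
  refine ⟨C + (l + 1) * C, ?_⟩
  intro B hB y hy hyK
  have hL := SC2_logB hB
  have hB0 : 0 < B := by linarith
  have hlog : Real.log B ≤ B := by
    have := Real.log_le_sub_one_of_pos hB0
    linarith
  have h2 : y ≤ B ^ (l + 1) := by
    calc y ≤ K₂ * Real.log B := hyK
      _ ≤ 2 ^ l * Real.log B := mul_le_mul_of_nonneg_right hl.le (by linarith)
      _ ≤ B ^ l * B := by
          apply mul_le_mul _ hlog (by linarith) (by positivity)
          exact pow_le_pow_left₀ (by norm_num) hB _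
      _ = B ^ (l + 1) := (pow_succ _ _).symm
  have h3 : (C : ℝ) ≤ B ^ C := by
    have h4 : (C : ℝ) ≤ 2 ^ C := by
      exact_mod_cast (Nat.lt_two_pow_self).le
    exact h4.trans (pow_le_pow_left₀ (by norm_num) hB _)
  calc (C : ℝ) * y ^ C ≤ B ^ C * (B ^ (l + 1)) ^ C := by
        apply mul_le_mul h3 _ (by positivity) (by positivity)
        exact pow_le_pow_left₀ (by linarith) h2 _
    _ = B ^ (C + (l + 1) * C) := by rw [← pow_mul, ← pow_add]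

theorem num_extrap2 (ν : ℕ) (hν : 1 ≤ ν) (C₂ : ℕ) : ∃ K₀ : ℝ, 1 ≤ K₀ ∧
    ∀ B : ℝ, 2 ≤ B → ∀ W : ℝ, 1 ≤ W → W ≤ B ^ C₂ → ∀ k n : ℕ, 1 ≤ k → K₀ * Real.log B ≤ k →
      (k + 1) ^ 2 < 2 * ν ^ 2 * (n + 1) →
      (W ^ (2 * k) * (((k : ℝ) + 1) ^ 2 * (((k : ℝ) + 1) ^ 2 * B ^ (2 * k))) * (1 / 2) ^ n) *
        ((ν : ℝ) * B) ^ (2 * k) *
        ((ν : ℝ) * (((k : ℝ) + 1) ^ 2 * (((k : ℝ) + 1) ^ 2 * B ^ (2 * k)) * B ^ (2 * k)) + 1) ^ ν
          < 1 := by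
  have hν1 : (1 : ℝ) ≤ ν := by exact_mod_cast hν
  set C₀ : ℝ := 2 * C₂ + 12 + 4 * ν + ν * (4 * ν + 12) with hC₀
  have hC0 : 0 ≤ C₀ := by positivity
  refine ⟨2 * ν ^ 2 * (2 * C₀ + 4), ?_, ?_⟩
  · have : (1 : ℝ) ≤ (ν : ℝ) ^ 2 := one_le_pow₀ hν1
    nlinarith
  intro B hB W hW hWB k n hk hK hn
  have hL := SC2_logB hB
  set L := Real.log B with hLd
  have hk1 : (1 : ℝ) ≤ k := by exact_mod_cast hk
  have hkL : 1 / 2 < (k : ℝ) * L := by nlinarith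
  have hB0 : (0 : ℝ) < B := by linarith
  -- the factors
  have f1 := SC2_W hW hWB hB k
  have f2 := SC2_kk hB k
  have f3 := SC2_BB hB k
  have f4 : ((ν : ℝ) * B) ^ (2 * k) ≤ Real.exp ((4 * ν + 2) * (k * L)) := by
    rw [mul_pow, add_mul, Real.exp_add]
    exact mul_le_mul (SC2_fac ν hν1 hB k) f3.le (by positivity) (Real.exp_pos _).le
  have f5 : ((k : ℝ) + 1) ^ 2 * (((k : ℝ) + 1) ^ 2 * B ^ (2 * k)) ≤ Real.exp (10 * (k * L)) := by
    calc ((k : ℝ) + 1) ^ 2 * (((k : ℝ) + 1) ^ 2 * B ^ (2 * k))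
        ≤ Real.exp (4 * (k * L)) * (Real.exp (4 * (k * L)) * Real.exp (2 * (k * L))) := by
          apply mul_le_mul f2 _ (by positivity) (Real.exp_pos _).le
          exact mul_le_mul f2 f3.le (by positivity) (Real.exp_pos _).le
      _ = Real.exp (10 * (k * L)) := by
          rw [← Real.exp_add, ← Real.exp_add]; ring_nf
  have f6 : (ν : ℝ) * (((k : ℝ) + 1) ^ 2 * (((k : ℝ) + 1) ^ 2 * B ^ (2 * k)) * B ^ (2 * k)) + 1
      ≤ Real.exp ((4 * ν + 12) * (k * L)) := by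
    have g1 : ((k : ℝ) + 1) ^ 2 * (((k : ℝ) + 1) ^ 2 * B ^ (2 * k)) * B ^ (2 * k)
        ≤ Real.exp (12 * (k * L)) := by
      calc _ ≤ Real.exp (10 * (k * L)) * Real.exp (2 * (k * L)) :=
            mul_le_mul f5 f3.le (by positivity) (Real.exp_pos _).le
        _ = _ := by rw [← Real.exp_add]; ring_nf
    have g2 : (1 : ℝ) ≤ Real.exp (12 * (k * L)) := Real.one_le_exp (by positivity)
    have g3 : 2 * (ν : ℝ) ≤ Real.exp (4 * ν * (k * L)) := by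
      refine (SC2_le_exp _).trans (Real.exp_le_exp.mpr ?_)
      nlinarith
    calc (ν : ℝ) * (((k : ℝ) + 1) ^ 2 * (((k : ℝ) + 1) ^ 2 * B ^ (2 * k)) * B ^ (2 * k)) + 1
        ≤ ν * Real.exp (12 * (k * L)) + ν * Real.exp (12 * (k * L)) := by
          apply add_le_add
          · exact mul_le_mul_of_nonneg_left g1 (by linarith)
          · nlinarith
      _ = 2 * ν * Real.exp (12 * (k * L)) := by ring
      _ ≤ Real.exp (4 * ν * (k * L)) * Real.exp (12 * (k * L)) :=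
          mul_le_mul_of_nonneg_right g3 (Real.exp_pos _).le
      _ = _ := by rw [← Real.exp_add]; ring_nf
  have f7 : ((ν : ℝ) * (((k : ℝ) + 1) ^ 2 * (((k : ℝ) + 1) ^ 2 * B ^ (2 * k)) * B ^ (2 * k)) + 1) ^ ν
      ≤ Real.exp (ν * (4 * ν + 12) * (k * L)) := by
    calc _ ≤ (Real.exp ((4 * ν + 12) * (k * L))) ^ ν := pow_le_pow_left₀ (by positivity) f6 _
      _ = _ := by rw [← Real.exp_nat_mul]; ring_nf
  -- the power of one half
  have hn' : ((k : ℝ) + 1) ^ 2 < 2 * ν ^ 2 * ((n : ℝ) + 1) := by exact_mod_cast hn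
  have hnL : C₀ * (k * L) < n * Real.log 2 := by
    have h1 : 2 * (ν : ℝ) ^ 2 * (2 * C₀ + 4) * L * k ≤ k * k :=
      mul_le_mul_of_nonneg_right hK (by linarith)
    have h2 : 2 * (ν : ℝ) ^ 2 * ((2 * C₀ + 4) * (k * L)) < 2 * ν ^ 2 * ((n : ℝ) + 1) := by
      nlinarith
    have h3 : (2 * C₀ + 4) * (k * L) < (n : ℝ) + 1 := lt_of_mul_lt_mul_left h2 (by positivity)
    have h4 : (2 * C₀) * (k * L) < n := by nlinarith
    have h5 := Real.log_two_gt_d9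
    have h6 : 0 ≤ C₀ * (k * L) := by positivity
    nlinarith
  have f8 : (1 / 2 : ℝ) ^ n = Real.exp (-(n * Real.log 2)) := by
    rw [Real.exp_neg, Real.exp_nat_mul, Real.exp_log (by norm_num)]
    simp
  calc _ ≤ (Real.exp (2 * C₂ * (k * L)) * Real.exp (10 * (k * L)) * Real.exp (-(n * Real.log 2))) *
        Real.exp ((4 * ν + 2) * (k * L)) * Real.exp (ν * (4 * ν + 12) * (k * L)) := by
        rw [f8]
        gcongr
    _ = Real.exp (C₀ * (k * L) - n * Real.log 2) := by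
        rw [← Real.exp_add, ← Real.exp_add, ← Real.exp_add, ← Real.exp_add, hC₀]; ring_nf
    _ < 1 := by
        rw [Real.exp_lt_one_iff]; linarith

theorem num_final2 (K₁ C : ℝ) (C₂ : ℕ) (hK₁ : 1 ≤ K₁) (hC : 0 < C) : ∃ C' : ℝ, 0 < C' ∧
    ∀ B : ℝ, 2 ≤ B → ∀ y : ℝ, 1 ≤ y → ∀ W : ℝ, 1 ≤ W → W ≤ B ^ C₂ → ∀ k n : ℕ, 1 ≤ k →
      (k : ℝ) ≤ K₁ * Real.log B →
      Real.exp (-(C * y * (k : ℝ) ^ 4 * ((k : ℝ) * Real.log ((k : ℝ) + 1) +
        Real.log (((k : ℝ) + 1) ^ 2 * B ^ (2 * k))))) ≤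
        W ^ (2 * k) * (((k : ℝ) + 1) ^ 2 * (((k : ℝ) + 1) ^ 2 * B ^ (2 * k))) * (1 / 2) ^ n →
      (n : ℝ) ≤ C' * y * Real.log B ^ 6 := by
  refine ⟨2 * (C * K₁ ^ 5 * (K₁ + 6) + 16 * (2 * C₂ + 10) * K₁), by positivity, ?_⟩
  intro B hB y hy W hW hWB k n hk hK h
  have hL := SC2_logB hB
  set L := Real.log B with hLd
  have hk1 : (1 : ℝ) ≤ k := by exact_mod_cast hk
  have hB0 : (0 : ℝ) < B := by linarith
  have f1 := SC2_W hW hWB hB k
  have f2 := SC2_kk hB k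
  have f3 := SC2_BB hB k
  have f5 : ((k : ℝ) + 1) ^ 2 * (((k : ℝ) + 1) ^ 2 * B ^ (2 * k)) ≤ Real.exp (10 * (k * L)) := by
    calc ((k : ℝ) + 1) ^ 2 * (((k : ℝ) + 1) ^ 2 * B ^ (2 * k))
        ≤ Real.exp (4 * (k * L)) * (Real.exp (4 * (k * L)) * Real.exp (2 * (k * L))) := by
          apply mul_le_mul f2 _ (by positivity) (Real.exp_pos _).le
          exact mul_le_mul f2 f3.le (by positivity) (Real.exp_pos _).le
      _ = Real.exp (10 * (k * L)) := by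
          rw [← Real.exp_add, ← Real.exp_add]; ring_nf
  have f8 : (1 / 2 : ℝ) ^ n = Real.exp (-(n * Real.log 2)) := by
    rw [Real.exp_neg, Real.exp_nat_mul, Real.exp_log (by norm_num)]
    simp
  set X := C * y * (k : ℝ) ^ 4 * ((k : ℝ) * Real.log ((k : ℝ) + 1) +
        Real.log (((k : ℝ) + 1) ^ 2 * B ^ (2 * k))) with hX
  have h1 : Real.exp (-X) ≤ Real.exp ((2 * C₂ + 10) * (k * L) - n * Real.log 2) := by
    refine h.trans ?_
    calc _ ≤ Real.exp (2 * C₂ * (k * L)) * Real.exp (10 * (k * L)) * Real.exp (-(n * Real.log 2)) := by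
          rw [f8]; gcongr
      _ = _ := by rw [← Real.exp_add, ← Real.exp_add]; ring_nf
  have h2 := Real.exp_le_exp.mp h1
  have hlog1 : Real.log ((k : ℝ) + 1) ≤ k := by
    have := Real.log_le_sub_one_of_pos (by linarith : (0 : ℝ) < (k : ℝ) + 1)
    linarith
  have hlog2 : Real.log (((k : ℝ) + 1) ^ 2 * B ^ (2 * k)) ≤ 6 * (k * L) := by
    have : ((k : ℝ) + 1) ^ 2 * B ^ (2 * k) ≤ Real.exp (6 * (k * L)) := by
      calc _ ≤ Real.exp (4 * (k * L)) * Real.exp (2 * (k * L)) :=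
            mul_le_mul f2 f3.le (by positivity) (Real.exp_pos _).le
        _ = _ := by rw [← Real.exp_add]; ring_nf
    calc _ ≤ Real.log (Real.exp (6 * (k * L))) := Real.log_le_log (by positivity) this
      _ = _ := Real.log_exp _
  have hX1 : X ≤ C * K₁ ^ 5 * (K₁ + 6) * L ^ 6 * y := by
    calc X ≤ C * y * (k : ℝ) ^ 4 * ((k : ℝ) * k + 6 * (k * L)) := by
          rw [hX]; gcongr
      _ = C * y * (k : ℝ) ^ 5 * (k + 6 * L) := by ring
      _ ≤ C * y * (K₁ * L) ^ 5 * (K₁ * L + 6 * L) := by gcongr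
      _ = _ := by ring
  have hL4 : 1 ≤ 16 * L ^ 4 := by
    have : (1 : ℝ) ≤ (2 * L) ^ 4 := one_le_pow₀ (by linarith)
    calc (1 : ℝ) ≤ (2 * L) ^ 4 := this
      _ = _ := by ring
  have h3' : (2 * C₂ + 10) * (k * L) ≤ 16 * (2 * C₂ + 10) * K₁ * L ^ 6 := by
    calc (2 * C₂ + 10) * (k * L) ≤ (2 * C₂ + 10) * (K₁ * L * L) := by gcongr
      _ = (2 * C₂ + 10) * K₁ * L ^ 2 * 1 := by ring
      _ ≤ (2 * C₂ + 10) * K₁ * L ^ 2 * (16 * L ^ 4) := by gcongr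
      _ = _ := by ring
  have h3 : (2 * C₂ + 10) * (k * L) ≤ 16 * (2 * C₂ + 10) * K₁ * L ^ 6 * y := by
    refine h3'.trans (le_mul_of_one_le_right (by positivity) hy)
  have h5 := Real.log_two_gt_d9
  have hn0 : (0 : ℝ) ≤ n := Nat.cast_nonneg n
  have h6 : (n : ℝ) / 2 ≤ n * Real.log 2 := by nlinarith
  have h7 : (n : ℝ) * Real.log 2 ≤ X + (2 * C₂ + 10) * (k * L) := by linarith
  calc (n : ℝ) ≤ 2 * (X + (2 * C₂ + 10) * (k * L)) := by linarith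
    _ ≤ 2 * (C * K₁ ^ 5 * (K₁ + 6) * L ^ 6 * y + 16 * (2 * C₂ + 10) * K₁ * L ^ 6 * y) := by
        linarith
    _ = _ := by ring

end MP2794d1.PC
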