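import Mathlib

/-!
CA2: a function with many zeros is small. Proof by induction on `S` for all `f` and `M`. `S = ∅`: trivial. Let `a ∈ S`,
`S' = S \ {a}`. `g = dslope f a` is differentiable on the ball (`Complex.differentiableOn_dslope`), `f z = (z - a) * g z` on the
ball as `f a = 0`, and `g` vanishes on `S'` (`z ≠ a`). For `w ∈ ball z₀ R` let `R' ∈ (max ‖w - z₀‖ r, R)`; on the sphere of
radius `R'` around `z₀` we have `‖g‖ ≤ M / (R' - r)`, so `‖g w‖ ≤ M / (R' - r)` by the maximum principle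
(`Complex.norm_le_of_forall_mem_frontier_norm_le`); `R' → R` gives `‖g‖ ≤ M / (R - r)` on the ball. By induction
`‖g z‖ ≤ M / (R - r) * (1/2)^(#S')` on the closed ball of radius `r`, and `‖z - a‖ ≤ 2 r ≤ (R - r) / 2` there.
-/

namespace MP2794d1.PC

open Complex Filter Topology

private theorem CA2_dslope (z₀ : ℂ) (r R : ℝ) (hr : 0 < r) (hrR : r < R) (a : ℂ)
    (ha : a ∈ Metric.closedBall z₀ r) (f : ℂ → ℂ)
    (hf : DifferentiableOn ℂ f (Metric.ball z₀ R)) (M : ℝ)
    (hM : ∀ z ∈ Metric.ball z₀ R, ‖f z‖ ≤ M) (h0 : f a = 0) :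
    DifferentiableOn ℂ (dslope f a) (Metric.ball z₀ R) ∧
      (∀ z, z ≠ a → dslope f a z = f z / (z - a)) ∧ (∀ z, f z = (z - a) * dslope f a z) ∧
      ∀ z ∈ Metric.ball z₀ R, ‖dslope f a z‖ ≤ M / (R - r) := by
  have haR : a ∈ Metric.ball z₀ R := Metric.closedBall_subset_ball hrR ha
  have hd : DifferentiableOn ℂ (dslope f a) (Metric.ball z₀ R) :=
    (Complex.differentiableOn_dslope (Metric.isOpen_ball.mem_nhds haR)).2 hf
  have hne : ∀ z, z ≠ a → dslope f a z = f z / (z - a) := by
    intro z hz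
    rw [dslope_of_ne f hz, slope_def_field, h0, sub_zero]
  have hmul : ∀ z, f z = (z - a) * dslope f a z := by
    intro z
    have := sub_smul_dslope f a z
    rw [h0, sub_zero, smul_eq_mul] at this
    exact this.symm
  refine ⟨hd, hne, hmul, ?_⟩
  intro w hw
  have hM0 : 0 ≤ M := (norm_nonneg _).trans (hM w hw)
  have hw' : dist w z₀ < R := hw
  have hlim : Tendsto (fun ρ : ℝ => M / (ρ - r)) (𝓝[<] R) (𝓝 (M / (R - r))) := by
    have h1 : ContinuousAt (fun ρ : ℝ => M / (ρ - r)) R := by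
      refine ContinuousAt.div continuousAt_const (by fun_prop) ?_
      exact (sub_pos.2 hrR).ne'
    exact h1.tendsto.mono_left nhdsWithin_le_nhds
  refine ge_of_tendsto hlim ?_
  have hmem : Set.Ioo (max (dist w z₀) r) R ∈ 𝓝[<] R := Ioo_mem_nhdsLT (max_lt hw' hrR)
  filter_upwards [hmem] with ρ hρ
  have h1 : dist w z₀ < ρ := lt_of_le_of_lt (le_max_left _ _) hρ.1
  have h2 : r < ρ := lt_of_le_of_lt (le_max_right _ _) hρ.1
  have hρ0 : 0 < ρ := hr.trans h2
  refine Complex.norm_le_of_forall_mem_frontier_norm_le (U := Metric.ball z₀ ρ)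
    Metric.isBounded_ball ?_ ?_ ?_
  · refine (hd.mono ?_).diffContOnCl
    rw [closure_ball z₀ hρ0.ne']
    exact Metric.closedBall_subset_ball hρ.2
  · intro z hz
    rw [frontier_ball z₀ hρ0.ne', Metric.mem_sphere] at hz
    have hza : ρ - r ≤ ‖z - a‖ := by
      have h3 : dist z z₀ ≤ dist z a + dist a z₀ := dist_triangle z a z₀
      rw [Metric.mem_closedBall] at ha
      rw [← dist_eq_norm]
      linarith
    have hpos : 0 < ρ - r := by linarith
    have hz' : z ≠ a := by
      rintro rfl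
      rw [sub_self, norm_zero] at hza
      linarith
    rw [hne z hz', norm_div]
    have hzR : z ∈ Metric.ball z₀ R := by rw [Metric.mem_ball, hz]; exact hρ.2
    exact div_le_div₀ hM0 (hM z hzR) hpos hza
  · rw [closure_ball z₀ hρ0.ne']
    exact h1.le

theorem zeros_schwarz (z₀ : ℂ) (r R : ℝ) (hr : 0 < r) (hR : 5 * r ≤ R) (S : Finset ℂ)
    (hS : ∀ z ∈ S, z ∈ Metric.closedBall z₀ r) (f : ℂ → ℂ)
    (hf : DifferentiableOn ℂ f (Metric.ball z₀ R)) (M : ℝ)
    (hM : ∀ z ∈ Metric.ball z₀ R, ‖f z‖ ≤ M) (h0 : ∀ z ∈ S, f z = 0) :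
    ∀ z ∈ Metric.closedBall z₀ r, ‖f z‖ ≤ M * (1 / 2) ^ S.card := by
  classical
  have hrR : r < R := by linarith
  induction S using Finset.induction_on generalizing f M with
  | empty =>
    intro z hz
    simpa using hM z (Metric.closedBall_subset_ball hrR hz)
  | insert a S' ha ih =>
    intro z hz
    have haB := hS a (Finset.mem_insert_self _ _)
    obtain ⟨hd, hne, hmul, hb⟩ := CA2_dslope z₀ r R hr hrR a haB f hf M hM
      (h0 a (Finset.mem_insert_self _ _))
    have h1 := ih (fun w hw => hS w (Finset.mem_insert_of_mem hw)) (dslope f a) hd (M / (R - r)) hb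
      (fun w hw => by
        have hwa : w ≠ a := fun h => ha (h ▸ hw)
        rw [hne w hwa, h0 w (Finset.mem_insert_of_mem hw), zero_div]) z hz
    have h2 : ‖z - a‖ ≤ (R - r) / 2 := by
      rw [Metric.mem_closedBall] at hz haB
      have h3 := dist_triangle_right z a z₀
      rw [← dist_eq_norm]
      linarith
    have hM0 : 0 ≤ M := (norm_nonneg _).trans (hM z (Metric.closedBall_subset_ball hrR hz))
    have hpos : 0 < R - r := by linarith
    rw [hmul z, norm_mul, Finset.card_insert_of_notMem ha, pow_succ]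
    calc ‖z - a‖ * ‖dslope f a z‖ ≤ (R - r) / 2 * (M / (R - r) * (1 / 2) ^ S'.card) := by
          gcongr
      _ = M * ((1 / 2) ^ S'.card * (1 / 2)) := by field_simp

end MP2794d1.PC
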