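import Pool.Agent.Lib.MP_2794d1_ag.Base

/-!
# Definitions for the polylogarithmic count of CM points

`Datum Γ ι`: an equivariant holomorphic family of lines in `ℂ^ι` on the upper half plane (for us: the
lines spanned by the Pluecker vectors of the Hodge flag), with a cusp. `D.L z v` says that `v` is a
non-zero vector of the line at `z`.
-/

namespace MP2794d1.PC

open Matrix Complex Filter Topology

/-- extension of scalars of an integral square matrix with arbitrary index type -/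
noncomputable def ic {ι : Type} (X : Matrix ι ι ℤ) : Matrix ι ι ℂ := X.map (fun q : ℤ => (q : ℂ))

/-- An equivariant holomorphic family of lines in `ℂ^ι` on the upper half plane, with a cusp. -/
structure Datum (Γ : Subgroup (Matrix.SpecialLinearGroup (Fin 2) ℝ)) (ι : Type) [Fintype ι]
    [DecidableEq ι] where
  /-- the representation -/
  R : Γ →* Matrix ι ι ℤ
  /-- the parabolic element -/
  T : Γ
  T_eq : ∀ z : ℂ, mob T z = z + 1
  /-- the unipotent one-parameter group through `R T` -/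
  G : PolyGroup ι
  G_one : ic (R T) = G.E 1
  /-- `L z v`: the vector `v` is a non-zero vector of the line at `z` -/
  L : ℂ → (ι → ℂ) → Prop
  L_ne : ∀ (z : ℂ) (v : ι → ℂ), 0 < z.im → L z v → v ≠ 0
  L_smul : ∀ (z : ℂ) (v : ι → ℂ) (c : ℂ), 0 < z.im → c ≠ 0 → L z v → L z (c • v)
  L_uniq : ∀ (z : ℂ) (v v' : ι → ℂ), 0 < z.im → L z v → L z v' → ∃ c : ℂ, v' = c • v
  L_lift : ∀ z₀ : ℂ, 0 < z₀.im → ∃ M : ℂ → ι → ℂ, (∀ i, AnalyticAt ℂ (fun z => M z i) z₀) ∧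
    ∀ᶠ z in 𝓝 z₀, L z (M z)
  L_equiv : ∀ (g : Γ) (z : ℂ) (v : ι → ℂ), 0 < z.im → L z v → L (mob g z) (ic (R g) *ᵥ v)
  L_cusp : ∃ (a : ℝ) (M : ℂ → ι → ℂ), (∀ i, AnalyticAt ℂ (fun q => M q i) 0) ∧ M 0 ≠ 0 ∧
    ∀ z : ℂ, a < z.im → 0 < z.im → L z (G.E z *ᵥ M (qq z))

variable {Γ : Subgroup (Matrix.SpecialLinearGroup (Fin 2) ℝ)} {ι : Type} [Fintype ι]
  [DecidableEq ι]

/-- the derivative at `0` of the one-parameter group of a datum -/
noncomputable def Datum.dG (D : Datum Γ ι) : Matrix ι ι ℂ :=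
  D.G.P.map (fun p => Polynomial.aeval (0 : ℂ) (Polynomial.derivative p))

/-- the derivative at `0` of the conjugate by `g` of the one-parameter group of a datum -/
noncomputable def Datum.dN (D : Datum Γ ι) (g : Γ) : Matrix ι ι ℂ :=
  ic (D.R g) * D.dG * ic (D.R g⁻¹)

/-- `v`, `N_{g₁} v`, `N_{g₂} v` are linearly independent -/
def Indep (D : Datum Γ ι) (g₁ g₂ : Γ) (v : ι → ℂ) : Prop :=
  ∀ a b c : ℂ, a • v + b • (D.dN g₁ *ᵥ v) + c • (D.dN g₂ *ᵥ v) = 0 → a = 0 ∧ b = 0 ∧ c = 0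

/-- the product of the `n₁`-th and the `n₂`-th power of two conjugates of the parabolic element -/
def rel (T g₁ g₂ : Γ) (n₁ n₂ : ℕ) : Γ := g₁ * T ^ n₁ * g₁⁻¹ * (g₂ * T ^ n₂ * g₂⁻¹)

/-- The coordinates of `v` are the eigenvalues of integral matrices of size `κ`, with a common
eigenvector, whose rows have `ℓ¹`-norm at most `B`. -/
def IntRep {ι : Type} (κ : Type) [Fintype κ] (B : ℝ) (v : ι → ℂ) : Prop :=
  ∃ (X : ι → Matrix κ κ ℤ) (w : κ → ℂ), w ≠ 0 ∧ (∀ i, ic (X i) *ᵥ w = v i • w) ∧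
    ∀ i a, ∑ b, |(X i a b : ℝ)| ≤ B

/-- a ternary form of degree `2k` with integral coefficients -/
noncomputable def hp (k : ℕ) (c : Fin (k + 1) → Fin (k + 1) → ℤ) (x : Fin 3 → ℂ) : ℂ :=
  ∑ i : Fin (k + 1), ∑ j : Fin (k + 1),
    (c i j : ℂ) * (x 0 ^ (i : ℕ) * x 1 ^ (j : ℕ) * x 2 ^ (2 * k - (i : ℕ) - (j : ℕ)))

/-- the same form evaluated at three integral matrices -/
def hpM {κ : Type} [Fintype κ] [DecidableEq κ] (k : ℕ) (c : Fin (k + 1) → Fin (k + 1) → ℤ)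
    (X : Fin 3 → Matrix κ κ ℤ) : Matrix κ κ ℤ :=
  ∑ i : Fin (k + 1), ∑ j : Fin (k + 1),
    c i j • (X 0 ^ (i : ℕ) * X 1 ^ (j : ℕ) * X 2 ^ (2 * k - (i : ℕ) - (j : ℕ)))

/-- `F` is a form of degree `d` on `ℂ^ι` with `|F v| ≤ B |v|^d` (sup norm) -/
structure Form {ι : Type} [Fintype ι] (d : ℕ) (B : ℝ) (F : (ι → ℂ) → ℂ) : Prop where
  hom : ∀ (c : ℂ) (v : ι → ℂ), F (c • v) = c ^ d * F v
  bd : ∀ v : ι → ℂ, ‖F v‖ ≤ B * ‖v‖ ^ d
  diff : Differentiable ℂ F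

/-- `F` is a form of degree `d` bounded by `B`, and by `ε ≤ B` on the lines over `ball z₀ δ` -/
structure Good (D : Datum Γ ι) (d : ℕ) (z₀ : ℂ) (δ ε B : ℝ) (F : (ι → ℂ) → ℂ) : Prop where
  form : Form d B F
  nonneg : 0 ≤ ε
  le : ε ≤ B
  small : ∀ z ∈ Metric.ball z₀ δ, 0 < z.im → ∀ v : ι → ℂ, D.L z v → ‖F v‖ ≤ ε * ‖v‖ ^ d

/-- smallness of `F` over `ball z₁ δ₁` implies smallness of `F ∘ A` over `ball z₂ δ₂`, with a
Hoelder exponent `θ` and a constant `X ^ d` -/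
def Step (D : Datum Γ ι) (A : Matrix ι ι ℂ) (z₁ : ℂ) (δ₁ : ℝ) (z₂ : ℂ) (δ₂ θ X : ℝ) : Prop :=
  ∀ (d : ℕ) (ε B : ℝ) (F : (ι → ℂ) → ℂ), Good D d z₁ δ₁ ε B F →
    Good D d z₂ δ₂ (X ^ d * (ε ^ θ * B ^ (1 - θ))) (X ^ d * B) (fun v => F (A *ᵥ v))

/-- Lower bound for the sup over `ball z₁ δ₁` of integral forms of degree `2k` in the coordinates
`α 0, α 1, α 2`. -/
def SLB (D : Datum Γ ι) (α : Fin 3 → ι) : Prop :=
  ∀ z₁ : ℂ, 0 < z₁.im → ∀ δ₁ : ℝ, 0 < δ₁ → ∃ C : ℝ, 0 < C ∧ ∀ k : ℕ, 1 ≤ k →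
    ∀ c : Fin (k + 1) → Fin (k + 1) → ℤ, (∃ i j, c i j ≠ 0) →
    ∀ A : ℝ, 1 ≤ A → (∀ i j, |(c i j : ℝ)| ≤ A) → ∀ ε : ℝ, 0 ≤ ε →
    (∀ z ∈ Metric.ball z₁ δ₁, 0 < z.im → ∀ v : ι → ℂ, D.L z v →
      ‖hp k c (v ∘ α)‖ ≤ ε * ‖v‖ ^ (2 * k)) →
    Real.exp (-(C * (k : ℝ) ^ 4 * ((k : ℝ) * Real.log ((k : ℝ) + 1) + Real.log A))) ≤ ε

/-- index set of the products of Pluecker coordinates of a flag with `m` steps of ranks `r` -/
abbrev PIdx (n m : ℕ) (r : Fin m → ℕ) : Type := (p : Fin m) → Fin (r p) → Fin n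

/-- the action of a matrix on the products of tensor powers (complex coefficients) -/
noncomputable def pt {n m : ℕ} (r : Fin m → ℕ) (A : Matrix (Fin n) (Fin n) ℂ) :
    Matrix (PIdx n m r) (PIdx n m r) ℂ :=
  Matrix.of fun f g => ∏ p, ∏ i, A (f p i) (g p i)

/-- the action of a matrix on the products of tensor powers (integral coefficients) -/
def ptZ {n m : ℕ} (r : Fin m → ℕ) (A : Matrix (Fin n) (Fin n) ℤ) :
    Matrix (PIdx n m r) (PIdx n m r) ℤ :=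
  Matrix.of fun f g => ∏ p, ∏ i, A (f p i) (g p i)

/-- the vector of products of maximal minors -/
noncomputable def pmin {n m : ℕ} (r : Fin m → ℕ) (W : (p : Fin m) → Matrix (Fin n) (Fin (r p)) ℂ) :
    PIdx n m r → ℂ := fun f => ∏ p, minor (W p) (f p)

/-- `v` is a non-zero multiple of the vector of products of maximal minors of the Hodge flag
`F^{lo}, F^{lo+1}, ..., F^{lo+m-1}` at `z` -/
def PL {n : ℕ} (V : PolVHS n) (m : ℕ) (r : Fin m → ℕ) (z : ℂ) (v : PIdx n m r → ℂ) : Prop :=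
  ∃ (W : (p : Fin m) → Matrix (Fin n) (Fin (r p)) ℂ) (c : ℂ), c ≠ 0 ∧
    (∀ p, LinearIndependent ℂ (W p)ᵀ ∧
      V.F (V.lo + ((p : ℕ) : ℤ)) z = LinearMap.range (W p).mulVecLin) ∧
    v = c • pmin r W

/-- the number of steps of the Hodge flag -/
def len {n : ℕ} (V : PolVHS n) : ℕ := (V.hi - V.lo).toNat

/-- the ranks of the Hodge flag -/
noncomputable def rk {n : ℕ} (V : PolVHS n) (p : Fin (len V)) : ℕ :=
  Module.finrank ℂ (V.F (V.lo + ((p : ℕ) : ℤ)) Complex.I)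

/-- `x` is an eigenvalue with eigenvector `w` of an integral matrix whose rows have `ℓ¹`-norm at
most `B` -/
def Rep {κ : Type} [Fintype κ] (w : κ → ℂ) (B : ℝ) (x : ℂ) : Prop :=
  ∃ X : Matrix κ κ ℤ, ic X *ᵥ w = x • w ∧ ∀ a, ∑ b, |(X a b : ℝ)| ≤ B

/-- `E` is the projector onto `F^p` along the complex conjugate of `F^{wt+1-p}` -/
structure IsPr {n : ℕ} (wt : ℤ) (Fl : ℤ → Submodule ℂ (Fin n → ℂ)) (p : ℤ)
    (E : Matrix (Fin n) (Fin n) ℂ) : Prop where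
  idem : E * E = E
  range : ∀ x, x ∈ Fl p ↔ E *ᵥ x = x
  ker : ∀ x, x ∈ conjSub (Fl (wt + 1 - p)) ↔ E *ᵥ x = 0

end MP2794d1.PC
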