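import Pool.Agent.Lib.MP_2794d1_ag.PC.CA8

/-!
CP7: closure properties of `Rep w B` (eigenvalue of an integral matrix with the fixed eigenvector `w` and row sums at most
`B`): sums, products, integers, determinants. `Rep.add`: `X + Y`. `Rep.mul`: `X * Y` (row sums of a product: compare CB1
`row_mul`; eigenvalues `y x`). `Rep.int`: `a • 1`. `Rep.sum`, `Rep.prod`: induction over the finset. `Rep.det`: the
determinant of an `r × r` matrix of `Rep w B`-numbers, `1 ≤ B`: `Matrix.det_apply`, sum over `r!` permutations of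
`± ∏` of `r` entries. `Rep.polymat`: for an integral matrix `A` with entries at most `h`, `1 ≤ h`, and `Rep w B` numbers
`e j`, `1 ≤ B`, the entries of `∏ j ∈ S, (A - e j)` are `Rep w ((n + 1) * (h + B)) ^ #S`: induction on `S`
(`Finset.induction_on`; the order does not matter since we write it as `aeval (im A) (∏ j ∈ S, (X - C (e j)))`).
-/

namespace MP2794d1.PC

open Matrix Complex

variable {κ : Type} [Fintype κ] [DecidableEq κ]

theorem Rep.add {w : κ → ℂ} {B B' : ℝ} {x y : ℂ} (hx : Rep w B x) (hy : Rep w B' y) :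
    Rep w (B + B') (x + y) := by
  obtain ⟨X, hX, hXr⟩ := hx
  obtain ⟨Y, hY, hYr⟩ := hy
  refine ⟨X + Y, ?_, fun a => ?_⟩
  · have h : ic (X + Y) = ic X + ic Y := by
      unfold ic
      ext i j
      simp
    rw [h, Matrix.add_mulVec, hX, hY, add_smul]
  · calc ∑ b, |((X + Y) a b : ℝ)| ≤ ∑ b, (|(X a b : ℝ)| + |(Y a b : ℝ)|) :=
          Finset.sum_le_sum fun b _ => by
            rw [Matrix.add_apply]
            push_cast
            exact abs_add_le _ _
      _ = ∑ b, |(X a b : ℝ)| + ∑ b, |(Y a b : ℝ)| := Finset.sum_add_distrib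
      _ ≤ B + B' := add_le_add (hXr a) (hYr a)

lemma cp7_row_mul (X Y : Matrix κ κ ℤ) {B B' : ℝ} (hB' : 0 ≤ B')
    (hX : ∀ a, ∑ b, |(X a b : ℝ)| ≤ B) (hY : ∀ a, ∑ b, |(Y a b : ℝ)| ≤ B') :
    ∀ a, ∑ b, |((X * Y) a b : ℝ)| ≤ B * B' := by
  intro a
  calc ∑ b, |((X * Y) a b : ℝ)| ≤ ∑ b, ∑ c, |(X a c : ℝ)| * |(Y c b : ℝ)| := by
        refine Finset.sum_le_sum fun b _ => ?_
        rw [Matrix.mul_apply]
        push_cast
        refine (Finset.abs_sum_le_sum_abs _ _).trans (le_of_eq ?_)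
        exact Finset.sum_congr rfl fun c _ => abs_mul _ _
    _ = ∑ c, |(X a c : ℝ)| * ∑ b, |(Y c b : ℝ)| := by
        rw [Finset.sum_comm]
        exact Finset.sum_congr rfl fun c _ => (Finset.mul_sum _ _ _).symm
    _ ≤ ∑ c, |(X a c : ℝ)| * B' :=
        Finset.sum_le_sum fun c _ => mul_le_mul_of_nonneg_left (hY c) (abs_nonneg _)
    _ = (∑ c, |(X a c : ℝ)|) * B' := (Finset.sum_mul _ _ _).symm
    _ ≤ B * B' := mul_le_mul_of_nonneg_right (hX a) hB'

theorem Rep.mul {w : κ → ℂ} {B B' : ℝ} {x y : ℂ} (hB : 0 ≤ B) (hB' : 0 ≤ B') (hx : Rep w B x)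
    (hy : Rep w B' y) : Rep w (B * B') (x * y) := by
  obtain ⟨X, hX, hXr⟩ := hx
  obtain ⟨Y, hY, hYr⟩ := hy
  refine ⟨X * Y, ?_, cp7_row_mul X Y hB' hXr hYr⟩
  rw [ic_mul, ← Matrix.mulVec_mulVec, hY, Matrix.mulVec_smul, hX, smul_smul, mul_comm]

theorem Rep.int {w : κ → ℂ} (a : ℤ) : Rep w |(a : ℝ)| (a : ℂ) := by
  refine ⟨a • (1 : Matrix κ κ ℤ), ?_, fun i => ?_⟩
  · have h : ic (a • (1 : Matrix κ κ ℤ)) = (a : ℂ) • (1 : Matrix κ κ ℂ) := by
      unfold ic
      ext i j
      simp only [Matrix.map_apply, Matrix.smul_apply, Matrix.one_apply, smul_eq_mul]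
      split_ifs <;> simp
    rw [h, Matrix.smul_mulVec, Matrix.one_mulVec]
  · rw [Finset.sum_eq_single i]
    · simp
    · intro b _ hb
      simp [Matrix.smul_apply, Matrix.one_apply, Ne.symm hb]
    · intro h; exact absurd (Finset.mem_univ i) h

theorem Rep.mono {w : κ → ℂ} {B B' : ℝ} {x : ℂ} (h : B ≤ B') (hx : Rep w B x) : Rep w B' x := by
  obtain ⟨X, hX, hXr⟩ := hx
  exact ⟨X, hX, fun a => (hXr a).trans h⟩

lemma cp7_zero (w : κ → ℂ) : Rep w 0 0 := by
  have h := Rep.int (w := w) 0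
  simpa using h

lemma cp7_one (w : κ → ℂ) : Rep w 1 1 := by
  have h := Rep.int (w := w) 1
  simpa using h

theorem Rep.sum {w : κ → ℂ} {σ : Type} (S : Finset σ) {B : ℝ} {x : σ → ℂ} (hB : 0 ≤ B)
    (hx : ∀ s ∈ S, Rep w B (x s)) : Rep w (S.card * B) (∑ s ∈ S, x s) := by
  classical
  induction S using Finset.induction_on with
  | empty => simpa using cp7_zero w
  | insert s S hs ih =>
    rw [Finset.sum_insert hs, Finset.card_insert_of_notMem hs]
    have h1 := (hx s (Finset.mem_insert_self _ _)).add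
      (ih (fun t ht => hx t (Finset.mem_insert_of_mem ht)))
    refine h1.mono (le_of_eq ?_)
    push_cast
    ring

theorem Rep.prod {w : κ → ℂ} {σ : Type} (S : Finset σ) {B : ℝ} {x : σ → ℂ} (hB : 0 ≤ B)
    (hx : ∀ s ∈ S, Rep w B (x s)) : Rep w (B ^ S.card) (∏ s ∈ S, x s) := by
  classical
  induction S using Finset.induction_on with
  | empty => simpa using cp7_one w
  | insert s S hs ih =>
    rw [Finset.prod_insert hs, Finset.card_insert_of_notMem hs, pow_succ, mul_comm (B ^ _)]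
    exact Rep.mul hB (pow_nonneg hB _) (hx s (Finset.mem_insert_self _ _))
      (ih (fun t ht => hx t (Finset.mem_insert_of_mem ht)))

theorem Rep.det {w : κ → ℂ} {r : ℕ} {B : ℝ} (hB : 0 ≤ B) (A : Matrix (Fin r) (Fin r) ℂ)
    (hA : ∀ i j, Rep w B (A i j)) : Rep w (r.factorial * B ^ r) A.det := by
  rw [Matrix.det_apply']
  have h1 : ∀ σ ∈ (Finset.univ : Finset (Equiv.Perm (Fin r))),
      Rep w (B ^ r) (((Equiv.Perm.sign σ : ℤ) : ℂ) * ∏ i, A (σ i) i) := by
    intro σ _
    have h2 : Rep w (B ^ (Finset.univ : Finset (Fin r)).card) (∏ i, A (σ i) i) :=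
      Rep.prod Finset.univ hB (fun i _ => hA (σ i) i)
    rw [Finset.card_univ, Fintype.card_fin] at h2
    have h3 := Rep.mul (abs_nonneg _) (pow_nonneg hB r) (Rep.int (w := w) (Equiv.Perm.sign σ : ℤ)) h2
    refine h3.mono (le_of_eq ?_)
    have h4 : |(((Equiv.Perm.sign σ : ℤ) : ℝ))| = 1 := by
      rcases Int.units_eq_one_or (Equiv.Perm.sign σ) with h | h <;> rw [h] <;> simp
    rw [h4, one_mul]
  have h5 := Rep.sum Finset.univ (pow_nonneg hB r) h1
  rw [Finset.card_univ, Fintype.card_perm, Fintype.card_fin] at h5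
  exact h5

theorem Rep.polymat {w : κ → ℂ} {n : ℕ} (A : Matrix (Fin n) (Fin n) ℤ) {h B : ℝ} (hh : 1 ≤ h)
    (hB : 1 ≤ B) (hA : ∀ i j, |(A i j : ℝ)| ≤ h) (e : Fin n → ℂ) (he : ∀ j, Rep w B (e j))
    (S : Finset (Fin n)) : ∀ a b, Rep w ((((n : ℝ) + 1) * (h + B)) ^ S.card)
      ((Polynomial.aeval (im A) (∏ j ∈ S, (Polynomial.X - Polynomial.C (e j))) :
        Matrix (Fin n) (Fin n) ℂ) a b) := by
  induction S using Finset.induction_on with
  | empty =>
    intro a b
    rw [Finset.prod_empty, map_one, Finset.card_empty, pow_zero, Matrix.one_apply]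
    split_ifs
    · exact cp7_one w
    · exact (cp7_zero w).mono zero_le_one
  | insert j S hj ih =>
    intro a b
    set K : ℝ := ((n : ℝ) + 1) * (h + B) with hK
    have hK0 : 0 ≤ K := by positivity
    have hKS : 0 ≤ K ^ S.card := pow_nonneg hK0 _
    set M : Matrix (Fin n) (Fin n) ℂ :=
      Polynomial.aeval (im A) (∏ j ∈ S, (Polynomial.X - Polynomial.C (e j))) with hM
    have e1 : (Polynomial.aeval (im A) (∏ j ∈ insert j S, (Polynomial.X - Polynomial.C (e j))) :
        Matrix (Fin n) (Fin n) ℂ) a b = (∑ c, ((A a c : ℤ) : ℂ) * M c b)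
          + ((-1 : ℤ) : ℂ) * e j * M a b := by
      rw [Finset.prod_insert hj, map_mul, map_sub, Polynomial.aeval_X, Polynomial.aeval_C, ← hM,
        sub_mul, Matrix.sub_apply, Matrix.mul_apply, Algebra.algebraMap_eq_smul_one,
        smul_mul_assoc, one_mul, Matrix.smul_apply, smul_eq_mul]
      push_cast
      have : ∀ c, im A a c * M c b = ((A a c : ℤ) : ℂ) * M c b := fun c => rfl
      rw [Finset.sum_congr rfl (fun c _ => this c)]
      ring
    rw [e1, Finset.card_insert_of_notMem hj]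
    have h1 : ∀ c ∈ (Finset.univ : Finset (Fin n)),
        Rep w (h * K ^ S.card) (((A a c : ℤ) : ℂ) * M c b) := fun c _ => by
      refine (Rep.mul (abs_nonneg _) hKS (Rep.int (A a c)) (ih c b)).mono ?_
      exact mul_le_mul_of_nonneg_right (hA a c) hKS
    have h2 := Rep.sum Finset.univ (by positivity) h1
    rw [Finset.card_univ, Fintype.card_fin] at h2
    have h3 : Rep w (B * K ^ S.card) (((-1 : ℤ) : ℂ) * e j * M a b) := by
      have h4 := Rep.mul (by positivity) hKS
        (Rep.mul (abs_nonneg _) (by linarith) (Rep.int (w := w) (-1)) (he j)) (ih a b)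
      refine h4.mono (le_of_eq ?_)
      simp
    refine (h2.add h3).mono ?_
    rw [pow_succ, mul_comm (K ^ S.card) K, hK]
    have hn : (0 : ℝ) ≤ n := Nat.cast_nonneg n
    have : (n : ℝ) * h + B ≤ ((n : ℝ) + 1) * (h + B) := by nlinarith
    calc (n : ℝ) * (h * (((n : ℝ) + 1) * (h + B)) ^ S.card)
          + B * (((n : ℝ) + 1) * (h + B)) ^ S.card
        = ((n : ℝ) * h + B) * (((n : ℝ) + 1) * (h + B)) ^ S.card := by ring
      _ ≤ _ := mul_le_mul_of_nonneg_right this (by rw [← hK]; exact hKS)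

end MP2794d1.PC
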