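import Pool.Agent.Lib.MP_2794d1_ag.PC.CA2
import Pool.Agent.Lib.MP_2794d1_ag.PC.CB2

/-!
CC2: a form with many zeros is small. Let `M` be a lift near `z₁` (`D.L_lift`), `R₀ > 0` such that on `closedBall z₁ R₀`: `0 < im`,
`M` analytic, `D.L z (M z)`, `m ≤ ‖M z‖ ≤ M'`, `0 < m`. Put `δ = R₀ / 5`, `W = max 1 (M' / m)`. `f z = hp k c (M z ∘ α)` is
differentiable on `ball z₁ R₀`, `‖f‖ ≤ (k + 1) ^ 2 A M' ^ (2 k)` (`hp_form`), and vanishes at the points of `S`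
(`v = a • M z`, `a ≠ 0` as `v ≠ 0`, `hp_smul`). `zeros_schwarz` (CA2) with `r = δ`, `R = R₀`. For `D.L z v`: `v = a • M z`,
`‖a‖ ≤ ‖v‖ / m`, so `‖hp k c (v ∘ α)‖ = ‖a‖ ^ (2 k) ‖f z‖ ≤ (M' / m) ^ (2 k) (k + 1) ^ 2 A (1/2) ^ #S ‖v‖ ^ (2 k)`.
-/

namespace MP2794d1.PC

open Matrix Complex

variable {Γ : Subgroup (Matrix.SpecialLinearGroup (Fin 2) ℝ)} {ι : Type} [Fintype ι]
  [DecidableEq ι]

theorem schwarz_hp (D : Datum Γ ι) (α : Fin 3 → ι) (z₁ : ℂ) (h₁ : 0 < z₁.im) :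
    ∃ δ : ℝ, 0 < δ ∧ (∀ z ∈ Metric.ball z₁ δ, 0 < z.im) ∧ ∃ W : ℝ, 1 ≤ W ∧
      ∀ (k : ℕ) (c : Fin (k + 1) → Fin (k + 1) → ℤ) (A : ℝ), 0 ≤ A → (∀ i j, |(c i j : ℝ)| ≤ A) →
      ∀ S : Finset ℂ, (∀ z ∈ S, z ∈ Metric.ball z₁ δ ∧ ∃ v, D.L z v ∧ hp k c (v ∘ α) = 0) →
      ∀ z ∈ Metric.ball z₁ δ, ∀ v, D.L z v →
        ‖hp k c (v ∘ α)‖ ≤ (W ^ (2 * k) * (((k : ℝ) + 1) ^ 2 * A) * (1 / 2) ^ S.card) *
          ‖v‖ ^ (2 * k) := by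
  obtain ⟨M, hM, hLM⟩ := D.L_lift z₁ h₁
  have hLz : D.L z₁ (M z₁) := hLM.self_of_nhds
  have hM0 : M z₁ ≠ 0 := D.L_ne z₁ _ h₁ hLz
  have hn0 : 0 < ‖M z₁‖ := norm_pos_iff.mpr hM0
  have hcont : ContinuousAt M z₁ := continuousAt_pi.mpr fun i => (hM i).continuousAt
  have e1 : ∀ᶠ z in nhds z₁, ∀ i, AnalyticAt ℂ (fun z => M z i) z :=
    Filter.eventually_all.mpr fun i => (hM i).eventually_analyticAt
  have e2 : ∀ᶠ z in nhds z₁, ‖M z₁‖ / 2 < ‖M z‖ :=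
    hcont.norm.eventually_const_lt (by simp only; linarith)
  have e3 : ∀ᶠ z in nhds z₁, ‖M z‖ < 2 * ‖M z₁‖ :=
    hcont.norm.eventually_lt_const (by simp only; linarith)
  have e4 : ∀ᶠ z : ℂ in nhds z₁, 0 < z.im :=
    Complex.continuous_im.continuousAt.eventually_const_lt h₁
  obtain ⟨R₀, hR₀, hball⟩ := Metric.eventually_nhds_iff_ball.mp
    (hLM.and (e1.and (e2.and (e3.and e4))))
  have hsub : Metric.ball z₁ (R₀ / 5) ⊆ Metric.ball z₁ R₀ := Metric.ball_subset_ball (by linarith)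
  refine ⟨R₀ / 5, by positivity, fun z hz => (hball z (hsub hz)).2.2.2.2, 4, by norm_num, ?_⟩
  intro k c A hA hc S hS z hz v hv
  have hF := hp_form k c hc α
  set f : ℂ → ℂ := fun z => hp k c (M z ∘ α) with hf
  have hfd : DifferentiableOn ℂ f (Metric.ball z₁ R₀) := by
    intro w hw
    have h1 : DifferentiableAt ℂ M w :=
      differentiableAt_pi.mpr fun i => ((hball w hw).2.1 i).differentiableAt
    exact (DifferentiableAt.comp w hF.diff.differentiableAt h1).differentiableWithinAt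
  have hbd : ∀ w ∈ Metric.ball z₁ R₀, ‖f w‖ ≤ ((k : ℝ) + 1) ^ 2 * A * (2 * ‖M z₁‖) ^ (2 * k) := by
    intro w hw
    refine (hF.bd (M w)).trans ?_
    have := (hball w hw).2.2.2.1.le
    gcongr
  have hz0 : ∀ w ∈ S, f w = 0 := by
    intro w hw
    obtain ⟨hw1, u, hu, hu0⟩ := hS w hw
    have hwi := (hball w (hsub hw1)).2.2.2.2
    obtain ⟨a, ha⟩ := D.L_uniq w (M w) u hwi (hball w (hsub hw1)).1 hu
    have ha0 : a ≠ 0 := by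
      rintro rfl
      exact D.L_ne w u hwi hu (by simpa using ha)
    have h2 := hF.hom a (M w)
    rw [← ha, hu0] at h2
    rcases mul_eq_zero.mp h2.symm with h3 | h3
    · exact absurd h3 (pow_ne_zero _ ha0)
    · exact h3
  have key := zeros_schwarz z₁ (R₀ / 5) R₀ (by positivity) (by linarith) S
    (fun w hw => Metric.ball_subset_closedBall (hS w hw).1) f hfd _ hbd hz0 z
    (Metric.ball_subset_closedBall hz)
  have hzi := (hball z (hsub hz)).2.2.2.2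
  obtain ⟨a, ha⟩ := D.L_uniq z (M z) v hzi (hball z (hsub hz)).1 hv
  have hnv : ‖v‖ = ‖a‖ * ‖M z‖ := by rw [ha, norm_smul]
  have hMz := (hball z (hsub hz)).2.2.1.le
  have h4 : ‖a‖ * (2 * ‖M z₁‖) ≤ 4 * ‖v‖ := by
    rw [hnv]
    nlinarith [norm_nonneg a]
  have h5 : ‖hp k c (v ∘ α)‖ = ‖a‖ ^ (2 * k) * ‖f z‖ := by
    have h2 := hF.hom a (M z)
    rw [← ha] at h2
    rw [h2, norm_mul, norm_pow]
  calc ‖hp k c (v ∘ α)‖ = ‖a‖ ^ (2 * k) * ‖f z‖ := h5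
    _ ≤ ‖a‖ ^ (2 * k) * (((k : ℝ) + 1) ^ 2 * A * (2 * ‖M z₁‖) ^ (2 * k) * (1 / 2) ^ S.card) :=
        mul_le_mul_of_nonneg_left key (by positivity)
    _ = (‖a‖ * (2 * ‖M z₁‖)) ^ (2 * k) * (((k : ℝ) + 1) ^ 2 * A * (1 / 2) ^ S.card) := by
        rw [mul_pow]; ring
    _ ≤ (4 * ‖v‖) ^ (2 * k) * (((k : ℝ) + 1) ^ 2 * A * (1 / 2) ^ S.card) := by
        gcongr
    _ = _ := by rw [mul_pow]; ring

end MP2794d1.PC
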