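import Pool.Agent.Lib.MP_2794d1_ag.PC.CB3
import Pool.Agent.Lib.MP_2794d1_ag.PC.CC2
import Pool.Agent.Lib.MP_2794d1_ag.PC.CC3

/-!
CC4: the local count. `δ, W` from `schwarz_hp`, `ν = card κ` (if `κ` is empty then `IntRep` is impossible and `S` is empty),
`K₀` from `num_extrap ν W`, `k = ⌈K₀ log B⌉₊ + 1` (so `1 ≤ k ≤ K₁ log B`, `K₁ = K₀ + 4`, as `2 ≤ 4 log 2`),
`n = (k + 1) ^ 2 / (2 ν ^ 2)` (natural division), so `2 n ν ^ 2 ≤ (k + 1) ^ 2 < 2 ν ^ 2 (n + 1)`.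
If `#S ≤ n`: `#S ≤ (k + 1) ^ 2 ≤ C (log B) ^ 2 ≤ C' (log B) ^ 6`. Otherwise let `S₁ ⊆ S`, `#S₁ = n`; choose vectors `v z` for
`z ∈ S`; `siegel_hp` for `S₁` gives `c ≠ 0`, `|c| ≤ A = (k + 1) ^ 2 B ^ (2 k)`, vanishing at `S₁`. For `z ∈ S`: if
`y = hp k c (v z ∘ α) ≠ 0` then `schwarz_hp` and `‖v z‖ ≤ ν B` (`IntRep.norm_le`, `pi_norm_le_iff_of_nonneg`) give
`‖y‖ ≤ W ^ (2 k) (k + 1) ^ 2 A (1/2) ^ n (ν B) ^ (2 k)`, and `liouville_hp` gives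
`1 ≤ ‖y‖ (ν ((k + 1) ^ 2 A B ^ (2 k)) + 1) ^ ν`, contradicting `num_extrap`. So all the points of `S` are zeros, `schwarz_hp` with
`S` gives the smallness `ε = W ^ (2 k) (k + 1) ^ 2 A (1/2) ^ #S` on `ball z₁ δ`, `SLB` (with `δ₁ = δ`) gives the lower bound
for `ε`, and `num_final` gives `#S ≤ C' (log B) ^ 6`.
-/

namespace MP2794d1.PC

open Matrix Complex

variable {Γ : Subgroup (Matrix.SpecialLinearGroup (Fin 2) ℝ)} {ι : Type} [Fintype ι]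
  [DecidableEq ι]

theorem local_count (D : Datum Γ ι) {κ : Type} [Fintype κ] (α : Fin 3 → ι) (hs : SLB D α) (z₁ : ℂ)
    (h₁ : 0 < z₁.im) : ∃ δ : ℝ, 0 < δ ∧ ∃ C : ℝ, 0 < C ∧ ∀ B : ℝ, 2 ≤ B → ∀ S : Finset ℂ,
      (∀ z ∈ S, z ∈ Metric.ball z₁ δ ∧ ∃ v, D.L z v ∧ IntRep κ B v) →
      (S.card : ℝ) ≤ C * Real.log B ^ 6 := by
  classical
  obtain ⟨δ, hδ, him, W, hW, hsch⟩ := schwarz_hp D α z₁ h₁
  obtain ⟨Cs, hCs, hslb⟩ := hs z₁ h₁ δ hδ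
  refine ⟨δ, hδ, ?_⟩
  rcases isEmpty_or_nonempty κ with hκ | hκ
  · refine ⟨1, one_pos, ?_⟩
    intro B hB S hS
    have hS0 : S = ∅ := by
      rw [Finset.eq_empty_iff_forall_notMem]
      intro z hz
      obtain ⟨_, v, _, X, w, hw, _⟩ := hS z hz
      exact hw (Subsingleton.elim _ _)
    rw [hS0]
    have : 0 < Real.log B := Real.log_pos (by linarith)
    simp only [Finset.card_empty, Nat.cast_zero]
    positivity
  have hν : 1 ≤ Fintype.card κ := Fintype.card_pos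
  set ν := Fintype.card κ with hνd
  obtain ⟨K₀, hK₀, hext⟩ := num_extrap ν hν W hW
  set K₁ : ℝ := K₀ + 4 with hK₁
  obtain ⟨C', hC', hfin⟩ := num_final K₁ W Cs (by linarith) hW hCs
  refine ⟨C' + 64 * K₁ ^ 2, by positivity, ?_⟩
  intro B hB S hS
  have hL := CC3_logB hB
  set L := Real.log B with hLd
  set k : ℕ := ⌈K₀ * L⌉₊ + 1 with hk
  have hk1 : 1 ≤ k := by omega
  have hkL : K₀ * L ≤ k := by
    have := Nat.le_ceil (K₀ * L)
    rw [hk]; push_cast; linarith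
  have hkU : (k : ℝ) ≤ K₁ * L := by
    have := Nat.ceil_lt_add_one (show 0 ≤ K₀ * L by positivity)
    rw [hk, hK₁]; push_cast; linarith
  set n : ℕ := (k + 1) ^ 2 / (2 * ν ^ 2) with hn
  have hν2 : 0 < 2 * ν ^ 2 := by positivity
  have hn1 : n * (2 * ν ^ 2) ≤ (k + 1) ^ 2 := Nat.div_mul_le_self _ _
  have hn2 : (k + 1) ^ 2 < 2 * ν ^ 2 * (n + 1) := Nat.lt_mul_div_succ _ hν2
  have hL6 : 0 < L ^ 6 := by positivity
  rcases le_or_gt S.card n with hSn | hSn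
  · have h1 : (S.card : ℝ) ≤ ((k : ℝ) + 1) ^ 2 := by
      have : S.card ≤ (k + 1) ^ 2 := hSn.trans (Nat.div_le_self _ _)
      exact_mod_cast this
    have hk1' : (1 : ℝ) ≤ k := by exact_mod_cast hk1
    have h2 : ((k : ℝ) + 1) ^ 2 ≤ (2 * (K₁ * L)) ^ 2 := by
      apply pow_le_pow_left₀ (by positivity); linarith
    have hL4 : 1 ≤ 16 * L ^ 4 := by
      have : (1 : ℝ) ≤ (2 * L) ^ 4 := one_le_pow₀ (by linarith)
      calc (1 : ℝ) ≤ (2 * L) ^ 4 := this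
        _ = _ := by ring
    calc (S.card : ℝ) ≤ (2 * (K₁ * L)) ^ 2 * 1 := by linarith
      _ ≤ (2 * (K₁ * L)) ^ 2 * (16 * L ^ 4) := mul_le_mul_of_nonneg_left hL4 (by positivity)
      _ = 64 * K₁ ^ 2 * L ^ 6 := by ring
      _ ≤ (C' + 64 * K₁ ^ 2) * L ^ 6 := by
          apply mul_le_mul_of_nonneg_right _ hL6.le; linarith
  obtain ⟨S₁, hS₁, hS₁c⟩ := Finset.exists_subset_card_eq hSn.le
  have hex : ∀ z : ℂ, ∃ v : ι → ℂ, z ∈ S → D.L z v ∧ IntRep κ B v := by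
    intro z
    by_cases hz : z ∈ S
    · obtain ⟨_, v, hv⟩ := hS z hz
      exact ⟨v, fun _ => hv⟩
    · exact ⟨0, fun h => absurd h hz⟩
  choose v hv using hex
  obtain ⟨c, hc, hcA, hc0⟩ := siegel_hp α S₁ v (by linarith : (1 : ℝ) ≤ B)
    (fun s hs => (hv s (hS₁ hs)).2) k (by rw [hS₁c, ← hνd]; linarith)
  set A : ℝ := ((k : ℝ) + 1) ^ 2 * B ^ (2 * k) with hA
  have hA1 : 1 ≤ A := by
    have h1 : (1 : ℝ) ≤ ((k : ℝ) + 1) ^ 2 :=
      one_le_pow₀ (by have : (0 : ℝ) ≤ k := Nat.cast_nonneg k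
                      linarith)
    have h2 : (1 : ℝ) ≤ B ^ (2 * k) := one_le_pow₀ (by linarith)
    calc (1 : ℝ) = 1 * 1 := by ring
      _ ≤ _ := mul_le_mul h1 h2 (by norm_num) (by positivity)
  have hA0 : 0 ≤ A := by linarith
  have hB0 : 0 ≤ B := by linarith
  have hall : ∀ z ∈ S, hp k c (v z ∘ α) = 0 := by
    intro z hz
    by_contra hne
    have g1 := hsch k c A hA0 hcA S₁ (fun w hw => ⟨(hS w (hS₁ hw)).1, v w, (hv w (hS₁ hw)).1,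
      hc0 w hw⟩) z (hS z hz).1 (v z) (hv z hz).1
    have g2 : ‖v z‖ ≤ (ν : ℝ) * B :=
      (pi_norm_le_iff_of_nonneg (by positivity)).mpr fun i => (hv z hz).2.norm_le i
    have g3 := liouville_hp k c hA0 hB0 hcA (v z) (hv z hz).2 α hne
    have g4 := hext B hB k n hk1 hkL hn2
    rw [← hA] at g4
    rw [← hνd] at g3
    rw [hS₁c] at g1
    have g5 : ‖v z‖ ^ (2 * k) ≤ ((ν : ℝ) * B) ^ (2 * k) :=
      pow_le_pow_left₀ (norm_nonneg _) g2 _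
    have hW0 : 0 ≤ W := by linarith
    have g6 : 1 ≤ (W ^ (2 * k) * (((k : ℝ) + 1) ^ 2 * A) * (1 / 2) ^ n) *
        ((ν : ℝ) * B) ^ (2 * k) * ((ν : ℝ) * (((k : ℝ) + 1) ^ 2 * A * B ^ (2 * k)) + 1) ^ ν := by
      refine g3.trans (mul_le_mul_of_nonneg_right ?_ (by positivity))
      exact g1.trans (mul_le_mul_of_nonneg_left g5 (by positivity))
    linarith
  have hW0 : 0 ≤ W := by linarith
  have hsm := hsch k c A hA0 hcA S (fun w hw => ⟨(hS w hw).1, v w, (hv w hw).1, hall w hw⟩)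
  have hlow := hslb k hk1 c hc A hA1 hcA
    (W ^ (2 * k) * (((k : ℝ) + 1) ^ 2 * A) * (1 / 2) ^ S.card) (by positivity)
    (fun z hz _ u hu => hsm z hz u hu)
  have := hfin B hB k S.card hk1 hkU hlow
  calc (S.card : ℝ) ≤ C' * L ^ 6 := this
    _ ≤ (C' + 64 * K₁ ^ 2) * L ^ 6 := by
        apply mul_le_mul_of_nonneg_right _ hL6.le
        have : 0 ≤ K₁ ^ 2 := by positivity
        linarith

end MP2794d1.PC
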