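import Pool.Agent.Lib.MP_2794d1_ag.PC.Defs
import Pool.Agent.Lib.MP_2794d1_ag.E04
import Pool.Agent.Lib.MP_2794d1_ag.E05
import Pool.Agent.Lib.MP_2794d1_ag.H01
import Pool.Agent.Lib.MP_2794d1_ag.S10

/-!
CH1: `gr_mem`: the Hodge grading is in `cx (genericMT V)`: by `mem_cx_iff` (H01) it suffices that `μ.map l ∈ genericMT V` for
all `l : ℂ →ₗ[ℚ] ℚ`; `genericMT V` is an `sInf` and `μ ∈ cx m` for every `m` of the family, so `μ.map l ∈ m` by `mem_cx_iff`
again (`Submodule.mem_sInf`). (`S10` has `S10_grading_eq`: `IsGrading V z μ` and `IsGr` have the same solutions;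
`IsGr V.wt (fun p => V.F p z) μ` unfolds to `IsGrading V z μ`.)
`mt_line`: let `X ∈ genericMT V`, `X = Y + (X - Y)` with `Y` in the span of the `c.conj g` and `X - Y` commuting with
`genericMT V`. `cm Y - b • cm c.N ∈ FEnd 0` for some `b` (`Submodule.span_induction` and `hdep`). `cm (X - Y)` commutes with
`cm X'` for `X' ∈ genericMT V`, hence with `cx (genericMT V)` (`Submodule.span_induction`), hence with the grading `μ`
(`exists_gr` E01, `gr_mem`), so it is in `FEnd 0` by `FEnd0_of_comm` (E05).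
`mt_line_cx`: the same for all of `cx (genericMT V)` by `Submodule.span_induction`.
-/

namespace MP2794d1.PC

open Matrix Complex Filter Topology

theorem gr_mem {n : ℕ} (V : PolVHS n) (z : ℂ) (hz : 0 < z.im) (μ : Matrix (Fin n) (Fin n) ℂ)
    (hμ : IsGr V.wt (fun p => V.F p z) μ) :
    μ ∈ cx (genericMT V : Set (Matrix (Fin n) (Fin n) ℚ)) := by
  rw [mem_cx_iff]
  intro l
  unfold genericMT
  rw [Submodule.mem_sInf]
  intro m hm
  exact (mem_cx_iff m μ).1 (hm.2 z hz μ (fun p x hx => hμ p x hx)) l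

theorem CH1_cm_mul {n : ℕ} (X Y : Matrix (Fin n) (Fin n) ℚ) : cm (X * Y) = cm X * cm Y := by
  unfold cm
  exact Matrix.map_mul (f := Rat.castHom ℂ)

theorem CH1_cm_sub {n : ℕ} (X Y : Matrix (Fin n) (Fin n) ℚ) : cm (X - Y) = cm X - cm Y := by
  ext i j
  simp [cm]

theorem CH1_cm_add {n : ℕ} (X Y : Matrix (Fin n) (Fin n) ℚ) : cm (X + Y) = cm X + cm Y := by
  ext i j
  simp [cm]

theorem CH1_cm_smul {n : ℕ} (q : ℚ) (Y : Matrix (Fin n) (Fin n) ℚ) :
    cm (q • Y) = (q : ℂ) • cm Y := by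
  ext i j
  simp [cm]

theorem mt_line {n : ℕ} (V : PolVHS n) (c : Cusp V)
    (hgen : ∀ X ∈ genericMT V, ∃ Y ∈ Submodule.span ℚ (Set.range c.conj),
      ∀ X' ∈ genericMT V, (X - Y) * X' = X' * (X - Y))
    (z : ℂ) (hz : 0 < z.im)
    (hdep : ∀ g : V.grp, ∃ b : ℂ, cm (c.conj g) - b • cm c.N ∈ FEnd (fun p => V.F p z) 0)
    (X : Matrix (Fin n) (Fin n) ℚ) (hX : X ∈ genericMT V) :
    ∃ b : ℂ, cm X - b • cm c.N ∈ FEnd (fun p => V.F p z) 0 := by
  obtain ⟨Y, hY, hc⟩ := hgen X hX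
  have h1 : ∃ b : ℂ, cm Y - b • cm c.N ∈ FEnd (fun p => V.F p z) 0 := by
    clear hc
    induction hY using Submodule.span_induction with
    | mem Y hY =>
      obtain ⟨g, rfl⟩ := hY
      exact hdep g
    | zero =>
      refine ⟨0, ?_⟩
      have : cm (0 : Matrix (Fin n) (Fin n) ℚ) - (0 : ℂ) • cm c.N = 0 := by
        ext i j
        simp [cm]
      rw [this]
      exact Submodule.zero_mem _
    | add A B _ _ hA hB =>
      obtain ⟨a, ha⟩ := hA
      obtain ⟨b, hb⟩ := hB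
      refine ⟨a + b, ?_⟩
      have : cm (A + B) - (a + b) • cm c.N = (cm A - a • cm c.N) + (cm B - b • cm c.N) := by
        rw [CH1_cm_add, add_smul]
        abel
      rw [this]
      exact Submodule.add_mem _ ha hb
    | smul q A _ hA =>
      obtain ⟨a, ha⟩ := hA
      refine ⟨(q : ℂ) * a, ?_⟩
      have : cm (q • A) - ((q : ℂ) * a) • cm c.N = (q : ℂ) • (cm A - a • cm c.N) := by
        rw [CH1_cm_smul, smul_sub, smul_smul]
      rw [this]
      exact Submodule.smul_mem _ _ ha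
  obtain ⟨b, hb⟩ := h1
  obtain ⟨μ, hμ⟩ := exists_gr (V.phs z hz)
  have hμm := gr_mem V z hz μ hμ
  have h2 : ∀ M ∈ cx (genericMT V : Set (Matrix (Fin n) (Fin n) ℚ)),
      M * cm (X - Y) = cm (X - Y) * M := by
    intro M hM
    unfold cx at hM
    induction hM using Submodule.span_induction with
    | mem M hM =>
      obtain ⟨Z, hZ, rfl⟩ := hM
      rw [← CH1_cm_mul, ← CH1_cm_mul, hc Z hZ]
    | zero => simp
    | add A B _ _ hA hB => rw [add_mul, mul_add, hA, hB]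
    | smul a A _ hA => rw [smul_mul_assoc, mul_smul_comm, hA]
  have h3 : cm (X - Y) ∈ FEnd (fun p => V.F p z) 0 := by
    apply FEnd0_of_comm (V.phs z hz) hμ
    unfold br
    rw [h2 μ hμm, sub_self]
  refine ⟨b, ?_⟩
  have : cm X - b • cm c.N = cm (X - Y) + (cm Y - b • cm c.N) := by
    rw [CH1_cm_sub]
    abel
  rw [this]
  exact Submodule.add_mem _ h3 hb

theorem mt_line_cx {n : ℕ} (V : PolVHS n) (c : Cusp V)
    (hgen : ∀ X ∈ genericMT V, ∃ Y ∈ Submodule.span ℚ (Set.range c.conj),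
      ∀ X' ∈ genericMT V, (X - Y) * X' = X' * (X - Y))
    (z : ℂ) (hz : 0 < z.im)
    (hdep : ∀ g : V.grp, ∃ b : ℂ, cm (c.conj g) - b • cm c.N ∈ FEnd (fun p => V.F p z) 0)
    (X : Matrix (Fin n) (Fin n) ℂ)
    (hX : X ∈ cx (genericMT V : Set (Matrix (Fin n) (Fin n) ℚ))) :
    ∃ b : ℂ, X - b • cm c.N ∈ FEnd (fun p => V.F p z) 0 := by
  unfold cx at hX
  induction hX using Submodule.span_induction with
  | mem M hM =>
    obtain ⟨Z, hZ, rfl⟩ := hM
    exact mt_line V c hgen z hz hdep Z hZ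
  | zero =>
    refine ⟨0, ?_⟩
    rw [zero_smul, sub_zero]
    exact Submodule.zero_mem _
  | add A B _ _ hA hB =>
    obtain ⟨a, ha⟩ := hA
    obtain ⟨b, hb⟩ := hB
    refine ⟨a + b, ?_⟩
    have : (A + B) - (a + b) • cm c.N = (A - a • cm c.N) + (B - b • cm c.N) := by
      rw [add_smul]
      abel
    rw [this]
    exact Submodule.add_mem _ ha hb
  | smul q A _ hA =>
    obtain ⟨a, ha⟩ := hA
    refine ⟨q * a, ?_⟩
    have : (q • A) - (q * a) • cm c.N = q • (A - a • cm c.N) := by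
      rw [smul_sub, smul_smul]
    rw [this]
    exact Submodule.smul_mem _ _ ha

end MP2794d1.PC
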