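import Pool.Agent.Lib.MP_2794d1_ag.PC.CP2
import Pool.Agent.Lib.MP_2794d1_ag.F08

/-!
CP4: equivariance. If `V.F (lo + p) z` is the range of `W p`, then `V.F (lo + p) (mob g z)` is its image under
`im (V.rho g)` (`V.equiv`), i.e. the range of `im (V.rho g) * W p` (`Matrix.mulVecLin_mul`, `LinearMap.range_comp`), whose
columns are independent because `im (V.rho g)` is invertible (`F08_rho`). `pmin_mul` (CP1), `Matrix.mulVec_smul`.
`rhoZ`: the monoid homomorphism `g ↦ ptZ r (V.rho g)`.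
-/

namespace MP2794d1.PC

open Matrix Complex

/-- the representation of the group on the products of tensor powers -/
def rhoZ {n m : ℕ} (V : PolVHS n) (r : Fin m → ℕ) (h1 : ptZ r (1 : Matrix (Fin n) (Fin n) ℤ) = 1)
    (h2 : ∀ A B : Matrix (Fin n) (Fin n) ℤ, ptZ r (A * B) = ptZ r A * ptZ r B) :
    V.grp →* Matrix (PIdx n m r) (PIdx n m r) ℤ where
  toFun g := ptZ r (V.rho g : Matrix (Fin n) (Fin n) ℤ)
  map_one' := by
    rw [map_one]
    exact h1
  map_mul' g h := by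
    rw [map_mul]
    exact h2 _ _

theorem CP4_ind {n r : ℕ} (A A' : Matrix (Fin n) (Fin n) ℂ) (h : A' * A = 1)
    (W : Matrix (Fin n) (Fin r) ℂ) (hW : LinearIndependent ℂ Wᵀ) :
    LinearIndependent ℂ (A * W)ᵀ := by
  have h1 : Function.Injective W.mulVec := by
    rw [Matrix.mulVec_injective_iff]
    exact hW
  have h2 : Function.Injective (A * W).mulVec := by
    intro x y hxy
    apply h1
    have h3 : A' *ᵥ ((A * W) *ᵥ x) = A' *ᵥ ((A * W) *ᵥ y) := congrArg _ hxy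
    rw [Matrix.mulVec_mulVec, Matrix.mulVec_mulVec, ← Matrix.mul_assoc, h, Matrix.one_mul] at h3
    exact h3
  rw [Matrix.mulVec_injective_iff] at h2
  exact h2

theorem PL_equiv {n : ℕ} (V : PolVHS n) (m : ℕ) (r : Fin m → ℕ) (g : V.grp) (z : ℂ) (hz : 0 < z.im)
    (v : PIdx n m r → ℂ) (h : PL V m r z v) :
    PL V m r (mob g z) (pt r (im (V.rho g : Matrix (Fin n) (Fin n) ℤ)) *ᵥ v) := by
  obtain ⟨W, c, hc, hW, rfl⟩ := h
  refine ⟨fun p => im (V.rho g : Matrix (Fin n) (Fin n) ℤ) * W p, c, hc, fun p => ⟨?_, ?_⟩, ?_⟩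
  · exact CP4_ind _ _ (F08_rho V g).2 (W p) (hW p).1
  · rw [V.equiv g _ z hz, (hW p).2, Matrix.mulVecLin_mul, LinearMap.range_comp]
  · rw [pmin_mul, Matrix.mulVec_smul]

end MP2794d1.PC
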