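import Pool.Agent.Lib.MP_2794d1_ag.PC.CH5
import Pool.Agent.Lib.MP_2794d1_ag.F03
import Pool.Agent.Lib.MP_2794d1_ag.F05
import Pool.Agent.Lib.MP_2794d1_ag.G02
import Pool.Agent.Lib.MP_2794d1_ag.S03

/-!
CH6: `N` is in `FEnd (-1)` at every point. Step 1: some velocity is not zero. Otherwise `Vel V (cm c.N) z 0` for all `z` (the
hypothesis `hv` gives `b`; if every possible `b` is `0` ...), so `const_of_vel` (CH5) applies (`0 • _ = 0`) and `V.F p` is
constant on the half plane. `V.equiv c.T` and `c.T_eq`, `c.exp_eq`: `V.F p z = V.F p (z + 1) = (V.F p z).map (uexp N 1)`, so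
`uexp N 1` preserves `V.F p z`, hence `uexp N m` for all `m : ℕ` (`uexp_add`), hence (the defect is a polynomial in `m` with
infinitely many zeros; `proj_mem_iff`/`Submodule` with a linear form; or `jet`-type lemma; see the proof of `S01_all` and `G02`)
`uexp N s` for all `s : ℂ`, so `N` preserves `V.F p z` (`mem_of_uexp_mem`, G02): `cm c.N ∈ FEnd 0`, against `N_not_mem` (S03).
Step 2: let `Vel V (cm c.N) z₀ b₀` with `b₀ ≠ 0`. With the projectors `P p` of `f04_proj` at `z₀`, `f05_vel` at points `z` near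
`z₀`: `Vel V N z b ↔ ∀ p, (1 - P p) * D P p * P p = b • (1 - P p) N P p`. At `z₀` the left side is not zero for some `p, i, j`
(`N ∉ FEnd 0` so `(1 - P p) N P p ≠ 0` for some `p ∈ Icc lo hi` by `f04_mem`), so by continuity (analytic entries; `f05_D` has
the derivatives as entries, which are analytic: `AnalyticAt.deriv`) it is not zero near `z₀`, and there `b z ≠ 0`.
Step 3: on that open ball `U`: for `x ∈ V.F p z`, `p ∈ Icc lo hi`, the section `s y = P p y *ᵥ x` has `s z = x`,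
`s' ∈ V.F (p - 1) z` (Griffiths), `s' - b • (N *ᵥ x) ∈ V.F p z ≤ V.F (p - 1) z`, so `N *ᵥ x ∈ V.F (p - 1) z` (for `p ∉ Icc lo hi`:
`f04_top`, `f04_bot`). `cont_map` (F03) with the constant family `N` and the indices `p, p - 1` extends this to all `z`.
-/

namespace MP2794d1.PC

open Matrix Complex Filter Topology

theorem CH6_uexp_all {n : ℕ} (N : Matrix (Fin n) (Fin n) ℂ)
    (W : Submodule ℂ (Fin n → ℂ)) (x : Fin n → ℂ) (h : ∀ m : ℕ, uexp N (m : ℂ) *ᵥ x ∈ W) (s : ℂ) :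
    uexp N s *ᵥ x ∈ W := by
  classical
  by_contra hno
  obtain ⟨φ, hφ1, hφ2⟩ := Submodule.exists_dual_map_eq_bot_of_notMem hno inferInstance
  have hφ3 : ∀ w ∈ W, φ w = 0 := by
    intro w hw
    have : φ w ∈ W.map φ := Submodule.mem_map_of_mem hw
    rw [hφ2] at this
    exact (Submodule.mem_bot ℂ).1 this
  set p : Polynomial ℂ := ∑ j ∈ Finset.range n,
    Polynomial.C (φ (N ^ j *ᵥ x) * (j.factorial : ℂ)⁻¹) * Polynomial.X ^ j with hp
  have hev : ∀ s, p.eval s = φ (uexp N s *ᵥ x) := by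
    intro s
    have h1 : uexp N s *ᵥ x = ∑ j ∈ Finset.range n, (s ^ j / (j.factorial : ℂ)) • (N ^ j *ᵥ x) := by
      unfold uexp
      rw [Matrix.sum_mulVec]
      exact Finset.sum_congr rfl (fun j _ => Matrix.smul_mulVec _ _ _)
    rw [h1, hp]
    simp only [map_sum, map_smul, Polynomial.eval_finsetSum, Polynomial.eval_mul, Polynomial.eval_C,
      Polynomial.eval_pow, Polynomial.eval_X, smul_eq_mul]
    exact Finset.sum_congr rfl (fun j _ => by ring)
  have hp0 : p = 0 := by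
    refine Polynomial.eq_zero_of_infinite_isRoot p
      ((Set.infinite_range_of_injective (Nat.cast_injective (R := ℂ))).mono ?_)
    rintro _ ⟨m, rfl⟩
    change p.IsRoot (m : ℂ)
    rw [Polynomial.IsRoot, hev]
    exact hφ3 _ (h m)
  apply hφ1
  rw [← hev, hp0, Polynomial.eval_zero]

/-- some velocity does not vanish -/
theorem CH6_ne {n : ℕ} (V : PolVHS n) (c : Cusp V) (hN : c.N ≠ 0)
    (hv : ∀ z : ℂ, 0 < z.im → ∃ b : ℂ, Vel V (cm c.N) z b) :
    ∃ z : ℂ, 0 < z.im ∧ ∃ b : ℂ, b ≠ 0 ∧ Vel V (cm c.N) z b := by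
  by_contra hcon
  push Not at hcon
  have h0 : ∀ z : ℂ, 0 < z.im → Vel V (cm c.N) z 0 := by
    intro z hz
    obtain ⟨b, hb⟩ := hv z hz
    by_cases hb0 : b = 0
    · rwa [hb0] at hb
    · exact absurd hb (hcon z hz b hb0)
  have hcst := const_of_vel V (by
    intro z hz p s hs hmem
    have h1 := h0 z hz p s hs hmem
    rw [zero_smul, sub_zero] at h1
    exact h1)
  have hnil := cm_pow c.N c.nil
  have hI : (0 : ℝ) < Complex.I.im := by
    rw [Complex.I_im]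
    exact one_pos
  have hI2 : (0 : ℝ) < (Complex.I + 1).im := by
    rw [Complex.add_im, Complex.I_im, Complex.one_im, add_zero]
    exact one_pos
  have hstep : ∀ p, ∀ x ∈ V.F p Complex.I, uexp (cm c.N) 1 *ᵥ x ∈ V.F p Complex.I := by
    intro p x hx
    have h1 := V.equiv c.T p Complex.I hI
    rw [c.T_eq, c.exp_eq, hcst (Complex.I + 1) Complex.I hI2 hI p] at h1
    rw [h1]
    exact ⟨x, hx, rfl⟩
  have hnat : ∀ p, ∀ x ∈ V.F p Complex.I, ∀ m : ℕ,
      uexp (cm c.N) (m : ℂ) *ᵥ x ∈ V.F p Complex.I := by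
    intro p x hx m
    induction m with
    | zero =>
      rw [Nat.cast_zero, uexp_zero, Matrix.one_mulVec]
      exact hx
    | succ m ih =>
      rw [Nat.cast_add, Nat.cast_one, add_comm, uexp_add _ hnil, ← Matrix.mulVec_mulVec]
      exact hstep p _ ih
  refine N_not_mem V c hN Complex.I hI ?_
  intro p x hx
  rw [add_zero]
  exact mem_of_uexp_mem (cm c.N) hnil (V.F p Complex.I) x
    (CH6_uexp_all (cm c.N) _ x (hnat p x hx))

theorem CH6_at {n : ℕ} (V : PolVHS n) (N : Matrix (Fin n) (Fin n) ℂ) {z : ℂ} (hz : 0 < z.im)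
    {b : ℂ} (hb : b ≠ 0) (hv : Vel V N z b) (p : ℤ) (x : Fin n → ℂ) (hx : x ∈ V.F p z) :
    N *ᵥ x ∈ V.F (p - 1) z := by
  obtain ⟨P, hP1, hP2⟩ := (V.hol p z hz).proj
  have h2 : ∀ i, AnalyticAt ℂ (fun y => (P y *ᵥ x) i) z := by
    intro i
    have h4 : (fun y => (P y *ᵥ x) i) = fun y => ∑ j ∈ Finset.univ, P y i j * x j := rfl
    rw [h4]
    exact Finset.analyticAt_fun_sum _ fun j _ => (hP1 i j).mul analyticAt_const
  have h3 : ∀ᶠ y in 𝓝 z, P y *ᵥ x ∈ V.F p y := by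
    filter_upwards [hP2] with y hy
    rw [hy.2]
    exact ⟨x, rfl⟩
  have h5 : P z *ᵥ x = x := by
    obtain ⟨h6, h7⟩ := hP2.self_of_nhds
    rw [h7, proj_mem_iff h6] at hx
    exact hx
  have h6 := V.griffiths p z hz _ h2 h3
  have h7 := hv p _ h2 h3
  rw [h5] at h7
  have h8 := (V.phs z hz).anti (p - 1) p (by omega) h7
  have h9 := Submodule.sub_mem _ h6 h8
  rw [sub_sub_cancel] at h9
  exact ((V.F (p - 1) z).smul_mem_iff hb).1 h9

theorem N_griffiths {n : ℕ} (V : PolVHS n) (c : Cusp V) (hN : c.N ≠ 0)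
    (hv : ∀ z : ℂ, 0 < z.im → ∃ b : ℂ, Vel V (cm c.N) z b) :
    ∀ z : ℂ, 0 < z.im → ∀ p, ∀ x ∈ V.F p z, cm c.N *ᵥ x ∈ V.F (p - 1) z := by
  obtain ⟨z₀, hz₀, b₀, hb₀, hv₀⟩ := CH6_ne V c hN hv
  obtain ⟨P, hP1, hP2⟩ := f04_proj V hz₀
  have him : ∀ᶠ z : ℂ in 𝓝 z₀, 0 < z.im :=
    (isOpen_lt continuous_const Complex.continuous_im).mem_nhds hz₀
  have hne : ∃ p ∈ Finset.Icc V.lo V.hi, ∃ i j,
      ((1 - P p z₀) * f05_D (P p) z₀ * P p z₀) i j ≠ 0 := by
    by_contra hcon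
    push Not at hcon
    have h1 := (f05_vel V (cm c.N) hz₀ (fun p i j _ => hP1 p i j) hP2 b₀).1 hv₀
    refine N_not_mem V c hN z₀ hz₀ ?_
    rw [f04_mem V hz₀ hP2.self_of_nhds (cm c.N)]
    intro p hp
    have h2 : (1 - P p z₀) * f05_D (P p) z₀ * P p z₀ = 0 := by
      ext i j
      exact hcon p hp i j
    have h3 := h1 p hp
    rw [h2] at h3
    exact (smul_eq_zero.1 h3.symm).resolve_left hb₀
  obtain ⟨p₀, hp₀, i₀, j₀, h0⟩ := hne
  have hcont : ∀ᶠ z in 𝓝 z₀, ((1 - P p₀ z) * f05_D (P p₀) z * P p₀ z) i₀ j₀ ≠ 0 := by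
    have h1 : AnalyticAt ℂ (fun z => ((1 - P p₀ z) * f05_D (P p₀) z * P p₀ z) i₀ j₀) z₀ := by
      refine f01_mul (f01_mul ?_ ?_) (hP1 _) _ _
      · intro i j
        simp only [Matrix.sub_apply]
        exact analyticAt_const.sub (hP1 _ i j)
      · intro i j
        exact (hP1 _ i j).deriv
    exact h1.continuousAt.eventually_ne h0
  have hana : ∀ᶠ z in 𝓝 z₀, ∀ p ∈ Finset.Icc V.lo V.hi, ∀ i j,
      AnalyticAt ℂ (fun z => P p z i j) z := by
    rw [Filter.eventually_all_finset]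
    intro p _
    rw [Filter.eventually_all]
    intro i
    rw [Filter.eventually_all]
    intro j
    exact (hP1 p i j).eventually_analyticAt
  have hgood : ∀ᶠ z in 𝓝 z₀, 0 < z.im ∧ ∃ b : ℂ, b ≠ 0 ∧ Vel V (cm c.N) z b := by
    filter_upwards [him, hcont, hana, hP2.eventually_nhds] with z hz1 hz2 hz3 hz4
    refine ⟨hz1, ?_⟩
    obtain ⟨b, hb⟩ := hv z hz1
    refine ⟨b, ?_, hb⟩
    rintro rfl
    have h1 := (f05_vel V (cm c.N) hz1 (fun p i j hp => hz3 p hp i j) hz4 0).1 hb p₀ hp₀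
    rw [zero_smul] at h1
    apply hz2
    rw [h1]
    rfl
  obtain ⟨U, hU1, hU2, hU3⟩ := eventually_nhds_iff.1 hgood
  intro z hz p
  refine cont_map V (fun _ => cm c.N) (fun i j z _ => analyticAt_const) p (p - 1) U hU2
    ⟨z₀, hU3⟩ (fun y hy => (hU1 y hy).1) ?_ z hz
  intro y hy x hx
  obtain ⟨hy1, b, hb, hvb⟩ := hU1 y hy
  exact CH6_at V (cm c.N) hy1 hb hvb p x hx

end MP2794d1.PC
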