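import Mathlib

/-!
CA1: Hadamard's three circles theorem, in the form needed here.

Proof. If `‖z‖ < r` the claim is `‖f z‖ ≤ ε = ε ^ θ * ε ^ (1 - θ) ≤ ε ^ θ * M ^ (1 - θ)` (here one only uses `0 ≤ θ ≤ 1`,
`ε ≤ M`; if `ε = 0` and `θ = 0` the right hand side is `M`, fine). Now let `r ≤ ‖z‖ < 1`, `t = log ‖z‖ / log r ∈ (0, 1]`, so
`θ ≤ t`. By Hadamard's three lines theorem (Mathlib.Analysis.Complex.Hadamard,
`Complex.HadamardThreeLines.norm_le_interp_of_mem_verticalClosedStrip'` and its versions for the strip `[l, u]`) applied to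
`g w = f (exp w)` on the strip `log r' ≤ re w ≤ log R'`, `r' < r`, `R' < 1`:
`‖f z‖ ≤ ε ^ (1 - s) * M ^ s`, `s = (log ‖z‖ - log r') / (log R' - log r')`; let `r' → r`, `R' → 1` (for `ε = 0`: use `ε + η`,
`η → 0`, or the identity theorem). This gives `‖f z‖ ≤ ε ^ t * M ^ (1 - t) ≤ ε ^ θ * M ^ (1 - θ)` since `ε ≤ M`, `θ ≤ t`.
(For positive `ε` one may also replace `f` by nothing: `g` is continuous on the closed strip `[log r', log R']`, bounded by
`ε` on the left line and by `M` on the right line.)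
-/

namespace MP2794d1.PC

open Complex Filter Topology

private theorem CA1_interp {ε M θ t : ℝ} (hε : 0 < ε) (hεM : ε ≤ M) (hθt : θ ≤ t) :
    ε ^ t * M ^ (1 - t) ≤ ε ^ θ * M ^ (1 - θ) := by
  have hM : 0 < M := lt_of_lt_of_le hε hεM
  have e1 : ε ^ t = ε ^ θ * ε ^ (t - θ) := by rw [← Real.rpow_add hε]; congr 1; ring
  have e2 : M ^ (1 - θ) = M ^ (t - θ) * M ^ (1 - t) := by rw [← Real.rpow_add hM]; congr 1; ring
  have e3 : ε ^ (t - θ) ≤ M ^ (t - θ) := Real.rpow_le_rpow hε.le hεM (by linarith)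
  rw [e1, e2, mul_assoc]
  have h1 : 0 ≤ M ^ (1 - t) := Real.rpow_nonneg hM.le _
  have h2 : 0 ≤ ε ^ θ := Real.rpow_nonneg hε.le _
  exact mul_le_mul_of_nonneg_left (mul_le_mul_of_nonneg_right e3 h1) h2

private theorem CA1_strip (f : ℂ → ℂ) (hf : DifferentiableOn ℂ f (Metric.ball 0 1)) (M ε : ℝ)
    (r r' R' : ℝ) (hr' : 0 < r') (hr'r : r' < r) (hr'R : r' < R') (hR' : R' < 1)
    (hM : ∀ z ∈ Metric.ball (0 : ℂ) 1, ‖f z‖ ≤ M) (hs : ∀ z ∈ Metric.ball (0 : ℂ) r, ‖f z‖ ≤ ε)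
    (z : ℂ) (hz1 : r' ≤ ‖z‖) (hz2 : ‖z‖ ≤ R') :
    ‖f z‖ ≤ ε ^ (1 - (Real.log ‖z‖ - Real.log r') / (Real.log R' - Real.log r')) *
      M ^ ((Real.log ‖z‖ - Real.log r') / (Real.log R' - Real.log r')) := by
  have hR0 : 0 < R' := hr'.trans hr'R
  have hz0 : z ≠ 0 := by
    rintro rfl
    rw [norm_zero] at hz1
    linarith
  have hlu : Real.log r' < Real.log R' := Real.log_lt_log hr' hr'R
  have hu0 : Real.log R' < 0 := Real.log_neg hR0 hR'
  set l := Real.log r' with hl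
  set u := Real.log R' with hu
  have hexp : ∀ w : ℂ, w.re < 0 → Complex.exp w ∈ Metric.ball (0 : ℂ) 1 := by
    intro w hw
    rw [Metric.mem_ball, dist_zero_right, Complex.norm_exp]
    rw [← Real.exp_zero]; exact Real.exp_lt_exp.mpr hw
  have hcl : closure (HadamardThreeLines.verticalStrip l u) ⊆ Complex.re ⁻¹' Set.Icc l u := by
    refine closure_minimal ?_ (isClosed_Icc.preimage Complex.continuous_re)
    intro w hw
    exact Set.Ioo_subset_Icc_self hw
  have hg : DifferentiableOn ℂ (fun w => f (Complex.exp w)) (Complex.re ⁻¹' Set.Icc l u) := by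
    refine hf.comp Complex.differentiable_exp.differentiableOn ?_
    intro w hw
    exact hexp w (lt_of_le_of_lt hw.2 hu0)
  have hd : DiffContOnCl ℂ (fun w => f (Complex.exp w)) (HadamardThreeLines.verticalStrip l u) :=
    (hg.mono hcl).diffContOnCl
  have hlz : (Complex.log z).re = Real.log ‖z‖ := Complex.log_re z
  have key := HadamardThreeLines.norm_le_interp_of_mem_verticalClosedStrip'
    (f := fun w => f (Complex.exp w)) (z := Complex.log z) (a := ε) (b := M) hlu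
    (by
      show (Complex.log z).re ∈ Set.Icc l u
      rw [hlz]
      exact ⟨Real.log_le_log hr' hz1, Real.log_le_log (lt_of_lt_of_le hr' hz1) hz2⟩) hd
    (by
      refine ⟨M, ?_⟩
      rintro _ ⟨w, hw, rfl⟩
      exact hM _ (hexp w (lt_of_le_of_lt hw.2 hu0)))
    (by
      intro w hw
      refine hs _ ?_
      have : w.re = l := hw
      rw [Metric.mem_ball, dist_zero_right, Complex.norm_exp, this, hl, Real.exp_log hr']
      exact hr'r)
    (by
      intro w hw
      refine hM _ (hexp w ?_)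
      have : w.re = u := hw
      rw [this]; exact hu0)
  simp only [Complex.exp_log hz0, hlz] at key
  exact key

private theorem CA1_pos (r : ℝ) (hr : 0 < r) (hr1 : r < 1) (f : ℂ → ℂ)
    (hf : DifferentiableOn ℂ f (Metric.ball 0 1)) (M ε : ℝ) (hε : 0 < ε) (hεM : ε ≤ M)
    (hM : ∀ z ∈ Metric.ball (0 : ℂ) 1, ‖f z‖ ≤ M) (hs : ∀ z ∈ Metric.ball (0 : ℂ) r, ‖f z‖ ≤ ε)
    (z : ℂ) (hz : z ∈ Metric.ball (0 : ℂ) 1) (θ : ℝ) (hθ1 : θ ≤ 1)
    (hθ : z ≠ 0 → θ * Real.log (1 / r) ≤ Real.log (1 / ‖z‖)) :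
    ‖f z‖ ≤ ε ^ θ * M ^ (1 - θ) := by
  have hM0 : 0 < M := lt_of_lt_of_le hε hεM
  rw [Metric.mem_ball, dist_zero_right] at hz
  by_cases hzr : ‖z‖ < r
  · have h1 := hs z (by rwa [Metric.mem_ball, dist_zero_right])
    have h2 := CA1_interp hε hεM hθ1
    rw [Real.rpow_one, sub_self, Real.rpow_zero, mul_one] at h2
    exact h1.trans h2
  · push Not at hzr
    have hz0 : 0 < ‖z‖ := lt_of_lt_of_le hr hzr
    have hz0' : z ≠ 0 := norm_pos_iff.mp hz0
    have hlr : Real.log r < 0 := Real.log_neg hr hr1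
    have hθ' := hθ hz0'
    rw [one_div, one_div, Real.log_inv, Real.log_inv] at hθ'
    set t : ℝ := Real.log ‖z‖ / Real.log r with ht
    have htθ : θ ≤ t := by
      rw [ht, le_div_iff_of_neg hlr]
      linarith
    refine le_trans ?_ (CA1_interp hε hεM htθ)
    -- limit
    let s : ℝ → ℝ := fun δ => (Real.log ‖z‖ - Real.log (r * (1 - δ))) /
      (Real.log (1 - δ) - Real.log (r * (1 - δ)))
    have hsc : Tendsto s (𝓝[>] 0) (𝓝 (1 - t)) := by
      have h1 : ContinuousAt s 0 := by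
        have c1 : ContinuousAt (fun δ : ℝ => r * (1 - δ)) 0 := by fun_prop
        have c2 : ContinuousAt (fun δ : ℝ => 1 - δ) 0 := by fun_prop
        have c1' : ContinuousAt (fun δ : ℝ => Real.log (r * (1 - δ))) 0 :=
          c1.log (by simp [hr.ne'])
        have c2' : ContinuousAt (fun δ : ℝ => Real.log (1 - δ)) 0 := c2.log (by simp)
        refine (continuousAt_const.sub c1').div (c2'.sub c1') ?_
        simp [hlr.ne]
      have h2 : s 0 = 1 - t := by
        simp only [s, sub_zero, mul_one, Real.log_one, zero_sub]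
        rw [ht]
        field_simp [hlr.ne]
        ring
      have h3 := h1.tendsto
      rw [h2] at h3
      exact h3.mono_left nhdsWithin_le_nhds
    have hlim : Tendsto (fun δ => ε ^ (1 - s δ) * M ^ (s δ)) (𝓝[>] 0)
        (𝓝 (ε ^ (1 - (1 - t)) * M ^ (1 - t))) := by
      refine Tendsto.mul ?_ ?_
      · exact (Real.continuousAt_const_rpow hε.ne').tendsto.comp (tendsto_const_nhds.sub hsc)
      · exact (Real.continuousAt_const_rpow hM0.ne').tendsto.comp hsc
    rw [show (1 : ℝ) - (1 - t) = t by ring] at hlim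
    refine ge_of_tendsto hlim ?_
    have hmem : Set.Ioo (0 : ℝ) (1 - ‖z‖) ∈ 𝓝[>] (0 : ℝ) :=
      Ioo_mem_nhdsGT (by linarith)
    filter_upwards [hmem] with δ hδ
    have hd1 : 0 < 1 - δ := by linarith [hδ.2]
    exact CA1_strip f hf M ε r (r * (1 - δ)) (1 - δ) (by positivity)
      (by nlinarith [hδ.1]) (by nlinarith) (by linarith [hδ.1]) hM hs z
      (by nlinarith [hδ.1]) (by linarith [hδ.2])

theorem three_circles (r : ℝ) (hr : 0 < r) (hr1 : r < 1) (f : ℂ → ℂ)
    (hf : DifferentiableOn ℂ f (Metric.ball 0 1)) (M ε : ℝ) (hε : 0 ≤ ε) (hεM : ε ≤ M)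
    (hM : ∀ z ∈ Metric.ball (0 : ℂ) 1, ‖f z‖ ≤ M) (hs : ∀ z ∈ Metric.ball (0 : ℂ) r, ‖f z‖ ≤ ε)
    (z : ℂ) (hz : z ∈ Metric.ball (0 : ℂ) 1) (θ : ℝ) (hθ0 : 0 < θ) (hθ1 : θ ≤ 1)
    (hθ : z ≠ 0 → θ * Real.log (1 / r) ≤ Real.log (1 / ‖z‖)) :
    ‖f z‖ ≤ ε ^ θ * M ^ (1 - θ) := by
  have hlim : Tendsto (fun η : ℝ => (ε + η) ^ θ * (M + η) ^ (1 - θ)) (𝓝[>] 0)
      (𝓝 (ε ^ θ * M ^ (1 - θ))) := by
    have h1 : Continuous (fun η : ℝ => (ε + η) ^ θ * (M + η) ^ (1 - θ)) :=
      ((Real.continuous_rpow_const hθ0.le).comp (continuous_const.add continuous_id)).mul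
        ((Real.continuous_rpow_const (by linarith)).comp (continuous_const.add continuous_id))
    have h2 := h1.tendsto 0
    simp only [add_zero] at h2
    exact h2.mono_left nhdsWithin_le_nhds
  refine ge_of_tendsto hlim ?_
  filter_upwards [self_mem_nhdsWithin] with η hη
  have hη' : 0 < η := hη
  exact CA1_pos r hr hr1 f hf (M + η) (ε + η) (by linarith) (by linarith)
    (fun z hz => (hM z hz).trans (by linarith)) (fun z hz => (hs z hz).trans (by linarith)) z hz θ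
    hθ1 hθ

end MP2794d1.PC
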