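import Pool.Agent.Lib.MP_2794d1_ag.PC.CA1

/-!
CA7: smallness propagates along a horocycle with exponent `c / (n + 1) ^ 2`.

Proof. Let `η = y₀ - a > 0`, `r = δ₁ / (2 η + δ₁) ∈ (0, 1)`, `δ₂ = min (η / 2) 1`. The map `ψ w = i y₀ + 2 i η w / (1 - w)` is
differentiable on the unit disc and maps it into `{a < im}`: `im (ψ w) - a = η (1 - |w|²) / |1 - w|²` (compute). For `‖w‖ < r`:
`‖ψ w - i y₀‖ ≤ 2 η ‖w‖ / (1 - ‖w‖) < δ₁`. Its inverse is `φ z = (z - i y₀) / (z - i y₀ + 2 i η)` (for `a < im z` the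
denominator is not `0`, `‖φ z‖ < 1` and `ψ (φ z) = z`). Apply CA1 to `f ∘ ψ` at the point `φ z`, where
`z = i y₀ + n + ζ`, `‖ζ‖ < δ₂` (so `im z - a > η / 2`): `1 - ‖φ z‖ ^ 2 = 4 η (im z - a) / ‖z - i y₀ + 2 i η‖ ^ 2`
`≥ 2 η ^ 2 / (n + 1 + 2 η) ^ 2 ≥ c₀ / (n + 1) ^ 2`, `c₀ = 2 η ^ 2 / (1 + 2 η) ^ 2 < 1`, and
`log (1 / ‖φ z‖) = - (1/2) log (‖φ z‖ ^ 2) ≥ (1 - ‖φ z‖ ^ 2) / 2` (`Real.log_le_sub_one_of_pos`). So
`θ = c / (n + 1) ^ 2` with `c = min 1 (c₀ / (2 log (1 / r)))` satisfies the hypothesis of CA1.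
-/

namespace MP2794d1.PC

open Complex Filter Topology

private theorem CA7_im (a y₀ : ℝ) (h : a < y₀) (w : ℂ) (hw : ‖w‖ < 1) :
    a < ((y₀ : ℂ) * Complex.I + 2 * Complex.I * ((y₀ - a : ℝ) : ℂ) * w / (1 - w)).im := by
  have h1 : (1 - w) ≠ 0 := by
    intro h0
    have : w = 1 := by linear_combination -h0
    rw [this, norm_one] at hw
    exact lt_irrefl _ hw
  have hns : 0 < Complex.normSq (1 - w) := Complex.normSq_pos.2 h1
  have hw2 : w.re * w.re + w.im * w.im < 1 := by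
    have : Complex.normSq w < 1 := by
      rw [Complex.normSq_eq_norm_sq]
      have := norm_nonneg w
      nlinarith
    rwa [Complex.normSq_apply] at this
  have e1 : (2 * Complex.I * ((y₀ - a : ℝ) : ℂ) * w / (1 - w)).im =
      2 * (y₀ - a) * (w.re - (w.re * w.re + w.im * w.im)) / Complex.normSq (1 - w) := by
    rw [Complex.div_im]
    simp only [Complex.mul_re, Complex.mul_im, Complex.I_re, Complex.I_im, Complex.ofReal_re,
      Complex.ofReal_im, Complex.sub_re, Complex.sub_im, Complex.one_re, Complex.one_im,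
      Complex.re_ofNat, Complex.im_ofNat]
    field_simp
    ring
  rw [Complex.add_im, e1]
  have e2 : ((y₀ : ℂ) * Complex.I).im = y₀ := by simp
  rw [e2]
  have e3 : Complex.normSq (1 - w) = (1 - w.re) * (1 - w.re) + w.im * w.im := by
    rw [Complex.normSq_apply]; simp
  have hη : 0 < y₀ - a := by linarith
  have e4 : y₀ + 2 * (y₀ - a) * (w.re - (w.re * w.re + w.im * w.im)) / Complex.normSq (1 - w) - a =
      (y₀ - a) * (1 - (w.re * w.re + w.im * w.im)) / Complex.normSq (1 - w) := by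
    have hne := hns.ne'
    field_simp
    rw [e3]
    ring
  have h5 : 0 < (y₀ - a) * (1 - (w.re * w.re + w.im * w.im)) / Complex.normSq (1 - w) :=
    div_pos (mul_pos hη (by linarith)) hns
  linarith

theorem halfplane (a y₀ δ₁ : ℝ) (h : a < y₀) (hδ₁ : 0 < δ₁) :
    ∃ δ₂ : ℝ, 0 < δ₂ ∧ δ₂ ≤ 1 ∧ (∀ n : ℕ, ∀ z ∈ Metric.ball ((y₀ : ℂ) * Complex.I + n) δ₂, a < z.im) ∧
      ∃ c : ℝ, 0 < c ∧ c ≤ 1 ∧ ∀ (f : ℂ → ℂ) (M ε : ℝ),
        DifferentiableOn ℂ f {z : ℂ | a < z.im} → (∀ z : ℂ, a < z.im → ‖f z‖ ≤ M) → 0 ≤ ε → ε ≤ M →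
        (∀ z ∈ Metric.ball ((y₀ : ℂ) * Complex.I) δ₁, a < z.im → ‖f z‖ ≤ ε) →
        ∀ n : ℕ, ∀ z ∈ Metric.ball ((y₀ : ℂ) * Complex.I + n) δ₂,
          ‖f z‖ ≤ ε ^ (c / ((n : ℝ) + 1) ^ 2) * M ^ (1 - c / ((n : ℝ) + 1) ^ 2) := by
  set η : ℝ := y₀ - a with hη
  have hη0 : 0 < η := by rw [hη]; linarith
  set r : ℝ := δ₁ / (2 * η + δ₁) with hr
  have hr0 : 0 < r := by positivity
  have hr1 : r < 1 := by rw [hr, div_lt_one (by positivity)]; linarith
  have hlogr : 0 < Real.log (1 / r) := Real.log_pos (by rw [lt_div_iff₀ hr0]; linarith)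
  set c₀ : ℝ := 2 * η ^ 2 / (1 + 2 * η) ^ 2 with hc₀
  have hc₀0 : 0 < c₀ := by positivity
  set c : ℝ := min 1 (c₀ / (2 * Real.log (1 / r))) with hc
  have hc0 : 0 < c := lt_min one_pos (by positivity)
  have hc1 : c ≤ 1 := min_le_left _ _
  have him : ∀ n : ℕ, ∀ z ∈ Metric.ball ((y₀ : ℂ) * Complex.I + n) (min (η / 2) 1),
      y₀ - η / 2 < z.im := by
    intro n z hz
    rw [Metric.mem_ball, dist_eq_norm] at hz
    have h1 : |(z - ((y₀ : ℂ) * Complex.I + n)).im| < η / 2 :=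
      lt_of_le_of_lt (Complex.abs_im_le_norm _) (lt_of_lt_of_le hz (min_le_left _ _))
    have h2 : (z - ((y₀ : ℂ) * Complex.I + n)).im = z.im - y₀ := by simp
    rw [h2, abs_lt] at h1
    linarith [h1.1]
  refine ⟨min (η / 2) 1, lt_min (by positivity) one_pos, min_le_right _ _, ?_, c, hc0, hc1, ?_⟩
  · intro n z hz
    have := him n z hz
    rw [hη] at this
    linarith
  · intro f M ε hf hM hε hεM hs n z hz
    have hzim := him n z hz
    let ψ : ℂ → ℂ := fun w => (y₀ : ℂ) * Complex.I + 2 * Complex.I * ((y₀ - a : ℝ) : ℂ) * w / (1 - w)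
    have hψim : ∀ w ∈ Metric.ball (0 : ℂ) 1, a < (ψ w).im := by
      intro w hw
      rw [Metric.mem_ball, dist_zero_right] at hw
      exact CA7_im a y₀ h w hw
    have h1w : ∀ w ∈ Metric.ball (0 : ℂ) 1, (1 - w) ≠ 0 := by
      intro w hw h0
      rw [Metric.mem_ball, dist_zero_right] at hw
      have : w = 1 := by linear_combination -h0
      rw [this, norm_one] at hw
      exact lt_irrefl _ hw
    have hψd : DifferentiableOn ℂ ψ (Metric.ball 0 1) := by
      intro w hw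
      refine DifferentiableAt.differentiableWithinAt ?_
      refine DifferentiableAt.add (by fun_prop) (DifferentiableAt.div (by fun_prop) (by fun_prop) ?_)
      exact h1w w hw
    have hfψ : DifferentiableOn ℂ (fun w => f (ψ w)) (Metric.ball 0 1) := hf.comp hψd hψim
    set D : ℂ := z - (y₀ : ℂ) * Complex.I + 2 * Complex.I * (η : ℂ) with hD
    have hDim : D.im = z.im - y₀ + 2 * η := by rw [hD]; simp
    have hDne : D ≠ 0 := by
      intro h0
      rw [h0] at hDim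
      simp at hDim
      linarith
    have hDpos : 0 < ‖D‖ := norm_pos_iff.mpr hDne
    set w : ℂ := (z - (y₀ : ℂ) * Complex.I) / D with hw
    have hηc : (η : ℂ) ≠ 0 := by exact_mod_cast hη0.ne'
    have h1mw : 1 - w = 2 * Complex.I * (η : ℂ) / D := by
      rw [hw]
      field_simp
      rw [hD]; ring
    have hψw : ψ w = z := by
      have e0 : ψ w = (y₀ : ℂ) * Complex.I + 2 * Complex.I * (η : ℂ) * w / (1 - w) := rfl
      rw [e0, h1mw, hw]
      have hI : Complex.I ≠ 0 := Complex.I_ne_zero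
      field_simp
      ring
    -- the modulus of w
    have hsq : 1 - ‖w‖ ^ 2 = 4 * η * (z.im - a) / ‖D‖ ^ 2 := by
      have e1 : ‖w‖ ^ 2 = ‖z - (y₀ : ℂ) * Complex.I‖ ^ 2 / ‖D‖ ^ 2 := by
        rw [hw, norm_div, div_pow]
      have e2 : ‖D‖ ^ 2 - ‖z - (y₀ : ℂ) * Complex.I‖ ^ 2 = 4 * η * (z.im - a) := by
        rw [← Complex.normSq_eq_norm_sq, ← Complex.normSq_eq_norm_sq, Complex.normSq_apply,
          Complex.normSq_apply, hD]
        simp
        rw [hη]; ring
      rw [e1]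
      field_simp
      linarith
    have hDle : ‖D‖ ≤ ((n : ℝ) + 1) * (1 + 2 * η) := by
      have e1 : D = (z - ((y₀ : ℂ) * Complex.I + n)) + ((n : ℂ) + 2 * Complex.I * (η : ℂ)) := by
        rw [hD]; ring
      have e2 : ‖z - ((y₀ : ℂ) * Complex.I + n)‖ ≤ 1 := by
        rw [Metric.mem_ball, dist_eq_norm] at hz
        exact (hz.trans_le (min_le_right _ _)).le
      have e3 : ‖(n : ℂ) + 2 * Complex.I * (η : ℂ)‖ ≤ n + 2 * η := by
        refine (norm_add_le _ _).trans ?_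
        rw [norm_mul, norm_mul, Complex.norm_natCast, Complex.norm_I, Complex.norm_real,
          Real.norm_eq_abs, abs_of_pos hη0]
        simp
      have e4 : ‖D‖ ≤ 1 + (n + 2 * η) := by
        rw [e1]; exact (norm_add_le _ _).trans (add_le_add e2 e3)
      have hn : (0 : ℝ) ≤ n := Nat.cast_nonneg n
      nlinarith [mul_nonneg hn hη0.le]
    have hn1 : (0 : ℝ) < (n : ℝ) + 1 := by positivity
    have hlow : c₀ / ((n : ℝ) + 1) ^ 2 ≤ 1 - ‖w‖ ^ 2 := by
      rw [hsq, hc₀, div_div]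
      have h1 : 2 * η ^ 2 ≤ 4 * η * (z.im - a) := by
        have : η / 2 ≤ z.im - a := by rw [hη] at hzim ⊢; linarith
        nlinarith
      have h2 : ‖D‖ ^ 2 ≤ (1 + 2 * η) ^ 2 * ((n : ℝ) + 1) ^ 2 := by
        calc ‖D‖ ^ 2 ≤ (((n : ℝ) + 1) * (1 + 2 * η)) ^ 2 := by gcongr
          _ = (1 + 2 * η) ^ 2 * ((n : ℝ) + 1) ^ 2 := by ring
      exact div_le_div₀ (by nlinarith [sq_nonneg η]) h1 (by positivity) h2
    have hw1 : ‖w‖ < 1 := by
      have h1 : 0 < c₀ / ((n : ℝ) + 1) ^ 2 := by positivity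
      have h2 : ‖w‖ ^ 2 < 1 := by linarith
      nlinarith [norm_nonneg w]
    have key := three_circles r hr0 hr1 (fun w => f (ψ w)) hfψ M ε hε hεM
      (fun w hw => hM _ (hψim w hw))
      (by
        intro v hv
        have hv1 : v ∈ Metric.ball (0 : ℂ) 1 := Metric.ball_subset_ball hr1.le hv
        refine hs _ ?_ (hψim v hv1)
        rw [Metric.mem_ball, dist_zero_right] at hv hv1
        rw [Metric.mem_ball, dist_eq_norm]
        have e1 : ψ v - (y₀ : ℂ) * Complex.I = 2 * Complex.I * (η : ℂ) * v / (1 - v) := by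
          have e0 : ψ v = (y₀ : ℂ) * Complex.I + 2 * Complex.I * (η : ℂ) * v / (1 - v) := rfl
          rw [e0]; ring
        have e2 : 1 - ‖v‖ ≤ ‖1 - v‖ := by
          have := norm_sub_norm_le (1 : ℂ) v
          rwa [norm_one] at this
        rw [e1, norm_div, norm_mul, norm_mul, norm_mul, Complex.norm_I, Complex.norm_real,
          Real.norm_eq_abs, abs_of_pos hη0, Complex.norm_ofNat, mul_one]
        have e3 : 0 < ‖1 - v‖ := by linarith
        rw [div_lt_iff₀ e3]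
        have e4 : ‖v‖ * (2 * η + δ₁) < δ₁ := by
          have := (lt_div_iff₀ (by positivity : 0 < 2 * η + δ₁)).1 hv
          exact this
        have e5 : δ₁ * (1 - ‖v‖) ≤ δ₁ * ‖1 - v‖ := by gcongr
        nlinarith)
      w (by rwa [Metric.mem_ball, dist_zero_right]) (c / ((n : ℝ) + 1) ^ 2) (by positivity)
      (by
        rw [div_le_one (by positivity)]
        have : (1 : ℝ) ≤ ((n : ℝ) + 1) ^ 2 := by
          have hn : (0 : ℝ) ≤ n := Nat.cast_nonneg n
          nlinarith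
        linarith)
      (by
        intro hw0
        have hwp : 0 < ‖w‖ := norm_pos_iff.mpr hw0
        have e1 : (1 - ‖w‖ ^ 2) / 2 ≤ Real.log (1 / ‖w‖) := by
          have e2 : Real.log (‖w‖ ^ 2) ≤ ‖w‖ ^ 2 - 1 := Real.log_le_sub_one_of_pos (by positivity)
          rw [Real.log_pow] at e2
          rw [one_div, Real.log_inv]
          push_cast at e2
          linarith
        have e2 : c / ((n : ℝ) + 1) ^ 2 * Real.log (1 / r) ≤ c₀ / ((n : ℝ) + 1) ^ 2 / 2 := by
          have e3 : c * Real.log (1 / r) ≤ c₀ / 2 := by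
            have e4 : c ≤ c₀ / (2 * Real.log (1 / r)) := min_le_right _ _
            have e5 := (le_div_iff₀ (by positivity : 0 < 2 * Real.log (1 / r))).1 e4
            linarith
          calc c / ((n : ℝ) + 1) ^ 2 * Real.log (1 / r) = c * Real.log (1 / r) / ((n : ℝ) + 1) ^ 2 := by
                ring
            _ ≤ (c₀ / 2) / ((n : ℝ) + 1) ^ 2 := by gcongr
            _ = c₀ / ((n : ℝ) + 1) ^ 2 / 2 := by ring
        linarith)
    simp only [hψw] at key
    exact key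

end MP2794d1.PC
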