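import Pool.Agent.Lib.MP_2794d1_ag.PC.CA4
import Pool.Agent.Lib.MP_2794d1_ag.PC.CA6
import Pool.Agent.Lib.MP_2794d1_ag.PC.CA7
import Pool.Agent.Lib.MP_2794d1_ag.PC.CA8

/-!
CA9: the step along the cusp. Let `a, M` be as in `D.L_cusp` and `C₀` as in `E_norm`. `M` is analytic and `m ≤ ‖M q‖ ≤ M'`,
`0 < m`, on a ball `‖q‖ < ρ`; `‖qq z‖ = exp (-2 π im z) < ρ` for `a₁ < im z`; let `a' = max a (max a₁ 1)`, `y₀ = a' + 1`.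
Let `Good D d (i y₀) δ₁ ε B F`. On `{a' < im z}` (where `‖z‖ ≥ 1`) put `f z = F (G.E z *ᵥ M (qq z)) / z ^ (C₀ * d)`, it is
differentiable (`E_analytic`, `F` differentiable), and `‖G.E z *ᵥ M (qq z)‖ ≤ C₀ (1 + ‖z‖) ^ C₀ M' ≤ C₀ 2 ^ C₀ M' ‖z‖ ^ C₀`,
so with `Y = C₀ 2 ^ C₀ (M' + 1)`: `‖f z‖ ≤ B Y ^ d` on `{a' < im z}` and `‖f z‖ ≤ ε Y ^ d` for `z ∈ ball (i y₀) δ₁`, `a' < im z`
(there `D.L z (G.E z *ᵥ M (qq z))`). CA7 with `a', y₀, δ₁` gives `δ₂ ≤ 1`, `c`: for `n : ℕ`, `z ∈ ball (i y₀) δ₂`,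
`z' = z + n`: `‖f z'‖ ≤ Y ^ d ε ^ θ B ^ (1 - θ)`, `θ = c / (n + 1) ^ 2`.
Let `D.L z v`. Then `v' = ic (D.R (D.T ^ n)) *ᵥ v = G.E n *ᵥ v` satisfies `D.L z' v'` (`L_equiv`, `mob_T_pow`, `R_pow`), so
`v' = c' • (G.E z' *ᵥ M (qq z'))`, `‖F v'‖ = ‖c'‖ ^ d ‖z'‖ ^ (C₀ d) ‖f z'‖` and
`‖c'‖ m ≤ ‖c'‖ ‖M (qq z')‖ ≤ C₀ (1 + ‖z'‖) ^ C₀ ‖v'‖ ≤ C₀ (1 + ‖z'‖) ^ C₀ C₀ (1 + n) ^ C₀ ‖v‖`, `‖z'‖ ≤ (y₀ + 2)(n + 1)`.
So everything is `≤ (C (n + 1) ^ C) ^ d ε ^ θ B ^ (1 - θ) ‖v‖ ^ d` for a natural number `C` which only depends on `D`.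
The field `form`: CA6 `form_comp` with `‖G.E n *ᵥ v‖ ≤ C₀ (1 + n) ^ C₀ ‖v‖`. `interp_le` gives the field `le`.
-/

namespace MP2794d1.PC

open Matrix Complex Filter Topology

variable {Γ : Subgroup (Matrix.SpecialLinearGroup (Fin 2) ℝ)} {ι : Type} [Fintype ι]
  [DecidableEq ι]

private theorem CA9_qq (ρ : ℝ) (hρ : 0 < ρ) : ∃ a₁ : ℝ, ∀ z : ℂ, a₁ < z.im → ‖qq z‖ < ρ := by
  refine ⟨-Real.log ρ / (2 * Real.pi), fun z hz => ?_⟩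
  have hπ : 0 < 2 * Real.pi := by positivity
  have e1 : (2 * (Real.pi : ℂ) * Complex.I * z).re = -(2 * Real.pi * z.im) := by
    simp [Complex.mul_re, Complex.mul_im]
  rw [qq, Complex.norm_exp, e1]
  rw [div_lt_iff₀ hπ] at hz
  calc Real.exp (-(2 * Real.pi * z.im)) < Real.exp (Real.log ρ) :=
        Real.exp_lt_exp.mpr (by linarith)
    _ = ρ := Real.exp_log hρ

theorem step_cusp (D : Datum Γ ι) : ∃ y₀ : ℝ, 0 < y₀ ∧ ∀ δ₁ : ℝ, 0 < δ₁ →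
    ∃ δ₂ : ℝ, 0 < δ₂ ∧ ∃ c : ℝ, 0 < c ∧ c ≤ 1 ∧ ∃ C : ℕ, 1 ≤ C ∧ ∀ n : ℕ,
      Step D (ic (D.R (D.T ^ n))) ((y₀ : ℂ) * Complex.I) δ₁ ((y₀ : ℂ) * Complex.I) δ₂
        (c / ((n : ℝ) + 1) ^ 2) ((C : ℝ) * ((n : ℝ) + 1) ^ C) := by
  obtain ⟨a, M, hMa, hM0, hcusp⟩ := D.L_cusp
  obtain ⟨C₀, hC₀, hE⟩ := E_norm D.G
  have hC₀' : (1 : ℝ) ≤ C₀ := by exact_mod_cast hC₀
  have hn0 : 0 < ‖M 0‖ := norm_pos_iff.mpr hM0
  have hMc : ContinuousAt M 0 := continuousAt_pi.2 fun i => (hMa i).continuousAt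
  set m : ℝ := ‖M 0‖ / 2 with hm
  set M' : ℝ := ‖M 0‖ + 1 with hM'
  have hm0 : 0 < m := by positivity
  have hM'0 : 0 < M' := by positivity
  have hE1 : ∀ᶠ z in 𝓝 (0 : ℂ), m < ‖M z‖ := hMc.norm.eventually (lt_mem_nhds (by linarith))
  have hE2 : ∀ᶠ z in 𝓝 (0 : ℂ), ‖M z‖ < M' := hMc.norm.eventually (gt_mem_nhds (by linarith))
  have hE4 : ∀ᶠ z in 𝓝 (0 : ℂ), ∀ i, AnalyticAt ℂ (fun z => M z i) z := by
    rw [Filter.eventually_all]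
    exact fun i => (hMa i).eventually_analyticAt
  obtain ⟨ρ, hρ, hall⟩ := Metric.eventually_nhds_iff_ball.mp (hE1.and (hE2.and hE4))
  obtain ⟨a₁, ha₁⟩ := CA9_qq ρ hρ
  set a' : ℝ := max (max a a₁) 1 with ha'
  have haa : a ≤ a' := (le_max_left _ _).trans (le_max_left _ _)
  have haa₁ : a₁ ≤ a' := (le_max_right _ _).trans (le_max_left _ _)
  have ha1 : 1 ≤ a' := le_max_right _ _
  set y₀ : ℝ := a' + 1 with hy₀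
  have hy₀0 : 0 < y₀ := by rw [hy₀]; linarith
  refine ⟨y₀, hy₀0, fun δ₁ hδ₁ => ?_⟩
  obtain ⟨δ₂, hδ₂, hδ₂1, himn, c, hc0, hc1, hhalf⟩ := halfplane a' y₀ δ₁ (by rw [hy₀]; linarith) hδ₁
  set Y : ℝ := C₀ * 2 ^ C₀ * M' with hY
  have hY0 : 0 < Y := by positivity
  set K₀ : ℝ := Y * C₀ ^ 2 * (y₀ + 2) ^ (2 * C₀) / m with hK₀
  have hK₀0 : 0 < K₀ := by positivity
  refine ⟨δ₂, hδ₂, c, hc0, hc1, ⌈K₀⌉₊ + 3 * C₀, by omega, fun n => ?_⟩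
  set C : ℕ := ⌈K₀⌉₊ + 3 * C₀ with hC
  have hn1 : (1 : ℝ) ≤ (n : ℝ) + 1 := by linarith [(Nat.cast_nonneg n : (0 : ℝ) ≤ n)]
  have hKC : K₀ ≤ C := by
    rw [hC]; push_cast
    linarith [Nat.le_ceil K₀, (Nat.cast_nonneg C₀ : (0 : ℝ) ≤ C₀)]
  have hCC : (C₀ : ℝ) ≤ C := by
    have : C₀ ≤ C := by omega
    exact_mod_cast this
  set θ : ℝ := c / ((n : ℝ) + 1) ^ 2 with hθ
  have hθ0 : 0 < θ := by positivity
  have hθ1 : θ ≤ 1 := by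
    rw [hθ, div_le_one (by positivity)]
    nlinarith
  -- facts on the half plane
  have hbig : ∀ z : ℂ, a' < z.im → m < ‖M (qq z)‖ ∧ ‖M (qq z)‖ < M' ∧
      (∀ i, AnalyticAt ℂ (fun z => M z i) (qq z)) ∧ 1 ≤ ‖z‖ ∧ 0 < z.im ∧
      D.L z (D.G.E z *ᵥ M (qq z)) ∧ ‖D.G.E z *ᵥ M (qq z)‖ ≤ Y * ‖z‖ ^ C₀ := by
    intro z hz
    obtain ⟨b1, b2, b3⟩ := hall (qq z) (by
      rw [Metric.mem_ball, dist_zero_right]; exact ha₁ z (lt_of_le_of_lt haa₁ hz))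
    have hz0 : 0 < z.im := by linarith
    have hz1 : 1 ≤ ‖z‖ := by
      have := Complex.abs_im_le_norm z
      rw [abs_of_pos hz0] at this
      linarith
    refine ⟨b1, b2, b3, hz1, hz0, hcusp z (lt_of_le_of_lt haa hz) hz0, ?_⟩
    calc ‖D.G.E z *ᵥ M (qq z)‖ ≤ C₀ * (1 + ‖z‖) ^ C₀ * ‖M (qq z)‖ := (hE z _).1
      _ ≤ C₀ * (2 * ‖z‖) ^ C₀ * M' := by gcongr; linarith
      _ = Y * ‖z‖ ^ C₀ := by rw [hY, mul_pow]; ring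
  intro d ε B F hF
  have hB : 0 ≤ B := hF.nonneg.trans hF.le
  have hε := hF.nonneg
  have hI0 : 0 ≤ ε ^ θ * B ^ (1 - θ) :=
    mul_nonneg (Real.rpow_nonneg hF.nonneg _) (Real.rpow_nonneg hB _)
  have hI := interp_le hF.nonneg hF.le hθ0 hθ1
  have hC1 : (1 : ℝ) ≤ C := hC₀'.trans hCC
  set X : ℝ := (C : ℝ) * ((n : ℝ) + 1) ^ C with hX
  have hX0 : 0 < X := by positivity
  have hTn : ∀ v : ι → ℂ, ‖D.G.E n *ᵥ v‖ ≤ C₀ * ((n : ℝ) + 1) ^ C₀ * ‖v‖ := by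
    intro v
    have := (hE (n : ℂ) v).1
    rwa [Complex.norm_natCast, add_comm (1 : ℝ)] at this
  have hTX : ∀ v : ι → ℂ, ‖ic (D.R (D.T ^ n)) *ᵥ v‖ ≤ X * ‖v‖ := by
    intro v
    rw [R_pow]
    refine (hTn v).trans ?_
    rw [hX]
    have h1 : ((n : ℝ) + 1) ^ C₀ ≤ ((n : ℝ) + 1) ^ C := pow_le_pow_right₀ hn1 (by omega)
    gcongr
  refine ⟨form_comp hF.form hB _ X hTX, by positivity, ?_, ?_⟩
  · gcongr
  intro z hz hzim v hv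
  -- the point z' = z + n
  have hz' : z + n ∈ Metric.ball ((y₀ : ℂ) * Complex.I + n) δ₂ := by
    rw [Metric.mem_ball, dist_add_right]; exact hz
  have hz'im : a' < (z + n).im := himn n _ hz'
  obtain ⟨b1, b2, b3, b4, b5, b6, b7⟩ := hbig (z + n) hz'im
  have hL' : D.L (z + n) (ic (D.R (D.T ^ n)) *ᵥ v) := by
    have := D.L_equiv (D.T ^ n) z v hzim hv
    rwa [mob_T_pow D n z hzim] at this
  obtain ⟨c', hc'⟩ := D.L_uniq (z + n) _ _ b5 b6 hL'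
  have hz'pos : 0 < ‖z + n‖ := by linarith
  have hz'ne : z + n ≠ 0 := norm_pos_iff.mp hz'pos
  -- the function f
  have hfb := hhalf (fun z => F (D.G.E z *ᵥ M (qq z)) / z ^ (C₀ * d)) (B * Y ^ d) (ε * Y ^ d)
    (by
      intro w hw
      obtain ⟨e1, e2, e3, e4, e5, e6, e7⟩ := hbig w hw
      refine DifferentiableAt.differentiableWithinAt ?_
      have hqq : Differentiable ℂ qq := by unfold qq; fun_prop
      have hMq : ∀ i, AnalyticAt ℂ (fun z => M (qq z) i) w := fun i =>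
        AnalyticAt.comp (g := fun q => M q i) (f := qq) (e3 i) (hqq.analyticAt w)
      have hd1 : DifferentiableAt ℂ (fun z => D.G.E z *ᵥ M (qq z)) w :=
        differentiableAt_pi.2 fun i => (E_analytic D.G (fun z => M (qq z)) w hMq i).differentiableAt
      have hd2 : DifferentiableAt ℂ (fun z => F (D.G.E z *ᵥ M (qq z))) w :=
        (hF.form.diff _).comp w hd1
      have hw0 : w ≠ 0 := by
        rintro rfl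
        simp at e5
      exact hd2.div (by fun_prop) (pow_ne_zero _ hw0))
    (by
      intro w hw
      obtain ⟨e1, e2, e3, e4, e5, e6, e7⟩ := hbig w hw
      have hwp : 0 < ‖w‖ := by linarith
      rw [norm_div, norm_pow, div_le_iff₀ (by positivity)]
      calc ‖F (D.G.E w *ᵥ M (qq w))‖ ≤ B * ‖D.G.E w *ᵥ M (qq w)‖ ^ d := hF.form.bd _
        _ ≤ B * (Y * ‖w‖ ^ C₀) ^ d := by gcongr
        _ = B * Y ^ d * ‖w‖ ^ (C₀ * d) := by rw [mul_pow Y (‖w‖ ^ C₀), ← pow_mul]; ring)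
    (by positivity) (by have := hF.le; gcongr)
    (by
      intro w hw hwim
      obtain ⟨e1, e2, e3, e4, e5, e6, e7⟩ := hbig w hwim
      have hwp : 0 < ‖w‖ := by linarith
      rw [norm_div, norm_pow, div_le_iff₀ (by positivity)]
      calc ‖F (D.G.E w *ᵥ M (qq w))‖ ≤ ε * ‖D.G.E w *ᵥ M (qq w)‖ ^ d := hF.small w hw e5 _ e6
        _ ≤ ε * (Y * ‖w‖ ^ C₀) ^ d := by gcongr
        _ = ε * Y ^ d * ‖w‖ ^ (C₀ * d) := by rw [mul_pow Y (‖w‖ ^ C₀), ← pow_mul]; ring)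
    n (z + n) hz'
  rw [CA4_rpow hε hB (by positivity), norm_div, norm_pow, div_le_iff₀ (by positivity)] at hfb
  -- combine
  have hden : 0 < C₀ * (1 + ‖z + n‖) ^ C₀ := by positivity
  have hlow : m / (C₀ * (1 + ‖z + n‖) ^ C₀) ≤ ‖D.G.E (z + n) *ᵥ M (qq (z + n))‖ := by
    rw [div_le_iff₀ hden, mul_comm]
    exact b1.le.trans (hE (z + n) _).2
  have hfin := CA4_fin hF.form (m := m / (C₀ * (1 + ‖z + n‖) ^ C₀)) (M' := Y * ‖z + n‖ ^ C₀)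
    (by positivity) _ _ c' hc' hlow hI0 (by
      calc ‖F (D.G.E (z + n) *ᵥ M (qq (z + n)))‖ ≤
            Y ^ d * (ε ^ θ * B ^ (1 - θ)) * ‖z + n‖ ^ (C₀ * d) := hfb
        _ = (Y * ‖z + n‖ ^ C₀) ^ d * (ε ^ θ * B ^ (1 - θ)) := by
          rw [mul_pow Y (‖z + n‖ ^ C₀), ← pow_mul]; ring)
    (by positivity)
  refine hfin.trans ?_
  have hv' : ‖ic (D.R (D.T ^ n)) *ᵥ v‖ ≤ C₀ * ((n : ℝ) + 1) ^ C₀ * ‖v‖ := by
    rw [R_pow]; exact hTn v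
  have hznorm : 1 + ‖z + n‖ ≤ (y₀ + 2) * ((n : ℝ) + 1) := by
    have h1 : ‖z + n‖ ≤ ‖(z + n) - ((y₀ : ℂ) * Complex.I + n)‖ + ‖(y₀ : ℂ) * Complex.I + n‖ := by
      have : z + (n : ℂ) = ((z + n) - ((y₀ : ℂ) * Complex.I + n)) + ((y₀ : ℂ) * Complex.I + n) := by
        ring
      nth_rewrite 1 [this]
      exact norm_add_le _ _
    have h2 : ‖(z + n) - ((y₀ : ℂ) * Complex.I + n)‖ ≤ 1 := by
      rw [Metric.mem_ball, dist_eq_norm] at hz'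
      linarith
    have h3 : ‖(y₀ : ℂ) * Complex.I + n‖ ≤ y₀ + n := by
      refine (norm_add_le _ _).trans ?_
      rw [norm_mul, Complex.norm_I, Complex.norm_real, Complex.norm_natCast, Real.norm_eq_abs,
        abs_of_pos hy₀0, mul_one]
    nlinarith [mul_nonneg (Nat.cast_nonneg n : (0 : ℝ) ≤ n) hy₀0.le]
  have hmain : Y * ‖z + n‖ ^ C₀ / (m / (C₀ * (1 + ‖z + n‖) ^ C₀)) * (C₀ * ((n : ℝ) + 1) ^ C₀) ≤ X := by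
    have h1 : ‖z + n‖ ^ C₀ ≤ ((y₀ + 2) * ((n : ℝ) + 1)) ^ C₀ := by
      gcongr; linarith
    have h2 : (1 + ‖z + n‖) ^ C₀ ≤ ((y₀ + 2) * ((n : ℝ) + 1)) ^ C₀ := by gcongr
    calc Y * ‖z + n‖ ^ C₀ / (m / (C₀ * (1 + ‖z + n‖) ^ C₀)) * (C₀ * ((n : ℝ) + 1) ^ C₀)
        = Y / m * C₀ ^ 2 * (‖z + n‖ ^ C₀ * (1 + ‖z + n‖) ^ C₀) * ((n : ℝ) + 1) ^ C₀ := by
          field_simp
      _ ≤ Y / m * C₀ ^ 2 * (((y₀ + 2) * ((n : ℝ) + 1)) ^ C₀ * ((y₀ + 2) * ((n : ℝ) + 1)) ^ C₀) *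
            ((n : ℝ) + 1) ^ C₀ := by gcongr
      _ = K₀ * ((n : ℝ) + 1) ^ (3 * C₀) := by
          rw [hK₀, mul_pow]
          ring
      _ ≤ C * ((n : ℝ) + 1) ^ C := by
          have h3 : ((n : ℝ) + 1) ^ (3 * C₀) ≤ ((n : ℝ) + 1) ^ C := pow_le_pow_right₀ hn1 (by omega)
          gcongr
  calc (Y * ‖z + n‖ ^ C₀ / (m / (C₀ * (1 + ‖z + n‖) ^ C₀))) ^ d * (ε ^ θ * B ^ (1 - θ)) *
        ‖ic (D.R (D.T ^ n)) *ᵥ v‖ ^ d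
      ≤ (Y * ‖z + n‖ ^ C₀ / (m / (C₀ * (1 + ‖z + n‖) ^ C₀))) ^ d * (ε ^ θ * B ^ (1 - θ)) *
        (C₀ * ((n : ℝ) + 1) ^ C₀ * ‖v‖) ^ d := by gcongr
    _ = (Y * ‖z + n‖ ^ C₀ / (m / (C₀ * (1 + ‖z + n‖) ^ C₀)) * (C₀ * ((n : ℝ) + 1) ^ C₀)) ^ d *
        (ε ^ θ * B ^ (1 - θ)) * ‖v‖ ^ d := by
        rw [mul_pow (Y * ‖z + n‖ ^ C₀ / (m / (C₀ * (1 + ‖z + n‖) ^ C₀)))
          (C₀ * ((n : ℝ) + 1) ^ C₀), mul_pow (C₀ * ((n : ℝ) + 1) ^ C₀) ‖v‖]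
        ring
    _ ≤ X ^ d * (ε ^ θ * B ^ (1 - θ)) * ‖v‖ ^ d := by gcongr

end MP2794d1.PC
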