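import Pool.Agent.Lib.MP_2794d1_ag.PC.CA5
import Pool.Agent.Lib.MP_2794d1_ag.PC.CA9

/-!
CA10: `transport`. Let `y₀` be as in `step_cusp`, `o = i y₀`. Compose (`step_comp`, matrices multiply from left to right)
 1. `step_chain` from `z₁` to `mob g₁ o`;            2. `step_equiv g₁`: matrix `R g₁`, from `mob g₁ o` to `o`;
 3. `step_cusp`: matrix `R (T ^ n₁)`, from `o` to `o`; 4. `step_chain` from `o` to `mob (g₁⁻¹ * g₂) o`;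
 5. `step_equiv (g₁⁻¹ * g₂)`, to `o`;                  6. `step_cusp`: `R (T ^ n₂)`, from `o` to `o`;
 7. `step_chain` from `o` to `mob g₂⁻¹ z₂`;            8. `step_equiv g₂⁻¹`, to `z₂`.
The product of the matrices is `R g₁ R(T^n₁) R(g₁⁻¹ g₂) R(T^n₂) R(g₂⁻¹) = R (rel T g₁ g₂ n₁ n₂)` (`ic_mul`, `map_mul`).
The radii and constants are chosen one after the other and do not depend on `n₁, n₂`; the exponents multiply to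
`c₀ * (c₁ / (n₁ + 1) ^ 2) * (c₂ / (n₂ + 1) ^ 2)`, the constants to `X₀ * C₁ (n₁ + 1) ^ C₁ * C₂ (n₂ + 1) ^ C₂`, which is
`≤ C ((n₁ + 1) (n₂ + 1)) ^ C` for a natural number `C ≥ max (X₀ C₁ C₂) (max C₁ C₂)` (`step_mono`).
-/

namespace MP2794d1.PC

open Matrix Complex Filter Topology

variable {Γ : Subgroup (Matrix.SpecialLinearGroup (Fin 2) ℝ)} {ι : Type} [Fintype ι]
  [DecidableEq ι]

private def CA10_S (D : Datum Γ ι) (A : Matrix ι ι ℂ) (z₁ : ℂ) (δ₁ : ℝ) (z₂ : ℂ) (δ₂ θ X : ℝ) :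
    Prop := 0 < θ ∧ θ ≤ 1 ∧ 1 ≤ X ∧ Step D A z₁ δ₁ z₂ δ₂ θ X

private theorem CA10_comp (D : Datum Γ ι) {A A' : Matrix ι ι ℂ} {z₁ z₂ z₃ : ℂ}
    {δ₁ δ₂ δ₃ θ θ' X X' : ℝ} (h : CA10_S D A z₁ δ₁ z₂ δ₂ θ X)
    (h' : CA10_S D A' z₂ δ₂ z₃ δ₃ θ' X') : CA10_S D (A * A') z₁ δ₁ z₃ δ₃ (θ * θ') (X * X') := by
  obtain ⟨h1, h2, h3, h4⟩ := h
  obtain ⟨k1, k2, k3, k4⟩ := h'
  exact ⟨mul_pos h1 k1, mul_le_one₀ h2 k1.le k2, one_le_mul_of_one_le_of_one_le h3 k3,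
    step_comp D h3 k3 h1 h2 k1 k2 h4 k4⟩

theorem transport (D : Datum Γ ι) (z₁ z₂ : ℂ) (h₁ : 0 < z₁.im) (h₂ : 0 < z₂.im) (δ₁ : ℝ)
    (hδ₁ : 0 < δ₁) (g₁ g₂ : Γ) :
    ∃ δ₂ : ℝ, 0 < δ₂ ∧ ∃ c : ℝ, 0 < c ∧ c ≤ 1 ∧ ∃ C : ℕ, 1 ≤ C ∧ ∀ n₁ n₂ : ℕ,
      Step D (ic (D.R (rel D.T g₁ g₂ n₁ n₂))) z₁ δ₁ z₂ δ₂
        (c / (((n₁ : ℝ) + 1) ^ 2 * ((n₂ : ℝ) + 1) ^ 2))
        ((C : ℝ) * (((n₁ : ℝ) + 1) * ((n₂ : ℝ) + 1)) ^ C) := by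
  obtain ⟨y₀, hy₀, hcusp⟩ := step_cusp D
  obtain ⟨o, ho⟩ : ∃ o : ℂ, o = (y₀ : ℂ) * Complex.I := ⟨_, rfl⟩
  rw [← ho] at hcusp
  have hoi : 0 < o.im := by rw [ho]; simpa using hy₀
  obtain ⟨a1, ha1, t1, X1, ht1, ht1', hX1, s1⟩ := step_chain D z₁ (mob g₁ o) h₁
    (mob_im_pos _ o hoi) δ₁ hδ₁
  obtain ⟨a2, ha2, X2, hX2, s2⟩ := step_equiv D g₁ o hoi a1 ha1
  obtain ⟨a3, ha3, c3, hc3, hc3', C3, hC3, s3⟩ := hcusp a2 ha2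
  obtain ⟨a4, ha4, t4, X4, ht4, ht4', hX4, s4⟩ := step_chain D o (mob (g₁⁻¹ * g₂ : Γ) o) hoi
    (mob_im_pos _ o hoi) a3 ha3
  obtain ⟨a5, ha5, X5, hX5, s5⟩ := step_equiv D (g₁⁻¹ * g₂) o hoi a4 ha4
  obtain ⟨a6, ha6, c6, hc6, hc6', C6, hC6, s6⟩ := hcusp a5 ha5
  obtain ⟨a7, ha7, t7, X7, ht7, ht7', hX7, s7⟩ := step_chain D o (mob (g₂⁻¹ : Γ) z₂) hoi
    (mob_im_pos _ z₂ h₂) a6 ha6
  obtain ⟨a8, ha8, X8, hX8, s8⟩ := step_equiv D g₂⁻¹ z₂ h₂ a7 ha7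
  obtain ⟨X0, hX0⟩ : ∃ X0, X0 = X1 * X2 * X4 * X5 * X7 * X8 := ⟨_, rfl⟩
  have hX0' : 1 ≤ X0 := by
    rw [hX0]
    exact one_le_mul_of_one_le_of_one_le (one_le_mul_of_one_le_of_one_le
      (one_le_mul_of_one_le_of_one_le (one_le_mul_of_one_le_of_one_le
        (one_le_mul_of_one_le_of_one_le hX1 hX2) hX4) hX5) hX7) hX8
  obtain ⟨C, hC⟩ : ∃ C : ℕ, C = ⌈X0 * C3 * C6⌉₊ + C3 + C6 := ⟨_, rfl⟩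
  have hCX : X0 * C3 * C6 ≤ C := by
    have h1 := Nat.le_ceil (X0 * C3 * C6)
    rw [hC]
    push_cast
    have h2 : (0 : ℝ) ≤ C3 := Nat.cast_nonneg _
    have h3 : (0 : ℝ) ≤ C6 := Nat.cast_nonneg _
    linarith
  have hC3' : C3 ≤ C := by rw [hC]; omega
  have hC6' : C6 ≤ C := by rw [hC]; omega
  refine ⟨a8, ha8, t1 * t4 * t7 * c3 * c6, by positivity, ?_, C, le_trans hC3 hC3', ?_⟩
  · exact mul_le_one₀ (mul_le_one₀ (mul_le_one₀ (mul_le_one₀ ht1' ht4.le ht4') ht7.le ht7')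
      hc3.le hc3') hc6.le hc6'
  intro n₁ n₂
  have hcs : ∀ (c : ℝ) (n : ℕ), 0 < c → c ≤ 1 → 0 < c / ((n : ℝ) + 1) ^ 2 ∧
      c / ((n : ℝ) + 1) ^ 2 ≤ 1 := by
    intro c n h0 h1
    have h2 : (1 : ℝ) ≤ ((n : ℝ) + 1) ^ 2 := by
      have h3 : (0 : ℝ) ≤ n := Nat.cast_nonneg _
      nlinarith
    refine ⟨by positivity, ?_⟩
    rw [div_le_one (by positivity)]
    linarith
  have hCs : ∀ (c : ℕ) (n : ℕ), 1 ≤ c → (1 : ℝ) ≤ (c : ℝ) * ((n : ℝ) + 1) ^ c := by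
    intro c n h0
    have h1 : (1 : ℝ) ≤ c := by exact_mod_cast h0
    have h3 : (0 : ℝ) ≤ n := Nat.cast_nonneg _
    have h2 : (1 : ℝ) ≤ ((n : ℝ) + 1) ^ c := one_le_pow₀ (by linarith)
    exact one_le_mul_of_one_le_of_one_le h1 h2
  have S1 : CA10_S D 1 z₁ δ₁ (mob g₁ o) a1 t1 X1 := ⟨ht1, ht1', hX1, s1⟩
  have S2 : CA10_S D (ic (D.R g₁)) (mob g₁ o) a1 o a2 1 X2 := ⟨one_pos, le_rfl, hX2, s2⟩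
  have S3 : CA10_S D (ic (D.R (D.T ^ n₁))) o a2 o a3 (c3 / ((n₁ : ℝ) + 1) ^ 2)
      ((C3 : ℝ) * ((n₁ : ℝ) + 1) ^ C3) :=
    ⟨(hcs c3 n₁ hc3 hc3').1, (hcs c3 n₁ hc3 hc3').2, hCs C3 n₁ hC3, s3 n₁⟩
  have S4 : CA10_S D 1 o a3 (mob (g₁⁻¹ * g₂ : Γ) o) a4 t4 X4 := ⟨ht4, ht4', hX4, s4⟩
  have S5 : CA10_S D (ic (D.R (g₁⁻¹ * g₂))) (mob (g₁⁻¹ * g₂ : Γ) o) a4 o a5 1 X5 :=
    ⟨one_pos, le_rfl, hX5, s5⟩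
  have S6 : CA10_S D (ic (D.R (D.T ^ n₂))) o a5 o a6 (c6 / ((n₂ : ℝ) + 1) ^ 2)
      ((C6 : ℝ) * ((n₂ : ℝ) + 1) ^ C6) :=
    ⟨(hcs c6 n₂ hc6 hc6').1, (hcs c6 n₂ hc6 hc6').2, hCs C6 n₂ hC6, s6 n₂⟩
  have S7 : CA10_S D 1 o a6 (mob (g₂⁻¹ : Γ) z₂) a7 t7 X7 := ⟨ht7, ht7', hX7, s7⟩
  have S8 : CA10_S D (ic (D.R g₂⁻¹)) (mob (g₂⁻¹ : Γ) z₂) a7 z₂ a8 1 X8 :=
    ⟨one_pos, le_rfl, hX8, s8⟩
  obtain ⟨q1, q2, q3, q4⟩ := CA10_comp D (CA10_comp D (CA10_comp D (CA10_comp D (CA10_comp D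
    (CA10_comp D (CA10_comp D S1 S2) S3) S4) S5) S6) S7) S8
  have hmat : (1 : Matrix ι ι ℂ) * ic (D.R g₁) * ic (D.R (D.T ^ n₁)) * 1 *
      ic (D.R (g₁⁻¹ * g₂)) * ic (D.R (D.T ^ n₂)) * 1 * ic (D.R g₂⁻¹) =
      ic (D.R (rel D.T g₁ g₂ n₁ n₂)) := by
    rw [one_mul, mul_one, mul_one]
    simp only [← ic_mul, ← map_mul]
    unfold rel
    congr 2
    simp only [mul_assoc]
  rw [hmat] at q4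
  refine step_mono D q3 ?_ ?_ ?_ q2 le_rfl q4
  · have p1 : (1 : ℝ) ≤ (n₁ : ℝ) + 1 := by linarith [(Nat.cast_nonneg n₁ : (0 : ℝ) ≤ n₁)]
    have p2 : (1 : ℝ) ≤ (n₂ : ℝ) + 1 := by linarith [(Nat.cast_nonneg n₂ : (0 : ℝ) ≤ n₂)]
    have p3 : ((n₁ : ℝ) + 1) ^ C3 ≤ ((n₁ : ℝ) + 1) ^ C := pow_le_pow_right₀ p1 hC3'
    have p4 : ((n₂ : ℝ) + 1) ^ C6 ≤ ((n₂ : ℝ) + 1) ^ C := pow_le_pow_right₀ p2 hC6'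
    calc X1 * X2 * ((C3 : ℝ) * ((n₁ : ℝ) + 1) ^ C3) * X4 * X5 *
          ((C6 : ℝ) * ((n₂ : ℝ) + 1) ^ C6) * X7 * X8
        = (X0 * C3 * C6) * (((n₁ : ℝ) + 1) ^ C3 * ((n₂ : ℝ) + 1) ^ C6) := by rw [hX0]; ring
      _ ≤ (C : ℝ) * (((n₁ : ℝ) + 1) ^ C * ((n₂ : ℝ) + 1) ^ C) := by
          apply mul_le_mul hCX _ (by positivity) (Nat.cast_nonneg _)
          exact mul_le_mul p3 p4 (by positivity) (by positivity)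
      _ = _ := by rw [mul_pow]
  · positivity
  · apply le_of_eq
    have p1 : ((n₁ : ℝ) + 1) ≠ 0 := by positivity
    have p2 : ((n₂ : ℝ) + 1) ≠ 0 := by positivity
    field_simp

end MP2794d1.PC
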