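import Pool.Agent.Lib.MP_2794d1_ag.PC.CA4

/-!
CA5: `step_chain`. Relation `P z₁ z₂ : ∀ δ₁ > 0, ∃ δ₂ > 0, ∃ θ X, ... Step D 1 z₁ δ₁ z₂ δ₂ θ X` on the half plane.
Transitive by `step_comp` (`1 * 1 = 1`). Locally (`local_step` at `z₀`, radius `ρ`): for `z₁, z₂ ∈ ball z₀ (ρ / 2)`:
`Step D 1 z₁ δ₁ z₀ ρ θ X` and `ball z₂ (ρ / 2) ⊆ ball z₀ ρ`, hence `Step D 1 z₁ δ₁ z₂ (ρ / 2) θ X` (the conclusion `Good` only
becomes weaker). Hence for `z₀` in the half plane: `∀ᶠ y in 𝓝 z₀, P z₀ y ∧ P y z₀`. The half plane is convex, so preconnected: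
`IsPreconnected.induction₂'` gives `P z₁ z₂` for all `z₁, z₂` in the half plane.
-/

namespace MP2794d1.PC

open Matrix Complex Filter Topology

variable {Γ : Subgroup (Matrix.SpecialLinearGroup (Fin 2) ℝ)} {ι : Type} [Fintype ι]
  [DecidableEq ι]

theorem step_chain (D : Datum Γ ι) (z₁ z₂ : ℂ) (h₁ : 0 < z₁.im) (h₂ : 0 < z₂.im) (δ₁ : ℝ)
    (hδ₁ : 0 < δ₁) :
    ∃ δ₂ : ℝ, 0 < δ₂ ∧ ∃ θ X : ℝ, 0 < θ ∧ θ ≤ 1 ∧ 1 ≤ X ∧ Step D 1 z₁ δ₁ z₂ δ₂ θ X := by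
  let P : ℂ → ℂ → Prop := fun z₁ z₂ => ∀ δ₁ : ℝ, 0 < δ₁ →
    ∃ δ₂ : ℝ, 0 < δ₂ ∧ ∃ θ X : ℝ, 0 < θ ∧ θ ≤ 1 ∧ 1 ≤ X ∧ Step D 1 z₁ δ₁ z₂ δ₂ θ X
  have hpre : IsPreconnected {z : ℂ | 0 < z.im} := (convex_halfSpace_im_gt 0).isPreconnected
  have hP : P z₁ z₂ := by
    refine hpre.induction₂' P ?_ ?_ h₁ h₂
    · intro z₀ hz₀
      obtain ⟨ρ, hρ, hloc⟩ := local_step D z₀ hz₀
      have hmem : ∀ᶠ y in 𝓝[{z : ℂ | 0 < z.im}] z₀, y ∈ Metric.ball z₀ (ρ / 2) :=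
        mem_nhdsWithin_of_mem_nhds (Metric.ball_mem_nhds z₀ (by positivity))
      filter_upwards [hmem] with y hy
      rw [Metric.mem_ball] at hy
      constructor
      · intro δ hδ
        obtain ⟨θ, X, hθ, hθ1, hX, hS⟩ := hloc z₀ (Metric.mem_ball_self hρ) δ hδ
        refine ⟨ρ / 2, by positivity, θ, X, hθ, hθ1, hX, ?_⟩
        intro d ε B F hF
        have h := hS d ε B F hF
        refine ⟨h.form, h.nonneg, h.le, fun z hz => h.small z ?_⟩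
        rw [Metric.mem_ball] at hz ⊢
        linarith [dist_triangle z y z₀]
      · intro δ hδ
        obtain ⟨θ, X, hθ, hθ1, hX, hS⟩ := hloc y (by rw [Metric.mem_ball]; linarith) δ hδ
        exact ⟨ρ, hρ, θ, X, hθ, hθ1, hX, hS⟩
    · intro x y z _ _ _ hxy hyz δ hδ
      obtain ⟨δ', hδ', θ, X, hθ, hθ1, hX, hS⟩ := hxy δ hδ
      obtain ⟨δ'', hδ'', θ', X', hθ', hθ1', hX', hS'⟩ := hyz δ' hδ'
      refine ⟨δ'', hδ'', θ * θ', X * X', mul_pos hθ hθ', mul_le_one₀ hθ1 hθ'.le hθ1',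
        one_le_mul_of_one_le_of_one_le hX hX', ?_⟩
      have := step_comp D hX hX' hθ hθ1 hθ' hθ1' hS hS'
      rwa [one_mul] at this
  exact hP δ₁ hδ₁

end MP2794d1.PC
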