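import Pool.Agent.Lib.MP_2794d1_ag.PC.CA8

/-!
CB1: the form `hp` evaluated at matrices. `row_mul`: the maximal row sum of absolute values is submultiplicative:
`∑ b |(X Y) a b| ≤ ∑ c |X a c| ∑ b |Y c b| ≤ B B'`. `row_pow`: by induction (`X ^ 0 = 1` has row sums `1`).
`hpM_mulVec`: `ic` is multiplicative and additive (CA8 `ic_mul`), `ic (X i) ^ l *ᵥ w = x i ^ l • w` by induction.
`hpM_row`: each monomial `X 0 ^ i * X 1 ^ j * X 2 ^ (2 k - i - j)` has row sums at most `B ^ i B ^ j B ^ (2 k - i - j) = B ^ (2 k)`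
(`i, j ≤ k`), there are `(k + 1) ^ 2` monomials with coefficients at most `A`.
-/

namespace MP2794d1.PC

open Matrix Complex Filter Topology

theorem row_mul {κ : Type} [Fintype κ] (X Y : Matrix κ κ ℤ) {B B' : ℝ} (hB' : 0 ≤ B')
    (hX : ∀ a, ∑ b, |(X a b : ℝ)| ≤ B) (hY : ∀ a, ∑ b, |(Y a b : ℝ)| ≤ B') :
    ∀ a, ∑ b, |((X * Y) a b : ℝ)| ≤ B * B' := by
  intro a
  have h1 : ∀ b, |((X * Y) a b : ℝ)| ≤ ∑ c, |(X a c : ℝ)| * |(Y c b : ℝ)| := by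
    intro b
    rw [Matrix.mul_apply]
    push_cast
    refine (Finset.abs_sum_le_sum_abs _ _).trans (le_of_eq ?_)
    exact Finset.sum_congr rfl fun c _ => abs_mul _ _
  calc ∑ b, |((X * Y) a b : ℝ)| ≤ ∑ b, ∑ c, |(X a c : ℝ)| * |(Y c b : ℝ)| :=
        Finset.sum_le_sum fun b _ => h1 b
    _ = ∑ c, |(X a c : ℝ)| * ∑ b, |(Y c b : ℝ)| := by
        rw [Finset.sum_comm]
        exact Finset.sum_congr rfl fun c _ => (Finset.mul_sum _ _ _).symm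
    _ ≤ ∑ c, |(X a c : ℝ)| * B' :=
        Finset.sum_le_sum fun c _ => mul_le_mul_of_nonneg_left (hY c) (abs_nonneg _)
    _ = (∑ c, |(X a c : ℝ)|) * B' := (Finset.sum_mul _ _ _).symm
    _ ≤ B * B' := mul_le_mul_of_nonneg_right (hX a) hB'

theorem row_pow {κ : Type} [Fintype κ] [DecidableEq κ] (X : Matrix κ κ ℤ) {B : ℝ} (hB : 0 ≤ B)
    (hX : ∀ a, ∑ b, |(X a b : ℝ)| ≤ B) (l : ℕ) : ∀ a, ∑ b, |((X ^ l) a b : ℝ)| ≤ B ^ l := by
  induction l with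
  | zero =>
    intro a
    rw [pow_zero, pow_zero]
    have h1 : ∀ b, |((1 : Matrix κ κ ℤ) a b : ℝ)| = if a = b then (1 : ℝ) else 0 := by
      intro b
      by_cases h : a = b
      · rw [if_pos h, h, Matrix.one_apply_eq]; simp
      · rw [if_neg h, Matrix.one_apply_ne h]; simp
    simp only [h1, Finset.sum_ite_eq, Finset.mem_univ, if_true]
    exact le_rfl
  | succ l ih =>
    rw [pow_succ, pow_succ]
    exact row_mul _ _ hB ih hX

theorem mono_row {κ : Type} [Fintype κ] [DecidableEq κ] (k : ℕ) (i j : Fin (k + 1))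
    (X : Fin 3 → Matrix κ κ ℤ) {B : ℝ} (hB : 0 ≤ B) (hX : ∀ i a, ∑ b, |(X i a b : ℝ)| ≤ B) :
    ∀ a, ∑ b, |((X 0 ^ (i : ℕ) * X 1 ^ (j : ℕ) * X 2 ^ (2 * k - (i : ℕ) - (j : ℕ))) a b : ℝ)|
      ≤ B ^ (2 * k) := by
  have h := row_mul _ _ (pow_nonneg hB _)
    (row_mul _ _ (pow_nonneg hB _) (row_pow (X 0) hB (hX 0) (i : ℕ)) (row_pow (X 1) hB (hX 1) j))
    (row_pow (X 2) hB (hX 2) (2 * k - (i : ℕ) - (j : ℕ)))
  intro a
  refine (h a).trans (le_of_eq ?_)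
  rw [← pow_add, ← pow_add]
  congr 1
  have hi := i.2
  have hj := j.2
  omega

/-- `ic` as a ring homomorphism -/
theorem CB1_ic {κ : Type} [Fintype κ] [DecidableEq κ] (X : Matrix κ κ ℤ) :
    ic X = (Int.castRingHom ℂ).mapMatrix X := rfl

theorem CB1_pow {κ : Type} [Fintype κ] [DecidableEq κ] (X : Matrix κ κ ℤ) (w : κ → ℂ) (x : ℂ)
    (h : ic X *ᵥ w = x • w) (l : ℕ) : ic (X ^ l) *ᵥ w = x ^ l • w := by
  induction l with
  | zero => rw [pow_zero, pow_zero, ic_one, Matrix.one_mulVec, one_smul]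
  | succ l ih =>
    rw [pow_succ, ic_mul, ← Matrix.mulVec_mulVec, h, Matrix.mulVec_smul, ih, smul_smul, pow_succ,
      mul_comm]

theorem hpM_mulVec {κ : Type} [Fintype κ] [DecidableEq κ] (k : ℕ)
    (c : Fin (k + 1) → Fin (k + 1) → ℤ) (X : Fin 3 → Matrix κ κ ℤ) (w : κ → ℂ) (x : Fin 3 → ℂ)
    (h : ∀ i, ic (X i) *ᵥ w = x i • w) : ic (hpM k c X) *ᵥ w = hp k c x • w := by
  unfold hpM hp
  rw [CB1_ic, map_sum, Matrix.sum_mulVec, Finset.sum_smul]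
  refine Finset.sum_congr rfl fun i _ => ?_
  rw [map_sum, Matrix.sum_mulVec, Finset.sum_smul]
  refine Finset.sum_congr rfl fun j _ => ?_
  rw [map_zsmul, ← CB1_ic, ic_mul, ic_mul]
  have h1 : (c i j • (ic (X 0 ^ (i : ℕ)) * ic (X 1 ^ (j : ℕ)) *
      ic (X 2 ^ (2 * k - (i : ℕ) - (j : ℕ)))) : Matrix κ κ ℂ) =
      (c i j : ℂ) • (ic (X 0 ^ (i : ℕ)) * ic (X 1 ^ (j : ℕ)) *
      ic (X 2 ^ (2 * k - (i : ℕ) - (j : ℕ)))) := (Int.cast_smul_eq_zsmul ℂ _ _).symm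
  rw [h1, Matrix.smul_mulVec, ← Matrix.mulVec_mulVec, ← Matrix.mulVec_mulVec,
    CB1_pow _ _ _ (h 2), Matrix.mulVec_smul, CB1_pow _ _ _ (h 1), Matrix.mulVec_smul,
    Matrix.mulVec_smul, CB1_pow _ _ _ (h 0), smul_smul, smul_smul, smul_smul]
  congr 1
  ring

theorem hpM_row {κ : Type} [Fintype κ] [DecidableEq κ] (k : ℕ)
    (c : Fin (k + 1) → Fin (k + 1) → ℤ) (X : Fin 3 → Matrix κ κ ℤ) {A B : ℝ} (hA : 0 ≤ A)
    (hB : 0 ≤ B) (hc : ∀ i j, |(c i j : ℝ)| ≤ A) (hX : ∀ i a, ∑ b, |(X i a b : ℝ)| ≤ B) :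
    ∀ a, ∑ b, |(hpM k c X a b : ℝ)| ≤ ((k : ℝ) + 1) ^ 2 * A * B ^ (2 * k) := by
  intro a
  have h1 : ∀ b, |(hpM k c X a b : ℝ)| ≤ ∑ i : Fin (k + 1), ∑ j : Fin (k + 1),
      A * |((X 0 ^ (i : ℕ) * X 1 ^ (j : ℕ) * X 2 ^ (2 * k - (i : ℕ) - (j : ℕ))) a b : ℝ)| := by
    intro b
    unfold hpM
    rw [Matrix.sum_apply]
    push_cast
    refine (Finset.abs_sum_le_sum_abs _ _).trans (Finset.sum_le_sum fun i _ => ?_)
    rw [Matrix.sum_apply]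
    push_cast
    refine (Finset.abs_sum_le_sum_abs _ _).trans (Finset.sum_le_sum fun j _ => ?_)
    rw [Matrix.smul_apply, smul_eq_mul]
    push_cast
    rw [abs_mul]
    exact mul_le_mul_of_nonneg_right (hc i j) (abs_nonneg _)
  calc ∑ b, |(hpM k c X a b : ℝ)| ≤ ∑ b, ∑ i : Fin (k + 1), ∑ j : Fin (k + 1),
      A * |((X 0 ^ (i : ℕ) * X 1 ^ (j : ℕ) * X 2 ^ (2 * k - (i : ℕ) - (j : ℕ))) a b : ℝ)| :=
        Finset.sum_le_sum fun b _ => h1 b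
    _ = ∑ i : Fin (k + 1), ∑ j : Fin (k + 1), A * ∑ b,
        |((X 0 ^ (i : ℕ) * X 1 ^ (j : ℕ) * X 2 ^ (2 * k - (i : ℕ) - (j : ℕ))) a b : ℝ)| := by
        rw [Finset.sum_comm]
        refine Finset.sum_congr rfl fun i _ => ?_
        rw [Finset.sum_comm]
        refine Finset.sum_congr rfl fun j _ => ?_
        rw [Finset.mul_sum]
    _ ≤ ∑ _i : Fin (k + 1), ∑ _j : Fin (k + 1), A * B ^ (2 * k) :=
        Finset.sum_le_sum fun i _ => Finset.sum_le_sum fun j _ =>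
          mul_le_mul_of_nonneg_left (mono_row k i j X hB hX a) hA
    _ = ((k : ℝ) + 1) ^ 2 * A * B ^ (2 * k) := by
        simp only [Finset.sum_const, Finset.card_univ, Fintype.card_fin, nsmul_eq_mul]
        push_cast
        ring

end MP2794d1.PC
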