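import Mathlib

/-!
CB4: algebraic independence. `chain`: `pderiv j (aeval x P) = ∑ i, aeval x (pderiv i P) * pderiv j (x i)` (chain rule for the
derivation `pderiv j`; `MvPolynomial.induction_on` or `Derivation` extensionality).
`alg_indep`: otherwise let `d` be minimal such that there is a homogeneous `P ≠ 0` of degree `d` with `aeval x P = 0`
(strong induction on `d`). `d = 0`: `P` is a non-zero constant, contradiction. `d > 0`: Euler
(`MvPolynomial.IsHomogeneous.sum_X_mul_pderiv`): `∑ i, x i * aeval x (pderiv i P) = d • aeval x P = 0`; chain rule for `j = 0, 1`: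
`∑ i, pderiv j (x i) * aeval x (pderiv i P) = 0`. So the `3 × 3` matrix `[x; pderiv 0 x; pderiv 1 x]` over the domain
`MvPolynomial (Fin 2) ℂ` kills the vector `(aeval x (pderiv i P))_i`; its determinant is not `0` since its value at `0` is not `0`
(`hdet`), so (`Matrix.eq_zero_of_mulVec_eq_zero`) `aeval x (pderiv i P) = 0` for all `i`. `pderiv i P` is homogeneous of degree
`d - 1`, so by minimality `pderiv i P = 0` for all `i`, and `d • P = ∑ X i * pderiv i P = 0`, `P = 0`.
-/

namespace MP2794d1.PC

open MvPolynomial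

theorem pderiv_aeval (x : Fin 3 → MvPolynomial (Fin 2) ℂ) (P : MvPolynomial (Fin 3) ℂ) (j : Fin 2) :
    pderiv j (aeval x P) = ∑ i, aeval x (pderiv i P) * pderiv j (x i) := by
  induction P using MvPolynomial.induction_on with
  | C a =>
    rw [aeval_C]
    have h1 : algebraMap ℂ (MvPolynomial (Fin 2) ℂ) a = C a := rfl
    rw [h1, pderiv_C]
    simp
  | add p q hp hq =>
    rw [map_add, map_add, hp, hq, ← Finset.sum_add_distrib]
    refine Finset.sum_congr rfl fun i _ => ?_
    rw [map_add, map_add, add_mul]
  | mul_X p n hp =>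
    rw [map_mul, aeval_X, pderiv_mul, hp, Finset.sum_mul]
    have h1 : ∀ i, aeval x (pderiv i (p * X n)) * pderiv j (x i) =
        aeval x (pderiv i p) * pderiv j (x i) * x n +
          (if i = n then aeval x p * pderiv j (x n) else 0) := by
      intro i
      rw [pderiv_mul, map_add, map_mul, map_mul, aeval_X, pderiv_X]
      by_cases h : i = n
      · subst h
        rw [if_pos rfl, Pi.single_eq_same, map_one]
        ring
      · rw [if_neg h, Pi.single_eq_of_ne (fun h' => h h'.symm), map_zero]
        ring
    rw [Finset.sum_congr rfl fun i _ => h1 i, Finset.sum_add_distrib, Finset.sum_ite_eq',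
      if_pos (Finset.mem_univ n)]

theorem alg_indep (x : Fin 3 → MvPolynomial (Fin 2) ℂ)
    (hdet : (Matrix.of ![fun i => eval (0 : Fin 2 → ℂ) (x i),
      fun i => eval (0 : Fin 2 → ℂ) (pderiv 0 (x i)),
      fun i => eval (0 : Fin 2 → ℂ) (pderiv 1 (x i))]).det ≠ 0)
    (d : ℕ) (P : MvPolynomial (Fin 3) ℂ) (hP : P.IsHomogeneous d) (h : aeval x P = 0) : P = 0 := by
  induction d generalizing P with
  | zero =>
    have h1 : P.totalDegree = 0 := Nat.le_zero.1 hP.totalDegree_le
    have h2 := totalDegree_eq_zero_iff_eq_C.1 h1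
    rw [h2, aeval_C] at h
    have h3 : algebraMap ℂ (MvPolynomial (Fin 2) ℂ) (coeff 0 P) = C (coeff 0 P) := rfl
    rw [h3, C_eq_zero] at h
    rw [h2, h, C_0]
  | succ d ih =>
    set M : Matrix (Fin 3) (Fin 3) (MvPolynomial (Fin 2) ℂ) :=
      Matrix.of ![x, fun i => pderiv 0 (x i), fun i => pderiv 1 (x i)] with hM
    have hMdet : M.det ≠ 0 := by
      intro h0
      apply hdet
      have h1 := RingHom.map_det (eval (0 : Fin 2 → ℂ)) M
      rw [h0, map_zero] at h1
      rw [h1]
      congr 1
      ext i l
      fin_cases i <;> rfl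
    have hE := hP.sum_X_mul_pderiv
    have h1 : ∑ i, x i * aeval x (pderiv i P) = 0 := by
      have h2 := congrArg (aeval x) hE
      rw [map_sum, map_nsmul, h, smul_zero] at h2
      rw [← h2]
      refine Finset.sum_congr rfl fun i _ => ?_
      rw [map_mul, aeval_X]
    have h2 : ∀ j : Fin 2, ∑ i, pderiv j (x i) * aeval x (pderiv i P) = 0 := by
      intro j
      have h3 := pderiv_aeval x P j
      rw [h, map_zero] at h3
      rw [h3]
      exact Finset.sum_congr rfl fun i _ => mul_comm _ _
    have h3 : M.mulVec (fun i => aeval x (pderiv i P)) = 0 := by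
      funext l
      show ∑ i, M l i * aeval x (pderiv i P) = 0
      fin_cases l
      · exact h1
      · exact h2 0
      · exact h2 1
    have h4 := Matrix.eq_zero_of_mulVec_eq_zero hMdet h3
    have h5 : ∀ i, pderiv i P = 0 := by
      intro i
      refine ih (pderiv i P) ?_ (congrFun h4 i)
      have := hP.pderiv (i := i)
      rwa [Nat.add_sub_cancel] at this
    have h6 : ((d + 1 : ℕ)) • P = 0 := by
      rw [← hE]
      refine Finset.sum_eq_zero fun i _ => ?_
      rw [h5 i, mul_zero]
    rcases smul_eq_zero.1 h6 with h7 | h7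
    · exact absurd h7 (Nat.succ_ne_zero d)
    · exact h7

end MP2794d1.PC
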