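import Pool.Agent.Lib.MP_2794d1_ag.PC.CB4
import Pool.Agent.Lib.MP_2794d1_ag.PC.Defs

/-!
CB5: non-vanishing on a grid. Let `P = ∑ i j, C (c i j) * X 0 ^ i * X 1 ^ j * X 2 ^ (2 k - i - j)` in `MvPolynomial (Fin 3) ℂ`:
homogeneous of degree `2 k`, `P ≠ 0` (the exponents of the monomials are different; the coefficient of the monomial `(i, j)` is
`c i j`, for a pair with `c i j ≠ 0`). So `Q = aeval x P ≠ 0` (CB4), `degreeOf l Q ≤ 2 k D₀`, and by
`MvPolynomial.eq_zero_of_eval_zero_at_prod_finset` with `S l = {0, 1, ..., 2 k D₀}` (as complex numbers) there are `n₁, n₂ ≤ 2 k D₀`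
with `eval ![n₁, n₂] Q ≠ 0`; and `eval y Q = hp k c (fun i => eval y (x i))`.
-/

namespace MP2794d1.PC

open MvPolynomial

/-- the exponent of the monomial `(i, j)` -/
noncomputable def CB5_e (k : ℕ) (i j : Fin (k + 1)) : Fin 3 →₀ ℕ :=
  Finsupp.single 0 (i : ℕ) + Finsupp.single 1 (j : ℕ) +
    Finsupp.single 2 (2 * k - (i : ℕ) - (j : ℕ))

theorem CB5_e0 (k : ℕ) (i j : Fin (k + 1)) : CB5_e k i j 0 = (i : ℕ) := by
  simp [CB5_e]

theorem CB5_e1 (k : ℕ) (i j : Fin (k + 1)) : CB5_e k i j 1 = (j : ℕ) := by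
  simp [CB5_e]

theorem CB5_deg (k : ℕ) (i j : Fin (k + 1)) : (CB5_e k i j).degree = 2 * k := by
  unfold CB5_e
  rw [map_add, map_add, Finsupp.degree_single, Finsupp.degree_single, Finsupp.degree_single]
  have hi := i.2
  have hj := j.2
  omega

/-- the form as a polynomial -/
noncomputable def CB5_P (k : ℕ) (c : Fin (k + 1) → Fin (k + 1) → ℤ) : MvPolynomial (Fin 3) ℂ :=
  ∑ i : Fin (k + 1), ∑ j : Fin (k + 1), monomial (CB5_e k i j) (c i j : ℂ)

theorem CB5_hom (k : ℕ) (c : Fin (k + 1) → Fin (k + 1) → ℤ) :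
    (CB5_P k c).IsHomogeneous (2 * k) := by
  unfold CB5_P
  refine IsHomogeneous.sum _ _ _ fun i _ => IsHomogeneous.sum _ _ _ fun j _ => ?_
  exact isHomogeneous_monomial _ (CB5_deg k i j)

theorem CB5_coeff (k : ℕ) (c : Fin (k + 1) → Fin (k + 1) → ℤ) (i j : Fin (k + 1)) :
    coeff (CB5_e k i j) (CB5_P k c) = (c i j : ℂ) := by
  classical
  unfold CB5_P
  rw [coeff_sum]
  rw [Finset.sum_eq_single i]
  · rw [coeff_sum, Finset.sum_eq_single j]
    · rw [coeff_monomial, if_pos rfl]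
    · intro j' _ hj'
      rw [coeff_monomial, if_neg]
      intro h
      apply hj'
      have h1 := congrArg (fun f => f 1) h
      simp only [CB5_e1] at h1
      exact Fin.ext h1
    · intro h
      exact absurd (Finset.mem_univ j) h
  · intro i' _ hi'
    rw [coeff_sum]
    refine Finset.sum_eq_zero fun j' _ => ?_
    rw [coeff_monomial, if_neg]
    intro h
    apply hi'
    have h1 := congrArg (fun f => f 0) h
    simp only [CB5_e0] at h1
    exact Fin.ext h1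
  · intro h
    exact absurd (Finset.mem_univ i) h

theorem CB5_mon (k : ℕ) (i j : Fin (k + 1)) (a : ℂ) :
    monomial (CB5_e k i j) a = C a * (X 0 ^ (i : ℕ) * X 1 ^ (j : ℕ) *
      X 2 ^ (2 * k - (i : ℕ) - (j : ℕ))) := by
  unfold CB5_e
  rw [X_pow_eq_monomial, X_pow_eq_monomial, X_pow_eq_monomial, monomial_mul, monomial_mul,
    C_mul_monomial]
  simp

theorem CB5_aeval (k : ℕ) (c : Fin (k + 1) → Fin (k + 1) → ℤ)
    (x : Fin 3 → MvPolynomial (Fin 2) ℂ) :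
    aeval x (CB5_P k c) = ∑ i : Fin (k + 1), ∑ j : Fin (k + 1),
      C (c i j : ℂ) * (x 0 ^ (i : ℕ) * x 1 ^ (j : ℕ) * x 2 ^ (2 * k - (i : ℕ) - (j : ℕ))) := by
  unfold CB5_P
  rw [map_sum]
  refine Finset.sum_congr rfl fun i _ => ?_
  rw [map_sum]
  refine Finset.sum_congr rfl fun j _ => ?_
  rw [CB5_mon, map_mul, map_mul, map_mul, map_pow, map_pow, map_pow, aeval_X, aeval_X, aeval_X,
    aeval_C]
  rfl

theorem CB5_degreeOf (k : ℕ) (c : Fin (k + 1) → Fin (k + 1) → ℤ)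
    (x : Fin 3 → MvPolynomial (Fin 2) ℂ) (D₀ : ℕ) (hdeg : ∀ i l, (x i).degreeOf l ≤ D₀)
    (l : Fin 2) : (aeval x (CB5_P k c)).degreeOf l ≤ 2 * k * D₀ := by
  rw [CB5_aeval]
  have hpow : ∀ (i : Fin 3) (e : ℕ), (x i ^ e).degreeOf l ≤ e * D₀ := by
    intro i e
    exact (degreeOf_pow_le l (x i) e).trans (Nat.mul_le_mul_left e (hdeg i l))
  refine (degreeOf_sum_le _ _ _).trans (Finset.sup_le fun i _ => ?_)
  refine (degreeOf_sum_le _ _ _).trans (Finset.sup_le fun j _ => ?_)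
  refine (degreeOf_C_mul_le _ _ _).trans ?_
  refine (degreeOf_mul_le _ _ _).trans ?_
  have h1 := degreeOf_mul_le l (x 0 ^ (i : ℕ)) (x 1 ^ (j : ℕ))
  have h2 := hpow 0 (i : ℕ)
  have h3 := hpow 1 (j : ℕ)
  have h4 := hpow 2 (2 * k - (i : ℕ) - (j : ℕ))
  have hi := i.2
  have hj := j.2
  have h5 : 2 * k * D₀ = (i : ℕ) * D₀ + (j : ℕ) * D₀ + (2 * k - (i : ℕ) - (j : ℕ)) * D₀ := by
    rw [← Nat.add_mul, ← Nat.add_mul]
    congr 1
    omega
  omega

theorem CB5_eval (k : ℕ) (c : Fin (k + 1) → Fin (k + 1) → ℤ)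
    (x : Fin 3 → MvPolynomial (Fin 2) ℂ) (y : Fin 2 → ℂ) :
    eval y (aeval x (CB5_P k c)) = hp k c (fun i => eval y (x i)) := by
  rw [CB5_aeval, map_sum]
  unfold hp
  refine Finset.sum_congr rfl fun i _ => ?_
  rw [map_sum]
  refine Finset.sum_congr rfl fun j _ => ?_
  rw [map_mul, map_mul, map_mul, map_pow, map_pow, map_pow, eval_C]

theorem grid (x : Fin 3 → MvPolynomial (Fin 2) ℂ) (D₀ : ℕ) (hdeg : ∀ i l, (x i).degreeOf l ≤ D₀)
    (hdet : (Matrix.of ![fun i => eval (0 : Fin 2 → ℂ) (x i),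
      fun i => eval (0 : Fin 2 → ℂ) (pderiv 0 (x i)),
      fun i => eval (0 : Fin 2 → ℂ) (pderiv 1 (x i))]).det ≠ 0)
    (k : ℕ) (c : Fin (k + 1) → Fin (k + 1) → ℤ) (hc : ∃ i j, c i j ≠ 0) :
    ∃ n₁ n₂ : ℕ, n₁ ≤ 2 * k * D₀ ∧ n₂ ≤ 2 * k * D₀ ∧
      hp k c (fun i => eval (![(n₁ : ℂ), (n₂ : ℂ)]) (x i)) ≠ 0 := by
  classical
  by_contra hcon
  push Not at hcon
  obtain ⟨i₀, j₀, h0⟩ := hc
  have hP : CB5_P k c ≠ 0 := by
    intro h
    have h1 := CB5_coeff k c i₀ j₀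
    rw [h, coeff_zero] at h1
    exact h0 (by exact_mod_cast h1.symm)
  apply hP
  refine alg_indep x hdet (2 * k) _ (CB5_hom k c) ?_
  refine eq_zero_of_eval_zero_at_prod_finset _
    (fun _ => (Finset.range (2 * k * D₀ + 1)).image (fun n : ℕ => (n : ℂ))) ?_ ?_
  · intro l
    rw [Finset.card_image_of_injective _ Nat.cast_injective, Finset.card_range]
    exact Nat.lt_succ_of_le (CB5_degreeOf k c x D₀ hdeg l)
  · intro y hy
    obtain ⟨n₁, hn₁, h1⟩ := Finset.mem_image.1 (hy 0)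
    obtain ⟨n₂, hn₂, h2⟩ := Finset.mem_image.1 (hy 1)
    rw [Finset.mem_range] at hn₁ hn₂
    have h3 : y = ![(n₁ : ℂ), (n₂ : ℂ)] := by
      funext l
      fin_cases l
      · exact h1.symm
      · exact h2.symm
    rw [CB5_eval, h3]
    exact hcon n₁ n₂ (Nat.le_of_lt_succ hn₁) (Nat.le_of_lt_succ hn₂)

end MP2794d1.PC
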