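import Pool.Agent.Lib.MP_2794d1_ag.PC.CA8

/-!
CB6: the two-parameter family of vectors. `E₁ : Matrix ι ι (MvPolynomial (Fin 2) ℂ)`, `E₁ i j =` the polynomial `D.G.P i j`
(coefficients mapped to `ℂ`) in the variable `X 0`: `Polynomial.aeval (X 0) ((D.G.P i j).map (algebraMap ℚ ℂ))`, `E₂` the same
in `X 1`. Put `x = (ic (R g₁)) E₁ (ic (R g₁⁻¹)) (ic (R g₂)) E₂ (ic (R g₂⁻¹)) *ᵥ v` with constant matrices and vector mapped by
`C`. `eval y (E₁ i j) = aeval (y 0) (D.G.P i j)`, so at `y = (n₁, n₂)` we get `ic (R (rel ...)) *ᵥ v` by `R_pow`, `ic_mul`,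
`map_mul`. At `y = 0`: `E₁ = E₂ = 1` (`PolyGroup.zero'`), `R g R g⁻¹ = 1`, so the value is `v`; `pderiv 0` only differentiates
`E₁`, its derivative at `0` is `D.dG`, which gives `dN g₁ *ᵥ v`; `pderiv 1` gives `dN g₂ *ᵥ v`. Degrees: bounded since there are
finitely many polynomials (`∃ D₀`: take the maximum over `i` and `l` of `degreeOf l (x i)`).
-/

namespace MP2794d1.PC

open Matrix MvPolynomial

variable {Γ : Subgroup (Matrix.SpecialLinearGroup (Fin 2) ℝ)} {ι : Type} [Fintype ι]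
  [DecidableEq ι]

/-- constant matrix -/
noncomputable def CB6_c (M : Matrix ι ι ℂ) : Matrix ι ι (MvPolynomial (Fin 2) ℂ) :=
  M.map (C : ℂ →+* MvPolynomial (Fin 2) ℂ)

/-- the one-parameter group in the variable `X l` -/
noncomputable def CB6_E (P : Matrix ι ι (Polynomial ℚ)) (l : Fin 2) :
    Matrix ι ι (MvPolynomial (Fin 2) ℂ) :=
  P.map (fun p => Polynomial.aeval (X l : MvPolynomial (Fin 2) ℂ) p)

omit [DecidableEq ι] [Fintype ι] in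
theorem CB6_c_eval (M : Matrix ι ι ℂ) (y : Fin 2 → ℂ) : (CB6_c M).map (eval y) = M := by
  ext i j
  show eval y (C (M i j)) = M i j
  rw [eval_C]

omit [DecidableEq ι] [Fintype ι] in
theorem CB6_c_pd (M : Matrix ι ι ℂ) (l : Fin 2) : (CB6_c M).map (pderiv l) = 0 := by
  ext1 i j
  show pderiv l (C (M i j)) = 0
  rw [pderiv_C]

theorem CB6_aeval (p : Polynomial ℚ) (l : Fin 2) (y : Fin 2 → ℂ) :
    eval y (Polynomial.aeval (X l : MvPolynomial (Fin 2) ℂ) p) = Polynomial.aeval (y l) p := by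
  rw [Polynomial.aeval_def, Polynomial.hom_eval₂, eval_X, Polynomial.aeval_def]
  congr 1
  exact Subsingleton.elim _ _

theorem CB6_pd (p : Polynomial ℚ) (l l' : Fin 2) :
    pderiv l' (Polynomial.aeval (X l : MvPolynomial (Fin 2) ℂ) p) =
      Polynomial.aeval (X l : MvPolynomial (Fin 2) ℂ) (Polynomial.derivative p) *
        pderiv l' (X l) := by
  have h := Derivation.map_aeval
    ((pderiv l' : Derivation ℂ (MvPolynomial (Fin 2) ℂ) (MvPolynomial (Fin 2) ℂ)).restrictScalars ℚ)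
    p (X l)
  rw [smul_eq_mul] at h
  exact h

theorem CB6_mul_pd (M M' : Matrix ι ι (MvPolynomial (Fin 2) ℂ)) (l : Fin 2) :
    (M * M').map (pderiv l) = M.map (pderiv l) * M' + M * M'.map (pderiv l) := by
  ext1 i j
  rw [Matrix.map_apply, Matrix.mul_apply, map_sum, Matrix.add_apply, Matrix.mul_apply,
    Matrix.mul_apply, ← Finset.sum_add_distrib]
  refine Finset.sum_congr rfl fun a _ => ?_
  rw [pderiv_mul]
  rfl

/-- the matrix of the family -/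
noncomputable def CB6_N (D : Datum Γ ι) (g₁ g₂ : Γ) : Matrix ι ι (MvPolynomial (Fin 2) ℂ) :=
  CB6_c (ic (D.R g₁)) * CB6_E D.G.P 0 * CB6_c (ic (D.R g₁⁻¹)) *
    (CB6_c (ic (D.R g₂)) * CB6_E D.G.P 1 * CB6_c (ic (D.R g₂⁻¹)))

theorem CB6_E_eval (D : Datum Γ ι) (l : Fin 2) (y : Fin 2 → ℂ) :
    (CB6_E D.G.P l).map (eval y) = D.G.E (y l) := by
  ext i j
  exact CB6_aeval (D.G.P i j) l y

theorem CB6_mulmap (M M' : Matrix ι ι (MvPolynomial (Fin 2) ℂ)) (y : Fin 2 → ℂ) :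
    (M * M').map (eval y) = M.map (eval y) * M'.map (eval y) :=
  Matrix.map_mul

theorem CB6_N_eval (D : Datum Γ ι) (g₁ g₂ : Γ) (y : Fin 2 → ℂ) :
    (CB6_N D g₁ g₂).map (eval y) = ic (D.R g₁) * D.G.E (y 0) * ic (D.R g₁⁻¹) *
      (ic (D.R g₂) * D.G.E (y 1) * ic (D.R g₂⁻¹)) := by
  unfold CB6_N
  rw [CB6_mulmap, CB6_mulmap, CB6_mulmap, CB6_mulmap, CB6_mulmap, CB6_c_eval, CB6_c_eval,
    CB6_c_eval, CB6_c_eval, CB6_E_eval, CB6_E_eval]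

theorem CB6_inv (D : Datum Γ ι) (g : Γ) : ic (D.R g) * ic (D.R g⁻¹) = 1 := by
  rw [← ic_mul, ← map_mul, mul_inv_cancel, map_one, ic_one]

theorem CB6_E0 (D : Datum Γ ι) : D.G.E 0 = 1 := D.G.zero'

theorem CB6_E_pd_eval (D : Datum Γ ι) (l : Fin 2) :
    ((CB6_E D.G.P l).map (pderiv l)).map (eval (0 : Fin 2 → ℂ)) = D.dG := by
  ext i j
  show eval (0 : Fin 2 → ℂ) (pderiv l (Polynomial.aeval (X l : MvPolynomial (Fin 2) ℂ) (D.G.P i j)))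
    = _
  rw [CB6_pd, pderiv_X_self, mul_one, CB6_aeval]
  rfl

theorem CB6_E_pd_ne (P : Matrix ι ι (Polynomial ℚ)) (l l' : Fin 2) (h : l ≠ l') :
    (CB6_E P l).map (pderiv l') = 0 := by
  ext1 i j
  show pderiv l' (Polynomial.aeval (X l : MvPolynomial (Fin 2) ℂ) (P i j)) = 0
  rw [CB6_pd, pderiv_X_of_ne h, mul_zero]

theorem CB6_addmap (M M' : Matrix ι ι (MvPolynomial (Fin 2) ℂ)) (y : Fin 2 → ℂ) :
    (M + M').map (eval y) = M.map (eval y) + M'.map (eval y) := by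
  ext i j
  simp

theorem CB6_N_pd0 (D : Datum Γ ι) (g₁ g₂ : Γ) :
    ((CB6_N D g₁ g₂).map (pderiv 0)).map (eval (0 : Fin 2 → ℂ)) = D.dN g₁ := by
  unfold CB6_N
  rw [CB6_mul_pd, CB6_mul_pd, CB6_mul_pd, CB6_mul_pd, CB6_mul_pd, CB6_c_pd, CB6_c_pd, CB6_c_pd,
    CB6_c_pd, CB6_E_pd_ne _ 1 0 (by decide)]
  simp only [Matrix.zero_mul, Matrix.mul_zero, zero_add, add_zero]
  rw [CB6_mulmap, CB6_mulmap, CB6_mulmap, CB6_mulmap, CB6_mulmap, CB6_c_eval, CB6_c_eval,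
    CB6_c_eval, CB6_c_eval, CB6_E_eval, CB6_E_pd_eval]
  have h0 : D.G.E ((0 : Fin 2 → ℂ) 1) = 1 := CB6_E0 D
  rw [h0, Matrix.mul_one, CB6_inv, Matrix.mul_one]
  rfl

theorem CB6_N_pd1 (D : Datum Γ ι) (g₁ g₂ : Γ) :
    ((CB6_N D g₁ g₂).map (pderiv 1)).map (eval (0 : Fin 2 → ℂ)) = D.dN g₂ := by
  unfold CB6_N
  rw [CB6_mul_pd, CB6_mul_pd, CB6_mul_pd, CB6_mul_pd, CB6_mul_pd, CB6_c_pd, CB6_c_pd, CB6_c_pd,
    CB6_c_pd, CB6_E_pd_ne _ 0 1 (by decide)]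
  simp only [Matrix.zero_mul, Matrix.mul_zero, zero_add, add_zero]
  rw [CB6_mulmap, CB6_mulmap, CB6_mulmap, CB6_mulmap, CB6_mulmap, CB6_c_eval, CB6_c_eval,
    CB6_c_eval, CB6_c_eval, CB6_E_eval, CB6_E_pd_eval]
  have h0 : D.G.E ((0 : Fin 2 → ℂ) 0) = 1 := CB6_E0 D
  rw [h0, Matrix.mul_one, CB6_inv, Matrix.one_mul]
  rfl

theorem family (D : Datum Γ ι) (g₁ g₂ : Γ) (v : ι → ℂ) :
    ∃ (x : ι → MvPolynomial (Fin 2) ℂ) (D₀ : ℕ), (∀ i l, (x i).degreeOf l ≤ D₀) ∧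
      (∀ i, eval (0 : Fin 2 → ℂ) (x i) = v i) ∧
      (∀ i, eval (0 : Fin 2 → ℂ) (pderiv 0 (x i)) = (D.dN g₁ *ᵥ v) i) ∧
      (∀ i, eval (0 : Fin 2 → ℂ) (pderiv 1 (x i)) = (D.dN g₂ *ᵥ v) i) ∧
      ∀ (n₁ n₂ : ℕ) (i : ι), eval (![(n₁ : ℂ), (n₂ : ℂ)]) (x i) =
        (ic (D.R (rel D.T g₁ g₂ n₁ n₂)) *ᵥ v) i := by
  let x : ι → MvPolynomial (Fin 2) ℂ := CB6_N D g₁ g₂ *ᵥ (fun i => C (v i))
  have hval : ∀ (y : Fin 2 → ℂ) (i : ι), eval y (x i) = ((CB6_N D g₁ g₂).map (eval y) *ᵥ v) i := by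
    intro y i
    have h1 := RingHom.map_mulVec (eval y) (CB6_N D g₁ g₂) (fun i => C (v i)) i
    have h2 : (eval y) ∘ (fun i => C (v i)) = v := by
      funext j
      show eval y (C (v j)) = v j
      rw [eval_C]
    rw [h2] at h1
    exact h1
  have hpd : ∀ (l : Fin 2) (i : ι), eval (0 : Fin 2 → ℂ) (pderiv l (x i)) =
      (((CB6_N D g₁ g₂).map (pderiv l)).map (eval (0 : Fin 2 → ℂ)) *ᵥ v) i := by
    intro l i
    have h1 : x i = ∑ j, CB6_N D g₁ g₂ i j * C (v j) := rfl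
    rw [h1, map_sum, map_sum]
    show _ = ∑ j, eval (0 : Fin 2 → ℂ) (pderiv l (CB6_N D g₁ g₂ i j)) * v j
    refine Finset.sum_congr rfl fun j _ => ?_
    rw [pderiv_mul, pderiv_C, mul_zero, add_zero, map_mul, eval_C]
  refine ⟨x, ∑ i, ∑ l, (x i).degreeOf l, ?_, ?_, ?_, ?_, ?_⟩
  · intro i l
    exact (Finset.single_le_sum (f := fun l => (x i).degreeOf l) (fun _ _ => Nat.zero_le _)
      (Finset.mem_univ l)).trans (Finset.single_le_sum (f := fun i => ∑ l, (x i).degreeOf l)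
        (fun _ _ => Nat.zero_le _) (Finset.mem_univ i))
  · intro i
    have h0 : D.G.E ((0 : Fin 2 → ℂ) 0) = 1 := CB6_E0 D
    have h1 : D.G.E ((0 : Fin 2 → ℂ) 1) = 1 := CB6_E0 D
    rw [hval, CB6_N_eval, h0, h1, Matrix.mul_one, Matrix.mul_one, CB6_inv, CB6_inv, Matrix.mul_one,
      Matrix.one_mulVec]
  · intro i
    rw [hpd, CB6_N_pd0]
  · intro i
    rw [hpd, CB6_N_pd1]
  · intro n₁ n₂ i
    rw [hval, CB6_N_eval]
    have h0 : D.G.E ((![(n₁ : ℂ), (n₂ : ℂ)] : Fin 2 → ℂ) 0) = ic (D.R (D.T ^ n₁)) :=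
      (R_pow D n₁).symm
    have h1 : D.G.E ((![(n₁ : ℂ), (n₂ : ℂ)] : Fin 2 → ℂ) 1) = ic (D.R (D.T ^ n₂)) :=
      (R_pow D n₂).symm
    rw [h0, h1]
    congr 2
    unfold rel
    rw [map_mul, map_mul, map_mul, map_mul, map_mul, ic_mul, ic_mul, ic_mul, ic_mul, ic_mul]

end MP2794d1.PC
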