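import Pool.Agent.Lib.MP_2794d1_ag.PC.CA8
import Pool.Agent.Lib.MP_2794d1_ag.B01

/-!
CB7: `exists_minor3`: three linearly independent vectors of `ℂ^ι` have a non-zero `3 × 3` minor: `exists_minor_ne` (B01) for
`Fin n` after reindexing `ι` (`Fintype.equivFin`), `r = 3`; `Matrix.det_transpose`. (Linear independence of
`![v, dN g₁ v, dN g₂ v]` is `Indep`, by `Fintype.linearIndependent_iff` and `Fin.sum_univ_three`.)
`R_growth`: the entries of `R (rel T g₁ g₂ n₁ n₂)`: `R (T ^ n) = D.G.E n` (`R_pow`) has entries at most `C (1 + n) ^ C` (the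
entries are polynomials in `n`), and `rel` is a product of six matrices, four of which are fixed.
-/

namespace MP2794d1.PC

open Matrix Complex

variable {Γ : Subgroup (Matrix.SpecialLinearGroup (Fin 2) ℝ)} {ι : Type} [Fintype ι]
  [DecidableEq ι]

theorem exists_minor3 (D : Datum Γ ι) (g₁ g₂ : Γ) (v : ι → ℂ) (h : Indep D g₁ g₂ v) :
    ∃ α : Fin 3 → ι, (Matrix.of ![fun i => v (α i), fun i => (D.dN g₁ *ᵥ v) (α i),
      fun i => (D.dN g₂ *ᵥ v) (α i)]).det ≠ 0 := by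
  let e := Fintype.equivFin ι
  let u : Fin 3 → ι → ℂ := ![v, D.dN g₁ *ᵥ v, D.dN g₂ *ᵥ v]
  let W : Matrix (Fin (Fintype.card ι)) (Fin 3) ℂ := Matrix.of fun a l => u l (e.symm a)
  have hW : LinearIndependent ℂ Wᵀ := by
    rw [Fintype.linearIndependent_iff]
    intro c hc
    have h1 : c 0 • v + c 1 • (D.dN g₁ *ᵥ v) + c 2 • (D.dN g₂ *ᵥ v) = 0 := by
      funext i
      have h2 := congrFun hc (e i)
      rw [Fin.sum_univ_three] at h2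
      have h3 : ∀ l, Wᵀ l (e i) = u l i := by
        intro l
        show u l (e.symm (e i)) = u l i
        rw [Equiv.symm_apply_apply]
      simp only [Pi.add_apply, Pi.smul_apply, h3, Pi.zero_apply] at h2
      exact h2
    obtain ⟨h0, h1, h2⟩ := h _ _ _ h1
    intro l
    fin_cases l
    · exact h0
    · exact h1
    · exact h2
  obtain ⟨f, hf⟩ := exists_minor_ne W hW
  refine ⟨fun i => e.symm (f i), ?_⟩
  have h1 : (Matrix.of ![fun i => v (e.symm (f i)), fun i => (D.dN g₁ *ᵥ v) (e.symm (f i)),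
      fun i => (D.dN g₂ *ᵥ v) (e.symm (f i))]) = (W.submatrix f id)ᵀ := by
    ext l i
    fin_cases l <;> rfl
  rw [h1, Matrix.det_transpose]
  exact hf

/-- entries of a product -/
theorem CB7_mul (X Y : Matrix ι ι ℤ) {a b : ℝ} (hX : ∀ i j, |(X i j : ℝ)| ≤ a)
    (hY : ∀ i j, |(Y i j : ℝ)| ≤ b) (i j : ι) :
    |((X * Y) i j : ℝ)| ≤ Fintype.card ι * (a * b) := by
  rw [Matrix.mul_apply]
  push_cast
  refine (Finset.abs_sum_le_sum_abs _ _).trans ?_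
  have h1 : ∀ l ∈ (Finset.univ : Finset ι), |(X i l : ℝ) * (Y l j : ℝ)| ≤ a * b := by
    intro l _
    rw [abs_mul]
    exact mul_le_mul (hX i l) (hY l j) (abs_nonneg _) ((abs_nonneg _).trans (hX i l))
  refine (Finset.sum_le_card_nsmul _ _ _ h1).trans (le_of_eq ?_)
  rw [nsmul_eq_mul, Finset.card_univ]

omit [DecidableEq ι] in
theorem CB7_bd (X : Matrix ι ι ℤ) : ∃ K : ℕ, ∀ i j, |(X i j : ℝ)| ≤ K := by
  refine ⟨∑ i, ∑ j, (X i j).natAbs, fun i j => ?_⟩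
  have h1 : |(X i j : ℝ)| = ((X i j).natAbs : ℝ) := by
    rw [Nat.cast_natAbs]
    push_cast
    rfl
  rw [h1]
  have h2 : (X i j).natAbs ≤ ∑ i, ∑ j, (X i j).natAbs :=
    (Finset.single_le_sum (f := fun j => (X i j).natAbs) (fun _ _ => Nat.zero_le _)
      (Finset.mem_univ j)).trans (Finset.single_le_sum (f := fun i => ∑ j, (X i j).natAbs)
        (fun _ _ => Nat.zero_le _) (Finset.mem_univ i))
  exact_mod_cast h2

theorem CB7_T (D : Datum Γ ι) : ∃ C : ℕ, 1 ≤ C ∧ ∀ (n : ℕ) (i j : ι),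
    |(D.R (D.T ^ n) i j : ℝ)| ≤ C * (1 + (n : ℝ)) ^ C := by
  obtain ⟨C, hC, h⟩ := E_norm D.G
  refine ⟨C, hC, fun n i j => ?_⟩
  have h1 := (h (n : ℂ) (Pi.single j 1)).1
  rw [← R_pow D n, Matrix.mulVec_single_one] at h1
  have h2 : ‖(ic (D.R (D.T ^ n))) i j‖ ≤ ‖(ic (D.R (D.T ^ n))).col j‖ :=
    norm_le_pi_norm ((ic (D.R (D.T ^ n))).col j) i
  have h3 : ‖(ic (D.R (D.T ^ n))) i j‖ = |(D.R (D.T ^ n) i j : ℝ)| := by
    show ‖((D.R (D.T ^ n) i j : ℤ) : ℂ)‖ = _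
    rw [Complex.norm_intCast]
  have h4 : ‖(Pi.single j 1 : ι → ℂ)‖ ≤ 1 := by
    rw [pi_norm_le_iff_of_nonneg zero_le_one]
    intro l
    by_cases hl : l = j
    · rw [hl, Pi.single_eq_same, norm_one]
    · rw [Pi.single_eq_of_ne hl, norm_zero]
      exact zero_le_one
  rw [← h3]
  refine h2.trans (h1.trans ?_)
  rw [Complex.norm_natCast]
  calc (C : ℝ) * (1 + (n : ℝ)) ^ C * ‖(Pi.single j 1 : ι → ℂ)‖ ≤
      (C : ℝ) * (1 + (n : ℝ)) ^ C * 1 := mul_le_mul_of_nonneg_left h4 (by positivity)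
    _ = _ := mul_one _

theorem R_growth (D : Datum Γ ι) (g₁ g₂ : Γ) : ∃ C : ℕ, 1 ≤ C ∧ ∀ (n₁ n₂ : ℕ) (i j : ι),
    |(D.R (rel D.T g₁ g₂ n₁ n₂) i j : ℝ)| ≤ (C : ℝ) * (((n₁ : ℝ) + 1) * ((n₂ : ℝ) + 1)) ^ C := by
  obtain ⟨C, hC, hT⟩ := CB7_T D
  obtain ⟨K1, hK1⟩ := CB7_bd (D.R g₁)
  obtain ⟨K2, hK2⟩ := CB7_bd (D.R g₁⁻¹)
  obtain ⟨K3, hK3⟩ := CB7_bd (D.R g₂)
  obtain ⟨K4, hK4⟩ := CB7_bd (D.R g₂⁻¹)
  set N := Fintype.card ι with hN
  refine ⟨N ^ 5 * (K1 * K2 * K3 * K4) * (C * C) + C, by omega, fun n₁ n₂ i j => ?_⟩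
  have h1 : D.R (rel D.T g₁ g₂ n₁ n₂) = D.R g₁ * D.R (D.T ^ n₁) * D.R g₁⁻¹ *
      (D.R g₂ * D.R (D.T ^ n₂) * D.R g₂⁻¹) := by
    unfold rel
    rw [map_mul, map_mul, map_mul, map_mul, map_mul]
  rw [h1]
  have h2 := CB7_mul _ _ (CB7_mul _ _ (CB7_mul _ _ hK1 (hT n₁)) hK2)
    (CB7_mul _ _ (CB7_mul _ _ hK3 (hT n₂)) hK4) i j
  refine h2.trans ?_
  set a : ℝ := (n₁ : ℝ) + 1 with ha
  set b : ℝ := (n₂ : ℝ) + 1 with hb
  have ha1 : 1 ≤ a := by rw [ha]; linarith [(Nat.cast_nonneg n₁ : (0 : ℝ) ≤ n₁)]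
  have hb1 : 1 ≤ b := by rw [hb]; linarith [(Nat.cast_nonneg n₂ : (0 : ℝ) ≤ n₂)]
  have hab : 1 ≤ a * b := one_le_mul_of_one_le_of_one_le ha1 hb1
  have e1 : (1 + (n₁ : ℝ)) = a := by rw [ha]; ring
  have e2 : (1 + (n₂ : ℝ)) = b := by rw [hb]; ring
  rw [e1, e2]
  have e3 : (N : ℝ) * ((N : ℝ) * ((N : ℝ) * ((K1 : ℝ) * ((C : ℝ) * a ^ C)) * K2) *
      ((N : ℝ) * ((N : ℝ) * ((K3 : ℝ) * ((C : ℝ) * b ^ C)) * K4))) =
      (N ^ 5 * (K1 * K2 * K3 * K4) * (C * C) : ℝ) * (a * b) ^ C := by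
    rw [mul_pow]
    ring
  rw [e3]
  push_cast
  have h5 : (a * b) ^ C ≤ (a * b) ^ (N ^ 5 * (K1 * K2 * K3 * K4) * (C * C) + C) :=
    pow_le_pow_right₀ hab (Nat.le_add_left _ _)
  have h6 : (0 : ℝ) ≤ (N ^ 5 * (K1 * K2 * K3 * K4) * (C * C) : ℝ) := by positivity
  refine (mul_le_mul_of_nonneg_left h5 h6).trans ?_
  refine mul_le_mul_of_nonneg_right ?_ (by positivity)
  have : (0 : ℝ) ≤ (C : ℝ) := Nat.cast_nonneg _
  linarith

end MP2794d1.PC
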