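import Pool.Agent.Lib.MP_2794d1_ag.PC.CB2
import Pool.Agent.Lib.MP_2794d1_ag.PC.CB5
import Pool.Agent.Lib.MP_2794d1_ag.PC.CB6
import Pool.Agent.Lib.MP_2794d1_ag.PC.CB7

/-!
CB8: the zero estimate. `α` from `exists_minor3`, `x, D₀` from `family`; `grid` applied to `x ∘ α` gives `n₁, n₂ ≤ 2 k D₀` with
`y = hp k c ((ic (R (rel ...)) *ᵥ v) ∘ α) ≠ 0`. By `R_growth` and `IntRep.mul` the vector `ic (R (rel ...)) *ᵥ v` is
`IntRep κ B₁` with `B₁ = card ι * C₀ ((n₁ + 1) (n₂ + 1)) ^ C₀ * max B₀ 1 ≤ (C₁ k) ^ C₁` (`k ≥ 1`), and `liouville_hp` gives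
`1 ≤ ‖y‖ (card κ ((k + 1) ^ 2 A B₁ ^ (2 k)) + 1) ^ (card κ) ≤ ‖y‖ (C k) ^ (C k) A ^ C`.
(All the constants may be enlarged: use `(k + 1) ^ 2 ≤ (2 k) ^ 2`, `x + 1 ≤ 2 x` for `x ≥ 1`, `k ≥ 1`, `A ≥ 1`.)
-/

namespace MP2794d1.PC

open Matrix Complex

variable {Γ : Subgroup (Matrix.SpecialLinearGroup (Fin 2) ℝ)} {ι : Type} [Fintype ι]
  [DecidableEq ι]

/-- the numerical estimate -/
theorem CB8_num (N C0 b m K k : ℕ) (hk : 1 ≤ k) {A ρ x : ℝ} (hA : 1 ≤ A) (hx1 : 1 ≤ x)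
    (hx : x ≤ ((m : ℝ) * k) ^ 2) (hρ : ρ = (C0 : ℝ) * x ^ C0) :
    (K * (((k : ℝ) + 1) ^ 2 * A * ((N : ℝ) * ρ * b) ^ (2 * k)) + 1) ^ K ≤
      ((K * (4 * C0 + 6) + (N * C0 * b + m + K + 2) : ℕ) * (k : ℝ)) ^
          ((K * (4 * C0 + 6) + (N * C0 * b + m + K + 2)) * k) *
        A ^ (K * (4 * C0 + 6) + (N * C0 * b + m + K + 2)) := by
  set Q : ℕ := N * C0 * b + m + K + 2 with hQ
  set C : ℕ := K * (4 * C0 + 6) + Q with hC
  have hk1 : (1 : ℝ) ≤ k := by exact_mod_cast hk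
  have hQ2 : (2 : ℝ) ≤ Q := by
    have : 2 ≤ Q := by omega
    exact_mod_cast this
  have hQk2 : (2 : ℝ) ≤ Q * k := by nlinarith
  have hQk1 : (1 : ℝ) ≤ Q * k := by linarith
  have hx0 : 0 ≤ x := by linarith
  -- bound of `N ρ b`
  have h1 : (N : ℝ) * ρ * b ≤ ((Q : ℝ) * k) ^ (2 * C0 + 1) := by
    have e1 : (N : ℝ) * ρ * b = ((N * C0 * b : ℕ) : ℝ) * x ^ C0 := by
      rw [hρ]; push_cast; ring
    rw [e1]
    have h2 : x ^ C0 ≤ (((Q : ℝ) * k) ^ 2) ^ C0 := by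
      refine pow_le_pow_left₀ hx0 (hx.trans ?_) C0
      refine pow_le_pow_left₀ (by positivity) ?_ 2
      refine mul_le_mul_of_nonneg_right ?_ (by positivity)
      have : m ≤ Q := by omega
      exact_mod_cast this
    have h3 : ((N * C0 * b : ℕ) : ℝ) ≤ Q * k := by
      have h4 : ((N * C0 * b : ℕ) : ℝ) ≤ Q := by
        have : N * C0 * b ≤ Q := by omega
        exact_mod_cast this
      nlinarith
    calc ((N * C0 * b : ℕ) : ℝ) * x ^ C0 ≤ (Q * k) * (((Q : ℝ) * k) ^ 2) ^ C0 :=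
          mul_le_mul h3 h2 (by positivity) (by positivity)
      _ = ((Q : ℝ) * k) ^ (2 * C0 + 1) := by rw [← pow_mul]; ring
  have h1' : 0 ≤ (N : ℝ) * ρ * b := by
    rw [hρ]
    positivity
  have h2 : ((N : ℝ) * ρ * b) ^ (2 * k) ≤ ((Q : ℝ) * k) ^ ((2 * C0 + 1) * (2 * k)) := by
    rw [pow_mul ((Q : ℝ) * k)]
    exact pow_le_pow_left₀ h1' h1 _
  have h3 : ((k : ℝ) + 1) ^ 2 ≤ ((Q : ℝ) * k) ^ 2 := by
    refine pow_le_pow_left₀ (by positivity) ?_ 2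
    nlinarith
  have h4 : (K : ℝ) ≤ Q * k := by
    have : (K : ℝ) ≤ Q := by
      have : K ≤ Q := by omega
      exact_mod_cast this
    nlinarith
  have h5 : (K : ℝ) * (((k : ℝ) + 1) ^ 2 * A * ((N : ℝ) * ρ * b) ^ (2 * k)) + 1 ≤
      ((Q : ℝ) * k) ^ ((4 * C0 + 6) * k) * A := by
    have e1 : (K : ℝ) * (((k : ℝ) + 1) ^ 2 * A * ((N : ℝ) * ρ * b) ^ (2 * k)) ≤
        (Q * k) * (((Q : ℝ) * k) ^ 2 * A * ((Q : ℝ) * k) ^ ((2 * C0 + 1) * (2 * k))) := by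
      refine mul_le_mul h4 ?_ (by positivity) (by positivity)
      refine mul_le_mul (mul_le_mul_of_nonneg_right h3 (by linarith)) h2 (by positivity)
        (by positivity)
    have e2 : (Q * k) * (((Q : ℝ) * k) ^ 2 * A * ((Q : ℝ) * k) ^ ((2 * C0 + 1) * (2 * k))) =
        ((Q : ℝ) * k) ^ (3 + (2 * C0 + 1) * (2 * k)) * A := by
      rw [pow_add]; ring
    have e3 : 1 ≤ ((Q : ℝ) * k) ^ (3 + (2 * C0 + 1) * (2 * k)) * A :=
      one_le_mul_of_one_le_of_one_le (one_le_pow₀ hQk1) hA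
    have e4 : ((Q : ℝ) * k) ^ (3 + (2 * C0 + 1) * (2 * k)) * A +
        ((Q : ℝ) * k) ^ (3 + (2 * C0 + 1) * (2 * k)) * A ≤
        ((Q : ℝ) * k) ^ (4 + (2 * C0 + 1) * (2 * k)) * A := by
      have e5 : ((Q : ℝ) * k) ^ (4 + (2 * C0 + 1) * (2 * k)) * A =
          (Q * k) * (((Q : ℝ) * k) ^ (3 + (2 * C0 + 1) * (2 * k)) * A) := by
        have e6 : 4 + (2 * C0 + 1) * (2 * k) = (3 + (2 * C0 + 1) * (2 * k)) + 1 := by ring
        rw [e6, pow_succ]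
        ring
      rw [e5]
      nlinarith
    have e5 : ((Q : ℝ) * k) ^ (4 + (2 * C0 + 1) * (2 * k)) * A ≤
        ((Q : ℝ) * k) ^ ((4 * C0 + 6) * k) * A := by
      refine mul_le_mul_of_nonneg_right (pow_le_pow_right₀ hQk1 ?_) (by linarith)
      nlinarith
    rw [e2] at e1
    linarith
  have h6 : 0 ≤ (K : ℝ) * (((k : ℝ) + 1) ^ 2 * A * ((N : ℝ) * ρ * b) ^ (2 * k)) + 1 := by
    positivity
  calc (K * (((k : ℝ) + 1) ^ 2 * A * ((N : ℝ) * ρ * b) ^ (2 * k)) + 1) ^ K ≤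
      (((Q : ℝ) * k) ^ ((4 * C0 + 6) * k) * A) ^ K := pow_le_pow_left₀ h6 h5 K
    _ = ((Q : ℝ) * k) ^ (K * (4 * C0 + 6) * k) * A ^ K := by
        rw [mul_pow, ← pow_mul]
        congr 2
        ring
    _ ≤ ((C : ℕ) * (k : ℝ)) ^ (C * k) * A ^ C := by
        have hQC : (Q : ℝ) * k ≤ (C : ℝ) * k := by
          refine mul_le_mul_of_nonneg_right ?_ (by positivity)
          have : Q ≤ C := by omega
          exact_mod_cast this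
        have hKC : K ≤ C := by omega
        refine mul_le_mul ?_ (pow_le_pow_right₀ hA hKC) (by positivity) (by positivity)
        calc ((Q : ℝ) * k) ^ (K * (4 * C0 + 6) * k) ≤ ((Q : ℝ) * k) ^ (C * k) :=
              pow_le_pow_right₀ hQk1 (Nat.mul_le_mul_right k (by omega))
          _ ≤ ((C : ℝ) * k) ^ (C * k) := pow_le_pow_left₀ (by positivity) hQC _

theorem zero_est (D : Datum Γ ι) (g₁ g₂ : Γ) {κ : Type} [Fintype κ] {B₀ : ℝ} (v : ι → ℂ)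
    (hv : IntRep κ B₀ v) (hI : Indep D g₁ g₂ v) :
    ∃ (α : Fin 3 → ι) (C : ℕ), 1 ≤ C ∧ ∀ k : ℕ, 1 ≤ k → ∀ c : Fin (k + 1) → Fin (k + 1) → ℤ,
      (∃ i j, c i j ≠ 0) → ∀ A : ℝ, 1 ≤ A → (∀ i j, |(c i j : ℝ)| ≤ A) →
      ∃ n₁ n₂ : ℕ, n₁ ≤ C * k ∧ n₂ ≤ C * k ∧
        1 ≤ ‖hp k c ((ic (D.R (rel D.T g₁ g₂ n₁ n₂)) *ᵥ v) ∘ α)‖ *
          (((C : ℝ) * k) ^ (C * k) * A ^ C) := by
  obtain ⟨α, hα⟩ := exists_minor3 D g₁ g₂ v hI
  obtain ⟨x, D₀, hdeg, hx0, hx1, hx2, hxn⟩ := family D g₁ g₂ v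
  obtain ⟨C0, hC0, hR⟩ := R_growth D g₁ g₂
  set b : ℕ := ⌈B₀⌉₊ + 1 with hb
  have hB0 : B₀ ≤ b := by
    rw [hb]
    push_cast
    linarith [Nat.le_ceil B₀]
  set m : ℕ := 2 * D₀ + 1 with hm
  set K := Fintype.card κ with hK
  set N := Fintype.card ι with hN
  refine ⟨α, K * (4 * C0 + 6) + (N * C0 * b + m + K + 2), by omega, ?_⟩
  intro k hk c hc A hA hcA
  have hdet : (Matrix.of ![fun i => MvPolynomial.eval (0 : Fin 2 → ℂ) ((x ∘ α) i),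
      fun i => MvPolynomial.eval (0 : Fin 2 → ℂ) (MvPolynomial.pderiv 0 ((x ∘ α) i)),
      fun i => MvPolynomial.eval (0 : Fin 2 → ℂ) (MvPolynomial.pderiv 1 ((x ∘ α) i))]).det ≠ 0 := by
    have e : (Matrix.of ![fun i => MvPolynomial.eval (0 : Fin 2 → ℂ) ((x ∘ α) i),
      fun i => MvPolynomial.eval (0 : Fin 2 → ℂ) (MvPolynomial.pderiv 0 ((x ∘ α) i)),
      fun i => MvPolynomial.eval (0 : Fin 2 → ℂ) (MvPolynomial.pderiv 1 ((x ∘ α) i))]) =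
      (Matrix.of ![fun i => v (α i), fun i => (D.dN g₁ *ᵥ v) (α i),
        fun i => (D.dN g₂ *ᵥ v) (α i)]) := by
      congr 1
      funext l
      fin_cases l
      · funext i
        exact hx0 (α i)
      · funext i
        exact hx1 (α i)
      · funext i
        exact hx2 (α i)
    rw [e]
    exact hα
  obtain ⟨n₁, n₂, hn₁, hn₂, hne⟩ := grid (x ∘ α) D₀ (fun i l => hdeg (α i) l) hdet k c hc
  have hval : (fun i => MvPolynomial.eval (![(n₁ : ℂ), (n₂ : ℂ)]) ((x ∘ α) i)) =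
      (ic (D.R (rel D.T g₁ g₂ n₁ n₂)) *ᵥ v) ∘ α := by
    funext i
    exact hxn n₁ n₂ (α i)
  rw [hval] at hne
  have hn : 2 * k * D₀ ≤ (K * (4 * C0 + 6) + (N * C0 * b + m + K + 2)) * k := by
    have h1 : 2 * k * D₀ = (2 * D₀) * k := by ring
    rw [h1]
    refine Nat.mul_le_mul_right k ?_
    omega
  refine ⟨n₁, n₂, hn₁.trans hn, hn₂.trans hn, ?_⟩
  set y : ℝ := ((n₁ : ℝ) + 1) * ((n₂ : ℝ) + 1) with hy
  have hk1 : (1 : ℝ) ≤ k := by exact_mod_cast hk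
  have hm1 : ∀ n : ℕ, n ≤ 2 * k * D₀ → (n : ℝ) + 1 ≤ (m : ℝ) * k := by
    intro n hn
    have h1 : (n : ℝ) ≤ 2 * k * D₀ := by exact_mod_cast hn
    rw [hm]
    push_cast
    nlinarith
  have hy1 : 1 ≤ y := by
    rw [hy]
    have e1 : (0 : ℝ) ≤ (n₁ : ℝ) := Nat.cast_nonneg _
    have e2 : (0 : ℝ) ≤ (n₂ : ℝ) := Nat.cast_nonneg _
    nlinarith
  have hy2 : y ≤ ((m : ℝ) * k) ^ 2 := by
    rw [hy, sq]
    exact mul_le_mul (hm1 n₁ hn₁) (hm1 n₂ hn₂) (by positivity) (by positivity)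
  have hrep : IntRep κ ((N : ℝ) * ((C0 : ℝ) * y ^ C0) * b)
      (ic (D.R (rel D.T g₁ g₂ n₁ n₂)) *ᵥ v) :=
    IntRep.mul _ (hR n₁ n₂) (hv.mono hB0)
  have hL := liouville_hp k c (by linarith) (by positivity) hcA
    (ic (D.R (rel D.T g₁ g₂ n₁ n₂)) *ᵥ v) hrep α hne
  refine hL.trans (mul_le_mul_of_nonneg_left ?_ (norm_nonneg _))
  exact CB8_num N C0 b m K k hk hA hy1 hy2 rfl

end MP2794d1.PC
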