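import Pool.Agent.Lib.MP_2794d1_ag.PC.CA10
import Pool.Agent.Lib.MP_2794d1_ag.PC.CB8

/-!
CC1: the lower bound for the supremum. `α, C₀` from `zero_est` at the point `(z', v)`. Given `z₁, δ₁`, `transport` from
`(z₁, δ₁)` to `z'` gives `δ₂, c₁, C₁`. Let `k ≥ 1`, `c ≠ 0`, `A ≥ 1`, `ε`. Put `F v = hp k c (v ∘ α)`, `B = (k + 1) ^ 2 A`
(`hp_form`). If `ε ≥ B` then `ε ≥ 1 ≥ exp (-...)`. Otherwise `Good D (2 k) z₁ δ₁ ε B F`; `zero_est` gives `n₁, n₂ ≤ C₀ k` and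
`y = F (ic (R (rel ...)) *ᵥ v)` with `1 ≤ ‖y‖ (C₀ k) ^ (C₀ k) A ^ C₀`. `Step` at the point `z' ∈ ball z' δ₂` and `v`:
`‖y‖ ≤ X ^ (2 k) ε ^ θ B ^ (1 - θ) ‖v‖ ^ (2 k)`, `X = C₁ ((n₁ + 1) (n₂ + 1)) ^ C₁ ≤ (C₂ k) ^ C₂`,
`θ = c₁ / ((n₁ + 1) ^ 2 (n₂ + 1) ^ 2) ≥ c₃ / k ^ 4`. So `ε > 0` and, taking logarithms (`B ^ (1 - θ) ≤ B`):
`- θ log ε ≤ 2 k log X + log B + 2 k log (max 1 ‖v‖) + C₀ k log (C₀ k) + C₀ log A ≤ C₄ (k log (k + 1) + log A)`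
(`log (C k) ≤ C' log (k + 1)` for `k ≥ 1`, since `log (k + 1) ≥ log 2`). Hence
`- log ε ≤ (C₄ / c₃) k ^ 4 (k log (k + 1) + log A)`.
-/

namespace MP2794d1.PC

open Matrix Complex

variable {Γ : Subgroup (Matrix.SpecialLinearGroup (Fin 2) ℝ)} {ι : Type} [Fintype ι]
  [DecidableEq ι]

theorem CC1_ell {k : ℕ} (hk : 1 ≤ k) : 1 / 2 < Real.log ((k : ℝ) + 1) := by
  have h1 : Real.log 2 ≤ Real.log ((k : ℝ) + 1) := by
    apply Real.log_le_log (by norm_num)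
    have : (1 : ℝ) ≤ k := by exact_mod_cast hk
    linarith
  have h2 := Real.log_two_gt_d9
  linarith

/-- `a ≤ exp (2 a ℓ)` for `a ≥ 0` and `ℓ > 1/2` -/
theorem CC1_le_exp {a ℓ : ℝ} (ha : 0 ≤ a) (hℓ : 1 / 2 < ℓ) : a ≤ Real.exp (2 * a * ℓ) := by
  have h1 := Real.add_one_le_exp a
  have h2 : Real.exp a ≤ Real.exp (2 * a * ℓ) := by
    apply Real.exp_le_exp.mpr
    nlinarith
  linarith

theorem CC1_up {C₀ k ℓ a₁ V lA : ℝ} (hC0 : 1 ≤ C₀) (hk1 : 1 ≤ k) (hℓ : 1 / 2 < ℓ) (ha1 : 0 ≤ a₁)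
    (hV1 : 1 ≤ V) (hlA : 0 ≤ lA) :
    2 * k * a₁ * ℓ + (2 * ℓ + lA) + 4 * k * V * ℓ + (C₀ * k * (2 * C₀ + 1) * ℓ + C₀ * lA) ≤
      (2 * a₁ + 2 + 4 * V + C₀ * (2 * C₀ + 1) + 1) * (k * ℓ + lA) := by
  have hkℓ : ℓ ≤ k * ℓ := le_mul_of_one_le_left (by linarith) hk1
  have h2 : (1 + C₀) * lA ≤ (2 * a₁ + 2 + 4 * V + C₀ * (2 * C₀ + 1) + 1) * lA := by
    apply mul_le_mul_of_nonneg_right _ hlA
    nlinarith
  have h3 : 0 ≤ k * ℓ := by positivity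
  linarith

theorem CC1_low {C₀ k n : ℝ} (hC0 : 1 ≤ C₀) (hk1 : 1 ≤ k) (hn : n ≤ C₀ * k) :
    n + 1 ≤ 2 * C₀ * k := by
  have : 1 ≤ C₀ * k := by nlinarith
  linarith

theorem exists_slb (D : Datum Γ ι) (g₁ g₂ : Γ) (z' : ℂ) (hz' : 0 < z'.im) (v : ι → ℂ)
    (hL : D.L z' v) {κ : Type} [Fintype κ] {B₀ : ℝ} (hv : IntRep κ B₀ v)
    (hI : Indep D g₁ g₂ v) : ∃ α : Fin 3 → ι, SLB D α := by
  obtain ⟨α, C₀, hC₀, hz⟩ := zero_est D g₁ g₂ v hv hI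
  refine ⟨α, ?_⟩
  intro z₁ h₁ δ₁ hδ₁
  obtain ⟨δ₂, hδ₂, c₁, hc₁, hc₁', C₁, hC₁, hstep⟩ := transport D z₁ z' h₁ hz' δ₁ hδ₁ g₁ g₂
  have hC0 : (1 : ℝ) ≤ C₀ := by exact_mod_cast hC₀
  have hC1 : (1 : ℝ) ≤ C₁ := by exact_mod_cast hC₁
  set V : ℝ := ‖v‖ + 1 with hV
  have hV1 : 1 ≤ V := by have := norm_nonneg v; linarith
  set a₁ : ℝ := 2 * C₁ + C₁ * (2 * (2 * C₀ + 1)) with ha₁
  set C₄ : ℝ := 2 * a₁ + 2 + 4 * V + C₀ * (2 * C₀ + 1) + 1 with hC₄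
  have ha1 : 0 ≤ a₁ := by positivity
  have hC4 : 0 < C₄ := by positivity
  refine ⟨16 * C₀ ^ 4 * C₄ / c₁, by positivity, ?_⟩
  intro k hk c hc A hA hcA ε hε hsm
  have hℓ := CC1_ell hk
  set ℓ := Real.log ((k : ℝ) + 1) with hℓd
  have hk1 : (1 : ℝ) ≤ k := by exact_mod_cast hk
  have hlA : 0 ≤ Real.log A := Real.log_nonneg hA
  set Q : ℝ := (k : ℝ) * ℓ + Real.log A with hQ
  have hQ0 : 0 ≤ Q := by positivity
  have hCQ : 0 ≤ 16 * (C₀ : ℝ) ^ 4 * C₄ / c₁ * (k : ℝ) ^ 4 * Q := by positivity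
  set B : ℝ := ((k : ℝ) + 1) ^ 2 * A with hBd
  have hB1 : 1 ≤ B := by
    have : (1 : ℝ) ≤ ((k : ℝ) + 1) ^ 2 := one_le_pow₀ (by linarith)
    calc (1 : ℝ) = 1 * 1 := by ring
      _ ≤ _ := mul_le_mul this hA (by norm_num) (by positivity)
  rcases le_or_gt B ε with hBε | hBε
  · calc Real.exp (-(16 * (C₀ : ℝ) ^ 4 * C₄ / c₁ * (k : ℝ) ^ 4 * Q)) ≤ 1 := by
          rw [Real.exp_le_one_iff]; linarith
      _ ≤ ε := by linarith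
  -- the good form
  have hgood : Good D (2 * k) z₁ δ₁ ε B (fun v => hp k c (v ∘ α)) :=
    ⟨hp_form k c hcA α, hε, hBε.le, hsm⟩
  obtain ⟨n₁, n₂, hn₁, hn₂, hy⟩ := hz k hk c hc A hA hcA
  have hgs := (hstep n₁ n₂ (2 * k) ε B _ hgood).small z' (Metric.mem_ball_self hδ₂) hz' v hL
  set y := hp k c ((ic (D.R (rel D.T g₁ g₂ n₁ n₂)) *ᵥ v) ∘ α) with hyd
  set θ : ℝ := c₁ / (((n₁ : ℝ) + 1) ^ 2 * ((n₂ : ℝ) + 1) ^ 2) with hθ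
  set X : ℝ := (C₁ : ℝ) * (((n₁ : ℝ) + 1) * ((n₂ : ℝ) + 1)) ^ C₁ with hX
  change ‖y‖ ≤ X ^ (2 * k) * (ε ^ θ * B ^ (1 - θ)) * ‖v‖ ^ (2 * k) at hgs
  have hn1 : (0 : ℝ) ≤ n₁ := Nat.cast_nonneg _
  have hn2 : (0 : ℝ) ≤ n₂ := Nat.cast_nonneg _
  have hθ0 : 0 < θ := by positivity
  have hθ1 : θ ≤ 1 := by
    rw [hθ, div_le_one (by positivity)]
    have h1 : (1 : ℝ) ≤ ((n₁ : ℝ) + 1) ^ 2 := one_le_pow₀ (by linarith)
    have h2 : (1 : ℝ) ≤ ((n₂ : ℝ) + 1) ^ 2 := one_le_pow₀ (by linarith)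
    nlinarith
  have hprod : 1 ≤ X ^ (2 * k) * (ε ^ θ * B ^ (1 - θ)) * ‖v‖ ^ (2 * k) *
      (((C₀ : ℝ) * k) ^ (C₀ * k) * A ^ C₀) :=
    hy.trans (mul_le_mul_of_nonneg_right hgs (by positivity))
  have hε0 : 0 < ε := by
    rcases hε.lt_or_eq with h | h
    · exact h
    · exfalso
      rw [← h, Real.zero_rpow hθ0.ne'] at hprod
      norm_num at hprod
  -- bounds of the factors
  have hkp : (k : ℝ) + 1 = Real.exp ℓ := (Real.exp_log (by linarith)).symm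
  have hn₁' : (n₁ : ℝ) ≤ C₀ * k := by exact_mod_cast hn₁
  have hn₂' : (n₂ : ℝ) ≤ C₀ * k := by exact_mod_cast hn₂
  have b0 : (C₀ : ℝ) * ((k : ℝ) + 1) ≤ Real.exp ((2 * C₀ + 1) * ℓ) := by
    rw [add_mul, one_mul, Real.exp_add, ← hkp]
    exact mul_le_mul_of_nonneg_right (CC1_le_exp (by linarith) hℓ) (by linarith)
  have b1 : (n₁ : ℝ) + 1 ≤ Real.exp ((2 * C₀ + 1) * ℓ) := by
    refine le_trans ?_ b0; linarith
  have b2 : (n₂ : ℝ) + 1 ≤ Real.exp ((2 * C₀ + 1) * ℓ) := by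
    refine le_trans ?_ b0; linarith
  have b3 : X ≤ Real.exp (a₁ * ℓ) := by
    calc X ≤ Real.exp (2 * C₁ * ℓ) *
          (Real.exp ((2 * C₀ + 1) * ℓ) * Real.exp ((2 * C₀ + 1) * ℓ)) ^ C₁ := by
          rw [hX]
          apply mul_le_mul (CC1_le_exp (by linarith) hℓ) _ (by positivity) (Real.exp_pos _).le
          apply pow_le_pow_left₀ (by positivity)
          exact mul_le_mul b1 b2 (by positivity) (Real.exp_pos _).le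
      _ = Real.exp (a₁ * ℓ) := by
          rw [← Real.exp_add, ← Real.exp_nat_mul, ← Real.exp_add, ha₁]; ring_nf
  have hX0 : 0 ≤ X := by positivity
  have b4 : X ^ (2 * k) ≤ Real.exp (2 * k * a₁ * ℓ) := by
    calc X ^ (2 * k) ≤ (Real.exp (a₁ * ℓ)) ^ (2 * k) := pow_le_pow_left₀ hX0 b3 _
      _ = _ := by rw [← Real.exp_nat_mul]; push_cast; ring_nf
  have b5 : ε ^ θ = Real.exp (Real.log ε * θ) := Real.rpow_def_of_pos hε0 θ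
  have b6 : B ^ (1 - θ) ≤ Real.exp (2 * ℓ + Real.log A) := by
    calc B ^ (1 - θ) ≤ B ^ (1 : ℝ) :=
          Real.rpow_le_rpow_of_exponent_le hB1 (by linarith)
      _ = B := Real.rpow_one B
      _ = _ := by
          rw [hBd, Real.exp_add, Real.exp_log (by linarith), hkp, ← Real.exp_nat_mul]
          norm_num
  have b7 : ‖v‖ ^ (2 * k) ≤ Real.exp (4 * k * V * ℓ) := by
    calc ‖v‖ ^ (2 * k) ≤ (Real.exp (2 * V * ℓ)) ^ (2 * k) := by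
          apply pow_le_pow_left₀ (norm_nonneg _)
          exact le_trans (by linarith) (CC1_le_exp (by linarith) hℓ)
      _ = _ := by rw [← Real.exp_nat_mul]; push_cast; ring_nf
  have b8 : ((C₀ : ℝ) * k) ^ (C₀ * k) ≤ Real.exp (C₀ * k * (2 * C₀ + 1) * ℓ) := by
    calc ((C₀ : ℝ) * k) ^ (C₀ * k) ≤ (Real.exp ((2 * C₀ + 1) * ℓ)) ^ (C₀ * k) := by
          apply pow_le_pow_left₀ (by positivity)
          refine le_trans ?_ b0; linarith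
      _ = _ := by rw [← Real.exp_nat_mul]; push_cast; ring_nf
  have b9 : A ^ C₀ = Real.exp (C₀ * Real.log A) := by
    rw [Real.exp_nat_mul, Real.exp_log (by linarith)]
  have hsum : 0 ≤ 2 * k * a₁ * ℓ + (Real.log ε * θ + (2 * ℓ + Real.log A)) + 4 * k * V * ℓ +
      (C₀ * k * (2 * C₀ + 1) * ℓ + C₀ * Real.log A) := by
    rw [← Real.one_le_exp_iff]
    refine hprod.trans ?_
    calc _ ≤ Real.exp (2 * k * a₁ * ℓ) * (Real.exp (Real.log ε * θ) *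
          Real.exp (2 * ℓ + Real.log A)) * Real.exp (4 * k * V * ℓ) *
          (Real.exp (C₀ * k * (2 * C₀ + 1) * ℓ) * Real.exp (C₀ * Real.log A)) := by
          rw [b5, b9]
          gcongr
      _ = _ := by simp only [← Real.exp_add]
  have hup : -(Real.log ε * θ) ≤ C₄ * Q := by
    have h3 := CC1_up (C₀ := C₀) (k := k) (ℓ := ℓ) (a₁ := a₁) (V := V) (lA := Real.log A)
      hC0 hk1 hℓ ha1 hV1 hlA
    rw [hC₄, hQ]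
    linarith
  have hθlow : c₁ / (16 * C₀ ^ 4 * (k : ℝ) ^ 4) ≤ θ := by
    rw [hθ]
    apply div_le_div_of_nonneg_left hc₁.le (by positivity)
    have g1 : (n₁ : ℝ) + 1 ≤ 2 * C₀ * k := CC1_low hC0 hk1 hn₁'
    have g2 : (n₂ : ℝ) + 1 ≤ 2 * C₀ * k := CC1_low hC0 hk1 hn₂'
    calc ((n₁ : ℝ) + 1) ^ 2 * ((n₂ : ℝ) + 1) ^ 2 ≤ (2 * C₀ * k) ^ 2 * (2 * C₀ * k) ^ 2 := by
          gcongr
      _ = _ := by ring
  have hlog : -(16 * (C₀ : ℝ) ^ 4 * C₄ / c₁ * (k : ℝ) ^ 4 * Q) ≤ Real.log ε := by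
    rcases le_or_gt 0 (Real.log ε) with h | h
    · linarith
    · have h1 : -Real.log ε * (c₁ / (16 * C₀ ^ 4 * (k : ℝ) ^ 4)) ≤ C₄ * Q := by
        calc -Real.log ε * (c₁ / (16 * C₀ ^ 4 * (k : ℝ) ^ 4)) ≤ -Real.log ε * θ :=
              mul_le_mul_of_nonneg_left hθlow (by linarith)
          _ = -(Real.log ε * θ) := by ring
          _ ≤ _ := hup
      have h2 : -Real.log ε ≤ C₄ * Q / (c₁ / (16 * C₀ ^ 4 * (k : ℝ) ^ 4)) := by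
        rw [le_div_iff₀ (by positivity)]; exact h1
      have h3 : C₄ * Q / (c₁ / (16 * C₀ ^ 4 * (k : ℝ) ^ 4)) =
          16 * (C₀ : ℝ) ^ 4 * C₄ / c₁ * (k : ℝ) ^ 4 * Q := by
        field_simp
      rw [h3] at h2
      linarith
  calc Real.exp (-(16 * (C₀ : ℝ) ^ 4 * C₄ / c₁ * (k : ℝ) ^ 4 * Q)) ≤ Real.exp (Real.log ε) :=
        Real.exp_le_exp.mpr hlog
    _ = ε := Real.exp_log hε0

end MP2794d1.PC
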