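import Pool.Agent.Lib.MP_2794d1_ag.PC.Defs

/-!
CH2: the projectors of the Hodge decomposition. `exists_pr`: `h.opp p : IsCompl (Fl p) (conjSub (Fl (wt + 1 - p)))`; take the
linear projection (`Submodule.linearProjOfIsCompl` / `IsCompl.projection`) as a matrix (`LinearMap.toMatrix'`). `pr_unique`:
write `x = a + b` along the decomposition, both projectors send `x` to `a`; two matrices with the same `mulVec` are equal.
`gr_sum`: let `x ∈ Fl q ⊓ conjSub (Fl (wt - q))`. If `p ≤ q` then `x ∈ Fl p`, `E p *ᵥ x = x`. If `q < p` then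
`wt + 1 - p ≤ wt - q`, so `x ∈ conjSub (Fl (wt + 1 - p))`, `E p *ᵥ x = 0`. If `lo ≤ q < hi`: `μ *ᵥ x = (lo + #{p | lo < p ≤ q}) x
= q x`. If `q < lo`: `Fl lo = ⊤` so `conjSub (Fl lo) = ⊤` is opposite to `Fl (wt + 1 - lo)`, which is `⊥`, and
`star x ∈ Fl (wt - q) ≤ Fl (wt + 1 - lo)`, so `x = 0`. If `hi ≤ q` then `x ∈ Fl hi = ⊥`, `x = 0`.
(`Finset.Ioo lo hi` are the `p` with `lo < p < hi`; if `lo ≤ q < hi` then the `p ∈ Ioo lo hi` with `p ≤ q` are `Ioc lo q`.)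
-/

namespace MP2794d1.PC

open Matrix Complex Filter Topology

theorem CH2_ext {n : ℕ} {A B : Matrix (Fin n) (Fin n) ℂ} (h : ∀ x, A *ᵥ x = B *ᵥ x) : A = B := by
  apply Matrix.toLin'.injective
  apply LinearMap.ext
  intro x
  rw [Matrix.toLin'_apply, Matrix.toLin'_apply, h]

theorem exists_pr {n : ℕ} {wt : ℤ} {Q : Matrix (Fin n) (Fin n) ℤ}
    {Fl : ℤ → Submodule ℂ (Fin n → ℂ)} (h : IsPHS wt Q Fl) (p : ℤ) :
    ∃ E : Matrix (Fin n) (Fin n) ℂ, IsPr wt Fl p E := by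
  set f := (Fl p).projection (conjSub (Fl (wt + 1 - p))) (h.opp p) with hf
  have hE : ∀ x, (LinearMap.toMatrix' f) *ᵥ x = f x := by
    intro x
    rw [← Matrix.toLin'_apply, Matrix.toLin'_toMatrix']
  refine ⟨LinearMap.toMatrix' f, ?_, ?_, ?_⟩
  · apply CH2_ext
    intro x
    rw [← Matrix.mulVec_mulVec, hE, hE]
    exact Submodule.projection_apply_of_mem_left (h.opp p) (Submodule.projection_apply_mem (h.opp p) x)
  · intro x
    rw [hE]
    constructor
    · intro hx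
      exact Submodule.projection_apply_of_mem_left (h.opp p) hx
    · intro hx
      rw [← hx]
      exact Submodule.projection_apply_mem (h.opp p) x
  · intro x
    rw [hE]
    exact (Submodule.projection_apply_eq_zero_iff (h.opp p)).symm

theorem pr_unique {n : ℕ} {wt : ℤ} {Q : Matrix (Fin n) (Fin n) ℤ}
    {Fl : ℤ → Submodule ℂ (Fin n → ℂ)} (h : IsPHS wt Q Fl) (p : ℤ)
    {E E' : Matrix (Fin n) (Fin n) ℂ} (hE : IsPr wt Fl p E) (hE' : IsPr wt Fl p E') : E = E' := by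
  apply CH2_ext
  intro x
  have hx : x ∈ Fl p ⊔ conjSub (Fl (wt + 1 - p)) := by
    rw [(h.opp p).sup_eq_top]
    exact Submodule.mem_top
  obtain ⟨a, ha, b, hb, rfl⟩ := Submodule.mem_sup.1 hx
  rw [Matrix.mulVec_add, Matrix.mulVec_add, (hE.range a).1 ha, (hE'.range a).1 ha,
    (hE.ker b).1 hb, (hE'.ker b).1 hb]

theorem gr_sum {n : ℕ} {wt : ℤ} {Q : Matrix (Fin n) (Fin n) ℤ}
    {Fl : ℤ → Submodule ℂ (Fin n → ℂ)} (h : IsPHS wt Q Fl) (lo hi : ℤ) (hlo : Fl lo = ⊤)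
    (hhi : Fl hi = ⊥) (E : ℤ → Matrix (Fin n) (Fin n) ℂ) (hE : ∀ p, IsPr wt Fl p (E p)) :
    IsGr wt Fl ((lo : ℂ) • (1 : Matrix (Fin n) (Fin n) ℂ) + ∑ p ∈ Finset.Ioo lo hi, E p) := by
  classical
  intro q x hx
  obtain ⟨hx1, hx2⟩ := Submodule.mem_inf.1 hx
  have hEx : ∀ p, E p *ᵥ x = if p ≤ q then x else 0 := by
    intro p
    split_ifs with hp
    · exact ((hE p).range x).1 (h.anti p q hp hx1)
    · apply ((hE p).ker x).1
      exact h.anti (wt + 1 - p) (wt - q) (by omega) hx2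
  by_cases h1 : q < lo
  · have h2 : star x ∈ Fl (wt + 1 - lo) := h.anti (wt + 1 - lo) (wt - q) (by omega) hx2
    have h3 : star x ∈ conjSub (Fl lo) := by
      show star (star x) ∈ Fl lo
      rw [hlo]
      exact Submodule.mem_top
    have h4 := h.opp (wt + 1 - lo)
    have h5 : wt + 1 - (wt + 1 - lo) = lo := by ring
    rw [h5] at h4
    have h6 : star x = 0 := Submodule.disjoint_def.1 h4.disjoint _ h2 h3
    have h7 : x = 0 := by
      rw [← star_star x, h6, star_zero]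
    rw [h7, Matrix.mulVec_zero, smul_zero]
  by_cases h2 : hi ≤ q
  · have h3 : x ∈ Fl hi := h.anti hi q h2 hx1
    rw [hhi] at h3
    have h7 : x = 0 := (Submodule.mem_bot ℂ).1 h3
    rw [h7, Matrix.mulVec_zero, smul_zero]
  push Not at h1 h2
  have h3 : (∑ p ∈ Finset.Ioo lo hi, E p) *ᵥ x = ∑ p ∈ Finset.Ioo lo hi, E p *ᵥ x := by
    rw [Matrix.sum_mulVec]
  have h4 : Finset.filter (fun p => p ≤ q) (Finset.Ioo lo hi) = Finset.Ioc lo q := by
    ext p
    simp only [Finset.mem_filter, Finset.mem_Ioo, Finset.mem_Ioc]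
    omega
  rw [Matrix.add_mulVec, Matrix.smul_mulVec, Matrix.one_mulVec, h3,
    Finset.sum_congr rfl (fun p _ => hEx p), ← Finset.sum_filter, h4, Finset.sum_const,
    Int.card_Ioc, ← Nat.cast_smul_eq_nsmul ℂ, ← add_smul]
  congr 1
  have h5 : (((q - lo).toNat : ℤ) : ℂ) = ((q - lo : ℤ) : ℂ) := by
    rw [Int.toNat_of_nonneg (by omega)]
  rw [Int.cast_natCast] at h5
  rw [h5]
  push_cast
  ring

end MP2794d1.PC
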