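import Pool.Agent.Lib.MP_2794d1_ag.PC.CH2
import Pool.Agent.Lib.MP_2794d1_ag.F01

/-!
CH3: derivative of the projector onto `F^p` along the conjugate of `F^{wt+1-p}`, in the directions `1` and `i`.

Proof. Let `A z` be the analytic projectors onto `V.F p z` near `z₀` (given) and `C z` those onto `V.F (wt + 1 - p) z`
(`HolAt.proj`, F01). `B z = mconj (C z)` is a projector onto `conjSub (V.F (wt + 1 - p) z)`. Let `E z` be the projector `IsPr`;
`E = E z₀`. Let `S z = A z * E + B z * (1 - E)`; `S z₀ = 1` since `A z₀ * E = E` (the range of `E` is `V.F p z₀`) and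
`B z₀ * (1 - E) = 1 - E` (the range of `1 - E` is the kernel of `E`). `S` is continuous at `z₀`, so `S z` is invertible near
`z₀`. `S z` maps the range of `E` into `V.F p z` and the range of `1 - E` into the conjugate space; so
`E z * S z * E = S z * E` and `E z * S z * (1 - E) = 0`; adding: `E z * S z = S z * E`, `E z = S z * E * (S z)⁻¹`.
Derivatives at `0` of `t ↦ A (z₀ + t)`, `A (z₀ + t i)`: `A'`, `i A'`; of `t ↦ B (z₀ + t)`, `B (z₀ + t i)`: `B' = mconj C'` and
`- i B'`. With `S z₀ = 1` the derivative of `S E S⁻¹` is `S' E - E S'` (from `E z * S z = S z * E`: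
`E'(t) = S' E - E S'`; to get differentiability of `E z` use `E z = S z * E * (S z)⁻¹` and the derivative of the inverse matrix,
entries are quotients of polynomials in the entries; or `HasDerivAt.inv` in the algebra of matrices / `hasFDerivAt_ringInverse`).
Direction `1`: `S' = A' E + B' (1 - E)`, so `E' = A' E - E A' E + B' (1 - E) E - E B' (1 - E) = (1 - E) A' E - E B' (1 - E)`.
Direction `i`: `S' = i (A' E - B' (1 - E))`, so `E' = i ((1 - E) A' E + E B' (1 - E))`. Take `K = - E B' (1 - E)`.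
-/

namespace MP2794d1.PC

open Matrix Complex Filter Topology

theorem CH3_det {n : ℕ} {A : ℝ → Matrix (Fin n) (Fin n) ℂ} {t₀ : ℝ}
    (h : ∀ i j, DifferentiableAt ℝ (fun t => A t i j) t₀) :
    DifferentiableAt ℝ (fun t => (A t).det) t₀ := by
  simp only [Matrix.det_apply']
  refine DifferentiableAt.fun_sum fun σ _ => ?_
  refine (differentiableAt_const _).mul ?_
  exact DifferentiableAt.fun_finsetProd fun i _ => h _ _

theorem CH3_inv {n : ℕ} {A : ℝ → Matrix (Fin n) (Fin n) ℂ} {t₀ : ℝ}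
    (h : ∀ i j, DifferentiableAt ℝ (fun t => A t i j) t₀) (hdet : (A t₀).det ≠ 0) :
    ∀ i j, DifferentiableAt ℝ (fun t => (A t)⁻¹ i j) t₀ := by
  intro i j
  have h1 : (fun t => (A t)⁻¹ i j) = fun t => (A t).det⁻¹ * (A t).adjugate i j := by
    funext z
    rw [Matrix.inv_def, Matrix.smul_apply, Ring.inverse_eq_inv', smul_eq_mul]
  rw [h1]
  refine ((CH3_det h).inv hdet).mul ?_
  simp only [Matrix.adjugate_apply]
  refine CH3_det ?_
  intro a b
  by_cases ha : a = j
  · subst ha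
    simp only [Matrix.updateRow_self]
    exact differentiableAt_const _
  · simp only [Matrix.updateRow_ne ha]
    exact h a b

theorem CH3_mul {n : ℕ} {A B : ℝ → Matrix (Fin n) (Fin n) ℂ} {t₀ : ℝ}
    {A' B' : Matrix (Fin n) (Fin n) ℂ}
    (hA : ∀ i j, HasDerivAt (fun t => A t i j) (A' i j) t₀)
    (hB : ∀ i j, HasDerivAt (fun t => B t i j) (B' i j) t₀) :
    ∀ i j, HasDerivAt (fun t => (A t * B t) i j) ((A' * B t₀ + A t₀ * B') i j) t₀ := by
  intro i j
  have h1 : (A' * B t₀ + A t₀ * B') i j =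
      ∑ k, (A' i k * B t₀ k j + A t₀ i k * B' k j) := by
    rw [Matrix.add_apply, Matrix.mul_apply, Matrix.mul_apply, Finset.sum_add_distrib]
  rw [h1]
  have h2 : (fun t => (A t * B t) i j) = fun t => ∑ k, A t i k * B t k j := by
    funext t
    rw [Matrix.mul_apply]
  rw [h2]
  exact HasDerivAt.fun_sum fun k _ => (hA i k).mul (hB k j)

theorem CH3_key {n : ℕ} (S e : ℝ → Matrix (Fin n) (Fin n) ℂ) (S' : Matrix (Fin n) (Fin n) ℂ)
    (hS : ∀ i j, HasDerivAt (fun t => S t i j) (S' i j) 0) (hS0 : S 0 = 1)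
    (he : ∀ᶠ t in 𝓝 (0 : ℝ), e t * S t = S t * e 0) :
    ∀ i j, HasDerivAt (fun t => e t i j) ((S' * e 0 - e 0 * S') i j) 0 := by
  have hSd : ∀ i j, DifferentiableAt ℝ (fun t => S t i j) 0 := fun i j =>
    (hS i j).differentiableAt
  have hdet0 : (S 0).det ≠ 0 := by
    rw [hS0, Matrix.det_one]
    exact one_ne_zero
  have hne : ∀ᶠ t in 𝓝 (0 : ℝ), (S t).det ≠ 0 :=
    (CH3_det hSd).continuousAt.eventually_ne hdet0
  have hinv : ∀ i j, HasDerivAt (fun t => (S t)⁻¹ i j)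
      ((Matrix.of fun i j => deriv (fun t => (S t)⁻¹ i j) 0) i j) 0 := fun i j =>
    (CH3_inv hSd hdet0 i j).hasDerivAt
  have hconst : ∀ i j, HasDerivAt (fun _ : ℝ => e 0 i j)
      ((0 : Matrix (Fin n) (Fin n) ℂ) i j) 0 := fun i j => hasDerivAt_const _ _
  have hform : ∀ᶠ t in 𝓝 (0 : ℝ), e t = S t * e 0 * (S t)⁻¹ := by
    filter_upwards [he, hne] with t ht1 ht2
    have hu : IsUnit (S t).det := isUnit_iff_ne_zero.2 ht2
    rw [← ht1, Matrix.mul_assoc, Matrix.mul_nonsing_inv _ hu, Matrix.mul_one]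
  have hed : ∀ i j, DifferentiableAt ℝ (fun t => e t i j) 0 := by
    intro i j
    have h1 := CH3_mul (CH3_mul hS hconst) hinv i j
    refine (h1.differentiableAt).congr_of_eventuallyEq ?_
    filter_upwards [hform] with t ht
    rw [← ht]
  have hed2 : ∀ i j, HasDerivAt (fun t => e t i j)
      ((Matrix.of fun i j => deriv (fun t => e t i j) 0) i j) 0 := fun i j =>
    (hed i j).hasDerivAt
  set e' : Matrix (Fin n) (Fin n) ℂ := Matrix.of fun i j => deriv (fun t => e t i j) 0 with he'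
  have key : e' * S 0 + e 0 * S' = S' * e 0 + S 0 * 0 := by
    ext i j
    have h1 := CH3_mul hed2 hS i j
    have h2 := CH3_mul hS hconst i j
    have h3 : (fun t => (e t * S t) i j) =ᶠ[𝓝 0] fun t => (S t * e 0) i j := by
      filter_upwards [he] with t ht
      rw [ht]
    exact (h1.congr_of_eventuallyEq h3.symm).unique h2
  rw [hS0, Matrix.mul_one, Matrix.mul_zero, add_zero] at key
  have key2 : e' = S' * e 0 - e 0 * S' := eq_sub_of_add_eq key
  intro i j
  rw [← key2]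
  exact hed2 i j

theorem CH3_star_mulVec {n : ℕ} (X : Matrix (Fin n) (Fin n) ℂ) (x : Fin n → ℂ) :
    star (mconj X *ᵥ x) = X *ᵥ star x := by
  funext i
  simp only [Pi.star_apply, Matrix.mulVec, dotProduct, mconj, Matrix.map_apply, star_sum,
    star_mul']
  refine Finset.sum_congr rfl fun j _ => ?_
  have h : star ((starRingEnd ℂ) (X i j)) = X i j := by
    rw [← starRingEnd_apply, starRingEnd_self_apply]
  rw [h]

theorem CH3_path {n : ℕ} (V : PolVHS n) (p : ℤ) (z₀ : ℂ) (hz₀ : 0 < z₀.im)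
    (E : ℂ → Matrix (Fin n) (Fin n) ℂ) (hE : ∀ z : ℂ, 0 < z.im → IsPr V.wt (fun p => V.F p z) p (E z))
    (A : ℂ → Matrix (Fin n) (Fin n) ℂ) (hA : ∀ i j, AnalyticAt ℂ (fun z => A z i j) z₀)
    (hA2 : ∀ᶠ z in 𝓝 z₀, A z * A z = A z ∧ V.F p z = LinearMap.range (A z).mulVecLin)
    (A' : Matrix (Fin n) (Fin n) ℂ) (hA' : ∀ i j, deriv (fun z => A z i j) z₀ = A' i j)
    (C : ℂ → Matrix (Fin n) (Fin n) ℂ) (hC : ∀ i j, AnalyticAt ℂ (fun z => C z i j) z₀)
    (hC2 : ∀ᶠ z in 𝓝 z₀, C z * C z = C z ∧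
      V.F (V.wt + 1 - p) z = LinearMap.range (C z).mulVecLin)
    (C' : Matrix (Fin n) (Fin n) ℂ) (hC' : ∀ i j, deriv (fun z => C z i j) z₀ = C' i j)
    (w : ℂ) :
    ∀ i j, HasDerivAt (fun t : ℝ => E (z₀ + (t : ℂ) * w) i j)
        ((w • ((1 - E z₀) * A' * E z₀) -
          (starRingEnd ℂ) w • (E z₀ * mconj C' * (1 - E z₀))) i j) 0 := by
  have hγ : HasDerivAt (fun t : ℝ => z₀ + (t : ℂ) * w) w 0 := by
    have h1 : HasDerivAt (fun t : ℝ => (t : ℂ)) 1 0 := Complex.ofRealCLM.hasDerivAt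
    have h2 := (h1.mul_const w).const_add z₀
    rwa [one_mul] at h2
  have hγ0 : z₀ + ((0 : ℝ) : ℂ) * w = z₀ := by
    rw [Complex.ofReal_zero, zero_mul, add_zero]
  have hγt : Tendsto (fun t : ℝ => z₀ + (t : ℂ) * w) (𝓝 0) (𝓝 z₀) := by
    have h1 := hγ.continuousAt.tendsto
    rwa [hγ0] at h1
  have hA3 : ∀ i j, HasDerivAt (fun t : ℝ => A (z₀ + (t : ℂ) * w) i j) ((w • A') i j) 0 := by
    intro i j
    have h1 : HasDerivAt (fun z => A z i j) (A' i j) (z₀ + ((0 : ℝ) : ℂ) * w) := by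
      rw [hγ0, ← hA' i j]
      exact (hA i j).differentiableAt.hasDerivAt
    exact h1.scomp (0 : ℝ) hγ
  have hB3 : ∀ i j, HasDerivAt (fun t : ℝ => mconj (C (z₀ + (t : ℂ) * w)) i j)
      (((starRingEnd ℂ) w • mconj C') i j) 0 := by
    intro i j
    have h1 : HasDerivAt (fun z => C z i j) (C' i j) (z₀ + ((0 : ℝ) : ℂ) * w) := by
      rw [hγ0, ← hC' i j]
      exact (hC i j).differentiableAt.hasDerivAt
    have h2 : HasDerivAt (fun t : ℝ => C (z₀ + (t : ℂ) * w) i j) (w • C' i j) 0 := by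
      have h5 := h1.scomp (0 : ℝ) hγ
      exact h5
    have h3 := (Complex.conjCLE.toContinuousLinearMap.hasFDerivAt
      (x := C (z₀ + ((0 : ℝ) : ℂ) * w) i j)).comp_hasDerivAt (0 : ℝ) h2
    have h4 : ((starRingEnd ℂ) w • mconj C') i j =
        Complex.conjCLE.toContinuousLinearMap (w • C' i j) := by
      rw [Matrix.smul_apply, smul_eq_mul, smul_eq_mul]
      show (starRingEnd ℂ) w * (starRingEnd ℂ) (C' i j) = (starRingEnd ℂ) (w * C' i j)
      rw [map_mul]
    rw [h4]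
    exact h3
  set e : Matrix (Fin n) (Fin n) ℂ := E z₀ with he
  have hee : e * e = e := (hE z₀ hz₀).idem
  have hee2 : (1 - e) * e = 0 := by
    rw [Matrix.sub_mul, Matrix.one_mul, hee, sub_self]
  have hcst : ∀ (X : Matrix (Fin n) (Fin n) ℂ) (i j), HasDerivAt (fun _ : ℝ => X i j)
      ((0 : Matrix (Fin n) (Fin n) ℂ) i j) 0 := fun X i j => hasDerivAt_const _ _
  have hS : ∀ i j, HasDerivAt (fun t : ℝ => (A (z₀ + (t : ℂ) * w) * e +
      mconj (C (z₀ + (t : ℂ) * w)) * (1 - e)) i j)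
      (((w • A') * e + ((starRingEnd ℂ) w • mconj C') * (1 - e)) i j) 0 := by
    intro i j
    have h1 := CH3_mul (B := fun _ => e) hA3 (hcst e) i j
    have h2 := CH3_mul (B := fun _ => 1 - e) hB3 (hcst (1 - e)) i j
    have h3 := h1.add h2
    simp only [Matrix.mul_zero, add_zero] at h3
    exact h3
  -- pointwise facts
  have hs0 : A z₀ * e + mconj (C z₀) * (1 - e) = 1 := by
    have h1 : A z₀ * e = e := by
      obtain ⟨h2, h3⟩ := hA2.self_of_nhds
      refine Matrix.mulVec_injective ?_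
      funext x
      rw [← Matrix.mulVec_mulVec]
      have h4 : e *ᵥ x ∈ V.F p z₀ := by
        refine ((hE z₀ hz₀).range _).2 ?_
        rw [Matrix.mulVec_mulVec, hee]
      rw [h3, proj_mem_iff h2] at h4
      exact h4
    have h1' : mconj (C z₀) * (1 - e) = 1 - e := by
      obtain ⟨h2, h3⟩ := hC2.self_of_nhds
      refine Matrix.mulVec_injective ?_
      funext x
      rw [← Matrix.mulVec_mulVec]
      have h4 : (1 - e) *ᵥ x ∈ conjSub (V.F (V.wt + 1 - p) z₀) := by
        refine ((hE z₀ hz₀).ker _).2 ?_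
        have h5 : e * (1 - e) = 0 := by rw [Matrix.mul_sub, Matrix.mul_one, hee, sub_self]
        rw [Matrix.mulVec_mulVec, h5, Matrix.zero_mulVec]
      have h5 : star ((1 - e) *ᵥ x) ∈ V.F (V.wt + 1 - p) z₀ := h4
      rw [h3, proj_mem_iff h2, ← CH3_star_mulVec] at h5
      exact star_injective h5
    rw [h1, h1']
    abel
  have hev : ∀ᶠ z in 𝓝 z₀, E z * (A z * e + mconj (C z) * (1 - e)) =
      (A z * e + mconj (C z) * (1 - e)) * e := by
    have him : ∀ᶠ z : ℂ in 𝓝 z₀, 0 < z.im :=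
      (isOpen_lt continuous_const Complex.continuous_im).mem_nhds hz₀
    filter_upwards [him, hA2, hC2] with z hz1 hz2 hz3
    have h1 : E z * A z = A z := by
      refine Matrix.mulVec_injective ?_
      funext x
      rw [← Matrix.mulVec_mulVec]
      refine ((hE z hz1).range _).1 ?_
      show A z *ᵥ x ∈ V.F p z
      rw [hz2.2]
      exact ⟨x, rfl⟩
    have h2 : E z * mconj (C z) = 0 := by
      refine Matrix.mulVec_injective ?_
      funext x
      rw [← Matrix.mulVec_mulVec, Matrix.zero_mulVec]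
      refine ((hE z hz1).ker _).1 ?_
      show star (mconj (C z) *ᵥ x) ∈ V.F (V.wt + 1 - p) z
      rw [CH3_star_mulVec, hz3.2]
      exact ⟨star x, rfl⟩
    rw [Matrix.mul_add, ← Matrix.mul_assoc, h1, ← Matrix.mul_assoc, h2, Matrix.zero_mul, add_zero,
      Matrix.add_mul, Matrix.mul_assoc (A z) e e, hee, Matrix.mul_assoc _ (1 - e) e, hee2,
      Matrix.mul_zero, add_zero]
  have hfin := CH3_key (fun t : ℝ => A (z₀ + (t : ℂ) * w) * e +
      mconj (C (z₀ + (t : ℂ) * w)) * (1 - e)) (fun t : ℝ => E (z₀ + (t : ℂ) * w))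
      _ hS (by
        show A (z₀ + ((0 : ℝ) : ℂ) * w) * e + mconj (C (z₀ + ((0 : ℝ) : ℂ) * w)) * (1 - e) = 1
        rw [hγ0]
        exact hs0) (by
        filter_upwards [hγt.eventually hev] with t ht
        show E (z₀ + (t : ℂ) * w) * _ = _ * E (z₀ + ((0 : ℝ) : ℂ) * w)
        rw [hγ0]
        exact ht)
  intro i j
  have h1 := hfin i j
  rw [hγ0, ← he] at h1
  have h2 : ((w • A') * e + ((starRingEnd ℂ) w • mconj C') * (1 - e)) * e -
      e * ((w • A') * e + ((starRingEnd ℂ) w • mconj C') * (1 - e)) =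
      w • ((1 - e) * A' * e) - (starRingEnd ℂ) w • (e * mconj C' * (1 - e)) := by
    rw [Matrix.add_mul, Matrix.mul_assoc _ (1 - e) e, hee2, Matrix.mul_zero, add_zero,
      Matrix.mul_assoc _ e e, hee, Matrix.mul_add]
    simp only [Matrix.smul_mul, Matrix.mul_smul, Matrix.sub_mul, Matrix.one_mul, Matrix.mul_assoc]
    module
  rw [h2] at h1
  exact h1

theorem pr_deriv {n : ℕ} (V : PolVHS n) (p : ℤ) (z₀ : ℂ) (hz₀ : 0 < z₀.im)
    (E : ℂ → Matrix (Fin n) (Fin n) ℂ) (hE : ∀ z : ℂ, 0 < z.im → IsPr V.wt (fun p => V.F p z) p (E z))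
    (A : ℂ → Matrix (Fin n) (Fin n) ℂ) (hA : ∀ i j, AnalyticAt ℂ (fun z => A z i j) z₀)
    (hA2 : ∀ᶠ z in 𝓝 z₀, A z * A z = A z ∧ V.F p z = LinearMap.range (A z).mulVecLin)
    (A' : Matrix (Fin n) (Fin n) ℂ) (hA' : ∀ i j, deriv (fun z => A z i j) z₀ = A' i j) :
    ∃ K : Matrix (Fin n) (Fin n) ℂ,
      (∀ i j, HasDerivAt (fun t : ℝ => E (z₀ + (t : ℂ)) i j)
        (((1 - E z₀) * A' * E z₀ + K) i j) 0) ∧
      (∀ i j, HasDerivAt (fun t : ℝ => E (z₀ + (t : ℂ) * Complex.I) i j)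
        ((Complex.I • ((1 - E z₀) * A' * E z₀) - Complex.I • K) i j) 0) := by
  obtain ⟨C, hC, hC2⟩ := (V.hol (V.wt + 1 - p) z₀ hz₀).proj
  have h := CH3_path V p z₀ hz₀ E hE A hA hA2 A' hA' C hC hC2
    (Matrix.of fun i j => deriv (fun z => C z i j) z₀) (fun i j => rfl)
  set B' : Matrix (Fin n) (Fin n) ℂ :=
    mconj (Matrix.of fun i j => deriv (fun z => C z i j) z₀) with hB'
  refine ⟨-(E z₀ * B' * (1 - E z₀)), ?_, ?_⟩
  · intro i j
    have h1 := h 1 i j
    simp only [mul_one, map_one, one_smul] at h1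
    rw [sub_eq_add_neg] at h1
    exact h1
  · intro i j
    have h1 := h Complex.I i j
    rw [Complex.conj_I] at h1
    have h2 : Complex.I • ((1 - E z₀) * A' * E z₀) - -Complex.I • (E z₀ * B' * (1 - E z₀)) =
        Complex.I • ((1 - E z₀) * A' * E z₀) - Complex.I • -(E z₀ * B' * (1 - E z₀)) := by
      rw [smul_neg, neg_smul]
    rw [h2] at h1
    exact h1

end MP2794d1.PC
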