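import Pool.Agent.Lib.MP_2794d1_ag.PC.CH1
import Pool.Agent.Lib.MP_2794d1_ag.PC.CH3
import Pool.Agent.Lib.MP_2794d1_ag.F05

/-!
CH4: the velocity of the Hodge filtration is the class of an element `θ` of `cx (genericMT V)`.

Proof. Let `E p z` be the projectors of CH2 (`exists_pr`, choice), `μ z = lo + ∑ p ∈ Ioo lo hi, E p z`, a Hodge grading
(`gr_sum`), so `μ z ∈ cx (genericMT V)` (`gr_mem`) for all `z` in the half plane. `P p` the analytic projectors of `f04_proj` at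
`z`; `A' p = f05_D (P p) z`. By `pr_deriv` the derivatives at `0` of `t ↦ μ (z + t)`, `t ↦ μ (z + t i)` are `Θ + K`, `i Θ - i K`,
`Θ = ∑ (1 - E p) A' p (E p)`, `K = ∑ K p`. They are limits of difference quotients (for small real `t` the points stay in the
half plane), so they are in `cx (genericMT V)`, a finite dimensional, hence closed, subspace; so
`2 Θ = (Θ + K) - i (i Θ - i K)` is in `cx (genericMT V)`. Put `θ = Θ`, `θ_p = (1 - E p) A' p (E p)`.
Velocity: let `q` be an index and `s` an analytic section of `V.F q` near `z`. If `q ≤ lo` there is nothing to prove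
(`f04_top`), if `hi ≤ q` then `s = 0` near `z` (`f04_bot`). Let `lo < q < hi`. Differentiating `P q y *ᵥ s y = s y`
(`f05_deriv`): `s' = A' q *ᵥ s z + P q z *ᵥ s'`, so `(1 - E q) *ᵥ s' = (1 - E q) *ᵥ (A' q *ᵥ s z) = θ_q *ᵥ s z`
(`(1 - E q) P q z = 0`, `E q *ᵥ s z = s z`). For `p < q`: `s` is also a section of `V.F (p + 1)`, so `s' ∈ V.F p` by Griffiths
transversality (`V.griffiths (p + 1)`), `(1 - E p) *ᵥ s' = 0` and, as before (`s` is a section of `V.F p`),
`θ_p *ᵥ s z = (1 - E p) *ᵥ s' = 0`. For `p > q`: `θ_p *ᵥ x ∈ V.F q` for every `x`: with `x' = E p *ᵥ x ∈ V.F p z`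
and the section `σ y = P p y *ᵥ x'` of `V.F p`, `σ z = x'`, we have as before `θ_p *ᵥ x' = (1 - E p) *ᵥ σ'`, where
`σ' ∈ V.F (p - 1) z ≤ V.F q z` and `E p *ᵥ σ' ∈ V.F p z ≤ V.F q z`. So
`s' - θ *ᵥ s z ≡ s' - θ_q *ᵥ s z = E q *ᵥ s' ∈ V.F q z`, modulo `V.F q z`.
-/

namespace MP2794d1.PC

open Matrix Complex Filter Topology

theorem CH4_deriv_mem {n : ℕ} (W : Submodule ℂ (Matrix (Fin n) (Fin n) ℂ))
    (m : ℝ → Matrix (Fin n) (Fin n) ℂ) (D : Matrix (Fin n) (Fin n) ℂ)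
    (hm : ∀ i j, HasDerivAt (fun t => m t i j) (D i j) 0) (hW : ∀ᶠ t in 𝓝 (0 : ℝ), m t ∈ W) :
    D ∈ W := by
  classical
  by_contra hno
  obtain ⟨φ, hφ1, hφ2⟩ := Submodule.exists_dual_map_eq_bot_of_notMem hno inferInstance
  have hφ3 : ∀ w ∈ W, φ w = 0 := by
    intro w hw
    have : φ w ∈ W.map φ := Submodule.mem_map_of_mem hw
    rw [hφ2] at this
    exact (Submodule.mem_bot ℂ).1 this
  have hφ4 : ∀ X : Matrix (Fin n) (Fin n) ℂ,
      φ X = ∑ i, ∑ j, X i j * φ (Matrix.single i j 1) := by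
    intro X
    conv_lhs => rw [Matrix.matrix_eq_sum_single X]
    rw [map_sum]
    refine Finset.sum_congr rfl fun i _ => ?_
    rw [map_sum]
    refine Finset.sum_congr rfl fun j _ => ?_
    have h1 : Matrix.single i j (X i j) = X i j • Matrix.single i j (1 : ℂ) := by
      rw [Matrix.smul_single, smul_eq_mul, mul_one]
    rw [h1, map_smul, smul_eq_mul]
  have h1 : HasDerivAt (fun t => φ (m t)) (φ D) 0 := by
    rw [hφ4 D]
    have h2 : (fun t => φ (m t)) = fun t => ∑ i, ∑ j, m t i j * φ (Matrix.single i j 1) := by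
      funext t
      exact hφ4 (m t)
    rw [h2]
    refine HasDerivAt.fun_sum fun i _ => ?_
    refine HasDerivAt.fun_sum fun j _ => ?_
    exact (hm i j).mul_const _
  have h2 : (fun t => φ (m t)) =ᶠ[𝓝 0] fun _ => 0 := by
    filter_upwards [hW] with t ht
    exact hφ3 _ ht
  have h3 : HasDerivAt (fun t => φ (m t)) 0 0 :=
    (hasDerivAt_const (0 : ℝ) (0 : ℂ)).congr_of_eventuallyEq h2
  exact hφ1 (h1.unique h3)

/-- the derivative of a section modulo the space -/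
theorem CH4_sec {n : ℕ} (V : PolVHS n) {z : ℂ} (p : ℤ)
    (E : Matrix (Fin n) (Fin n) ℂ) (hE : IsPr V.wt (fun p => V.F p z) p E)
    (P : ℂ → Matrix (Fin n) (Fin n) ℂ) (hP1 : ∀ i j, AnalyticAt ℂ (fun y => P y i j) z)
    (hP2 : ∀ᶠ y in 𝓝 z, P y * P y = P y ∧ V.F p y = LinearMap.range (P y).mulVecLin)
    (s : ℂ → (Fin n → ℂ)) (hs : ∀ i, AnalyticAt ℂ (fun y => s y i) z)
    (hmem : ∀ᶠ y in 𝓝 z, s y ∈ V.F p y) :
    (1 - E) *ᵥ (fun i => deriv (fun y => s y i) z) = ((1 - E) * f05_D P z * E) *ᵥ s z := by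
  have h3 : ∀ᶠ y in 𝓝 z, s y = P y *ᵥ s y := by
    filter_upwards [hP2, hmem] with y hy1 hy2
    rw [hy1.2, proj_mem_iff hy1.1] at hy2
    exact hy2.symm
  have h4 : (fun i => deriv (fun y => s y i) z) =
      fun i => deriv (fun y => (P y *ᵥ s y) i) z := by
    funext i
    have h5 : (fun y => s y i) =ᶠ[𝓝 z] fun y => (P y *ᵥ s y) i := by
      filter_upwards [h3] with y hy
      exact congrFun hy i
    exact h5.deriv_eq
  set s' : Fin n → ℂ := fun i => deriv (fun y => s y i) z with hs'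
  have h6 : s' = f05_D P z *ᵥ s z + P z *ᵥ s' := by
    rw [f05_deriv hP1 hs] at h4
    exact h4
  have h7 : (1 - E) * P z = 0 := by
    refine Matrix.mulVec_injective ?_
    funext x
    rw [Matrix.zero_mulVec, ← Matrix.mulVec_mulVec, Matrix.sub_mulVec, Matrix.one_mulVec]
    have h8 : P z *ᵥ x ∈ V.F p z := by
      rw [hP2.self_of_nhds.2]
      exact ⟨x, rfl⟩
    rw [(hE.range _).1 h8, sub_self]
  have h9 : E *ᵥ s z = s z := (hE.range _).1 hmem.self_of_nhds
  have h10 : ((1 - E) * f05_D P z * E) *ᵥ s z = (1 - E) *ᵥ (f05_D P z *ᵥ s z) := by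
    rw [← Matrix.mulVec_mulVec, h9, ← Matrix.mulVec_mulVec]
  rw [h10]
  conv_lhs => rw [h6]
  rw [Matrix.mulVec_add, Matrix.mulVec_mulVec s' (1 - E) (P z), h7, Matrix.zero_mulVec, add_zero]

theorem CH4_mem {n : ℕ} (V : PolVHS n) {z : ℂ} (hz : 0 < z.im) (E : ℤ → Matrix (Fin n) (Fin n) ℂ)
    (hE : ∀ p, IsPr V.wt (fun p => V.F p z) p (E p))
    (P : ℤ → ℂ → Matrix (Fin n) (Fin n) ℂ) (hP1 : ∀ p i j, AnalyticAt ℂ (fun y => P p y i j) z)
    (hP2 : ∀ᶠ y in 𝓝 z, ∀ p ∈ Finset.Icc V.lo V.hi,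
      P p y * P p y = P p y ∧ V.F p y = LinearMap.range (P p y).mulVecLin)
    (q : ℤ) (s : ℂ → (Fin n → ℂ)) (hs : ∀ i, AnalyticAt ℂ (fun y => s y i) z)
    (hmem : ∀ᶠ y in 𝓝 z, s y ∈ V.F q y) :
    (fun i => deriv (fun y => s y i) z) -
      (∑ p ∈ Finset.Ioo V.lo V.hi, (1 - E p) * f05_D (P p) z * E p) *ᵥ s z ∈ V.F q z := by
  classical
  have him : ∀ᶠ z : ℂ in 𝓝 z, 0 < z.im :=
    (isOpen_lt continuous_const Complex.continuous_im).mem_nhds hz
  have hanti : ∀ y : ℂ, 0 < y.im → ∀ a b : ℤ, a ≤ b → V.F b y ≤ V.F a y := fun y hy =>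
    (V.phs y hy).anti
  rcases le_or_gt q V.lo with hq | hq
  · rw [f04_top V hz hq]
    trivial
  rcases le_or_gt V.hi q with hq' | hq'
  · have h0 : ∀ᶠ y in 𝓝 z, s y = 0 := by
      filter_upwards [him, hmem] with y hy1 hy2
      rw [f04_bot V hy1 hq', Submodule.mem_bot] at hy2
      exact hy2
    have h1 : (fun i => deriv (fun y => s y i) z) = 0 := by
      funext i
      have h2 : (fun y => s y i) =ᶠ[𝓝 z] fun _ => 0 := by
        filter_upwards [h0] with y hy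
        rw [hy]
        rfl
      rw [h2.deriv_eq, deriv_const]
      rfl
    rw [h1, h0.self_of_nhds, Matrix.mulVec_zero, sub_zero]
    exact Submodule.zero_mem _
  have hsec : ∀ p ∈ Finset.Ioo V.lo V.hi, ∀ σ : ℂ → (Fin n → ℂ),
      (∀ i, AnalyticAt ℂ (fun y => σ y i) z) → (∀ᶠ y in 𝓝 z, σ y ∈ V.F p y) →
      (1 - E p) *ᵥ (fun i => deriv (fun y => σ y i) z) =
        ((1 - E p) * f05_D (P p) z * E p) *ᵥ σ z := by
    intro p hp σ hσ hσ2
    refine CH4_sec V p (E p) (hE p) (P p) (hP1 p) ?_ σ hσ hσ2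
    filter_upwards [hP2] with y hy
    exact hy p (Finset.Ioo_subset_Icc_self hp)
  have hother : ∀ p ∈ Finset.Ioo V.lo V.hi, p ≠ q →
      ((1 - E p) * f05_D (P p) z * E p) *ᵥ s z ∈ V.F q z := by
    intro p hp hpq
    rcases lt_or_gt_of_ne hpq with hlt | hgt
    · have h1 : ∀ᶠ y in 𝓝 z, s y ∈ V.F (p + 1) y := by
        filter_upwards [him, hmem] with y hy1 hy2
        exact hanti y hy1 _ _ (by omega) hy2
      have h2 : ∀ᶠ y in 𝓝 z, s y ∈ V.F p y := by
        filter_upwards [him, hmem] with y hy1 hy2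
        exact hanti y hy1 _ _ (by omega) hy2
      have h3 := V.griffiths (p + 1) z hz s hs h1
      rw [add_sub_cancel_right] at h3
      have h4 := hsec p hp s hs h2
      rw [Matrix.sub_mulVec, Matrix.one_mulVec, ((hE p).range _).1 h3, sub_self] at h4
      rw [← h4]
      exact Submodule.zero_mem _
    · have h1 : E p *ᵥ s z ∈ V.F p z := by
        refine ((hE p).range _).2 ?_
        rw [Matrix.mulVec_mulVec, (hE p).idem]
      have hpI := Finset.Ioo_subset_Icc_self hp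
      set x : Fin n → ℂ := E p *ᵥ s z with hx
      have h2 : ∀ i, AnalyticAt ℂ (fun y => (P p y *ᵥ x) i) z := by
        intro i
        have h4 : (fun y => (P p y *ᵥ x) i) = fun y => ∑ j ∈ Finset.univ, P p y i j * x j := rfl
        rw [h4]
        exact Finset.analyticAt_fun_sum _ fun j _ => (hP1 p i j).mul analyticAt_const
      have h3 : ∀ᶠ y in 𝓝 z, P p y *ᵥ x ∈ V.F p y := by
        filter_upwards [hP2] with y hy
        rw [(hy p hpI).2]
        exact ⟨x, rfl⟩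
      have h4 := hsec p hp _ h2 h3
      have h5 : P p z *ᵥ x = x := by
        obtain ⟨h6, h7⟩ := hP2.self_of_nhds p hpI
        rw [h7, proj_mem_iff h6] at h1
        exact h1
      rw [h5] at h4
      have h6 : ((1 - E p) * f05_D (P p) z * E p) *ᵥ x =
          ((1 - E p) * f05_D (P p) z * E p) *ᵥ s z := by
        rw [hx, Matrix.mulVec_mulVec, Matrix.mul_assoc _ (E p) (E p), (hE p).idem]
      rw [← h6, ← h4, Matrix.sub_mulVec, Matrix.one_mulVec]
      refine Submodule.sub_mem _ ?_ ?_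
      · exact hanti z hz _ _ (by omega) (V.griffiths p z hz _ h2 h3)
      · refine hanti z hz _ _ (by omega) (((hE p).range _).2 ?_)
        rw [Matrix.mulVec_mulVec, (hE p).idem]
  have hqI : q ∈ Finset.Ioo V.lo V.hi := Finset.mem_Ioo.2 ⟨hq, hq'⟩
  rw [← Finset.add_sum_erase _ _ hqI, Matrix.add_mulVec, ← hsec q hqI s hs hmem,
    Matrix.sum_mulVec, Matrix.sub_mulVec, Matrix.one_mulVec, ← sub_sub, sub_sub_cancel]
  refine Submodule.sub_mem _ ?_ (Submodule.sum_mem _ ?_)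
  · refine ((hE q).range _).2 ?_
    rw [Matrix.mulVec_mulVec, (hE q).idem]
  · intro p hp
    exact hother p (Finset.mem_of_mem_erase hp) (Finset.ne_of_mem_erase hp)

theorem exists_theta {n : ℕ} (V : PolVHS n) (z : ℂ) (hz : 0 < z.im) :
    ∃ θ ∈ cx (genericMT V : Set (Matrix (Fin n) (Fin n) ℚ)),
      ∀ p : ℤ, ∀ s : ℂ → (Fin n → ℂ), (∀ i, AnalyticAt ℂ (fun y => s y i) z) →
        (∀ᶠ y in 𝓝 z, s y ∈ V.F p y) →
        (fun i => deriv (fun y => s y i) z) - θ *ᵥ s z ∈ V.F p z := by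
  classical
  have him : ∀ᶠ y : ℂ in 𝓝 z, 0 < y.im :=
    (isOpen_lt continuous_const Complex.continuous_im).mem_nhds hz
  have hE0 : ∀ (p : ℤ) (y : ℂ), ∃ E : Matrix (Fin n) (Fin n) ℂ,
      0 < y.im → IsPr V.wt (fun p => V.F p y) p E := by
    intro p y
    by_cases hy : 0 < y.im
    · obtain ⟨E, hE⟩ := exists_pr (V.phs y hy) p
      exact ⟨E, fun _ => hE⟩
    · exact ⟨0, fun h => absurd h hy⟩
  choose E hE using hE0
  obtain ⟨P, hP1, hP2⟩ := f04_proj V hz
  have hK0 : ∀ p : ℤ, ∃ K : Matrix (Fin n) (Fin n) ℂ, p ∈ Finset.Ioo V.lo V.hi →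
      (∀ i j, HasDerivAt (fun t : ℝ => E p (z + (t : ℂ)) i j)
        (((1 - E p z) * f05_D (P p) z * E p z + K) i j) 0) ∧
      (∀ i j, HasDerivAt (fun t : ℝ => E p (z + (t : ℂ) * Complex.I) i j)
        ((Complex.I • ((1 - E p z) * f05_D (P p) z * E p z) - Complex.I • K) i j) 0) := by
    intro p
    by_cases hp : p ∈ Finset.Ioo V.lo V.hi
    · obtain ⟨K, hK⟩ := pr_deriv V p z hz (E p) (hE p) (P p) (hP1 p) (by
        filter_upwards [hP2] with y hy
        exact hy p (Finset.Ioo_subset_Icc_self hp)) (f05_D (P p) z) (fun i j => rfl)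
      exact ⟨K, fun _ => hK⟩
    · exact ⟨0, fun h => absurd h hp⟩
  choose K hK using hK0
  set Θ : Matrix (Fin n) (Fin n) ℂ :=
    ∑ p ∈ Finset.Ioo V.lo V.hi, (1 - E p z) * f05_D (P p) z * E p z with hΘ
  set W : Submodule ℂ (Matrix (Fin n) (Fin n) ℂ) :=
    cx (genericMT V : Set (Matrix (Fin n) (Fin n) ℚ)) with hW
  have hmu : ∀ y : ℂ, 0 < y.im →
      (V.lo : ℂ) • (1 : Matrix (Fin n) (Fin n) ℂ) + ∑ p ∈ Finset.Ioo V.lo V.hi, E p y ∈ W := by
    intro y hy
    exact gr_mem V y hy _ (gr_sum (V.phs y hy) V.lo V.hi (V.F_lo y hy) (V.F_hi y hy)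
      (fun p => E p y) (fun p => hE p y hy))
  have hd : ∀ (w : ℂ) (X : ℤ → Matrix (Fin n) (Fin n) ℂ),
      (∀ p ∈ Finset.Ioo V.lo V.hi, ∀ i j,
        HasDerivAt (fun t : ℝ => E p (z + (t : ℂ) * w) i j) (X p i j) 0) →
      ∑ p ∈ Finset.Ioo V.lo V.hi, X p ∈ W := by
    intro w X hX
    refine CH4_deriv_mem W (fun t => (V.lo : ℂ) • (1 : Matrix (Fin n) (Fin n) ℂ) +
      ∑ p ∈ Finset.Ioo V.lo V.hi, E p (z + (t : ℂ) * w)) _ ?_ ?_
    · intro i j
      have h1 : (fun t : ℝ => ((V.lo : ℂ) • (1 : Matrix (Fin n) (Fin n) ℂ) +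
          ∑ p ∈ Finset.Ioo V.lo V.hi, E p (z + (t : ℂ) * w)) i j) =
          fun t : ℝ => ((V.lo : ℂ) • (1 : Matrix (Fin n) (Fin n) ℂ)) i j +
            ∑ p ∈ Finset.Ioo V.lo V.hi, E p (z + (t : ℂ) * w) i j := by
        funext t
        rw [Matrix.add_apply, Matrix.sum_apply]
      rw [h1, Matrix.sum_apply]
      exact (HasDerivAt.fun_sum fun p hp => hX p hp i j).const_add _
    · have hγ : Tendsto (fun t : ℝ => z + (t : ℂ) * w) (𝓝 0) (𝓝 z) := by
        have h1 : Continuous (fun t : ℝ => z + (t : ℂ) * w) := by fun_prop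
        have h2 := h1.tendsto 0
        simpa using h2
      filter_upwards [hγ.eventually him] with t ht
      exact hmu _ ht
  have h1 := hd 1 (fun p => (1 - E p z) * f05_D (P p) z * E p z + K p) (by
    intro p hp i j
    simp only [mul_one]
    exact (hK p hp).1 i j)
  have h2 := hd Complex.I (fun p => Complex.I • ((1 - E p z) * f05_D (P p) z * E p z) -
    Complex.I • K p) (fun p hp => (hK p hp).2)
  rw [Finset.sum_add_distrib, ← hΘ] at h1
  rw [Finset.sum_sub_distrib, ← Finset.smul_sum, ← Finset.smul_sum, ← hΘ] at h2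
  have h3 := W.smul_mem (1 / 2 : ℂ) (W.sub_mem h1 (W.smul_mem Complex.I h2))
  have h4 : (1 / 2 : ℂ) • (Θ + ∑ p ∈ Finset.Ioo V.lo V.hi, K p - Complex.I •
      (Complex.I • Θ - Complex.I • ∑ p ∈ Finset.Ioo V.lo V.hi, K p)) = Θ := by
    rw [smul_sub Complex.I, smul_smul, smul_smul, Complex.I_mul_I]
    module
  rw [h4] at h3
  refine ⟨Θ, h3, ?_⟩
  intro q s hs hmem
  exact CH4_mem V hz (fun p => E p z) (fun p => hE p z hz) P hP1 hP2 q s hs hmem

end MP2794d1.PC
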