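import Pool.Agent.Lib.MP_2794d1_ag.PC.Defs
import Pool.Agent.Lib.MP_2794d1_ag.F01
import Pool.Agent.Lib.MP_2794d1_ag.B01

/-!
CH5: if the velocity vanishes identically then the Hodge filtration is constant. Fix `p`. By `IsPreconnected.induction₂'` on the
(convex) half plane it suffices that `V.F p` is constant near every `z₀`. `V.hol` gives `W z` (`n × r`) near `z₀` with
independent columns and range `V.F p z`; there is `f` with `minor (W z₀) f ≠ 0` (B01), so also near `z₀`. Put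
`W₁ z = W z * ((W z).submatrix f id)⁻¹`, analytic entries (`f01_inv`, `f01_mul`), same range, `(W₁ z).submatrix f id = 1`. Each
column of `W₁` is an analytic section of `V.F p`, so by hypothesis its derivative at `z` (for every `z` near `z₀`) is in
`V.F p z`, i.e. `W₁' z = W₁ z * B`; taking rows `f`: `0 = (W₁' z).submatrix f id = B`. So `W₁' = 0` near `z₀` (on a ball) and
`W₁` is constant on the ball (`is_const_of_deriv_eq_zero` locally: `IsOpen.is_const_of_deriv_eq_zero` on a ball), so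
`V.F p z` is constant near `z₀`.
-/

namespace MP2794d1.PC

open Matrix Complex Filter Topology

theorem CH5_local {n : ℕ} (V : PolVHS n)
    (h : ∀ z : ℂ, 0 < z.im → ∀ p : ℤ, ∀ s : ℂ → (Fin n → ℂ),
      (∀ i, AnalyticAt ℂ (fun y => s y i) z) → (∀ᶠ y in 𝓝 z, s y ∈ V.F p y) →
      (fun i => deriv (fun y => s y i) z) ∈ V.F p z) (p : ℤ) (z₀ : ℂ) (hz₀ : 0 < z₀.im) :
    ∀ᶠ z in 𝓝 z₀, V.F p z = V.F p z₀ := by
  obtain ⟨r, W, hW, hev⟩ := V.hol p z₀ hz₀
  obtain ⟨f, hf⟩ := exists_minor_ne (W z₀) hev.self_of_nhds.1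
  have hAan : ∀ i j, AnalyticAt ℂ (fun z => (W z).submatrix f id i j) z₀ := fun i j => hW _ _
  have hdet : ((W z₀).submatrix f id).det ≠ 0 := hf
  set W₁ : ℂ → Matrix (Fin n) (Fin r) ℂ := fun z => W z * ((W z).submatrix f id)⁻¹ with hW₁
  have hW₁an : ∀ i j, AnalyticAt ℂ (fun z => W₁ z i j) z₀ := f01_mul hW (f01_inv hAan hdet)
  have hne : ∀ᶠ z in 𝓝 z₀, ((W z).submatrix f id).det ≠ 0 :=
    (f01_det hAan).continuousAt.eventually_ne hdet
  have hev1 : ∀ᶠ z in 𝓝 z₀, (∀ i j, AnalyticAt ℂ (fun z => W₁ z i j) z) := by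
    rw [eventually_all]
    intro i
    rw [eventually_all]
    intro j
    exact (hW₁an i j).eventually_analyticAt
  have him : ∀ᶠ z : ℂ in 𝓝 z₀, 0 < z.im := by
    exact Complex.continuous_im.continuousAt.eventually (lt_mem_nhds hz₀)
  have hprop : ∀ᶠ z in 𝓝 z₀, (∀ i j, AnalyticAt ℂ (fun z => W₁ z i j) z) ∧ 0 < z.im ∧
      (W₁ z).submatrix f id = 1 ∧ V.F p z = LinearMap.range (W₁ z).mulVecLin := by
    filter_upwards [hne, hev, hev1, him] with z hz1 hz2 hz3 hz4
    have hu : IsUnit ((W z).submatrix f id).det := isUnit_iff_ne_zero.2 hz1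
    refine ⟨hz3, hz4, ?_, ?_⟩
    · have : (W₁ z).submatrix f id = (W z).submatrix f id * ((W z).submatrix f id)⁻¹ := by
        rw [hW₁]
        ext i j
        simp [Matrix.mul_apply]
      rw [this, Matrix.mul_nonsing_inv _ hu]
    · rw [hz2.2]
      apply le_antisymm
      · rintro _ ⟨y, rfl⟩
        refine ⟨(W z).submatrix f id *ᵥ y, ?_⟩
        rw [Matrix.mulVecLin_apply, Matrix.mulVec_mulVec, hW₁]
        show (W z * ((W z).submatrix f id)⁻¹ * (W z).submatrix f id) *ᵥ y = _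
        rw [Matrix.mul_assoc, Matrix.nonsing_inv_mul _ hu, Matrix.mul_one, Matrix.mulVecLin_apply]
      · rintro _ ⟨y, rfl⟩
        refine ⟨((W z).submatrix f id)⁻¹ *ᵥ y, ?_⟩
        rw [Matrix.mulVecLin_apply, Matrix.mulVec_mulVec, Matrix.mulVecLin_apply]
  obtain ⟨ε, hε, hball⟩ := Metric.eventually_nhds_iff_ball.1 hprop
  have hder : ∀ z ∈ Metric.ball z₀ ε, ∀ i j, deriv (fun y => W₁ y i j) z = 0 := by
    intro z hz i j
    obtain ⟨ha, hzim, h1, hr⟩ := hball z hz
    have hnb : ∀ᶠ y in 𝓝 z, y ∈ Metric.ball z₀ ε := Metric.isOpen_ball.mem_nhds hz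
    have h2 := h z hzim p (fun y i => W₁ y i j) (fun i => ha i j) (by
      filter_upwards [hnb] with y hy
      rw [(hball y hy).2.2.2]
      refine ⟨Pi.single j 1, ?_⟩
      rw [Matrix.mulVecLin_apply, Matrix.mulVec_single_one]
      rfl)
    rw [hr] at h2
    obtain ⟨b, hb⟩ := h2
    rw [Matrix.mulVecLin_apply] at hb
    have hb0 : b = 0 := by
      funext k
      have h3 := congrFun hb (f k)
      have h4 : (W₁ z *ᵥ b) (f k) = b k := by
        have : (W₁ z *ᵥ b) (f k) = ((W₁ z).submatrix f id *ᵥ b) k := rfl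
        rw [this, h1, Matrix.one_mulVec]
      have h5 : deriv (fun y => W₁ y (f k) j) z = 0 := by
        have h6 : (fun y => W₁ y (f k) j) =ᶠ[𝓝 z] fun _ => (1 : Matrix (Fin r) (Fin r) ℂ) k j := by
          filter_upwards [hnb] with y hy
          have h7 := (hball y hy).2.2.1
          have h8 := congrFun (congrFun h7 k) j
          exact h8
        rw [h6.deriv_eq]
        exact deriv_const z _
      rw [h4] at h3
      rw [h3, h5]
      rfl
    have h9 := congrFun hb i
    rw [hb0, Matrix.mulVec_zero] at h9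
    exact h9.symm
  refine Metric.eventually_nhds_iff_ball.2 ⟨ε, hε, ?_⟩
  intro z hz
  have hz₀m : z₀ ∈ Metric.ball z₀ ε := Metric.mem_ball_self hε
  have hc : W₁ z = W₁ z₀ := by
    ext i j
    refine IsOpen.is_const_of_deriv_eq_zero Metric.isOpen_ball
      (convex_ball z₀ ε).isPreconnected ?_ ?_ hz hz₀m (f := fun y => W₁ y i j)
    · intro y hy
      exact ((hball y hy).1 i j).differentiableAt.differentiableWithinAt
    · intro y hy
      exact hder y hy i j
  rw [(hball z hz).2.2.2, (hball z₀ hz₀m).2.2.2, hc]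

theorem const_of_vel {n : ℕ} (V : PolVHS n)
    (h : ∀ z : ℂ, 0 < z.im → ∀ p : ℤ, ∀ s : ℂ → (Fin n → ℂ),
      (∀ i, AnalyticAt ℂ (fun y => s y i) z) → (∀ᶠ y in 𝓝 z, s y ∈ V.F p y) →
      (fun i => deriv (fun y => s y i) z) ∈ V.F p z) :
    ∀ z z' : ℂ, 0 < z.im → 0 < z'.im → ∀ p, V.F p z = V.F p z' := by
  intro z z' hz hz' p
  have hs : IsPreconnected {z : ℂ | 0 < z.im} := (convex_halfSpace_im_gt 0).isPreconnected
  refine IsPreconnected.induction₂' hs (fun x y => V.F p x = V.F p y) ?_ ?_ hz hz'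
  · intro x hx
    have h1 := CH5_local V h p x hx
    have h2 : ∀ᶠ y in 𝓝[{z : ℂ | 0 < z.im}] x, V.F p y = V.F p x :=
      h1.filter_mono nhdsWithin_le_nhds
    filter_upwards [h2] with y hy
    exact ⟨hy.symm, hy⟩
  · intro x y w _ _ _ h1 h2
    exact h1.trans h2

end MP2794d1.PC
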