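import Pool.Agent.Lib.MP_2794d1_ag.PC.CH4
import Pool.Agent.Lib.MP_2794d1_ag.PC.CH6

/-!
CH7: the Shimura alternative. `grading`: `exists_gr` (E01) and `gr_mem`. `lie`: `S10_lie`. `line`: `mt_line` (unfold `FEnd`).
`mem`: `hmon 1` and `c.conj 1 = c.N` (`map_one`, `inv_one`). `ne`: `N_not_mem`. Velocity: `exists_theta` gives
`θ ∈ cx (genericMT V)`, `mt_line_cx` gives `b` with `θ - b • N ∈ FEnd 0`, so `Vel V (cm c.N) z b`
(`s' - b N s = (s' - θ s) + (θ - b N) s`). So `N_griffiths` applies. `sv1`: `X = (X - b N) + b N`, the first term maps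
`V.F p` to `V.F p ≤ V.F (p - 1)` ((V.phs z hz).anti).
-/

namespace MP2794d1.PC

open Matrix Complex Filter Topology

theorem shimura {n : ℕ} (V : PolVHS n) (c : Cusp V) (hN : c.N ≠ 0)
    (hmon : ∀ g : V.grp, c.conj g ∈ genericMT V)
    (hgen : ∀ X ∈ genericMT V, ∃ Y ∈ Submodule.span ℚ (Set.range c.conj),
      ∀ X' ∈ genericMT V, (X - Y) * X' = X' * (X - Y))
    (hdep : ∀ g : V.grp, ∀ z : ℂ, 0 < z.im →
      ∃ b : ℂ, cm (c.conj g) - b • cm c.N ∈ FEnd (fun p => V.F p z) 0) :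
    IsShimuraLine V c.N := by
  have hvel : ∀ z : ℂ, 0 < z.im → ∃ b : ℂ, Vel V (cm c.N) z b := by
    intro z hz
    obtain ⟨θ, hθ, hs⟩ := exists_theta V z hz
    obtain ⟨b, hb⟩ := mt_line_cx V c hgen z hz (fun g => hdep g z hz) θ hθ
    refine ⟨b, ?_⟩
    intro p s hs1 hs2
    have h1 := hs p s hs1 hs2
    have h2 := hb p (s z) hs2.self_of_nhds
    rw [add_zero] at h2
    have h3 : (fun i => deriv (fun y => s y i) z) - b • (cm c.N *ᵥ s z) =
        ((fun i => deriv (fun y => s y i) z) - θ *ᵥ s z) + (θ - b • cm c.N) *ᵥ s z := by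
      rw [Matrix.sub_mulVec, Matrix.smul_mulVec]
      abel
    rw [h3]
    exact (V.F p z).add_mem h1 h2
  have hgr := N_griffiths V c hN hvel
  have hline : ∀ z : ℂ, 0 < z.im → ∀ X ∈ genericMT V, ∃ a : ℂ, ∀ p, ∀ x ∈ V.F p z,
      (cm X - a • cm c.N) *ᵥ x ∈ V.F p z := by
    intro z hz X hX
    obtain ⟨b, hb⟩ := mt_line V c hgen z hz (fun g => hdep g z hz) X hX
    refine ⟨b, ?_⟩
    intro p x hx
    have h1 := hb p x hx
    rw [add_zero] at h1
    exact h1
  refine ⟨?_, S10_lie V, ?_, hline, ?_, ?_⟩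
  · intro z hz
    obtain ⟨μ, hμ⟩ := exists_gr (V.phs z hz)
    exact ⟨μ, fun p x hx => hμ p x hx, gr_mem V z hz μ hμ⟩
  · intro z hz X hX p x hx
    obtain ⟨a, ha⟩ := hline z hz X hX
    have h1 := ha p x hx
    have h2 := hgr z hz p x hx
    have h3 : cm X *ᵥ x = (cm X - a • cm c.N) *ᵥ x + a • (cm c.N *ᵥ x) := by
      rw [Matrix.sub_mulVec, Matrix.smul_mulVec]
      abel
    rw [h3]
    exact (V.F (p - 1) z).add_mem ((V.phs z hz).anti (p - 1) p (by omega) h1)
      ((V.F (p - 1) z).smul_mem a h2)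
  · have h1 := hmon 1
    have h2 : c.conj 1 = c.N := by
      unfold Cusp.conj
      rw [inv_one, map_one]
      have h3 : (((1 : Matrix.GeneralLinearGroup (Fin n) ℤ) : Matrix (Fin n) (Fin n) ℤ)).map
          (fun q : ℤ => (q : ℚ)) = 1 := by
        rw [Units.val_one]
        ext i j
        by_cases hij : i = j
        · subst hij
          simp
        · simp [hij]
      rw [h3, one_mul, mul_one]
    rw [← h2]
    exact h1
  · intro z hz h
    apply N_not_mem V c hN z hz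
    intro p x hx
    rw [add_zero]
    exact h p x hx

end MP2794d1.PC
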