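import Pool.Agent.Lib.MP_2794d1_ag.PC.CP1
import Pool.Agent.Lib.MP_2794d1_ag.B01

/-!
CP2: Pluecker vectors are non-zero and unique up to a factor. `PL_ne`: `exists_minor_ne` (B01) for every `p`, product of non-zero
numbers. `PL_uniq`: if `W`, `W'` have the same ranges and independent columns, then `W' p = W p * B p` for a square matrix
`B p` (columns of `W' p` are in the range of `W p`), so `minor (W' p) f = minor (W p) f * (B p).det`
(`Matrix.submatrix_mul`, `Matrix.det_mul`) and `pmin r W' = (∏ p, (B p).det) • pmin r W`.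
-/

namespace MP2794d1.PC

open Matrix Complex

theorem pmin_ne {n m : ℕ} (r : Fin m → ℕ) (W : (p : Fin m) → Matrix (Fin n) (Fin (r p)) ℂ)
    (h : ∀ p, LinearIndependent ℂ (W p)ᵀ) : pmin r W ≠ 0 := by
  choose f hf using fun p => exists_minor_ne (W p) (h p)
  intro h0
  have h1 : pmin r W f = 0 := by rw [h0]; rfl
  exact Finset.prod_ne_zero_iff.2 (fun p _ => hf p) h1

theorem PL_ne {n : ℕ} (V : PolVHS n) (m : ℕ) (r : Fin m → ℕ) (z : ℂ) (v : PIdx n m r → ℂ)
    (h : PL V m r z v) : v ≠ 0 := by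
  obtain ⟨W, c, hc, hW, rfl⟩ := h
  exact smul_ne_zero hc (pmin_ne r W fun p => (hW p).1)

theorem PL_smul {n : ℕ} (V : PolVHS n) (m : ℕ) (r : Fin m → ℕ) (z : ℂ) (v : PIdx n m r → ℂ) (c : ℂ)
    (hc : c ≠ 0) (h : PL V m r z v) : PL V m r z (c • v) := by
  obtain ⟨W, c', hc', hW, rfl⟩ := h
  exact ⟨W, c * c', mul_ne_zero hc hc', hW, by rw [smul_smul]⟩

theorem CP2_fac {n r : ℕ} (W W' : Matrix (Fin n) (Fin r) ℂ)
    (h : LinearMap.range W'.mulVecLin = LinearMap.range W.mulVecLin) :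
    ∃ c : ℂ, ∀ f, minor W' f = c * minor W f := by
  have h1 : ∀ j : Fin r, ∃ b : Fin r → ℂ, W *ᵥ b = fun i => W' i j := by
    intro j
    have h2 : (fun i => W' i j) ∈ LinearMap.range W'.mulVecLin := by
      refine ⟨Pi.single j 1, ?_⟩
      rw [Matrix.mulVecLin_apply, Matrix.mulVec_single_one]
      rfl
    rw [h] at h2
    obtain ⟨b, hb⟩ := h2
    exact ⟨b, hb⟩
  choose b hb using h1
  have h2 : W' = W * Matrix.of (fun i j => b j i) := by
    ext i j
    rw [← congrFun (hb j) i]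
    rfl
  refine ⟨(Matrix.of (fun i j => b j i)).det, fun f => ?_⟩
  have h3 : W'.submatrix f id = W.submatrix f id * Matrix.of (fun i j => b j i) := by
    rw [h2]
    rfl
  unfold minor
  rw [h3, Matrix.det_mul, mul_comm]

theorem PL_uniq {n : ℕ} (V : PolVHS n) (m : ℕ) (r : Fin m → ℕ) (z : ℂ) (v v' : PIdx n m r → ℂ)
    (h : PL V m r z v) (h' : PL V m r z v') : ∃ c : ℂ, v' = c • v := by
  obtain ⟨W, c, hc, hW, rfl⟩ := h
  obtain ⟨W', c', hc', hW', rfl⟩ := h'
  have h1 : ∀ p, ∃ d : ℂ, ∀ f, minor (W' p) f = d * minor (W p) f := by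
    intro p
    refine CP2_fac (W p) (W' p) ?_
    rw [← (hW p).2, ← (hW' p).2]
  choose d hd using h1
  refine ⟨c' * (∏ p, d p) / c, ?_⟩
  funext f
  have h2 : pmin r W' f = (∏ p, d p) * pmin r W f := by
    show ∏ p, minor (W' p) (f p) = (∏ p, d p) * ∏ p, minor (W p) (f p)
    rw [← Finset.prod_mul_distrib]
    exact Finset.prod_congr rfl fun p _ => hd p (f p)
  simp only [Pi.smul_apply, smul_eq_mul]
  rw [h2]
  field_simp

end MP2794d1.PC
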