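import Pool.Agent.Lib.MP_2794d1_ag.PC.CC1
import Pool.Agent.Lib.MP_2794d1_ag.PC.CC4

/-!
CV1: from local counts to compact sets, for a datum. Let `δ z₁, C z₁` be as in `local_count` for `z₁ ∈ K`; `K` is covered by
finitely many balls `ball z₁ (δ z₁)`, `z₁ ∈ t` (`IsCompact.elim_nhds_subcover`). A finset `S` of good points of `K` is the
union of the `S ∩ ball z₁ (δ z₁)`, so `#S ≤ ∑ z₁ ∈ t, C z₁ * log B ^ 6` (`Finset.card_biUnion_le`).
-/

namespace MP2794d1.PC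

open Matrix Complex Filter Topology

variable {Γ : Subgroup (Matrix.SpecialLinearGroup (Fin 2) ℝ)} {ι : Type} [Fintype ι]
  [DecidableEq ι]

theorem compact_count (D : Datum Γ ι) {κ : Type} [Fintype κ] (α : Fin 3 → ι) (hs : SLB D α)
    (K : Set ℂ) (hK : IsCompact K) (hKH : ∀ z ∈ K, 0 < z.im) :
    ∃ C : ℝ, 0 < C ∧ ∀ B : ℝ, 2 ≤ B → ∀ S : Finset ℂ,
      (∀ z ∈ S, z ∈ K ∧ ∃ v, D.L z v ∧ IntRep κ B v) → (S.card : ℝ) ≤ C * Real.log B ^ 6 := by
  classical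
  have key : ∀ z : ℂ, ∃ δ : ℝ, 0 < δ ∧ ∃ C : ℝ, 0 < C ∧ (0 < z.im → ∀ B : ℝ, 2 ≤ B →
      ∀ S : Finset ℂ, (∀ w ∈ S, w ∈ Metric.ball z δ ∧ ∃ v, D.L w v ∧ IntRep κ B v) →
        (S.card : ℝ) ≤ C * Real.log B ^ 6) := by
    intro z
    by_cases hz : 0 < z.im
    · obtain ⟨δ, hδ, C, hC, h⟩ := local_count (κ := κ) D α hs z hz
      exact ⟨δ, hδ, C, hC, fun _ => h⟩
    · exact ⟨1, one_pos, 1, one_pos, fun h => absurd h hz⟩
  choose δ hδ C hC h using key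
  obtain ⟨t, htK, ht⟩ := hK.elim_nhds_subcover (fun z => Metric.ball z (δ z))
    (fun z _ => Metric.ball_mem_nhds z (hδ z))
  have hC0 : 0 ≤ ∑ z ∈ t, C z := Finset.sum_nonneg fun z _ => (hC z).le
  refine ⟨∑ z ∈ t, C z + 1, by linarith, fun B hB S hS => ?_⟩
  have hlog : 0 ≤ Real.log B ^ 6 := pow_nonneg (Real.log_nonneg (by linarith)) _
  have h1 : S ⊆ t.biUnion (fun z => S.filter (fun w => w ∈ Metric.ball z (δ z))) := by
    intro w hw
    have h2 := ht (hS w hw).1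
    simp only [Set.mem_iUnion] at h2
    obtain ⟨z, hz, hwz⟩ := h2
    simp only [Finset.mem_biUnion, Finset.mem_filter]
    exact ⟨z, hz, hw, hwz⟩
  have h2 : (S.card : ℝ) ≤ ∑ z ∈ t, ((S.filter (fun w => w ∈ Metric.ball z (δ z))).card : ℝ) := by
    have h3 := (Finset.card_le_card h1).trans Finset.card_biUnion_le
    exact_mod_cast h3
  calc (S.card : ℝ) ≤ ∑ z ∈ t, ((S.filter (fun w => w ∈ Metric.ball z (δ z))).card : ℝ) := h2
    _ ≤ ∑ z ∈ t, C z * Real.log B ^ 6 := by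
        refine Finset.sum_le_sum fun z hz => ?_
        refine h z (hKH z (htK z hz)) B hB _ fun w hw => ?_
        rw [Finset.mem_filter] at hw
        exact ⟨hw.2, (hS w hw.1).2⟩
    _ = (∑ z ∈ t, C z) * Real.log B ^ 6 := by rw [Finset.sum_mul]
    _ ≤ (∑ z ∈ t, C z + 1) * Real.log B ^ 6 := by nlinarith

end MP2794d1.PC
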