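import Pool.Agent.Lib.MP_2794d1_ag.PC.CV1
import Pool.Agent.Lib.MP_2794d1_ag.PC.CP11

/-!
CV2: first case of the dichotomy: some CM point `z'` where `N_{g₁}`, `N_{g₂}` are independent modulo `F⁰ End`. Take the datum
from `exists_datum`; the second field of `exists_datum` and `IsCM V z' h'` (with `max h' 1`, `IsCM` is monotone in the height)
give `v` with `D.L z' v`, `IntRep`, and the third gives `Indep`, so `exists_slb` gives `α` with `SLB D α`, and `compact_count`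
applies with `B = C₀ h ^ C₀` (`≥ 2` if we replace `C₀` by `max C₀ 2`: `IntRep.mono`), `log B ≤ C₁ log h` for `h ≥ 2`.
A set all of whose finite subsets have at most `R` elements is finite with `ncard ≤ R` (`Set.infinite_of_forall_exists_gt`
is not needed: if it is infinite use `Set.Infinite.exists_subset_card_eq`; else `Set.ncard_eq_toFinset_card`).
-/

namespace MP2794d1.PC

open Matrix Complex Filter Topology

theorem case_one {n : ℕ} (V : PolVHS n) (c : Cusp V) (z' : ℂ) (hz' : 0 < z'.im) (h' : ℝ)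
    (hcm : IsCM V z' h') (g₁ g₂ : V.grp)
    (hI : ∀ a b : ℂ, a • cm (c.conj g₁) + b • cm (c.conj g₂) ∈ FEnd (fun p => V.F p z') 0 →
      a = 0 ∧ b = 0)
    (K : Set ℂ) (hK : IsCompact K) (hKH : ∀ z ∈ K, 0 < z.im) :
    ∃ C : ℝ, ∀ h : ℝ, 2 ≤ h → {z | z ∈ K ∧ IsCM V z h}.Finite ∧
      (({z | z ∈ K ∧ IsCM V z h}.ncard : ℕ) : ℝ) ≤ C * Real.log h ^ 6 := by
  classical
  obtain ⟨ι, iF, iD, D, κ, iK, C₀, hC₀, hrep, hind⟩ := exists_datum V c
  have hmono : ∀ {z : ℂ} {h h₁ : ℝ}, h ≤ h₁ → IsCM V z h → IsCM V z h₁ := by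
    rintro z h h₁ hle ⟨A, hA, h2, h3⟩
    exact ⟨A, fun i j => (hA i j).trans hle, h2, h3⟩
  obtain ⟨v, hLv, hIv⟩ := hrep z' hz' (max h' 1) (le_max_right _ _) (hmono (le_max_left _ _) hcm)
  have hI' := hind z' hz' v hLv g₁ g₂ hI
  obtain ⟨α, hs⟩ := exists_slb D g₁ g₂ z' hz' v hLv hIv hI'
  obtain ⟨C, hC, hcount⟩ := compact_count (κ := κ) D α hs K hK hKH
  have hC₀' : (1 : ℝ) ≤ C₀ := by exact_mod_cast hC₀
  have hl2 : 0 < Real.log 2 := Real.log_pos (by norm_num)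
  have hlC : 0 ≤ Real.log C₀ := Real.log_nonneg hC₀'
  refine ⟨C * (Real.log C₀ / Real.log 2 + C₀) ^ 6, fun h hh => ?_⟩
  have hlh : Real.log 2 ≤ Real.log h := Real.log_le_log (by norm_num) hh
  have hh0 : 0 < h := by linarith
  have hB2 : (2 : ℝ) ≤ C₀ * h ^ C₀ := by
    have h1 : h ≤ h ^ C₀ := le_self_pow₀ (by linarith) (by omega)
    have h2 : h ^ C₀ ≤ C₀ * h ^ C₀ := le_mul_of_one_le_left (pow_nonneg hh0.le _) hC₀'
    linarith
  have hbd : ∀ S : Finset ℂ, (∀ z ∈ S, z ∈ K ∧ IsCM V z h) →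
      (S.card : ℝ) ≤ C * (Real.log C₀ / Real.log 2 + C₀) ^ 6 * Real.log h ^ 6 := by
    intro S hS
    have h1 := hcount (C₀ * h ^ C₀) hB2 S (fun z hz => ⟨(hS z hz).1,
      hrep z (hKH z (hS z hz).1) h (by linarith) (hS z hz).2⟩)
    refine h1.trans ?_
    rw [mul_assoc, ← mul_pow]
    refine mul_le_mul_of_nonneg_left ?_ hC.le
    refine pow_le_pow_left₀ (Real.log_nonneg (by linarith)) ?_ _
    rw [Real.log_mul (by positivity) (by positivity), Real.log_pow, add_mul]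
    have h2 : Real.log C₀ ≤ Real.log C₀ / Real.log 2 * Real.log h := by
      rw [div_mul_eq_mul_div, le_div_iff₀ hl2]
      exact mul_le_mul_of_nonneg_left hlh hlC
    linarith
  have hfin : {z | z ∈ K ∧ IsCM V z h}.Finite := by
    by_contra hinf
    have hinf' : {z | z ∈ K ∧ IsCM V z h}.Infinite := hinf
    obtain ⟨S, hS, hcard⟩ := hinf'.exists_subset_card_eq
      (⌊C * (Real.log C₀ / Real.log 2 + C₀) ^ 6 * Real.log h ^ 6⌋₊ + 1)
    have h1 := hbd S (fun z hz => hS hz)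
    rw [hcard] at h1
    have h2 := Nat.lt_floor_add_one (C * (Real.log C₀ / Real.log 2 + C₀) ^ 6 * Real.log h ^ 6)
    push_cast at h1
    linarith
  refine ⟨hfin, ?_⟩
  rw [Set.ncard_eq_toFinset_card _ hfin]
  exact hbd _ (fun z hz => by simpa using hz)

end MP2794d1.PC
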