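import Pool.Agent.Lib.MP_2794d1_ag.PC.Defs
import Pool.Agent.Lib.MP_2794d1_ag.F04

/-!
CV3: accumulation. The infinite set `S` has an accumulation point `z₀ ∈ K` (`IsCompact.exists_accPt` or
`Set.Infinite.exists_accPt_of_subset_isCompact`), `0 < z₀.im`. Take the projectors `P p z` of `f04_proj` near `z₀`. Put
`x_{p,i,j}(z) = ((1 - P p z) * X * P p z) i j`, `n_{p,i,j}(z) = ((1 - P p z) * N * P p z) i j`, `p ∈ Icc V.lo V.hi`; by `f04_mem`
`X - b • N ∈ FEnd 0` iff `x_k = b n_k` for all `k = (p, i, j)`, and `n_k(z₀) ≠ 0` for some `k = k₀` because `N ∉ FEnd 0`. The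
functions `x_k n_{k₀} - x_{k₀} n_k` are analytic at `z₀` and vanish at the points of `S` near `z₀`, hence near `z₀`
(`AnalyticAt.frequently_zero_iff_eventually_zero`). So near `z₀` `b = x_{k₀} / n_{k₀}` works at every point: an open ball `U`,
and `cont_line` (F04) gives `b` on the whole half plane.
-/

namespace MP2794d1.PC

open Matrix Complex Filter Topology

theorem accum {n : ℕ} (V : PolVHS n) (N X : Matrix (Fin n) (Fin n) ℂ)
    (hN : ∀ z : ℂ, 0 < z.im → N ∉ FEnd (fun p => V.F p z) 0)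
    (K : Set ℂ) (hK : IsCompact K) (hKH : ∀ z ∈ K, 0 < z.im) (S : Set ℂ) (hSK : S ⊆ K)
    (hS : S.Infinite) (h : ∀ z ∈ S, ∃ b : ℂ, X - b • N ∈ FEnd (fun p => V.F p z) 0) :
    ∀ z : ℂ, 0 < z.im → ∃ b : ℂ, X - b • N ∈ FEnd (fun p => V.F p z) 0 := by
  obtain ⟨z₀, hz₀K, hacc⟩ := hS.exists_accPt_of_subset_isCompact hK hSK
  have hz₀ : 0 < z₀.im := hKH z₀ hz₀K
  rw [accPt_iff_frequently_nhdsNE] at hacc
  obtain ⟨P, hP1, hP2⟩ := f04_proj V hz₀
  have han : ∀ (p : ℤ) (Y : Matrix (Fin n) (Fin n) ℂ) (i j : Fin n),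
      AnalyticAt ℂ (fun z => ((1 - P p z) * Y * P p z) i j) z₀ := by
    intro p Y
    refine f01_mul (f01_mul ?_ ?_) (hP1 p)
    · intro i j
      simp only [Matrix.sub_apply]
      exact analyticAt_const.sub (hP1 p i j)
    · intro i j
      exact analyticAt_const
  have key : ∀ (z b : ℂ) (p : ℤ), (1 - P p z) * (X - b • N) * P p z =
      (1 - P p z) * X * P p z - b • ((1 - P p z) * N * P p z) := by
    intro z b p
    rw [Matrix.mul_sub, Matrix.sub_mul, Matrix.mul_smul, Matrix.smul_mul]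
  have hn : ∃ p₀ ∈ Finset.Icc V.lo V.hi, ∃ i₀ j₀, ((1 - P p₀ z₀) * N * P p₀ z₀) i₀ j₀ ≠ 0 := by
    by_contra hcon
    push Not at hcon
    refine hN z₀ hz₀ ?_
    rw [f04_mem V hz₀ hP2.self_of_nhds N]
    intro p hp
    ext i j
    exact hcon p hp i j
  obtain ⟨p₀, hp₀, i₀, j₀, hne⟩ := hn
  have him : ∀ᶠ z : ℂ in 𝓝 z₀, 0 < z.im :=
    (isOpen_lt continuous_const Complex.continuous_im).mem_nhds hz₀
  have hz : ∀ p ∈ Finset.Icc V.lo V.hi, ∀ i j, ∀ᶠ z in 𝓝 z₀,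
      ((1 - P p z) * X * P p z) i j * ((1 - P p₀ z) * N * P p₀ z) i₀ j₀ -
        ((1 - P p₀ z) * X * P p₀ z) i₀ j₀ * ((1 - P p z) * N * P p z) i j = 0 := by
    intro p hp i j
    have ha : AnalyticAt ℂ (fun z => ((1 - P p z) * X * P p z) i j *
        ((1 - P p₀ z) * N * P p₀ z) i₀ j₀ -
        ((1 - P p₀ z) * X * P p₀ z) i₀ j₀ * ((1 - P p z) * N * P p z) i j) z₀ :=
      ((han p X i j).mul (han p₀ N i₀ j₀)).sub ((han p₀ X i₀ j₀).mul (han p N i j))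
    rw [← ha.frequently_zero_iff_eventually_zero]
    have hev : ∀ᶠ z in 𝓝[≠] z₀, (∀ p ∈ Finset.Icc V.lo V.hi,
        P p z * P p z = P p z ∧ V.F p z = LinearMap.range (P p z).mulVecLin) ∧ 0 < z.im :=
      (hP2.and him).filter_mono nhdsWithin_le_nhds
    refine (hacc.and_eventually hev).mono ?_
    rintro z ⟨hzS, hPz, hzim⟩
    obtain ⟨b, hb⟩ := h z hzS
    rw [f04_mem V hzim hPz (X - b • N)] at hb
    have h1 := hb p hp
    have h2 := hb p₀ hp₀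
    rw [key, sub_eq_zero] at h1 h2
    have h3 : ((1 - P p z) * X * P p z) i j = b * ((1 - P p z) * N * P p z) i j :=
      congrFun (congrFun h1 i) j
    have h4 : ((1 - P p₀ z) * X * P p₀ z) i₀ j₀ = b * ((1 - P p₀ z) * N * P p₀ z) i₀ j₀ :=
      congrFun (congrFun h2 i₀) j₀
    rw [h3, h4]
    ring
  have hall : ∀ᶠ z in 𝓝 z₀, ∀ p ∈ Finset.Icc V.lo V.hi, ∀ i j,
      ((1 - P p z) * X * P p z) i j * ((1 - P p₀ z) * N * P p₀ z) i₀ j₀ -
        ((1 - P p₀ z) * X * P p₀ z) i₀ j₀ * ((1 - P p z) * N * P p z) i j = 0 := by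
    rw [Filter.eventually_all_finset]
    intro p hp
    rw [Filter.eventually_all]
    intro i
    rw [Filter.eventually_all]
    intro j
    exact hz p hp i j
  have hne' : ∀ᶠ z in 𝓝 z₀, ((1 - P p₀ z) * N * P p₀ z) i₀ j₀ ≠ 0 :=
    (han p₀ N i₀ j₀).continuousAt.eventually_ne hne
  have hgood : ∀ᶠ z in 𝓝 z₀, 0 < z.im ∧ ∃ b : ℂ, X - b • N ∈ FEnd (fun p => V.F p z) 0 := by
    filter_upwards [hall, hne', hP2, him] with z h1 h2 h3 h4
    refine ⟨h4, ((1 - P p₀ z) * X * P p₀ z) i₀ j₀ / ((1 - P p₀ z) * N * P p₀ z) i₀ j₀, ?_⟩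
    rw [f04_mem V h4 h3]
    intro p hp
    rw [key, sub_eq_zero]
    ext i j
    have h5 := h1 p hp i j
    rw [sub_eq_zero] at h5
    rw [Matrix.smul_apply, smul_eq_mul, div_mul_eq_mul_div, eq_div_iff h2]
    exact h5
  obtain ⟨U, hU, hUo, hzU⟩ := mem_nhds_iff.1 hgood
  obtain ⟨b, -, hb⟩ := cont_line V N X hN U hUo ⟨z₀, hzU⟩ (fun z hz => (hU hz).1)
    (fun z hz => (hU hz).2)
  exact fun z hz => ⟨b z, hb z hz⟩

end MP2794d1.PC
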