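import Pool.Agent.Lib.MP_2794d1_ag.PC.CV2
import Pool.Agent.Lib.MP_2794d1_ag.PC.CV3
import Pool.Agent.Lib.MP_2794d1_ag.S03

/-!
CV4: the dichotomy. Note `c.conj 1 = c.N` and `cm c.N ∉ FEnd 0` at every point (`N_not_mem`).
Suppose the second alternative fails for some compact `K` (i.e. no constant `C`). By `case_one`, for every CM point `z` (of any
height) and all `g`, the matrices `cm (c.conj 1) = cm c.N` and `cm (c.conj g)` are dependent modulo `FEnd 0`: there are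
`(a, b) ≠ 0` with `a N + b N_g ∈ FEnd 0`; `b ≠ 0` because `N ∉ FEnd 0`; so `N_g - b' N ∈ FEnd 0` for some `b'`.
Let `S = {z ∈ K | ∃ h, IsCM V z h}`. If `S` is finite then `C = #S / (log 2) ^ 6` is a constant for `K`
(`{z | z ∈ K ∧ IsCM V z h} ⊆ S`, `Set.ncard_le_ncard`, `log h ≥ log 2`), contradiction. So `S` is infinite; `accum` (CV3).
-/

namespace MP2794d1.PC

open Matrix Complex Filter Topology

theorem CV4_conj_one {n : ℕ} {V : PolVHS n} (c : Cusp V) : c.conj 1 = c.N := by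
  unfold Cusp.conj
  have h1 : ((1 : Matrix (Fin n) (Fin n) ℤ)).map (fun q : ℤ => (q : ℚ)) = 1 := by
    ext i j
    simp [Matrix.one_apply, apply_ite]
  simp [h1]

theorem dichotomy {n : ℕ} (V : PolVHS n) (c : Cusp V) (hN : c.N ≠ 0) :
    (∀ g : V.grp, ∀ z : ℂ, 0 < z.im →
      ∃ b : ℂ, cm (c.conj g) - b • cm c.N ∈ FEnd (fun p => V.F p z) 0) ∨
    ∀ K : Set ℂ, IsCompact K → (∀ z ∈ K, 0 < z.im) → ∃ C : ℝ, ∀ h : ℝ, 2 ≤ h →
      {z | z ∈ K ∧ IsCM V z h}.Finite ∧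
      (({z | z ∈ K ∧ IsCM V z h}.ncard : ℕ) : ℝ) ≤ C * Real.log h ^ 6 := by
  classical
  by_cases hall : ∀ K : Set ℂ, IsCompact K → (∀ z ∈ K, 0 < z.im) → ∃ C : ℝ, ∀ h : ℝ, 2 ≤ h →
      {z | z ∈ K ∧ IsCM V z h}.Finite ∧
      (({z | z ∈ K ∧ IsCM V z h}.ncard : ℕ) : ℝ) ≤ C * Real.log h ^ 6
  · exact Or.inr hall
  left
  push Not at hall
  obtain ⟨K, hK, hKH, hbad⟩ := hall
  have hdep : ∀ (g : V.grp) (z : ℂ), 0 < z.im → (∃ h, IsCM V z h) →
      ∃ b : ℂ, cm (c.conj g) - b • cm c.N ∈ FEnd (fun p => V.F p z) 0 := by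
    intro g z hz hh
    obtain ⟨h, hcm⟩ := hh
    by_contra hcon
    push Not at hcon
    have hI : ∀ a b : ℂ, a • cm (c.conj 1) + b • cm (c.conj g) ∈ FEnd (fun p => V.F p z) 0 →
        a = 0 ∧ b = 0 := by
      intro a b hab
      rw [CV4_conj_one] at hab
      by_cases hb : b = 0
      · subst hb
        rw [zero_smul, add_zero] at hab
        refine ⟨?_, rfl⟩
        by_contra ha
        refine N_not_mem V c hN z hz ?_
        have h1 := Submodule.smul_mem _ a⁻¹ hab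
        rwa [smul_smul, inv_mul_cancel₀ ha, one_smul] at h1
      · exfalso
        refine hcon (-(b⁻¹ * a)) ?_
        have h1 := Submodule.smul_mem _ b⁻¹ hab
        rw [smul_add, smul_smul, smul_smul, inv_mul_cancel₀ hb, one_smul] at h1
        have h2 : cm (c.conj g) - (-(b⁻¹ * a)) • cm c.N =
            (b⁻¹ * a) • cm c.N + cm (c.conj g) := by
          rw [neg_smul, sub_neg_eq_add, add_comm]
        rw [h2]
        exact h1
    obtain ⟨C, hC⟩ := case_one V c z hz h hcm 1 g hI K hK hKH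
    obtain ⟨h2, hh2, hb2⟩ := hbad C
    exact absurd (hC h2 hh2).2 (not_le.2 (hb2 (hC h2 hh2).1))
  have hSinf : {z | z ∈ K ∧ ∃ h, IsCM V z h}.Infinite := by
    intro hfin
    have hl2 : 0 < Real.log 2 := Real.log_pos (by norm_num)
    obtain ⟨h2, hh2, hb2⟩ := hbad (({z | z ∈ K ∧ ∃ h, IsCM V z h}.ncard : ℝ) / Real.log 2 ^ 6)
    have hsub : {z | z ∈ K ∧ IsCM V z h2} ⊆ {z | z ∈ K ∧ ∃ h, IsCM V z h} :=
      fun z hz => ⟨hz.1, h2, hz.2⟩
    have h3 := hb2 (hfin.subset hsub)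
    have h4 : (({z | z ∈ K ∧ IsCM V z h2}.ncard : ℕ) : ℝ) ≤
        ({z | z ∈ K ∧ ∃ h, IsCM V z h}.ncard : ℝ) := by
      exact_mod_cast Set.ncard_le_ncard hsub hfin
    have h5 : ({z | z ∈ K ∧ ∃ h, IsCM V z h}.ncard : ℝ) ≤
        ({z | z ∈ K ∧ ∃ h, IsCM V z h}.ncard : ℝ) / Real.log 2 ^ 6 * Real.log h2 ^ 6 := by
      rw [div_mul_eq_mul_div, le_div_iff₀ (pow_pos hl2 6)]
      refine mul_le_mul_of_nonneg_left ?_ (Nat.cast_nonneg _)
      exact pow_le_pow_left₀ hl2.le (Real.log_le_log (by norm_num) hh2) 6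
    linarith
  intro g
  exact accum V (cm c.N) (cm (c.conj g)) (fun z hz => N_not_mem V c hN z hz) K hK hKH _
    (fun z hz => hz.1) hSinf (fun z hz => hdep g z (hKH z hz.1) hz.2)

end MP2794d1.PC
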