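import Pool.Agent.Lib.MP_2794d1_ag.PC.CV4
import Pool.Agent.Lib.MP_2794d1_ag.PC.CH7

/-! Main theorem: polylogarithmic count of CM points, or Shimura. -/

namespace MP2794d1.PC

open Matrix Complex Filter Topology

theorem main_polylog {n : ℕ} (V : PolVHS n) (c : Cusp V) (hN : c.N ≠ 0)
    (hmon : ∀ g : V.grp, c.conj g ∈ genericMT V)
    (hgen : ∀ X ∈ genericMT V, ∃ Y ∈ Submodule.span ℚ (Set.range c.conj),
      ∀ X' ∈ genericMT V, (X - Y) * X' = X' * (X - Y)) :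
    IsShimuraLine V c.N ∨
    ∀ K : Set ℂ, IsCompact K → (∀ z ∈ K, 0 < z.im) → ∃ C : ℝ, ∀ h : ℝ, 2 ≤ h →
      {z | z ∈ K ∧ IsCM V z h}.Finite ∧
      (({z | z ∈ K ∧ IsCM V z h}.ncard : ℕ) : ℝ) ≤ C * Real.log h ^ 6 := by
  rcases dichotomy V c hN with h | h
  · exact Or.inl (shimura V c hN hmon hgen h)
  · exact Or.inr h

end MP2794d1.PC
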