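import Pool.Agent.Lib.MP_2794d1_ag.PC.CA1

/-!
SA1: smallness on a ball of radius `y / 20` around `i y` gives smallness at `i y₀`, with exponent `c / y`. Variant of CA7.

Proof. Let `η = y - a`, `ψ w = i y + 2 i η w / (1 - w)`, which maps the unit disc into `{a < im}` (see CA7), `r = 1 / 41`: for
`‖w‖ < r`: `‖ψ w - i y‖ ≤ 2 η ‖w‖ / (1 - ‖w‖) < η / 20 ≤ y / 20` (`a ≥ 0`). `φ z = (z - i y) / (z - i y + 2 i η)` is its
inverse; `1 - ‖φ z‖ ^ 2 = 4 η (im z - a) / ‖z - i y + 2 i η‖ ^ 2`. Let `δ₂ = min 1 ((y₀ - a) / 2)` and `z ∈ ball (i y₀) δ₂`: then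
`im z - a ≥ (y₀ - a) / 2`, `‖z - i y + 2 i η‖ = ‖z + i y - 2 i a‖ ≤ y₀ + 1 + y + 2 a ≤ c₁ y` for `y ≥ 1`, and `η ≥ y / 2` for
`y ≥ 2 a`; so `1 - ‖φ z‖ ^ 2 ≥ c₀ / y` and `log (1 / ‖φ z‖) ≥ c₀ / (2 y)`. CA1 for `f ∘ ψ` at `φ z` with
`θ = c / y`, `c = min 1 (c₀ / (2 log 41))`. `Y₁ = max 1 (2 a)`.
-/

namespace MP2794d1.PC

open Complex Filter Topology

/-- the map from the unit disc to the half plane `{a < im}` -/
noncomputable def SA1_psi (a η : ℝ) (w : ℂ) : ℂ :=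
  (a : ℂ) * Complex.I + (η : ℂ) * Complex.I * ((1 + w) / (1 - w))

/-- its inverse -/
noncomputable def SA1_phi (a η : ℝ) (z : ℂ) : ℂ :=
  (z - (a : ℂ) * Complex.I - (η : ℂ) * Complex.I) / (z - (a : ℂ) * Complex.I + (η : ℂ) * Complex.I)

theorem SA1_ne (w : ℂ) (hw : ‖w‖ < 1) : 1 - w ≠ 0 := by
  intro h
  have h1 : w = 1 := (sub_eq_zero.1 h).symm
  rw [h1, norm_one] at hw
  exact lt_irrefl _ hw

theorem SA1_psi_im (a η : ℝ) (hη : 0 < η) (w : ℂ) (hw : ‖w‖ < 1) : a < (SA1_psi a η w).im := by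
  have h0 := SA1_ne w hw
  have h1 : 0 < Complex.normSq (1 - w) := Complex.normSq_pos.2 h0
  have h2 : (SA1_psi a η w).im = a + η * ((1 + w) / (1 - w)).re := by
    simp [SA1_psi]
  have h3 : 0 < ((1 + w) / (1 - w)).re := by
    rw [Complex.div_re, ← add_div]
    refine div_pos ?_ h1
    have h4 : w.re * w.re + w.im * w.im < 1 := by
      have h5 : Complex.normSq w < 1 := by
        rw [Complex.normSq_eq_norm_sq]
        exact pow_lt_one₀ (norm_nonneg _) hw two_ne_zero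
      rwa [Complex.normSq_apply] at h5
    simp only [Complex.add_re, Complex.one_re, Complex.sub_re, Complex.add_im, Complex.one_im,
      Complex.sub_im]
    nlinarith
  rw [h2]
  have := mul_pos hη h3
  linarith

theorem SA1_psi_diff (a η : ℝ) : DifferentiableOn ℂ (SA1_psi a η) (Metric.ball 0 1) := by
  intro w hw
  have h0 : 1 - w ≠ 0 := SA1_ne w (by simpa using hw)
  unfold SA1_psi
  refine DifferentiableAt.differentiableWithinAt ?_
  refine DifferentiableAt.add (differentiableAt_const _) (DifferentiableAt.mul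
    (differentiableAt_const _) (DifferentiableAt.div ?_ ?_ h0))
  · fun_prop
  · fun_prop

theorem SA1_psi_dist (a η : ℝ) (hη : 0 < η) (w : ℂ) (hw : ‖w‖ < 1) :
    ‖SA1_psi a η w - ((a + η : ℝ) : ℂ) * Complex.I‖ ≤ 2 * η * ‖w‖ / (1 - ‖w‖) := by
  have h0 := SA1_ne w hw
  have h1 : SA1_psi a η w - ((a + η : ℝ) : ℂ) * Complex.I =
      (2 * (η : ℂ) * Complex.I * w) / (1 - w) := by
    unfold SA1_psi
    push_cast
    field_simp
    ring
  have h2 : 1 - ‖w‖ ≤ ‖1 - w‖ := by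
    have := norm_sub_norm_le (1 : ℂ) w
    rwa [norm_one] at this
  have h3 : 0 < 1 - ‖w‖ := by linarith
  rw [h1, norm_div]
  have h4 : ‖2 * (η : ℂ) * Complex.I * w‖ = 2 * η * ‖w‖ := by
    simp [abs_of_pos hη]
  rw [h4]
  gcongr

theorem SA1_den (a η : ℝ) (hη : 0 < η) (z : ℂ) (hz : a < z.im) :
    z - (a : ℂ) * Complex.I + (η : ℂ) * Complex.I ≠ 0 := by
  intro h
  have h1 := congrArg Complex.im h
  simp at h1
  linarith

theorem SA1_phi_sq (a η : ℝ) (hη : 0 < η) (z : ℂ) (hz : a < z.im) :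
    1 - ‖SA1_phi a η z‖ ^ 2 =
      4 * η * (z.im - a) / ‖z - (a : ℂ) * Complex.I + (η : ℂ) * Complex.I‖ ^ 2 := by
  have h0 := SA1_den a η hη z hz
  have h1 : 0 < ‖z - (a : ℂ) * Complex.I + (η : ℂ) * Complex.I‖ := norm_pos_iff.2 h0
  unfold SA1_phi
  rw [norm_div, div_pow, eq_div_iff (by positivity), sub_mul, one_mul,
    div_mul_cancel₀ _ (by positivity)]
  rw [← Complex.normSq_eq_norm_sq, ← Complex.normSq_eq_norm_sq, Complex.normSq_apply,
    Complex.normSq_apply]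
  simp
  ring

theorem SA1_phi_lt (a η : ℝ) (hη : 0 < η) (z : ℂ) (hz : a < z.im) : ‖SA1_phi a η z‖ < 1 := by
  have h0 := SA1_den a η hη z hz
  have h1 : 0 < ‖z - (a : ℂ) * Complex.I + (η : ℂ) * Complex.I‖ := norm_pos_iff.2 h0
  have h2 := SA1_phi_sq a η hη z hz
  have h3 : 0 < 4 * η * (z.im - a) / ‖z - (a : ℂ) * Complex.I + (η : ℂ) * Complex.I‖ ^ 2 := by
    have : 0 < z.im - a := by linarith
    positivity
  rw [← h2] at h3
  have h4 : 0 ≤ ‖SA1_phi a η z‖ := norm_nonneg _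
  nlinarith

theorem SA1_psi_phi (a η : ℝ) (hη : 0 < η) (z : ℂ) (hz : a < z.im) :
    SA1_psi a η (SA1_phi a η z) = z := by
  have h0 := SA1_den a η hη z hz
  have hη' : (η : ℂ) ≠ 0 := by exact_mod_cast hη.ne'
  have h1 : 1 - SA1_phi a η z =
      2 * (η : ℂ) * Complex.I / (z - (a : ℂ) * Complex.I + (η : ℂ) * Complex.I) := by
    unfold SA1_phi
    rw [eq_div_iff h0, sub_mul, one_mul, div_mul_cancel₀ _ h0]
    ring
  have h2 : 1 + SA1_phi a η z =
      2 * (z - (a : ℂ) * Complex.I) / (z - (a : ℂ) * Complex.I + (η : ℂ) * Complex.I) := by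
    unfold SA1_phi
    rw [eq_div_iff h0, add_mul, one_mul, div_mul_cancel₀ _ h0]
    ring
  unfold SA1_psi
  rw [h1, h2, div_div_div_cancel_right₀ h0]
  have hI := Complex.I_ne_zero
  have h3 : (η : ℂ) * Complex.I * (2 * (z - (a : ℂ) * Complex.I) / (2 * (η : ℂ) * Complex.I)) =
      z - (a : ℂ) * Complex.I := by
    field_simp
  rw [h3]
  ring

theorem SA1_core (a η : ℝ) (hη : 0 < η) (f : ℂ → ℂ) (M ε : ℝ)
    (hf : DifferentiableOn ℂ f {z : ℂ | a < z.im}) (hM : ∀ z : ℂ, a < z.im → ‖f z‖ ≤ M)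
    (hε : 0 ≤ ε) (hεM : ε ≤ M) (r : ℝ) (hr : 0 < r) (hr1 : r < 1)
    (hs : ∀ w ∈ Metric.ball (0 : ℂ) r, ‖f (SA1_psi a η w)‖ ≤ ε) (z : ℂ) (hz : a < z.im)
    (θ : ℝ) (hθ0 : 0 < θ) (hθ1 : θ ≤ 1)
    (hθ : 2 * θ * Real.log (1 / r) ≤ 1 - ‖SA1_phi a η z‖ ^ 2) :
    ‖f z‖ ≤ ε ^ θ * M ^ (1 - θ) := by
  have h1 := SA1_phi_lt a η hη z hz
  have h2 := three_circles r hr hr1 (fun w => f (SA1_psi a η w))
    (hf.comp (SA1_psi_diff a η) fun w hw => SA1_psi_im a η hη w (by simpa using hw)) M ε hε hεM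
    (fun w hw => hM _ (SA1_psi_im a η hη w (by simpa using hw))) hs (SA1_phi a η z)
    (by simpa using h1) θ hθ0 hθ1 ?_
  · rw [SA1_psi_phi a η hη z hz] at h2
    exact h2
  · intro hne
    have h3 : 0 < ‖SA1_phi a η z‖ := norm_pos_iff.2 hne
    have h4 := Real.log_le_sub_one_of_pos (x := ‖SA1_phi a η z‖ ^ 2) (by positivity)
    rw [Real.log_pow] at h4
    rw [one_div ‖SA1_phi a η z‖, Real.log_inv]
    push_cast at h4
    linarith

theorem halfplane2 (a y₀ : ℝ) (ha : 0 ≤ a) (h : a < y₀) :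
    ∃ δ₂ : ℝ, 0 < δ₂ ∧ (∀ z ∈ Metric.ball ((y₀ : ℂ) * Complex.I) δ₂, a < z.im) ∧
      ∃ c : ℝ, 0 < c ∧ c ≤ 1 ∧ ∃ Y₁ : ℝ, 1 ≤ Y₁ ∧ ∀ (f : ℂ → ℂ) (M ε : ℝ),
        DifferentiableOn ℂ f {z : ℂ | a < z.im} → (∀ z : ℂ, a < z.im → ‖f z‖ ≤ M) → 0 ≤ ε → ε ≤ M →
        ∀ y : ℝ, Y₁ ≤ y →
        (∀ z ∈ Metric.ball ((y : ℂ) * Complex.I) (y / 20), a < z.im → ‖f z‖ ≤ ε) →
        ∀ z ∈ Metric.ball ((y₀ : ℂ) * Complex.I) δ₂, ‖f z‖ ≤ ε ^ (c / y) * M ^ (1 - c / y) := by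
  have hy₀ : 0 < y₀ := by linarith
  have hd : 0 < y₀ - a := by linarith
  have him : ∀ z ∈ Metric.ball ((y₀ : ℂ) * Complex.I) (min 1 ((y₀ - a) / 2)),
      (y₀ - a) / 2 ≤ z.im - a := by
    intro z hz
    rw [Metric.mem_ball, dist_eq_norm] at hz
    have h1 : |(z - (y₀ : ℂ) * Complex.I).im| ≤ ‖z - (y₀ : ℂ) * Complex.I‖ :=
      Complex.abs_im_le_norm _
    have h2 : (z - (y₀ : ℂ) * Complex.I).im = z.im - y₀ := by simp
    rw [h2] at h1
    have h3 := (abs_le.1 (h1.trans (hz.le.trans (min_le_right _ _)))).1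
    linarith
  have hnorm : ∀ z ∈ Metric.ball ((y₀ : ℂ) * Complex.I) (min 1 ((y₀ - a) / 2)),
      ‖z‖ ≤ y₀ + 1 := by
    intro z hz
    rw [Metric.mem_ball, dist_eq_norm] at hz
    have h1 : ‖z‖ ≤ ‖z - (y₀ : ℂ) * Complex.I‖ + ‖(y₀ : ℂ) * Complex.I‖ := by
      have := norm_add_le (z - (y₀ : ℂ) * Complex.I) ((y₀ : ℂ) * Complex.I)
      rwa [sub_add_cancel] at this
    have h2 : ‖(y₀ : ℂ) * Complex.I‖ = y₀ := by simp [abs_of_pos hy₀]
    have h3 := hz.le.trans (min_le_left _ _)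
    linarith
  have hlog : 0 < Real.log 41 := Real.log_pos (by norm_num)
  set c₀ : ℝ := (y₀ - a) / (y₀ + 2) ^ 2 with hc₀
  have hc₀p : 0 < c₀ := by positivity
  refine ⟨min 1 ((y₀ - a) / 2), lt_min one_pos (by linarith), fun z hz => ?_,
    min 1 (c₀ / (2 * Real.log 41)), lt_min one_pos (by positivity), min_le_left _ _,
    max 1 (2 * a), le_max_left _ _, ?_⟩
  · have := him z hz
    linarith
  intro f M ε hf hM hε hεM y hy hs z hz
  have hy1 : 1 ≤ y := (le_max_left _ _).trans hy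
  have hya : 2 * a ≤ y := (le_max_right _ _).trans hy
  have hy0 : 0 < y := by linarith
  set c : ℝ := min 1 (c₀ / (2 * Real.log 41)) with hc
  have hcp : 0 < c := lt_min one_pos (by positivity)
  have hc1 : c ≤ 1 := min_le_left _ _
  have hc2 : c * (2 * Real.log 41) ≤ c₀ := by
    have : c ≤ c₀ / (2 * Real.log 41) := min_le_right _ _
    rwa [le_div_iff₀ (by positivity)] at this
  have hη : 0 < y - a := by linarith
  have hzi := him z hz
  have hzn := hnorm z hz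
  refine SA1_core a (y - a) hη f M ε hf hM hε hεM (1 / 41) (by norm_num) (by norm_num) ?_ z
    (by linarith) (c / y) (by positivity) ?_ ?_
  · intro w hw
    have hw1 : ‖w‖ < 1 / 41 := by simpa using hw
    have hw2 : ‖w‖ < 1 := by linarith
    refine hs _ ?_ (SA1_psi_im a (y - a) hη w hw2)
    rw [Metric.mem_ball, dist_eq_norm]
    have h1 := SA1_psi_dist a (y - a) hη w hw2
    have h2 : a + (y - a) = y := by ring
    rw [h2] at h1
    refine lt_of_le_of_lt h1 ?_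
    have h3 : 0 < 1 - ‖w‖ := by linarith
    have h4 : 0 ≤ ‖w‖ := norm_nonneg _
    rw [div_lt_iff₀ h3]
    nlinarith
  · rw [div_le_one hy0]
    linarith
  · rw [SA1_phi_sq a (y - a) hη z (by linarith)]
    have hD0 := SA1_den a (y - a) hη z (by linarith)
    have hDp : 0 < ‖z - (a : ℂ) * Complex.I + ((y - a : ℝ) : ℂ) * Complex.I‖ := norm_pos_iff.2 hD0
    have hD : ‖z - (a : ℂ) * Complex.I + ((y - a : ℝ) : ℂ) * Complex.I‖ ≤ (y₀ + 2) * y := by
      have h1 : z - (a : ℂ) * Complex.I + ((y - a : ℝ) : ℂ) * Complex.I =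
          z + ((y - 2 * a : ℝ) : ℂ) * Complex.I := by
        push_cast
        ring
      rw [h1]
      have h2 : ‖((y - 2 * a : ℝ) : ℂ) * Complex.I‖ = y - 2 * a := by
        rw [norm_mul, Complex.norm_I, mul_one, Complex.norm_real, Real.norm_eq_abs,
          abs_of_nonneg (by linarith)]
      have h3 := norm_add_le z (((y - 2 * a : ℝ) : ℂ) * Complex.I)
      rw [h2] at h3
      nlinarith
    have h5 : (1 : ℝ) / (1 / 41) = 41 := by norm_num
    rw [h5, le_div_iff₀ (by positivity)]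
    have h6 : 2 * (c / y) * Real.log 41 = c * (2 * Real.log 41) / y := by ring
    rw [h6, div_mul_eq_mul_div, div_le_iff₀ hy0]
    have h7 : ‖z - (a : ℂ) * Complex.I + ((y - a : ℝ) : ℂ) * Complex.I‖ ^ 2 ≤
        ((y₀ + 2) * y) ^ 2 := pow_le_pow_left₀ (norm_nonneg _) hD 2
    calc c * (2 * Real.log 41) * ‖z - (a : ℂ) * Complex.I + ((y - a : ℝ) : ℂ) * Complex.I‖ ^ 2
        ≤ c₀ * ((y₀ + 2) * y) ^ 2 := by gcongr
      _ = (y₀ - a) * y * y := by
          rw [hc₀]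
          field_simp
      _ ≤ 4 * (y - a) * (z.im - a) * y := by
          have h8 : (y₀ - a) * y ≤ 4 * (y - a) * (z.im - a) := by
            have h9 : y ≤ 2 * (y - a) := by linarith
            nlinarith
          exact mul_le_mul_of_nonneg_right h8 hy0.le

end MP2794d1.PC
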