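import Pool.Agent.Lib.MP_2794d1_ag.PC.CA6
import Pool.Agent.Lib.MP_2794d1_ag.PC.CA8
import Pool.Agent.Lib.MP_2794d1_ag.PC.SA1

/-!
SA2: the step from a high point `i y` of the cusp down to a fixed point `i y₀`. Same function `f` as in CA9 (copy its proof):
let `a, M` be as in `D.L_cusp` and `C₀` as in `E_norm`. `M` is analytic and `m ≤ ‖M q‖ ≤ M'`, `0 < m`, on a ball `‖q‖ < ρ`;
`‖qq z‖ = exp (-2 π im z) < ρ` for `a₁ < im z`; let `a' = max a (max a₁ 1)`, `y₀ = a' + 1`; `δ₂, c, Y₁'` from SA1 (for `a', y₀`).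
Let `Good D d (i y) (y / 20) ε B F`. On `{a' < im z}` put `f z = F (G.E z *ᵥ M (qq z)) / z ^ (C₀ * d)`;
`‖G.E z *ᵥ M (qq z)‖ ≤ C₀ (1 + ‖z‖) ^ C₀ M' ≤ Y ‖z‖ ^ C₀` with `Y = C₀ 2 ^ C₀ (M' + 1)`, so `‖f‖ ≤ B Y ^ d` on `{a' < im z}` and
`‖f z‖ ≤ ε Y ^ d` for `z ∈ ball (i y) (y / 20)`, `a' < im z` (there `D.L z (G.E z *ᵥ M (qq z))`). SA1:
`‖f z‖ ≤ Y ^ d ε ^ θ B ^ (1 - θ)`, `θ = c / y`, on `ball (i y₀) δ₂`. There `v` with `D.L z v` is `c' • (G.E z *ᵥ M (qq z))`,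
`‖F v‖ = ‖c'‖ ^ d ‖z‖ ^ (C₀ d) ‖f z‖`, `‖c'‖ m ≤ C₀ (1 + ‖z‖) ^ C₀ ‖v‖` and `‖z‖ ≤ y₀ + δ₂`: so a constant `X` which does not
depend on `y`, `d`. (`Step D 1`: the new form is `F (1 *ᵥ v) = F v`.)
-/

namespace MP2794d1.PC

open Matrix Complex Filter Topology

variable {Γ : Subgroup (Matrix.SpecialLinearGroup (Fin 2) ℝ)} {ι : Type} [Fintype ι]
  [DecidableEq ι]

theorem SA2_qq_small (ε : ℝ) (hε : 0 < ε) : ∃ a : ℝ, ∀ z : ℂ, a < z.im → ‖qq z‖ < ε := by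
  refine ⟨-(Real.log ε) / (2 * Real.pi), fun z hz => ?_⟩
  unfold qq
  rw [Complex.norm_exp]
  have h1 : (2 * (Real.pi : ℂ) * Complex.I * z).re = -(2 * Real.pi * z.im) := by
    simp
  rw [h1]
  have hpi : 0 < 2 * Real.pi := by positivity
  rw [div_lt_iff₀ hpi] at hz
  calc Real.exp (-(2 * Real.pi * z.im)) < Real.exp (Real.log ε) := by
        apply Real.exp_lt_exp.2
        nlinarith
    _ = ε := Real.exp_log hε

theorem SA2_qq_analytic (z : ℂ) : AnalyticAt ℂ qq z := by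
  unfold qq
  exact (analyticAt_const.mul analyticAt_id).cexp

theorem SA2_prep (D : Datum Γ ι) : ∃ (a : ℝ) (M : ℂ → ι → ℂ) (m M' : ℝ), 1 ≤ a ∧ 0 < m ∧ 0 ≤ M' ∧
    ∀ z : ℂ, a < z.im → D.L z (D.G.E z *ᵥ M (qq z)) ∧ m ≤ ‖M (qq z)‖ ∧ ‖M (qq z)‖ ≤ M' ∧
      ∀ i, AnalyticAt ℂ (fun y => M (qq y) i) z := by
  obtain ⟨a, M, han, h0, hL⟩ := D.L_cusp
  have hn : 0 < ‖M 0‖ := norm_pos_iff.2 h0
  have hcont : ContinuousAt (fun q => ‖M q‖) 0 :=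
    (continuousAt_pi.2 fun i => (han i).continuousAt).norm
  have e1 : ∀ᶠ q in 𝓝 (0 : ℂ), ‖M 0‖ / 2 < ‖M q‖ :=
    hcont.eventually (lt_mem_nhds (by linarith))
  have e2 : ∀ᶠ q in 𝓝 (0 : ℂ), ‖M q‖ < ‖M 0‖ + 1 :=
    hcont.eventually (gt_mem_nhds (by linarith))
  have e3 : ∀ᶠ q in 𝓝 (0 : ℂ), ∀ i, AnalyticAt ℂ (fun q => M q i) q :=
    eventually_all.2 fun i => (han i).eventually_analyticAt
  obtain ⟨ε, hε, hball⟩ := Metric.eventually_nhds_iff.1 (e1.and (e2.and e3))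
  obtain ⟨a₁, ha₁⟩ := SA2_qq_small ε hε
  refine ⟨max a (max a₁ 1), M, ‖M 0‖ / 2, ‖M 0‖ + 1, (le_max_right _ _).trans (le_max_right _ _),
    by linarith, by linarith, fun z hz => ?_⟩
  have h1 : a < z.im := lt_of_le_of_lt (le_max_left _ _) hz
  have h2 : a₁ < z.im := lt_of_le_of_lt ((le_max_left _ _).trans (le_max_right _ _)) hz
  have h3 : 1 < z.im := lt_of_le_of_lt ((le_max_right _ _).trans (le_max_right _ _)) hz
  obtain ⟨h4, h5, h6⟩ := hball (y := qq z) (by rw [dist_zero_right]; exact ha₁ z h2)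
  refine ⟨hL z h1 (by linarith), h4.le, h5.le, fun i => ?_⟩
  exact (h6 i).comp (SA2_qq_analytic z)

theorem SA2_interp {ε B θ : ℝ} (hε : 0 ≤ ε) (hεB : ε ≤ B) (hθ : 0 ≤ θ) :
    ε ^ θ * B ^ (1 - θ) ≤ B := by
  have hB : 0 ≤ B := hε.trans hεB
  calc ε ^ θ * B ^ (1 - θ) ≤ B ^ θ * B ^ (1 - θ) := by gcongr
    _ = B := by
      rw [← Real.rpow_add' hB (by norm_num)]
      norm_num

theorem step_down (D : Datum Γ ι) : ∃ y₀ δ₂ c X Y₁ : ℝ, 0 < y₀ ∧ 0 < δ₂ ∧ 0 < c ∧ c ≤ 1 ∧ 1 ≤ X ∧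
    1 ≤ Y₁ ∧ ∀ y : ℝ, Y₁ ≤ y →
      Step D 1 ((y : ℂ) * Complex.I) (y / 20) ((y₀ : ℂ) * Complex.I) δ₂ (c / y) X := by
  obtain ⟨a, M, m, M', ha, hm, hM', hP⟩ := SA2_prep D
  obtain ⟨C₀, hC₀, hE⟩ := E_norm D.G
  obtain ⟨δ₂, hδ₂, him, c, hc0, hc1, Y₁, hY₁, key⟩ := halfplane2 a (a + 1) (by linarith)
    (by linarith)
  set R : ℝ := a + 1 + δ₂ with hR
  set K : ℝ := C₀ * (1 + R) ^ C₀ / m with hK
  set Y : ℝ := C₀ * 2 ^ C₀ * (M' + 1) with hY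
  have hR0 : 0 ≤ R := by linarith
  have hK0 : 0 ≤ K := by positivity
  have hY0 : 0 ≤ Y := by positivity
  clear_value Y K R
  refine ⟨a + 1, δ₂, c, 1 + K * R ^ C₀ * Y, Y₁, by linarith, hδ₂, hc0, hc1, ?_, hY₁, ?_⟩
  · have : 0 ≤ K * R ^ C₀ * Y := by positivity
    linarith
  intro y hy d ε B F hG
  set X : ℝ := 1 + K * R ^ C₀ * Y with hX
  have hX1 : 1 ≤ X := by
    have : 0 ≤ K * R ^ C₀ * Y := by positivity
    linarith
  have hXK : K * R ^ C₀ * Y ≤ X := by linarith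
  have hy1 : 1 ≤ y := hY₁.trans hy
  have hB : 0 ≤ B := hG.nonneg.trans hG.le
  have hθ0 : 0 < c / y := by positivity
  have hN : ∀ z : ℂ, a < z.im → ‖D.G.E z *ᵥ M (qq z)‖ ≤ Y * ‖z‖ ^ C₀ := by
    intro z hz
    obtain ⟨-, -, h3, -⟩ := hP z hz
    have hz1 : 1 ≤ ‖z‖ := by
      have h4 : |z.im| ≤ ‖z‖ := Complex.abs_im_le_norm z
      have h5 := le_abs_self z.im
      linarith
    calc ‖D.G.E z *ᵥ M (qq z)‖ ≤ C₀ * (1 + ‖z‖) ^ C₀ * ‖M (qq z)‖ := (hE z _).1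
      _ ≤ C₀ * (2 * ‖z‖) ^ C₀ * (M' + 1) := by
        gcongr
        · linarith
        · linarith
      _ = Y * ‖z‖ ^ C₀ := by
        rw [hY, mul_pow]
        ring
  have hz0 : ∀ z : ℂ, a < z.im → z ≠ 0 := by
    intro z hz h
    rw [h, Complex.zero_im] at hz
    linarith
  have hfd : DifferentiableOn ℂ (fun z => F (D.G.E z *ᵥ M (qq z)) / z ^ (C₀ * d))
      {z : ℂ | a < z.im} := by
    intro z hz
    refine DifferentiableAt.differentiableWithinAt ?_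
    have h1 : DifferentiableAt ℂ (fun z => D.G.E z *ᵥ M (qq z)) z :=
      differentiableAt_pi.2 fun i =>
        (E_analytic D.G (fun z => M (qq z)) z (hP z hz).2.2.2 i).differentiableAt
    have h2 : DifferentiableAt ℂ (fun z => F (D.G.E z *ᵥ M (qq z))) z :=
      DifferentiableAt.comp z (hG.form.diff _) h1
    exact h2.div (differentiableAt_id.pow _) (pow_ne_zero _ (hz0 z hz))
  have hfb : ∀ (t : ℝ), 0 ≤ t → ∀ z : ℂ, a < z.im →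
      ‖F (D.G.E z *ᵥ M (qq z))‖ ≤ t * ‖D.G.E z *ᵥ M (qq z)‖ ^ d →
      ‖F (D.G.E z *ᵥ M (qq z)) / z ^ (C₀ * d)‖ ≤ t * Y ^ d := by
    intro t ht z hz hb
    have h1 : 0 < ‖z‖ := norm_pos_iff.2 (hz0 z hz)
    rw [norm_div, norm_pow, div_le_iff₀ (by positivity)]
    refine hb.trans ?_
    calc t * ‖D.G.E z *ᵥ M (qq z)‖ ^ d ≤ t * (Y * ‖z‖ ^ C₀) ^ d := by
          gcongr
          exact hN z hz
      _ = t * Y ^ d * ‖z‖ ^ (C₀ * d) := by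
          rw [mul_pow, ← pow_mul]
          ring
  have hkey := key (fun z => F (D.G.E z *ᵥ M (qq z)) / z ^ (C₀ * d)) (B * Y ^ d) (ε * Y ^ d)
    hfd (fun z hz => hfb B hB z hz (hG.form.bd _)) (mul_nonneg hG.nonneg (pow_nonneg hY0 d))
    (mul_le_mul_of_nonneg_right hG.le (pow_nonneg hY0 d)) y hy
    (fun z hz hza => hfb ε hG.nonneg z hza
      (hG.small z hz (by linarith) _ (hP z hza).1))
  have hpow : (ε * Y ^ d) ^ (c / y) * (B * Y ^ d) ^ (1 - c / y) =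
      Y ^ d * (ε ^ (c / y) * B ^ (1 - c / y)) := by
    rw [Real.mul_rpow hG.nonneg (pow_nonneg hY0 d), Real.mul_rpow hB (pow_nonneg hY0 d)]
    have h1 : (Y ^ d) ^ (c / y) * (Y ^ d) ^ (1 - c / y) = Y ^ d := by
      rw [← Real.rpow_add' (pow_nonneg hY0 d) (by norm_num)]
      norm_num
    calc ε ^ (c / y) * (Y ^ d) ^ (c / y) * (B ^ (1 - c / y) * (Y ^ d) ^ (1 - c / y))
        = ((Y ^ d) ^ (c / y) * (Y ^ d) ^ (1 - c / y)) * (ε ^ (c / y) * B ^ (1 - c / y)) := by ring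
      _ = _ := by rw [h1]
  rw [hpow] at hkey
  set T : ℝ := ε ^ (c / y) * B ^ (1 - c / y) with hT
  have hT0 : 0 ≤ T := mul_nonneg (Real.rpow_nonneg hG.nonneg _) (Real.rpow_nonneg hB _)
  have hXd : 1 ≤ X ^ d := one_le_pow₀ hX1
  refine ⟨⟨?_, ?_, ?_⟩, by positivity, ?_, ?_⟩
  · intro b v
    simp only [Matrix.one_mulVec]
    exact hG.form.hom b v
  · intro v
    simp only [Matrix.one_mulVec]
    refine (hG.form.bd v).trans ?_
    have : B ≤ X ^ d * B := le_mul_of_one_le_left hB hXd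
    gcongr
  · simp only [Matrix.one_mulVec]
    exact hG.form.diff
  · exact mul_le_mul_of_nonneg_left (SA2_interp hG.nonneg hG.le hθ0.le) (by positivity)
  · intro z hz hzi v hv
    simp only [Matrix.one_mulVec]
    have hza : a < z.im := him z (by push_cast; push_cast at hz; exact hz)
    obtain ⟨hL, hmz, -, -⟩ := hP z hza
    obtain ⟨b, hb⟩ := D.L_uniq z _ v hzi hL hv
    have hzn : ‖z‖ ≤ R := by
      rw [Metric.mem_ball, dist_eq_norm] at hz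
      have h1 : ‖z‖ ≤ ‖z - ((a + 1 : ℝ) : ℂ) * Complex.I‖ + ‖((a + 1 : ℝ) : ℂ) * Complex.I‖ := by
        have := norm_add_le (z - ((a + 1 : ℝ) : ℂ) * Complex.I) (((a + 1 : ℝ) : ℂ) * Complex.I)
        rwa [sub_add_cancel] at this
      have h2 : ‖((a + 1 : ℝ) : ℂ) * Complex.I‖ = a + 1 := by
        rw [norm_mul, Complex.norm_I, mul_one, Complex.norm_real, Real.norm_eq_abs,
          abs_of_nonneg (by linarith)]
      linarith
    have hbn : ‖b‖ ≤ K * ‖v‖ := by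
      have h1 : ‖b‖ * m ≤ C₀ * (1 + R) ^ C₀ * ‖v‖ := by
        calc ‖b‖ * m ≤ ‖b‖ * ‖M (qq z)‖ := by gcongr
          _ ≤ ‖b‖ * (C₀ * (1 + ‖z‖) ^ C₀ * ‖D.G.E z *ᵥ M (qq z)‖) := by
            gcongr
            exact (hE z _).2
          _ = C₀ * (1 + ‖z‖) ^ C₀ * ‖v‖ := by
            rw [hb, norm_smul]
            ring
          _ ≤ C₀ * (1 + R) ^ C₀ * ‖v‖ := by gcongr
      rw [hK, div_mul_eq_mul_div, le_div_iff₀ hm]
      exact h1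
    have hzne := hz0 z hza
    have hFv : ‖F v‖ = ‖b‖ ^ d * (‖z‖ ^ (C₀ * d) *
        ‖F (D.G.E z *ᵥ M (qq z)) / z ^ (C₀ * d)‖) := by
      rw [hb, hG.form.hom, norm_mul, norm_pow, norm_div, norm_pow]
      have h1 : 0 < ‖z‖ := norm_pos_iff.2 hzne
      field_simp
    rw [hFv]
    have hk := hkey z (by push_cast; push_cast at hz; exact hz)
    calc ‖b‖ ^ d * (‖z‖ ^ (C₀ * d) * ‖F (D.G.E z *ᵥ M (qq z)) / z ^ (C₀ * d)‖)
        ≤ (K * ‖v‖) ^ d * (R ^ (C₀ * d) * (Y ^ d * T)) := by gcongr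
      _ = (K * R ^ C₀ * Y) ^ d * T * ‖v‖ ^ d := by
          rw [mul_pow, mul_pow, mul_pow, ← pow_mul]
          ring
      _ ≤ X ^ d * T * ‖v‖ ^ d := by gcongr

end MP2794d1.PC
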