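import Pool.Agent.Lib.MP_2794d1_ag.PC.CA2
import Pool.Agent.Lib.MP_2794d1_ag.PC.CA8
import Pool.Agent.Lib.MP_2794d1_ag.PC.CB2

/-!
SA3: a form with many zeros near `i y` is small, constants polynomial in `y`. Let `a, M` be as in `D.L_cusp`, `C₀` as in
`E_norm`, `m ≤ ‖M q‖ ≤ M'`, `0 < m`, `M` analytic on `‖q‖ < ρ`, and `‖qq z‖ < ρ` for `a₁ < im z`. Let `Y₁` be so large that
`3 Y₁ / 4 > max a (max a₁ 0)` and `Y₁ ≥ 1`. On `ball (i y) (y / 4)` (where `im z > 3 y / 4`, `‖z‖ ≤ 2 y`) the function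
`f z = hp k c ((G.E z *ᵥ M (qq z)) ∘ α)` is differentiable (`E_analytic`, `hp_form`) and, with
`‖G.E z *ᵥ M (qq z)‖ ≤ C₀ (1 + ‖z‖) ^ C₀ M' ≤ C₁ y ^ C₁` (`1 + 2 y ≤ 3 y`), `‖f‖ ≤ (k + 1) ^ 2 A (C₁ y ^ C₁) ^ (2 k)`. It
vanishes on `S` (`L_uniq`, `hp_smul`). `zeros_schwarz` (CA2) with `r = y / 20`, `R = y / 4 = 5 r`. For `D.L z v`:
`v = c' • (G.E z *ᵥ M (qq z))`, `‖c'‖ m ≤ ‖c'‖ ‖M (qq z)‖ ≤ C₀ (1 + ‖z‖) ^ C₀ ‖v‖` (second part of `E_norm`), so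
`‖hp k c (v ∘ α)‖ = ‖c'‖ ^ (2 k) ‖f z‖ ≤ (C y ^ C) ^ (2 k) ((k + 1) ^ 2 A) (1/2) ^ #S ‖v‖ ^ (2 k)`.
-/

namespace MP2794d1.PC

open Matrix Complex Filter Topology

variable {Γ : Subgroup (Matrix.SpecialLinearGroup (Fin 2) ℝ)} {ι : Type} [Fintype ι]
  [DecidableEq ι]

theorem SA3_qq_small (ε : ℝ) (hε : 0 < ε) : ∃ a : ℝ, ∀ z : ℂ, a < z.im → ‖qq z‖ < ε := by
  refine ⟨-(Real.log ε) / (2 * Real.pi), fun z hz => ?_⟩
  unfold qq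
  rw [Complex.norm_exp]
  have h1 : (2 * (Real.pi : ℂ) * Complex.I * z).re = -(2 * Real.pi * z.im) := by
    simp
  rw [h1]
  have hpi : 0 < 2 * Real.pi := by positivity
  rw [div_lt_iff₀ hpi] at hz
  calc Real.exp (-(2 * Real.pi * z.im)) < Real.exp (Real.log ε) := by
        apply Real.exp_lt_exp.2
        nlinarith
    _ = ε := Real.exp_log hε

theorem SA3_qq_analytic (z : ℂ) : AnalyticAt ℂ qq z := by
  unfold qq
  exact (analyticAt_const.mul analyticAt_id).cexp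

theorem SA3_prep (D : Datum Γ ι) : ∃ (a : ℝ) (M : ℂ → ι → ℂ) (m M' : ℝ), 1 ≤ a ∧ 0 < m ∧ 0 ≤ M' ∧
    ∀ z : ℂ, a < z.im → D.L z (D.G.E z *ᵥ M (qq z)) ∧ m ≤ ‖M (qq z)‖ ∧ ‖M (qq z)‖ ≤ M' ∧
      ∀ i, AnalyticAt ℂ (fun y => M (qq y) i) z := by
  obtain ⟨a, M, han, h0, hL⟩ := D.L_cusp
  have hn : 0 < ‖M 0‖ := norm_pos_iff.2 h0
  have hcont : ContinuousAt (fun q => ‖M q‖) 0 :=
    (continuousAt_pi.2 fun i => (han i).continuousAt).norm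
  have e1 : ∀ᶠ q in 𝓝 (0 : ℂ), ‖M 0‖ / 2 < ‖M q‖ :=
    hcont.eventually (lt_mem_nhds (by linarith))
  have e2 : ∀ᶠ q in 𝓝 (0 : ℂ), ‖M q‖ < ‖M 0‖ + 1 :=
    hcont.eventually (gt_mem_nhds (by linarith))
  have e3 : ∀ᶠ q in 𝓝 (0 : ℂ), ∀ i, AnalyticAt ℂ (fun q => M q i) q :=
    eventually_all.2 fun i => (han i).eventually_analyticAt
  obtain ⟨ε, hε, hball⟩ := Metric.eventually_nhds_iff.1 (e1.and (e2.and e3))
  obtain ⟨a₁, ha₁⟩ := SA3_qq_small ε hε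
  refine ⟨max a (max a₁ 1), M, ‖M 0‖ / 2, ‖M 0‖ + 1, (le_max_right _ _).trans (le_max_right _ _),
    by linarith, by linarith, fun z hz => ?_⟩
  have h1 : a < z.im := lt_of_le_of_lt (le_max_left _ _) hz
  have h2 : a₁ < z.im := lt_of_le_of_lt ((le_max_left _ _).trans (le_max_right _ _)) hz
  have h3 : 1 < z.im := lt_of_le_of_lt ((le_max_right _ _).trans (le_max_right _ _)) hz
  obtain ⟨h4, h5, h6⟩ := hball (y := qq z) (by rw [dist_zero_right]; exact ha₁ z h2)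
  refine ⟨hL z h1 (by linarith), h4.le, h5.le, fun i => ?_⟩
  exact (h6 i).comp (SA3_qq_analytic z)

theorem schwarz_high (D : Datum Γ ι) (α : Fin 3 → ι) : ∃ Y₁ : ℝ, 1 ≤ Y₁ ∧ ∃ C : ℕ, 1 ≤ C ∧
    ∀ y : ℝ, Y₁ ≤ y → ∀ (k : ℕ) (c : Fin (k + 1) → Fin (k + 1) → ℤ) (A : ℝ), 0 ≤ A →
      (∀ i j, |(c i j : ℝ)| ≤ A) → ∀ S : Finset ℂ,
      (∀ z ∈ S, z ∈ Metric.ball ((y : ℂ) * Complex.I) (y / 20) ∧
        ∃ v, D.L z v ∧ hp k c (v ∘ α) = 0) →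
      ∀ z ∈ Metric.ball ((y : ℂ) * Complex.I) (y / 20), ∀ v, D.L z v →
        ‖hp k c (v ∘ α)‖ ≤ (((C : ℝ) * y ^ C) ^ (2 * k) * (((k : ℝ) + 1) ^ 2 * A) *
          (1 / 2) ^ S.card) * ‖v‖ ^ (2 * k) := by
  obtain ⟨a, M, m, M', ha, hm, hM', hP⟩ := SA3_prep D
  obtain ⟨C₀, hC₀, hE⟩ := E_norm D.G
  set Q : ℝ := (C₀ : ℝ) ^ 2 * 9 ^ C₀ * M' / m with hQ
  refine ⟨2 * a, by linarith, 2 * C₀ + ⌈Q⌉₊ + 1, by omega, ?_⟩
  intro y hy k c A hA hc S hS z hz v hv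
  have hy0 : 0 < y := by linarith
  have hy1 : 1 ≤ y := by linarith
  have hball : ∀ u ∈ Metric.ball ((y : ℂ) * Complex.I) (y / 4), a < u.im ∧ ‖u‖ ≤ 2 * y := by
    intro u hu
    rw [Metric.mem_ball, dist_eq_norm] at hu
    have h1 : |(u - (y : ℂ) * Complex.I).im| ≤ ‖u - (y : ℂ) * Complex.I‖ :=
      Complex.abs_im_le_norm _
    have h2 : (u - (y : ℂ) * Complex.I).im = u.im - y := by simp
    rw [h2] at h1
    have h3 := (abs_le.1 (h1.trans hu.le)).1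
    have h4 : ‖u‖ ≤ ‖u - (y : ℂ) * Complex.I‖ + ‖(y : ℂ) * Complex.I‖ := by
      have := norm_add_le (u - (y : ℂ) * Complex.I) ((y : ℂ) * Complex.I)
      rwa [sub_add_cancel] at this
    have h5 : ‖(y : ℂ) * Complex.I‖ = y := by simp [abs_of_pos hy0]
    constructor <;> linarith
  have hC0p : (0 : ℝ) ≤ C₀ := Nat.cast_nonneg _
  have hN : ∀ u ∈ Metric.ball ((y : ℂ) * Complex.I) (y / 4),
      ‖D.G.E u *ᵥ M (qq u)‖ ≤ C₀ * (3 * y) ^ C₀ * M' := by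
    intro u hu
    obtain ⟨h1, h2⟩ := hball u hu
    obtain ⟨-, -, h3, -⟩ := hP u h1
    calc ‖D.G.E u *ᵥ M (qq u)‖ ≤ C₀ * (1 + ‖u‖) ^ C₀ * ‖M (qq u)‖ := (hE u _).1
      _ ≤ C₀ * (3 * y) ^ C₀ * M' := by
        gcongr
        linarith
  have hform := hp_form k c hc α
  have hfd : DifferentiableOn ℂ (fun u => hp k c ((D.G.E u *ᵥ M (qq u)) ∘ α))
      (Metric.ball ((y : ℂ) * Complex.I) (y / 4)) := by
    intro u hu
    refine DifferentiableAt.differentiableWithinAt ?_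
    have h1 : DifferentiableAt ℂ (fun z => D.G.E z *ᵥ M (qq z)) u :=
      differentiableAt_pi.2 fun i =>
        (E_analytic D.G (fun z => M (qq z)) u (hP u (hball u hu).1).2.2.2 i).differentiableAt
    have h2 : DifferentiableAt ℂ (fun v : ι → ℂ => hp k c (v ∘ α)) (D.G.E u *ᵥ M (qq u)) :=
      hform.diff _
    exact DifferentiableAt.comp (g := fun v : ι → ℂ => hp k c (v ∘ α))
      (f := fun z => D.G.E z *ᵥ M (qq z)) u h2 h1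
  have hfb : ∀ u ∈ Metric.ball ((y : ℂ) * Complex.I) (y / 4),
      ‖hp k c ((D.G.E u *ᵥ M (qq u)) ∘ α)‖ ≤
        ((k : ℝ) + 1) ^ 2 * A * (C₀ * (3 * y) ^ C₀ * M') ^ (2 * k) := by
    intro u hu
    refine (hform.bd (D.G.E u *ᵥ M (qq u))).trans ?_
    gcongr
    exact hN u hu
  have hsub : ∀ u ∈ Metric.ball ((y : ℂ) * Complex.I) (y / 20),
      u ∈ Metric.ball ((y : ℂ) * Complex.I) (y / 4) := fun u hu =>
    Metric.ball_subset_ball (by linarith) hu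
  have hzero : ∀ u ∈ S, hp k c ((D.G.E u *ᵥ M (qq u)) ∘ α) = 0 := by
    intro u hu
    obtain ⟨h1, w, hw, hw0⟩ := hS u hu
    have h2 := (hball u (hsub u h1)).1
    obtain ⟨b, hb⟩ := D.L_uniq u w _ (by linarith) hw (hP u h2).1
    rw [hb]
    have h3 : ((b • w) ∘ α) = b • (w ∘ α) := rfl
    rw [h3, hp_smul, hw0, mul_zero]
  have hsch := zeros_schwarz ((y : ℂ) * Complex.I) (y / 20) (y / 4) (by positivity)
    (by linarith) S (fun u hu => Metric.ball_subset_closedBall (hS u hu).1) _ hfd _ hfb hzero z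
    (Metric.ball_subset_closedBall hz)
  have hza := (hball z (hsub z hz)).1
  have hzn := (hball z (hsub z hz)).2
  obtain ⟨hL, hmz, -, -⟩ := hP z hza
  obtain ⟨b, hb⟩ := D.L_uniq z _ v (by linarith) hL hv
  have hbn : ‖b‖ ≤ C₀ * (3 * y) ^ C₀ / m * ‖v‖ := by
    have h1 : ‖b‖ * m ≤ C₀ * (3 * y) ^ C₀ * ‖v‖ := by
      calc ‖b‖ * m ≤ ‖b‖ * ‖M (qq z)‖ := by gcongr
        _ ≤ ‖b‖ * (C₀ * (1 + ‖z‖) ^ C₀ * ‖D.G.E z *ᵥ M (qq z)‖) := by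
          gcongr
          exact (hE z _).2
        _ = C₀ * (1 + ‖z‖) ^ C₀ * ‖v‖ := by
          rw [hb, norm_smul]
          ring
        _ ≤ C₀ * (3 * y) ^ C₀ * ‖v‖ := by
          gcongr
          linarith
    rw [div_mul_eq_mul_div, le_div_iff₀ hm]
    exact h1
  have hFv : ‖hp k c (v ∘ α)‖ = ‖b‖ ^ (2 * k) * ‖hp k c ((D.G.E z *ᵥ M (qq z)) ∘ α)‖ := by
    have h3 : v ∘ α = b • ((D.G.E z *ᵥ M (qq z)) ∘ α) := by rw [hb]; rfl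
    rw [h3, hp_smul, norm_mul, norm_pow]
  rw [hFv]
  have hQ0 : 0 ≤ Q := by positivity
  have hC : (C₀ * (3 * y) ^ C₀ / m) * (C₀ * (3 * y) ^ C₀ * M') ≤
      ((2 * C₀ + ⌈Q⌉₊ + 1 : ℕ) : ℝ) * y ^ (2 * C₀ + ⌈Q⌉₊ + 1) := by
    have h1 : (C₀ * (3 * y) ^ C₀ / m) * (C₀ * (3 * y) ^ C₀ * M') = Q * y ^ (2 * C₀) := by
      rw [hQ]
      have h9 : (9 : ℝ) ^ C₀ = 3 ^ C₀ * 3 ^ C₀ := by
        rw [← mul_pow]
        norm_num
      rw [h9, mul_pow, two_mul, pow_add]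
      ring
    rw [h1]
    have h2 : Q ≤ ((2 * C₀ + ⌈Q⌉₊ + 1 : ℕ) : ℝ) := by
      have h3 := Nat.le_ceil Q
      push_cast
      linarith
    have h4 : y ^ (2 * C₀) ≤ y ^ (2 * C₀ + ⌈Q⌉₊ + 1) := pow_le_pow_right₀ hy1 (by omega)
    gcongr
  have hA' : 0 ≤ ((k : ℝ) + 1) ^ 2 * A := by positivity
  calc ‖b‖ ^ (2 * k) * ‖hp k c ((D.G.E z *ᵥ M (qq z)) ∘ α)‖
      ≤ (C₀ * (3 * y) ^ C₀ / m * ‖v‖) ^ (2 * k) *
        (((k : ℝ) + 1) ^ 2 * A * (C₀ * (3 * y) ^ C₀ * M') ^ (2 * k) * (1 / 2) ^ S.card) := by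
        gcongr
    _ = ((C₀ * (3 * y) ^ C₀ / m) * (C₀ * (3 * y) ^ C₀ * M')) ^ (2 * k) *
        (((k : ℝ) + 1) ^ 2 * A) * (1 / 2) ^ S.card * ‖v‖ ^ (2 * k) := by
        rw [mul_pow _ ‖v‖, mul_pow (C₀ * (3 * y) ^ C₀ / m)]
        ring
    _ ≤ _ := by gcongr

end MP2794d1.PC
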