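import Pool.Agent.Lib.MP_2794d1_ag.PC.SA2
import Pool.Agent.Lib.MP_2794d1_ag.PC.CB2

/-!
SC1: lower bound for the supremum near `i y`. `y₀, δ₂, c, X, Y₁` from `step_down`, `C₀` from `SLB` at `(i y₀, δ₂)`. Let
`B = (k + 1) ^ 2 A` (`hp_form`). If `ε ≥ B` then `ε ≥ 1 ≥ exp (-...)`. Otherwise `Good D (2 k) (i y) (y / 20) ε B F`,
`F v = hp k c (v ∘ α)`, and `step_down` gives `Good` at `(i y₀, δ₂)` with `ε' = X ^ (2 k) (ε ^ θ B ^ (1 - θ))`, `θ = c / y`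
(`F (1 *ᵥ v) = F v`), so `exp (-(C₀ k ^ 4 (k log (k + 1) + log A))) ≤ ε'` by `SLB`. In particular `ε > 0`; logarithms
(`B ^ (1 - θ) ≤ B` as `B ≥ 1`): `- θ log ε ≤ 2 k log X + log B + C₀ k ^ 4 (k log (k + 1) + log A)
≤ C₁ k ^ 4 (k log (k + 1) + log A)` (`log B = 2 log (k + 1) + log A`, `k log (k + 1) ≥ log 2`), so
`- log ε ≤ (C₁ / c) y k ^ 4 (...)`.
-/

namespace MP2794d1.PC

open Matrix Complex Filter Topology

variable {Γ : Subgroup (Matrix.SpecialLinearGroup (Fin 2) ℝ)} {ι : Type} [Fintype ι]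
  [DecidableEq ι]

theorem SC1_ell {k : ℕ} (hk : 1 ≤ k) : 1 / 2 < Real.log ((k : ℝ) + 1) := by
  have h1 : Real.log 2 ≤ Real.log ((k : ℝ) + 1) := by
    apply Real.log_le_log (by norm_num)
    have : (1 : ℝ) ≤ k := by exact_mod_cast hk
    linarith
  have h2 := Real.log_two_gt_d9
  linarith

theorem SC1_up {C₀ k k4 ℓ LX lA : ℝ} (hC0 : 0 ≤ C₀) (hk1 : 1 ≤ k) (hk4 : 1 ≤ k4) (hℓ : 1 / 2 < ℓ)
    (hLX : 0 ≤ LX) (hlA : 0 ≤ lA) :
    2 * k * LX + (2 * ℓ + lA) + C₀ * k4 * (k * ℓ + lA) ≤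
      (4 * LX + 2 + C₀) * k4 * (k * ℓ + lA) := by
  have hkℓ : ℓ ≤ k * ℓ := le_mul_of_one_le_left (by linarith) hk1
  have h1 : 2 * k * LX ≤ 4 * LX * (k * ℓ + lA) := by
    have a1 : k * 1 ≤ k * (2 * ℓ) := mul_le_mul_of_nonneg_left (by linarith) (by linarith)
    have a2 : 2 * k * LX ≤ LX * (4 * (k * ℓ)) := by nlinarith
    have a3 : 0 ≤ LX * (4 * lA) := by positivity
    nlinarith
  have h2 : 2 * ℓ + lA ≤ 2 * (k * ℓ + lA) := by linarith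
  have hQ : 0 ≤ k * ℓ + lA := by positivity
  have h3 : (4 * LX + 2) * (k * ℓ + lA) ≤ (4 * LX + 2) * (k * ℓ + lA) * k4 :=
    le_mul_of_one_le_right (by positivity) hk4
  calc 2 * k * LX + (2 * ℓ + lA) + C₀ * k4 * (k * ℓ + lA)
      ≤ (4 * LX + 2) * (k * ℓ + lA) + C₀ * k4 * (k * ℓ + lA) := by linarith
    _ ≤ (4 * LX + 2) * (k * ℓ + lA) * k4 + C₀ * k4 * (k * ℓ + lA) := by linarith
    _ = _ := by ring

theorem slb_high (D : Datum Γ ι) (α : Fin 3 → ι) (hs : SLB D α) : ∃ Y₁ : ℝ, 1 ≤ Y₁ ∧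
    ∃ C : ℝ, 0 < C ∧ ∀ y : ℝ, Y₁ ≤ y → ∀ k : ℕ, 1 ≤ k →
    ∀ c : Fin (k + 1) → Fin (k + 1) → ℤ, (∃ i j, c i j ≠ 0) →
    ∀ A : ℝ, 1 ≤ A → (∀ i j, |(c i j : ℝ)| ≤ A) → ∀ ε : ℝ, 0 ≤ ε →
    (∀ z ∈ Metric.ball ((y : ℂ) * Complex.I) (y / 20), 0 < z.im → ∀ v : ι → ℂ, D.L z v →
      ‖hp k c (v ∘ α)‖ ≤ ε * ‖v‖ ^ (2 * k)) →
    Real.exp (-(C * y * (k : ℝ) ^ 4 * ((k : ℝ) * Real.log ((k : ℝ) + 1) + Real.log A))) ≤ ε := by
  obtain ⟨y₀, δ₂, c₀, X, Y₁, hy₀, hδ₂, hc0, hc1, hX, hY₁, hstep⟩ := step_down D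
  obtain ⟨C₀, hC₀, hS⟩ := hs ((y₀ : ℂ) * Complex.I) (by simpa using hy₀) δ₂ hδ₂
  have hLX : 0 ≤ Real.log X := Real.log_nonneg hX
  refine ⟨Y₁, hY₁, (4 * Real.log X + 2 + C₀) / c₀, by positivity, ?_⟩
  intro y hy k hk c hc A hA hcA ε hε hsm
  have hy1 : 1 ≤ y := hY₁.trans hy
  have hy0 : 0 < y := by linarith
  have hℓ := SC1_ell hk
  set ℓ := Real.log ((k : ℝ) + 1) with hℓd
  have hk1 : (1 : ℝ) ≤ k := by exact_mod_cast hk
  have hk4 : (1 : ℝ) ≤ (k : ℝ) ^ 4 := one_le_pow₀ hk1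
  have hlA : 0 ≤ Real.log A := Real.log_nonneg hA
  set Q : ℝ := (k : ℝ) * ℓ + Real.log A with hQ
  have hQ0 : 0 ≤ Q := by positivity
  set C₁ : ℝ := 4 * Real.log X + 2 + C₀ with hC₁
  have hC1 : 0 < C₁ := by positivity
  have hCQ : 0 ≤ C₁ / c₀ * y * (k : ℝ) ^ 4 * Q := by positivity
  set B : ℝ := ((k : ℝ) + 1) ^ 2 * A with hBd
  have hB1 : 1 ≤ B := by
    have : (1 : ℝ) ≤ ((k : ℝ) + 1) ^ 2 := one_le_pow₀ (by linarith)
    calc (1 : ℝ) = 1 * 1 := by ring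
      _ ≤ _ := mul_le_mul this hA (by norm_num) (by positivity)
  rcases le_or_gt B ε with hBε | hBε
  · calc Real.exp (-(C₁ / c₀ * y * (k : ℝ) ^ 4 * Q)) ≤ 1 := by
          rw [Real.exp_le_one_iff]; linarith
      _ ≤ ε := by linarith
  have hgood : Good D (2 * k) ((y : ℂ) * Complex.I) (y / 20) ε B (fun v => hp k c (v ∘ α)) :=
    ⟨hp_form k c hcA α, hε, hBε.le, hsm⟩
  have hg2 := hstep y hy (2 * k) ε B _ hgood
  set θ : ℝ := c₀ / y with hθ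
  have hθ0 : 0 < θ := by positivity
  have hθ1 : θ ≤ 1 := by
    rw [hθ, div_le_one hy0]; linarith
  have hfin := hS k hk c hc A hA hcA (X ^ (2 * k) * (ε ^ θ * B ^ (1 - θ))) hg2.nonneg
    (fun z hz hzi v hv => by
      have h1 := hg2.small z hz hzi v hv
      rw [Matrix.one_mulVec] at h1
      exact h1)
  have hε0 : 0 < ε := by
    rcases hε.lt_or_eq with h | h
    · exact h
    · exfalso
      rw [← h, Real.zero_rpow hθ0.ne', zero_mul, mul_zero] at hfin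
      exact absurd hfin (not_le.2 (Real.exp_pos _))
  have hkp : (k : ℝ) + 1 = Real.exp ℓ := (Real.exp_log (by linarith)).symm
  have b4 : X ^ (2 * k) = Real.exp (2 * k * Real.log X) := by
    have h1 : X = Real.exp (Real.log X) := (Real.exp_log (by linarith)).symm
    conv_lhs => rw [h1]
    rw [← Real.exp_nat_mul]
    push_cast
    ring_nf
  have b5 : ε ^ θ = Real.exp (Real.log ε * θ) := Real.rpow_def_of_pos hε0 θ
  have b6 : B ^ (1 - θ) ≤ Real.exp (2 * ℓ + Real.log A) := by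
    calc B ^ (1 - θ) ≤ B ^ (1 : ℝ) :=
          Real.rpow_le_rpow_of_exponent_le hB1 (by linarith)
      _ = B := Real.rpow_one B
      _ = _ := by
          rw [hBd, Real.exp_add, Real.exp_log (by linarith), hkp, ← Real.exp_nat_mul]
          norm_num
  have hsum : -(C₀ * (k : ℝ) ^ 4 * Q) ≤
      2 * k * Real.log X + (Real.log ε * θ + (2 * ℓ + Real.log A)) := by
    rw [← Real.exp_le_exp]
    refine hfin.trans ?_
    calc X ^ (2 * k) * (ε ^ θ * B ^ (1 - θ)) ≤ Real.exp (2 * k * Real.log X) *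
          (Real.exp (Real.log ε * θ) * Real.exp (2 * ℓ + Real.log A)) := by
          rw [b5, b4]
          gcongr
      _ = _ := by simp only [← Real.exp_add]
  have hup := SC1_up (C₀ := C₀) (k := k) (k4 := (k : ℝ) ^ 4) (ℓ := ℓ) (LX := Real.log X)
    (lA := Real.log A) hC₀.le hk1 hk4 hℓ hLX hlA
  rw [← hQ, ← hC₁] at hup
  have h1 : -Real.log ε * θ ≤ C₁ * (k : ℝ) ^ 4 * Q := by linarith
  have hlog : -(C₁ / c₀ * y * (k : ℝ) ^ 4 * Q) ≤ Real.log ε := by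
    have h2 : -Real.log ε ≤ C₁ * (k : ℝ) ^ 4 * Q / θ := by
      rw [le_div_iff₀ hθ0]; exact h1
    have h3 : C₁ * (k : ℝ) ^ 4 * Q / θ = C₁ / c₀ * y * (k : ℝ) ^ 4 * Q := by
      rw [hθ]; field_simp
    rw [h3] at h2
    linarith
  calc Real.exp (-(C₁ / c₀ * y * (k : ℝ) ^ 4 * Q)) ≤ Real.exp (Real.log ε) :=
        Real.exp_le_exp.mpr hlog
    _ = ε := Real.exp_log hε0

end MP2794d1.PC
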