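import Pool.Agent.Lib.MP_2794d1_ag.PC.CB3
import Pool.Agent.Lib.MP_2794d1_ag.PC.SA3
import Pool.Agent.Lib.MP_2794d1_ag.PC.SC1
import Pool.Agent.Lib.MP_2794d1_ag.PC.SC2

/-!
SC3: the count near `i y`. Copy of CC4 with `schwarz_high`, `slb_high`, `num_extrap2`, `num_final2` and `W = C₀ y ^ C₀ ≤ B ^ C₂`
(`growth`). `Y₁` = the maximum of the two `Y₁`. In the case `#S ≤ n`: `#S ≤ (k + 1) ^ 2 ≤ C (log B) ^ 2 ≤ C' y (log B) ^ 6`.
-/

namespace MP2794d1.PC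

open Matrix Complex Filter Topology

variable {Γ : Subgroup (Matrix.SpecialLinearGroup (Fin 2) ℝ)} {ι : Type} [Fintype ι]
  [DecidableEq ι]

omit [Fintype ι] [DecidableEq ι] in
theorem SC3_empty {κ : Type} [Fintype κ] (h : Fintype.card κ = 0) {B : ℝ} {v : ι → ℂ}
    (hv : IntRep κ B v) : False := by
  obtain ⟨X, w, hw, -⟩ := hv
  have : IsEmpty κ := Fintype.card_eq_zero_iff.mp h
  exact hw (Subsingleton.elim _ _)

theorem count_high (D : Datum Γ ι) {κ : Type} [Fintype κ] (α : Fin 3 → ι) (hs : SLB D α) :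
    ∃ Y₁ : ℝ, 1 ≤ Y₁ ∧ ∀ K₂ : ℝ, ∃ C : ℝ, 0 < C ∧ ∀ B : ℝ, 2 ≤ B → ∀ y : ℝ, Y₁ ≤ y →
      y ≤ K₂ * Real.log B → ∀ S : Finset ℂ,
      (∀ z ∈ S, z ∈ Metric.ball ((y : ℂ) * Complex.I) (y / 20) ∧
        ∃ v, D.L z v ∧ IntRep κ B v) → (S.card : ℝ) ≤ C * y * Real.log B ^ 6 := by
  obtain ⟨Y₁, hY₁, Cs, hCs, hschwarz⟩ := schwarz_high D α
  obtain ⟨Y₂, hY₂, Cl, hCl, hslb⟩ := slb_high D α hs
  refine ⟨max Y₁ Y₂, hY₁.trans (le_max_left _ _), ?_⟩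
  intro K₂
  by_cases hν0 : Fintype.card κ = 0
  · refine ⟨1, one_pos, ?_⟩
    intro B hB y hy hyK S hS
    have hSe : S = ∅ := by
      rw [Finset.eq_empty_iff_forall_notMem]
      intro z hz
      obtain ⟨-, v, -, hv⟩ := hS z hz
      exact SC3_empty hν0 hv
    have hy1 : 1 ≤ y := hY₁.trans ((le_max_left _ _).trans hy)
    have hL := SC2_logB hB
    rw [hSe, Finset.card_empty, Nat.cast_zero]
    positivity
  obtain ⟨C₂, hC₂⟩ := growth Cs K₂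
  have hν : 1 ≤ Fintype.card κ := Nat.one_le_iff_ne_zero.mpr hν0
  obtain ⟨K₀, hK₀, hext⟩ := num_extrap2 (Fintype.card κ) hν C₂
  obtain ⟨C', hC', hfin⟩ := num_final2 (K₀ + 4) Cl C₂ (by linarith) hCl
  refine ⟨C' + 64 * (K₀ + 4) ^ 2, by positivity, ?_⟩
  intro B hB y hy hyK S hS
  have hy1 : 1 ≤ y := hY₁.trans ((le_max_left _ _).trans hy)
  have hyY₁ : Y₁ ≤ y := (le_max_left _ _).trans hy
  have hyY₂ : Y₂ ≤ y := (le_max_right _ _).trans hy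
  have hL := SC2_logB hB
  have hB0 : (0 : ℝ) < B := by linarith
  have hW1 : 1 ≤ (Cs : ℝ) * y ^ Cs := by
    have h1 : (1 : ℝ) ≤ Cs := by exact_mod_cast hCs
    have h2 : (1 : ℝ) ≤ y ^ Cs := one_le_pow₀ hy1
    nlinarith
  have hWB := hC₂ B hB y hy1 hyK
  -- the degree
  obtain ⟨k, hkd⟩ : ∃ k : ℕ, k = ⌈K₀ * Real.log B⌉₊ + 1 := ⟨_, rfl⟩
  have hk1 : 1 ≤ k := by omega
  have hkK : K₀ * Real.log B ≤ k := by
    have := Nat.le_ceil (K₀ * Real.log B)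
    rw [hkd]; push_cast; linarith
  have hkK' : (k : ℝ) ≤ (K₀ + 4) * Real.log B := by
    have h0 : 0 ≤ K₀ * Real.log B := by positivity
    have := Nat.ceil_lt_add_one h0
    rw [hkd]; push_cast; nlinarith
  obtain ⟨n, hnd⟩ : ∃ n : ℕ, n = (k + 1) ^ 2 / (2 * Fintype.card κ ^ 2) := ⟨_, rfl⟩
  have hν2 : 0 < 2 * Fintype.card κ ^ 2 := by positivity
  have hn1 : 2 * (n * Fintype.card κ ^ 2) ≤ (k + 1) ^ 2 := by
    have := Nat.mul_div_le ((k + 1) ^ 2) (2 * Fintype.card κ ^ 2)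
    rw [← hnd] at this
    calc 2 * (n * Fintype.card κ ^ 2) = 2 * Fintype.card κ ^ 2 * n := by ring
      _ ≤ _ := this
  have hn2 : (k + 1) ^ 2 < 2 * Fintype.card κ ^ 2 * (n + 1) := by
    have := Nat.lt_mul_div_succ ((k + 1) ^ 2) hν2
    rw [← hnd] at this
    exact this
  have hL4 : 1 ≤ 16 * Real.log B ^ 4 := by
    have : (1 : ℝ) ≤ (2 * Real.log B) ^ 4 := one_le_pow₀ (by linarith)
    calc (1 : ℝ) ≤ (2 * Real.log B) ^ 4 := this
      _ = _ := by ring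
  have hk1' : (1 : ℝ) ≤ k := by exact_mod_cast hk1
  by_cases hcard : S.card ≤ n
  · have h1 : (S.card : ℝ) ≤ ((k : ℝ) + 1) ^ 2 := by
      have h2 : S.card ≤ (k + 1) ^ 2 := by
        refine hcard.trans ?_
        rw [hnd]
        exact Nat.div_le_self _ _
      exact_mod_cast h2
    have h3 : ((k : ℝ) + 1) ^ 2 ≤ 64 * (K₀ + 4) ^ 2 * Real.log B ^ 6 := by
      calc ((k : ℝ) + 1) ^ 2 ≤ (2 * k) ^ 2 := by
            apply pow_le_pow_left₀ (by linarith); linarith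
        _ ≤ (2 * ((K₀ + 4) * Real.log B)) ^ 2 := by
            apply pow_le_pow_left₀ (by linarith); linarith
        _ = 4 * (K₀ + 4) ^ 2 * Real.log B ^ 2 * 1 := by ring
        _ ≤ 4 * (K₀ + 4) ^ 2 * Real.log B ^ 2 * (16 * Real.log B ^ 4) := by
            apply mul_le_mul_of_nonneg_left hL4 (by positivity)
        _ = _ := by ring
    have h4 : 64 * (K₀ + 4) ^ 2 * Real.log B ^ 6 ≤ 64 * (K₀ + 4) ^ 2 * Real.log B ^ 6 * y :=
      le_mul_of_one_le_right (by positivity) hy1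
    have h5 : 0 ≤ C' * y * Real.log B ^ 6 := by positivity
    calc (S.card : ℝ) ≤ 64 * (K₀ + 4) ^ 2 * Real.log B ^ 6 * y := by linarith
      _ ≤ C' * y * Real.log B ^ 6 + 64 * (K₀ + 4) ^ 2 * Real.log B ^ 6 * y := by linarith
      _ = _ := by ring
  push Not at hcard
  obtain ⟨S₁, hS₁, hS₁c⟩ := Finset.exists_subset_card_eq hcard.le
  have hex : ∀ z ∈ S, ∃ v, D.L z v ∧ IntRep κ B v := fun z hz => (hS z hz).2
  choose! v hv using hex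
  obtain ⟨c, hcne, hcA, hvan⟩ := siegel_hp α S₁ v (by linarith : (1 : ℝ) ≤ B)
    (fun s hs => (hv s (hS₁ hs)).2) k (by rw [hS₁c]; exact hn1)
  have hA1 : 1 ≤ ((k : ℝ) + 1) ^ 2 * B ^ (2 * k) := by
    have h1 : (1 : ℝ) ≤ ((k : ℝ) + 1) ^ 2 := one_le_pow₀ (by linarith)
    have h2 : (1 : ℝ) ≤ B ^ (2 * k) := one_le_pow₀ (by linarith)
    nlinarith
  have hzero : ∀ z ∈ S, hp k c (v z ∘ α) = 0 := by
    intro z hz
    by_contra hne
    have h1 := hschwarz y hyY₁ k c (((k : ℝ) + 1) ^ 2 * B ^ (2 * k)) (by linarith) hcA S₁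
      (fun s hs => ⟨(hS s (hS₁ hs)).1, v s, (hv s (hS₁ hs)).1, hvan s hs⟩) z (hS z hz).1 (v z)
      (hv z hz).1
    rw [hS₁c] at h1
    have h2 : ‖v z‖ ≤ Fintype.card κ * B :=
      (pi_norm_le_iff_of_nonneg (by positivity)).mpr
        (fun i => IntRep.norm_le (hv z hz).2 i)
    have h3 := liouville_hp k c (by linarith : 0 ≤ ((k : ℝ) + 1) ^ 2 * B ^ (2 * k)) hB0.le hcA
      (v z) (hv z hz).2 α hne
    have h4 := hext B hB ((Cs : ℝ) * y ^ Cs) hW1 hWB k n hk1 hkK hn2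
    have h5 : ‖hp k c (v z ∘ α)‖ ≤ (((Cs : ℝ) * y ^ Cs) ^ (2 * k) *
        (((k : ℝ) + 1) ^ 2 * (((k : ℝ) + 1) ^ 2 * B ^ (2 * k))) * (1 / 2) ^ n) *
        ((Fintype.card κ : ℝ) * B) ^ (2 * k) := by
      refine h1.trans ?_
      apply mul_le_mul_of_nonneg_left _ (by positivity)
      exact pow_le_pow_left₀ (norm_nonneg _) h2 _
    have h6 := h3.trans (mul_le_mul_of_nonneg_right h5 (by positivity))
    linarith
  have hsmall := hschwarz y hyY₁ k c (((k : ℝ) + 1) ^ 2 * B ^ (2 * k)) (by linarith) hcA S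
      (fun s hs => ⟨(hS s hs).1, v s, (hv s hs).1, hzero s hs⟩)
  have hlow := hslb y hyY₂ k hk1 c hcne (((k : ℝ) + 1) ^ 2 * B ^ (2 * k)) hA1 hcA
    ((((Cs : ℝ) * y ^ Cs) ^ (2 * k) *
        (((k : ℝ) + 1) ^ 2 * (((k : ℝ) + 1) ^ 2 * B ^ (2 * k))) * (1 / 2) ^ S.card))
    (by positivity) (fun z hz _ w hw => hsmall z hz w hw)
  have h7 := hfin B hB y hy1 ((Cs : ℝ) * y ^ Cs) hW1 hWB k S.card hk1 hkK' hlow
  have h8 : 0 ≤ 64 * (K₀ + 4) ^ 2 * Real.log B ^ 6 * y := by positivity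
  calc (S.card : ℝ) ≤ C' * y * Real.log B ^ 6 := h7
    _ ≤ C' * y * Real.log B ^ 6 + 64 * (K₀ + 4) ^ 2 * Real.log B ^ 6 * y := by linarith
    _ = _ := by ring

end MP2794d1.PC
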