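import Pool.Agent.Lib.MP_2794d1_ag.PC.CV3
import Pool.Agent.Lib.MP_2794d1_ag.C02
import Pool.Agent.Lib.MP_2794d1_ag.C03
import Pool.Agent.Lib.MP_2794d1_ag.B01
import Pool.Agent.Lib.MP_2794d1_ag.B07

/-!
SV3: accumulation at the cusp. For `p ∈ Icc V.lo V.hi` take `r p, W p, a p` from `c.ext p`; for `im z > a`:
`V.F p z` is the range of `M p z = uexp (cm c.N) z * W p (qq z)`, whose columns are independent for large `im z`
(as in CP6: a non-zero minor of `W p 0`). A vector `x` is in the range of `M p z` iff for all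
`f : Fin (r p + 1) → Fin n` the determinant of the matrix with rows `f` of `[M p z | x]` vanishes (if the columns of `M p z` are
independent; B01 `exists_minor_ne`: `x` is not in the range iff the columns of `[M p z | x]` are independent iff some minor is
not zero). So, with `D_{p, j, f}(X)(z) =` the determinant of the rows `f` of `[M p z | X *ᵥ (column j of M p z)]`, linear in
`X`: `X - b • N ∈ FEnd (V.F · z) 0` iff `D_k(X)(z) = b D_k(N)(z)` for all `k = (p, j, f)` (for `p ∉ Icc` nothing to check: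
`f04_top`, `f04_bot`). The functions `D_k(X)`, `D_k(N)` are `Zfun`s (C02: entries of `uexp (cm c.N) z` are polynomials in `z`,
entries of `W p (qq z)` are `Zfun.hol`; sums, products, `Matrix.det_apply`). Along the sequence `z k` we have
`D_k(X) D_l(N) - D_l(X) D_k(N) = 0` for all `k, l`, so by `lemmaZ` (C03) these vanish for all `y` with `im y > a'`; as
`N ∉ FEnd 0` some `D_l(N)(y) ≠ 0`, and `b = D_l(X)(y) / D_l(N)(y)` works for every such `y`. Finally `cont_line` (F04) with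
`U = {y | a' < im y}`, `a' ≥ 0`.
-/

namespace MP2794d1.PC

open Matrix Complex Filter Topology

/-- all entries are `Zfun`s -/
def SV3_Z {l m : Type} (A : ℂ → Matrix l m ℂ) : Prop := ∀ i j, Zfun (fun z => A z i j)

lemma SV3_Z_mul {l m k : Type} [Fintype m] {A : ℂ → Matrix l m ℂ} {B : ℂ → Matrix m k ℂ}
    (hA : SV3_Z A) (hB : SV3_Z B) : SV3_Z (fun z => A z * B z) := by
  intro i j
  have h1 : (fun z => (A z * B z) i j) = fun z => ∑ c ∈ Finset.univ, A z i c * B z c j := by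
    funext z
    rw [Matrix.mul_apply]
  rw [h1]
  exact Zfun.sum _ _ fun c _ => Zfun.mul (hA i c) (hB c j)

lemma SV3_Z_const {l m : Type} (A : Matrix l m ℂ) : SV3_Z (fun _ => A) := fun _ _ => Zfun.const _

lemma SV3_Z_uexp {n : ℕ} (N : Matrix (Fin n) (Fin n) ℂ) (g : ℂ → ℂ) (hg : Zfun g) :
    SV3_Z (fun z => uexp N (g z)) := by
  intro i j
  have h1 : (fun z => uexp N (g z) i j) =
      fun z => ∑ k ∈ Finset.range n, g z ^ k * ((1 / (k.factorial : ℂ)) * (N ^ k) i j) := by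
    funext z
    unfold uexp
    rw [Matrix.sum_apply]
    refine Finset.sum_congr rfl fun k _ => ?_
    rw [Matrix.smul_apply, smul_eq_mul]
    ring
  rw [h1]
  exact Zfun.sum _ _ fun k _ => Zfun.mul (Zfun.pow hg k) (Zfun.const _)

lemma SV3_Z_sub {f g : ℂ → ℂ} (hf : Zfun f) (hg : Zfun g) : Zfun (fun z => f z - g z) := by
  have h1 := Zfun.add hf (Zfun.mul (Zfun.const (-1)) hg)
  have h2 : (fun z => f z + -1 * g z) = fun z => f z - g z := by
    funext z
    ring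
  rw [← h2]
  exact h1

/-- near the cusp the condition that a matrix preserves the `p`-th step is linear with `Zfun`
coefficients -/
lemma SV3_local {n : ℕ} (V : PolVHS n) (c : Cusp V) (p : ℤ) :
    ∃ (r : ℕ) (Φ : Matrix (Fin n) (Fin n) ℂ → ℂ → Matrix (Fin n) (Fin r) ℂ) (a : ℝ),
      (∀ Y, SV3_Z (Φ Y)) ∧ (∀ (X Y : Matrix (Fin n) (Fin n) ℂ) (b z : ℂ),
        Φ (X - b • Y) z = Φ X z - b • Φ Y z) ∧
      ∀ z : ℂ, a < z.im → ∀ Y : Matrix (Fin n) (Fin n) ℂ,
        ((∀ x ∈ V.F p z, Y *ᵥ x ∈ V.F p z) ↔ Φ Y z = 0) := by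
  obtain ⟨r, W, a, hW, hind, hF⟩ := c.ext p
  obtain ⟨f, hf⟩ := exists_minor_ne (W 0) hind
  set S : Matrix (Fin r) (Fin n) ℂ := (1 : Matrix (Fin n) (Fin n) ℂ).submatrix f id with hS
  have hSmul : ∀ {m : Type} (A : Matrix (Fin n) m ℂ), S * A = A.submatrix f id := by
    intro m A
    ext i j
    rw [Matrix.mul_apply, hS]
    simp [Matrix.one_apply]
  set B : ℂ → Matrix (Fin r) (Fin r) ℂ := fun q => (W q).submatrix f id with hB
  have hBan : ∀ i j, AnalyticAt ℂ (fun q => B q i j) 0 := fun i j => hW (f i) j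
  have hB0 : (B 0).det ≠ 0 := hf
  set Cq : ℂ → Matrix (Fin n) (Fin n) ℂ := fun q => 1 - W q * (B q)⁻¹ * S with hCq
  have hCan : ∀ i j, AnalyticAt ℂ (fun q => Cq q i j) 0 := by
    intro i j
    have h1 := f01_mul (f01_mul hW (f01_inv hBan hB0)) (B := fun _ => S)
      (fun _ _ => analyticAt_const) i j
    have h2 : (fun q => Cq q i j) = fun q => (1 : Matrix (Fin n) (Fin n) ℂ) i j -
        (W q * (B q)⁻¹ * S) i j := by
      funext q
      rw [hCq]
      rfl
    rw [h2]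
    exact analyticAt_const.sub h1
  have hcont : ∀ᶠ q in 𝓝 (0 : ℂ), (B q).det ≠ 0 :=
    (f01_det hBan).continuousAt.eventually_ne hB0
  obtain ⟨ε, hε, hball⟩ := Metric.eventually_nhds_iff.1 hcont
  have hq : ∃ a' : ℝ, ∀ z : ℂ, a' < z.im → ‖qq z‖ < ε := by
    refine ⟨-(Real.log ε) / (2 * Real.pi), fun z hz => ?_⟩
    rw [C03_norm]
    have hpi : 0 < 2 * Real.pi := by positivity
    rw [div_lt_iff₀ hpi] at hz
    calc Real.exp (-(2 * Real.pi * z.im)) < Real.exp (Real.log ε) := by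
          apply Real.exp_lt_exp.2
          nlinarith
      _ = ε := Real.exp_log hε
  obtain ⟨a', ha'⟩ := hq
  have hdet : ∀ z : ℂ, a' < z.im → (B (qq z)).det ≠ 0 := by
    intro z hz
    apply hball
    rw [dist_zero_right]
    exact ha' z hz
  have hmem : ∀ z : ℂ, a' < z.im → ∀ x : Fin n → ℂ,
      (x ∈ LinearMap.range (W (qq z)).mulVecLin ↔ Cq (qq z) *ᵥ x = 0) := by
    intro z hz x
    have hu : IsUnit (B (qq z)).det := isUnit_iff_ne_zero.2 (hdet z hz)
    constructor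
    · rintro ⟨v, rfl⟩
      show Cq (qq z) *ᵥ (W (qq z) *ᵥ v) = 0
      rw [Matrix.mulVec_mulVec, hCq]
      show ((1 - W (qq z) * (B (qq z))⁻¹ * S) * W (qq z)) *ᵥ v = 0
      have h1 : W (qq z) * (B (qq z))⁻¹ * S * W (qq z) = W (qq z) := by
        rw [Matrix.mul_assoc, hSmul]
        have h2 : (W (qq z)).submatrix f id = B (qq z) := rfl
        rw [h2, Matrix.mul_assoc, Matrix.nonsing_inv_mul _ hu, Matrix.mul_one]
      rw [Matrix.sub_mul, Matrix.one_mul, h1, sub_self, Matrix.zero_mulVec]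
    · intro h
      have h1 : x - (W (qq z) * (B (qq z))⁻¹ * S) *ᵥ x = 0 := by
        have h2 : Cq (qq z) *ᵥ x = x - (W (qq z) * (B (qq z))⁻¹ * S) *ᵥ x := by
          rw [hCq]
          show (1 - W (qq z) * (B (qq z))⁻¹ * S) *ᵥ x = _
          rw [Matrix.sub_mulVec, Matrix.one_mulVec]
        rw [← h2]
        exact h
      refine ⟨((B (qq z))⁻¹ * S) *ᵥ x, ?_⟩
      show W (qq z) *ᵥ (((B (qq z))⁻¹ * S) *ᵥ x) = x
      rw [Matrix.mulVec_mulVec, ← Matrix.mul_assoc]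
      exact (sub_eq_zero.1 h1).symm
  refine ⟨r, fun Y z => Cq (qq z) * uexp (cm c.N) (-z) * Y * (uexp (cm c.N) z * W (qq z)),
    max a a', ?_, ?_, ?_⟩
  · intro Y
    refine SV3_Z_mul (SV3_Z_mul (SV3_Z_mul ?_ ?_) (SV3_Z_const Y)) (SV3_Z_mul ?_ ?_)
    · intro i j
      exact Zfun.hol (fun q => Cq q i j) (hCan i j)
    · refine SV3_Z_uexp (cm c.N) (fun z => -z) ?_
      have h1 := Zfun.mul (Zfun.const (-1)) Zfun.id
      have h2 : (fun z : ℂ => -1 * z) = fun z => -z := by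
        funext z
        ring
      rw [← h2]
      exact h1
    · exact SV3_Z_uexp (cm c.N) (fun z => z) Zfun.id
    · intro i j
      exact Zfun.hol (fun q => W q i j) (hW i j)
  · intro X Y b z
    show Cq (qq z) * uexp (cm c.N) (-z) * (X - b • Y) * (uexp (cm c.N) z * W (qq z)) =
      Cq (qq z) * uexp (cm c.N) (-z) * X * (uexp (cm c.N) z * W (qq z)) -
        b • (Cq (qq z) * uexp (cm c.N) (-z) * Y * (uexp (cm c.N) z * W (qq z)))
    rw [Matrix.mul_sub, Matrix.sub_mul, Matrix.mul_smul, Matrix.smul_mul]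
  · intro z hz Y
    have hz1 : a < z.im := lt_of_le_of_lt (le_max_left _ _) hz
    have hz2 : a' < z.im := lt_of_le_of_lt (le_max_right _ _) hz
    have hnil : (cm c.N) ^ n = 0 := cm_pow c.N c.nil
    have hFz : V.F p z = LinearMap.range (uexp (cm c.N) z * W (qq z)).mulVecLin := hF z hz1
    have hmem2 : ∀ x : Fin n → ℂ, (x ∈ V.F p z ↔ Cq (qq z) *ᵥ (uexp (cm c.N) (-z) *ᵥ x) = 0) := by
      intro x
      rw [← hmem z hz2, hFz]
      constructor
      · rintro ⟨v, rfl⟩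
        refine ⟨v, ?_⟩
        show W (qq z) *ᵥ v = uexp (cm c.N) (-z) *ᵥ ((uexp (cm c.N) z * W (qq z)) *ᵥ v)
        rw [Matrix.mulVec_mulVec, ← Matrix.mul_assoc, uexp_neg_mul _ hnil, Matrix.one_mul]
      · rintro ⟨v, hv⟩
        refine ⟨v, ?_⟩
        have hv' : W (qq z) *ᵥ v = uexp (cm c.N) (-z) *ᵥ x := hv
        show (uexp (cm c.N) z * W (qq z)) *ᵥ v = x
        rw [← Matrix.mulVec_mulVec, hv', Matrix.mulVec_mulVec, uexp_mul_neg _ hnil,
          Matrix.one_mulVec]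
    constructor
    · intro h
      show Cq (qq z) * uexp (cm c.N) (-z) * Y * (uexp (cm c.N) z * W (qq z)) = 0
      ext i j
      have h1 : (uexp (cm c.N) z * W (qq z)) *ᵥ (Pi.single j 1) ∈ V.F p z := by
        rw [hFz]
        exact ⟨_, rfl⟩
      have h2 := (hmem2 _).1 (h _ h1)
      rw [Matrix.mulVec_mulVec, Matrix.mulVec_mulVec, Matrix.mulVec_mulVec] at h2
      have h3 := congrFun h2 i
      rw [Matrix.mulVec_single_one] at h3
      have h4 : Cq (qq z) * uexp (cm c.N) (-z) * Y * (uexp (cm c.N) z * W (qq z)) =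
          Cq (qq z) * (uexp (cm c.N) (-z) * (Y * (uexp (cm c.N) z * W (qq z)))) := by
        simp only [Matrix.mul_assoc]
      rw [h4]
      simpa [Matrix.mul_assoc] using h3
    · intro h x hx
      rw [hFz] at hx
      obtain ⟨v, rfl⟩ := hx
      rw [hmem2]
      show Cq (qq z) *ᵥ (uexp (cm c.N) (-z) *ᵥ (Y *ᵥ ((uexp (cm c.N) z * W (qq z)) *ᵥ v))) = 0
      have h' : Cq (qq z) * uexp (cm c.N) (-z) * Y * (uexp (cm c.N) z * W (qq z)) = 0 := h
      rw [Matrix.mulVec_mulVec, Matrix.mulVec_mulVec, Matrix.mulVec_mulVec, h', Matrix.zero_mulVec]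

theorem accum_cusp {n : ℕ} (V : PolVHS n) (c : Cusp V) (X : Matrix (Fin n) (Fin n) ℂ)
    (hN : ∀ z : ℂ, 0 < z.im → cm c.N ∉ FEnd (fun p => V.F p z) 0)
    (z : ℕ → ℂ) (hre : ∀ k, |(z k).re| ≤ 1) (him : Tendsto (fun k => (z k).im) atTop atTop)
    (h : ∀ k, 0 < (z k).im → ∃ b : ℂ, X - b • cm c.N ∈ FEnd (fun p => V.F p (z k)) 0) :
    ∀ z : ℂ, 0 < z.im → ∃ b : ℂ, X - b • cm c.N ∈ FEnd (fun p => V.F p z) 0 := by
  classical
  choose r Φ a hΦZ hΦlin hΦ using fun p => SV3_local V c p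
  set I : Finset ℤ := Finset.Icc V.lo V.hi with hI
  obtain ⟨A, hA⟩ : ∃ A : ℝ, ∀ p ∈ I, a p ≤ A := by
    refine ⟨∑ p ∈ I, |a p|, fun p hp => ?_⟩
    exact (le_abs_self _).trans
      (Finset.single_le_sum (f := fun p => |a p|) (fun _ _ => abs_nonneg _) hp)
  -- the condition at a point near the cusp
  have hcond : ∀ y : ℂ, A < y.im → 0 < y.im → ∀ Y : Matrix (Fin n) (Fin n) ℂ,
      (Y ∈ FEnd (fun p => V.F p y) 0 ↔ ∀ p ∈ I, Φ p Y y = 0) := by
    intro y hy hy0 Y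
    constructor
    · intro hY p hp
      refine (hΦ p y (lt_of_le_of_lt (hA p hp) hy) Y).1 fun x hx => ?_
      have h1 : Y *ᵥ x ∈ V.F (p + 0) y := hY p x hx
      rw [add_zero] at h1
      exact h1
    · intro hY p x hx
      have hx' : x ∈ V.F p y := hx
      show Y *ᵥ x ∈ V.F (p + 0) y
      rw [add_zero]
      rcases le_or_gt p V.lo with hp | hp
      · rw [f04_top V hy0 hp]
        trivial
      · rcases le_or_gt V.hi p with hp' | hp'
        · rw [f04_bot V hy0 hp'] at hx' ⊢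
          rw [Submodule.mem_bot] at hx' ⊢
          rw [hx', Matrix.mulVec_zero]
        · have hp2 : p ∈ I := Finset.mem_Icc.2 ⟨hp.le, hp'.le⟩
          exact (hΦ p y (lt_of_le_of_lt (hA p hp2) hy) Y).2 (hY p hp2) x hx'
  -- the coordinates
  let κ : Type := Σ p : {p : ℤ // p ∈ I}, Fin n × Fin (r p.1)
  let co : Matrix (Fin n) (Fin n) ℂ → κ → ℂ → ℂ := fun Y k y => Φ k.1.1 Y y k.2.1 k.2.2
  have hcoZ : ∀ Y k, Zfun (co Y k) := fun Y k => hΦZ k.1.1 Y k.2.1 k.2.2
  have hline : ∀ y : ℂ, A < y.im → 0 < y.im → ∀ b : ℂ,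
      (X - b • cm c.N ∈ FEnd (fun p => V.F p y) 0 ↔
        ∀ k : κ, co X k y = b * co (cm c.N) k y) := by
    intro y hy hy0 b
    rw [hcond y hy hy0]
    constructor
    · rintro h1 ⟨⟨p, hp⟩, i, j⟩
      have h2 := h1 p hp
      rw [hΦlin, sub_eq_zero] at h2
      exact congrFun (congrFun h2 i) j
    · intro h1 p hp
      rw [hΦlin, sub_eq_zero]
      ext i j
      exact h1 ⟨⟨p, hp⟩, i, j⟩
  -- the relations
  have hrel : ∀ k l : κ, ∃ a' : ℝ, ∀ y : ℂ, a' < y.im →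
      co X k y * co (cm c.N) l y - co X l y * co (cm c.N) k y = 0 := by
    intro k l
    refine lemmaZ (f := fun y => co X k y * co (cm c.N) l y - co X l y * co (cm c.N) k y)
      ?_ z hre him ?_
    · exact SV3_Z_sub (Zfun.mul (hcoZ _ _) (hcoZ _ _)) (Zfun.mul (hcoZ _ _) (hcoZ _ _))
    · have h1 : ∀ᶠ m in atTop, max A 0 < (z m).im := him.eventually_gt_atTop _
      filter_upwards [h1] with m hm
      have h2 : A < (z m).im := lt_of_le_of_lt (le_max_left _ _) hm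
      have h3 : 0 < (z m).im := lt_of_le_of_lt (le_max_right _ _) hm
      obtain ⟨b, hb⟩ := h m h3
      have h4 := (hline (z m) h2 h3 b).1 hb
      rw [h4 k, h4 l]
      ring
  choose a' ha' using hrel
  obtain ⟨A', hA'⟩ : ∃ A' : ℝ, ∀ k l, a' k l ≤ A' := by
    have hfin : (Set.range (fun x : κ × κ => a' x.1 x.2)).Finite := Set.finite_range _
    obtain ⟨A', hA'⟩ := hfin.bddAbove
    exact ⟨A', fun k l => hA' ⟨(k, l), rfl⟩⟩
  set M : ℝ := max (max A A') 0 with hM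
  have hMA : A ≤ M := (le_max_left _ _).trans (le_max_left _ _)
  have hMA' : A' ≤ M := (le_max_right _ _).trans (le_max_left _ _)
  have hM0 : 0 ≤ M := le_max_right _ _
  obtain ⟨b, -, hb⟩ := cont_line V (cm c.N) X hN {y : ℂ | M < y.im}
    (isOpen_lt continuous_const Complex.continuous_im)
    ⟨((M + 1 : ℝ) : ℂ) * Complex.I, by simp⟩
    (fun y hy => lt_of_le_of_lt hM0 hy) (by
      intro y hy
      have hy' : M < y.im := hy
      have h1 : A < y.im := lt_of_le_of_lt hMA hy'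
      have h2 : 0 < y.im := lt_of_le_of_lt hM0 hy'
      have h3 : ∃ l : κ, co (cm c.N) l y ≠ 0 := by
        by_contra hcon
        push Not at hcon
        apply hN y h2
        rw [hcond y h1 h2]
        intro p hp
        ext i j
        exact hcon ⟨⟨p, hp⟩, i, j⟩
      obtain ⟨l, hl⟩ := h3
      refine ⟨co X l y / co (cm c.N) l y, (hline y h1 h2 _).2 fun k => ?_⟩
      have h4 := ha' k l y (lt_of_le_of_lt (hA' k l) (lt_of_le_of_lt hMA' hy'))
      rw [div_mul_eq_mul_div, eq_div_iff hl]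
      linear_combination h4)
  exact fun y hy => ⟨b y, hb y hy⟩

theorem accum_strip {n : ℕ} (V : PolVHS n) (c : Cusp V) (X : Matrix (Fin n) (Fin n) ℂ)
    (hN : ∀ z : ℂ, 0 < z.im → cm c.N ∉ FEnd (fun p => V.F p z) 0) (y₀ : ℝ) (hy₀ : 0 < y₀)
    (S : Set ℂ) (hS : S.Infinite) (hS1 : ∀ z ∈ S, |z.re| ≤ 1 ∧ y₀ ≤ z.im)
    (h : ∀ z ∈ S, ∃ b : ℂ, X - b • cm c.N ∈ FEnd (fun p => V.F p z) 0) :
    ∀ z : ℂ, 0 < z.im → ∃ b : ℂ, X - b • cm c.N ∈ FEnd (fun p => V.F p z) 0 := by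
  by_cases hb : ∃ Y : ℝ, ∀ z ∈ S, z.im ≤ Y
  · obtain ⟨Y, hY⟩ := hb
    have hK : IsCompact {z : ℂ | |z.re| ≤ 1 ∧ y₀ ≤ z.im ∧ z.im ≤ Y} := by
      have h1 : {z : ℂ | |z.re| ≤ 1 ∧ y₀ ≤ z.im ∧ z.im ≤ Y} =
          Set.Icc (-1 : ℝ) 1 ×ℂ Set.Icc y₀ Y := by
        ext z
        simp only [Set.mem_setOf_eq, Complex.mem_reProdIm, Set.mem_Icc, abs_le]
      rw [h1]
      exact isCompact_Icc.reProdIm isCompact_Icc
    exact accum V (cm c.N) X hN _ hK (fun z hz => lt_of_lt_of_le hy₀ hz.2.1) S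
      (fun z hz => ⟨(hS1 z hz).1, (hS1 z hz).2, hY z hz⟩) hS h
  · have h2 : ∀ k : ℕ, ∃ z ∈ S, (k : ℝ) < z.im := by
      intro k
      by_contra hc
      refine hb ⟨k, fun z hz => ?_⟩
      by_contra hlt
      exact hc ⟨z, hz, lt_of_not_ge hlt⟩
    choose z hzS hzk using h2
    refine accum_cusp V c X hN z (fun k => (hS1 _ (hzS k)).1) ?_ (fun k _ => h _ (hzS k))
    exact tendsto_atTop_mono (fun k => (hzk k).le) tendsto_natCast_atTop_atTop

end MP2794d1.PC
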