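import Pool.Agent.Lib.MP_2794d1_ag.S11b

/-!
SV1: very high CM points. From `main_chain` (S11b): `δ, M, Y`. If `IsShimuraLine` fails then there is no chain
`z 0, ..., z M` of distinct points in the strip with `im > Y` which are CM of height `H k = h` with
`h * h ≤ exp (δ min (im, im))`. Let `K = max (2 / δ) ((|Y| + 1) / log 2)`: for `K log h ≤ im z`, `h ≥ 2`, we have `Y < im z` and
`h * h = exp (2 log h) ≤ exp (δ im z)`. So a finset `S` as in the statement has at most `M` elements (if `M < #S` enumerate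
`M + 1` of its elements: `Finset.exists_subset_card_eq`, `Finset.equivFin`, or `Finset.exists_injOn`…; extend the enumeration to `ℕ → ℂ`
arbitrarily).
-/

namespace MP2794d1.PC

open Matrix Complex Filter Topology

theorem high_count {n : ℕ} (V : PolVHS n) (c : Cusp V) (g : V.grp)
    (hg : c.N * c.conj g ≠ c.conj g * c.N) (hns : ¬ IsShimuraLine V c.N) :
    ∃ (M : ℕ) (K : ℝ), ∀ h : ℝ, 2 ≤ h → ∀ S : Finset ℂ,
      (∀ z ∈ S, |z.re| ≤ 1 ∧ K * Real.log h ≤ z.im ∧ IsCM V z h) → S.card ≤ M := by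
  obtain ⟨δ, hδ, M, Y, hmain⟩ := main_chain V c g hg
  have hl2 : 0 < Real.log 2 := Real.log_pos (by norm_num)
  refine ⟨M, max (2 / δ) ((|Y| + 1) / Real.log 2), ?_⟩
  intro h hh S hS
  by_contra hcard
  have hMS : ∀ k, k ≤ M → k < S.card := fun k hk => by omega
  have hlh : Real.log 2 ≤ Real.log h := Real.log_le_log (by norm_num) hh
  have hlh0 : 0 < Real.log h := lt_of_lt_of_le hl2 hlh
  have hYz : ∀ z ∈ S, Y < z.im := by
    intro z hz
    have h1 := (hS z hz).2.1
    have h2 : (|Y| + 1) / Real.log 2 * Real.log h ≤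
        max (2 / δ) ((|Y| + 1) / Real.log 2) * Real.log h :=
      mul_le_mul_of_nonneg_right (le_max_right _ _) hlh0.le
    have h3 : (|Y| + 1) ≤ (|Y| + 1) / Real.log 2 * Real.log h := by
      rw [div_mul_eq_mul_div, le_div_iff₀ hl2]
      exact mul_le_mul_of_nonneg_left hlh (by positivity)
    have h4 := le_abs_self Y
    linarith
  have hexp : ∀ z ∈ S, 2 * Real.log h ≤ δ * z.im := by
    intro z hz
    have h1 := (hS z hz).2.1
    have h2 : 2 / δ * Real.log h ≤
        max (2 / δ) ((|Y| + 1) / Real.log 2) * Real.log h :=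
      mul_le_mul_of_nonneg_right (le_max_left _ _) hlh0.le
    have h3 : 2 / δ * Real.log h ≤ z.im := h2.trans h1
    rw [div_mul_eq_mul_div, div_le_iff₀ hδ] at h3
    linarith
  have hmem : ∀ (k : ℕ) (hk : k < S.card), ((S.equivFin.symm ⟨k, hk⟩ : S) : ℂ) ∈ S :=
    fun k hk => (S.equivFin.symm ⟨k, hk⟩).2
  apply hns
  refine hmain M le_rfl
    (fun k => if hk : k < S.card then ((S.equivFin.symm ⟨k, hk⟩ : S) : ℂ) else 0)
    (fun _ => h) ?_ ?_ ?_ ?_ ?_ ?_
  · intro k hk
    show |(if hk : k < S.card then ((S.equivFin.symm ⟨k, hk⟩ : S) : ℂ) else 0).re| ≤ 1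
    rw [dif_pos (hMS k hk)]
    exact (hS _ (hmem k _)).1
  · intro k hk
    show Y < (if hk : k < S.card then ((S.equivFin.symm ⟨k, hk⟩ : S) : ℂ) else 0).im
    rw [dif_pos (hMS k hk)]
    exact hYz _ (hmem k _)
  · intro i j hi hj hij
    have hij' : (if hk : i < S.card then ((S.equivFin.symm ⟨i, hk⟩ : S) : ℂ) else 0) =
        (if hk : j < S.card then ((S.equivFin.symm ⟨j, hk⟩ : S) : ℂ) else 0) := hij
    rw [dif_pos (hMS i hi), dif_pos (hMS j hj)] at hij'
    have h1 := S.equivFin.symm.injective (Subtype.ext hij')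
    exact congrArg Fin.val h1
  · intro k _
    show 1 ≤ h
    linarith
  · intro k hk
    show IsCM V (if hk : k < S.card then ((S.equivFin.symm ⟨k, hk⟩ : S) : ℂ) else 0) h
    rw [dif_pos (hMS k hk)]
    exact (hS _ (hmem k _)).2.2
  · intro k hk
    show h * h ≤ Real.exp (δ * min
      (if hk : k < S.card then ((S.equivFin.symm ⟨k, hk⟩ : S) : ℂ) else 0).im
      (if hk : k + 1 < S.card then ((S.equivFin.symm ⟨k + 1, hk⟩ : S) : ℂ) else 0).im)
    rw [dif_pos (hMS k (by omega)), dif_pos (hMS (k + 1) (by omega))]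
    have h1 := hexp _ (hmem k (hMS k (by omega)))
    have h2 := hexp _ (hmem (k + 1) (hMS (k + 1) (by omega)))
    have h3 : 2 * Real.log h ≤ δ * min ((S.equivFin.symm ⟨k, hMS k (by omega)⟩ : S) : ℂ).im
        ((S.equivFin.symm ⟨k + 1, hMS (k + 1) (by omega)⟩ : S) : ℂ).im := by
      rw [mul_min_of_nonneg _ _ hδ.le]
      exact le_min h1 h2
    have hhp : 0 < h := by linarith
    calc h * h = Real.exp (2 * Real.log h) := by
          rw [two_mul, Real.exp_add, Real.exp_log hhp]
      _ ≤ _ := Real.exp_le_exp.2 h3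

end MP2794d1.PC
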