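import Pool.Agent.Lib.MP_2794d1_ag.PC.CV2
import Pool.Agent.Lib.MP_2794d1_ag.PC.SC4
import Pool.Agent.Lib.MP_2794d1_ag.PC.SV1

/-!
SV4: the strip, first case. `M, K` from `high_count`; datum, `α`, `SLB` as in CV2 (`exists_datum`, `exists_slb`), `Y₂` from
`strip_sum`. For `h ≥ 2` let `B = C₀ h ^ C₀` (`2 ≤ B`, `h ≤ B`, `log B ≤ C₁ log h`). A finset `S` of points of the set is the union of
three parts: `im z ≤ Y₂`: in the compact `{|re z| ≤ 1, y₀ ≤ im z ≤ Y₂}`, at most `C (log B) ^ 6` points by `compact_count` (CV1);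
`Y₂ ≤ im z ≤ K log h`: then `im z ≤ max K 0 * log B`, at most `C (log B) ^ 7` points by `strip_sum`; `K log h ≤ im z`: at most `M` points.
All is `≤ C' (log h) ^ 7` since `log h ≥ log 2`. Finiteness and `ncard` as in CV2.
-/

namespace MP2794d1.PC

open Matrix Complex Filter Topology

theorem SV4_finite (S : Set ℂ) (R : ℝ)
    (h : ∀ T : Finset ℂ, (∀ z ∈ T, z ∈ S) → (T.card : ℝ) ≤ R) :
    S.Finite ∧ ((S.ncard : ℕ) : ℝ) ≤ R := by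
  have hfin : S.Finite := by
    by_contra hinf
    obtain ⟨t, ht, hcard⟩ := Set.Infinite.exists_subset_card_eq hinf (⌊R⌋₊ + 1)
    have h1 := h t (fun z hz => ht hz)
    rw [hcard] at h1
    have h2 := Nat.lt_floor_add_one R
    push_cast at h1
    linarith
  refine ⟨hfin, ?_⟩
  have h1 := h hfin.toFinset (fun z hz => hfin.mem_toFinset.1 hz)
  rwa [Set.ncard_eq_toFinset_card S hfin]

theorem SV4_mono {n : ℕ} {V : PolVHS n} {z : ℂ} {h h' : ℝ} (hcm : IsCM V z h) (hh : h ≤ h') :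
    IsCM V z h' := by
  obtain ⟨A, h1, h2, h3⟩ := hcm
  exact ⟨A, fun i j => (h1 i j).trans hh, h2, h3⟩

theorem SV4_compact (y₀ Y : ℝ) : IsCompact {z : ℂ | |z.re| ≤ 1 ∧ y₀ ≤ z.im ∧ z.im ≤ Y} := by
  have h1 : {z : ℂ | |z.re| ≤ 1 ∧ y₀ ≤ z.im ∧ z.im ≤ Y} =
      Set.Icc (-1 : ℝ) 1 ×ℂ Set.Icc y₀ Y := by
    ext z
    simp only [Set.mem_ofPred_eq, Complex.mem_reProdIm, Set.mem_Icc, abs_le]
  rw [h1]
  exact isCompact_Icc.reProdIm isCompact_Icc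

theorem SV4_log {C₀ : ℕ} (hC₀ : 1 ≤ C₀) {h : ℝ} (hh : 2 ≤ h) :
    2 ≤ (C₀ : ℝ) * h ^ C₀ ∧ h ≤ (C₀ : ℝ) * h ^ C₀ ∧
      Real.log ((C₀ : ℝ) * h ^ C₀) ≤ 3 * C₀ * Real.log h ∧ 1 ≤ 2 * Real.log h := by
  have h1 : (1 : ℝ) ≤ (C₀ : ℝ) := by exact_mod_cast hC₀
  have h2 : h ≤ h ^ C₀ := by
    calc h = h ^ 1 := (pow_one h).symm
      _ ≤ h ^ C₀ := pow_le_pow_right₀ (by linarith) hC₀
  have h3 : h ≤ (C₀ : ℝ) * h ^ C₀ := by
    calc h ≤ h ^ C₀ := h2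
      _ = 1 * h ^ C₀ := (one_mul _).symm
      _ ≤ (C₀ : ℝ) * h ^ C₀ := mul_le_mul_of_nonneg_right h1 (by positivity)
  have h4 : Real.log 2 ≤ Real.log h := Real.log_le_log (by norm_num) hh
  have h5 : (0.6931471803 : ℝ) < Real.log 2 := Real.log_two_gt_d9
  have h6 : 1 ≤ 2 * Real.log h := by linarith
  refine ⟨hh.trans h3, h3, ?_, h6⟩
  have hC0 : (0 : ℝ) < (C₀ : ℝ) := by linarith
  have hhp : (0 : ℝ) < h := by linarith
  rw [Real.log_mul hC0.ne' (pow_pos hhp _).ne', Real.log_pow]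
  have h7 : Real.log (C₀ : ℝ) ≤ (C₀ : ℝ) := (Real.log_le_sub_one_of_pos hC0).trans (by linarith)
  have h8 : (C₀ : ℝ) * 1 ≤ (C₀ : ℝ) * (2 * Real.log h) := mul_le_mul_of_nonneg_left h6 hC0.le
  nlinarith [h7, h8]

theorem strip_one {n : ℕ} (V : PolVHS n) (c : Cusp V) (g : V.grp)
    (hg : c.N * c.conj g ≠ c.conj g * c.N) (hns : ¬ IsShimuraLine V c.N)
    (z' : ℂ) (hz' : 0 < z'.im) (h' : ℝ) (hcm : IsCM V z' h') (g₁ g₂ : V.grp)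
    (hI : ∀ a b : ℂ, a • cm (c.conj g₁) + b • cm (c.conj g₂) ∈ FEnd (fun p => V.F p z') 0 →
      a = 0 ∧ b = 0) (y₀ : ℝ) (hy₀ : 0 < y₀) :
    ∃ C : ℝ, ∀ h : ℝ, 2 ≤ h → {z : ℂ | |z.re| ≤ 1 ∧ y₀ ≤ z.im ∧ IsCM V z h}.Finite ∧
      (({z : ℂ | |z.re| ≤ 1 ∧ y₀ ≤ z.im ∧ IsCM V z h}.ncard : ℕ) : ℝ) ≤ C * Real.log h ^ 7 := by
  obtain ⟨M, K, hM⟩ := high_count V c g hg hns
  obtain ⟨ι, i1, i2, D, κ, i3, C₀, hC₀, hCM, hInd⟩ := exists_datum V c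
  obtain ⟨v, hv1, hv2⟩ := hCM z' hz' (max h' 1) (le_max_right _ _)
    (SV4_mono hcm (le_max_left _ _))
  obtain ⟨α, hα⟩ := exists_slb D g₁ g₂ z' hz' v hv1 hv2 (hInd z' hz' v hv1 g₁ g₂ hI)
  obtain ⟨Y₂, hY₂, hstrip⟩ := strip_sum (κ := κ) D α hα
  obtain ⟨C₁, hC₁, h₁⟩ := hstrip (max K 0)
  obtain ⟨C₂, hC₂, h₂⟩ := compact_count (κ := κ) D α hα _ (SV4_compact y₀ Y₂)
    (fun z hz => lt_of_lt_of_le hy₀ hz.2.1)
  refine ⟨C₂ * (3 * C₀) ^ 6 * 2 + C₁ * (3 * C₀) ^ 7 + M * 2 ^ 7, fun h hh => ?_⟩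
  apply SV4_finite
  intro T hT
  obtain ⟨hB2, hhB, hlogB, hl⟩ := SV4_log hC₀ hh
  have hl0 : 0 ≤ Real.log h := by linarith
  have hlB0 : 0 ≤ Real.log ((C₀ : ℝ) * h ^ C₀) := Real.log_nonneg (by linarith)
  have hCM' : ∀ z ∈ T, ∃ v, D.L z v ∧ IntRep κ ((C₀ : ℝ) * h ^ C₀) v := fun z hz =>
    hCM z (lt_of_lt_of_le hy₀ (hT z hz).2.1) h (by linarith) (hT z hz).2.2
  have c1 : ((T.filter (fun z => z.im ≤ Y₂)).card : ℝ) ≤
      C₂ * Real.log ((C₀ : ℝ) * h ^ C₀) ^ 6 := by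
    apply h₂ _ hB2
    intro z hz
    rw [Finset.mem_filter] at hz
    exact ⟨⟨(hT z hz.1).1, (hT z hz.1).2.1, hz.2⟩, hCM' z hz.1⟩
  have c2 : ((T.filter (fun z => Y₂ ≤ z.im ∧ z.im ≤ K * Real.log h)).card : ℝ) ≤
      C₁ * Real.log ((C₀ : ℝ) * h ^ C₀) ^ 7 := by
    apply h₁ _ hB2
    intro z hz
    rw [Finset.mem_filter] at hz
    refine ⟨(hT z hz.1).1, hz.2.1, ?_, hCM' z hz.1⟩
    calc z.im ≤ K * Real.log h := hz.2.2
      _ ≤ max K 0 * Real.log h := mul_le_mul_of_nonneg_right (le_max_left _ _) hl0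
      _ ≤ max K 0 * Real.log ((C₀ : ℝ) * h ^ C₀) :=
          mul_le_mul_of_nonneg_left (Real.log_le_log (by linarith) hhB) (le_max_right _ _)
  have c3 : (T.filter (fun z => K * Real.log h ≤ z.im)).card ≤ M := by
    apply hM h hh
    intro z hz
    rw [Finset.mem_filter] at hz
    exact ⟨(hT z hz.1).1, hz.2, (hT z hz.1).2.2⟩
  have c4 : T.card ≤ (T.filter (fun z => z.im ≤ Y₂)).card +
      (T.filter (fun z => Y₂ ≤ z.im ∧ z.im ≤ K * Real.log h)).card +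
      (T.filter (fun z => K * Real.log h ≤ z.im)).card := by
    have hsub : T ⊆ (T.filter (fun z => z.im ≤ Y₂) ∪
        T.filter (fun z => Y₂ ≤ z.im ∧ z.im ≤ K * Real.log h)) ∪
        T.filter (fun z => K * Real.log h ≤ z.im) := by
      intro z hz
      simp only [Finset.mem_union, Finset.mem_filter]
      rcases le_total z.im Y₂ with h3 | h3
      · exact Or.inl (Or.inl ⟨hz, h3⟩)
      · rcases le_total z.im (K * Real.log h) with h4 | h4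
        · exact Or.inl (Or.inr ⟨hz, h3, h4⟩)
        · exact Or.inr ⟨hz, h4⟩
    calc T.card ≤ _ := Finset.card_le_card hsub
      _ ≤ _ := (Finset.card_union_le _ _).trans (Nat.add_le_add_right (Finset.card_union_le _ _) _)
  have c5 : (T.card : ℝ) ≤ ((T.filter (fun z => z.im ≤ Y₂)).card : ℝ) +
      ((T.filter (fun z => Y₂ ≤ z.im ∧ z.im ≤ K * Real.log h)).card : ℝ) +
      ((T.filter (fun z => K * Real.log h ≤ z.im)).card : ℝ) := by exact_mod_cast c4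
  have c6 : ((T.filter (fun z => K * Real.log h ≤ z.im)).card : ℝ) ≤ (M : ℝ) := by
    exact_mod_cast c3
  have p6 : Real.log ((C₀ : ℝ) * h ^ C₀) ^ 6 ≤ (3 * C₀ * Real.log h) ^ 6 :=
    pow_le_pow_left₀ hlB0 hlogB 6
  have p7 : Real.log ((C₀ : ℝ) * h ^ C₀) ^ 7 ≤ (3 * C₀ * Real.log h) ^ 7 :=
    pow_le_pow_left₀ hlB0 hlogB 7
  have q6 : Real.log h ^ 6 ≤ 2 * Real.log h ^ 7 := by
    calc Real.log h ^ 6 = 1 * Real.log h ^ 6 := (one_mul _).symm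
      _ ≤ (2 * Real.log h) * Real.log h ^ 6 := mul_le_mul_of_nonneg_right hl (by positivity)
      _ = 2 * Real.log h ^ 7 := by ring
  have q0 : (1 : ℝ) ≤ 2 ^ 7 * Real.log h ^ 7 := by
    calc (1 : ℝ) = 1 ^ 7 := (one_pow 7).symm
      _ ≤ (2 * Real.log h) ^ 7 := pow_le_pow_left₀ (by norm_num) hl 7
      _ = 2 ^ 7 * Real.log h ^ 7 := by ring
  have e1 : C₂ * Real.log ((C₀ : ℝ) * h ^ C₀) ^ 6 ≤ C₂ * (3 * C₀) ^ 6 * 2 * Real.log h ^ 7 := by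
    calc C₂ * Real.log ((C₀ : ℝ) * h ^ C₀) ^ 6 ≤ C₂ * (3 * C₀ * Real.log h) ^ 6 :=
          mul_le_mul_of_nonneg_left p6 hC₂.le
      _ = C₂ * (3 * C₀) ^ 6 * Real.log h ^ 6 := by ring
      _ ≤ C₂ * (3 * C₀) ^ 6 * (2 * Real.log h ^ 7) :=
          mul_le_mul_of_nonneg_left q6 (by positivity)
      _ = C₂ * (3 * C₀) ^ 6 * 2 * Real.log h ^ 7 := by ring
  have e2 : C₁ * Real.log ((C₀ : ℝ) * h ^ C₀) ^ 7 ≤ C₁ * (3 * C₀) ^ 7 * Real.log h ^ 7 := by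
    calc C₁ * Real.log ((C₀ : ℝ) * h ^ C₀) ^ 7 ≤ C₁ * (3 * C₀ * Real.log h) ^ 7 :=
          mul_le_mul_of_nonneg_left p7 hC₁.le
      _ = C₁ * (3 * C₀) ^ 7 * Real.log h ^ 7 := by ring
  have e3 : (M : ℝ) ≤ M * 2 ^ 7 * Real.log h ^ 7 := by
    calc (M : ℝ) = M * 1 := (mul_one _).symm
      _ ≤ M * (2 ^ 7 * Real.log h ^ 7) := mul_le_mul_of_nonneg_left q0 (Nat.cast_nonneg _)
      _ = M * 2 ^ 7 * Real.log h ^ 7 := by ring
  calc (T.card : ℝ) ≤ C₂ * (3 * C₀) ^ 6 * 2 * Real.log h ^ 7 +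
        C₁ * (3 * C₀) ^ 7 * Real.log h ^ 7 + M * 2 ^ 7 * Real.log h ^ 7 := by linarith
    _ = (C₂ * (3 * C₀) ^ 6 * 2 + C₁ * (3 * C₀) ^ 7 + M * 2 ^ 7) * Real.log h ^ 7 := by ring

end MP2794d1.PC
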