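import Pool.Agent.Lib.MP_2794d1_ag.PC.SV2
import Pool.Agent.Lib.MP_2794d1_ag.PC.SV3
import Pool.Agent.Lib.MP_2794d1_ag.PC.SV4
import Pool.Agent.Lib.MP_2794d1_ag.PC.CH7
import Pool.Agent.Lib.MP_2794d1_ag.S03

/-!
SV5: the strip `|re z| ≤ 1`. `g` from `exists_noncomm`. If some CM point has independent `N_{g₁}`, `N_{g₂}`: `strip_one`. Otherwise
(as in CV4) at every CM point every `N_g` is in `ℂ N + FEnd 0`. If the set `S` of all CM points of the strip (of any height) is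
infinite then `accum_strip` for every `g` gives the hypothesis `hdep` of `shimura` (CH7), against `hns`. So `S` is finite and
`C = #S / (log 2) ^ 7` works.
-/

namespace MP2794d1.PC

open Matrix Complex Filter Topology

theorem SV5_conj_one {n : ℕ} (V : PolVHS n) (c : Cusp V) : c.conj 1 = c.N := by
  unfold Cusp.conj
  rw [inv_one, map_one]
  have h1 : ((1 : Matrix.GeneralLinearGroup (Fin n) ℤ) : Matrix (Fin n) (Fin n) ℤ).map
      (fun q : ℤ => (q : ℚ)) = 1 := by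
    ext i j
    rw [Matrix.map_apply, Units.val_one, Matrix.one_apply, Matrix.one_apply]
    split_ifs <;> norm_num
  rw [h1, Matrix.one_mul, Matrix.mul_one]

theorem SV5_dep {n : ℕ} (V : PolVHS n) (c : Cusp V) (hN : c.N ≠ 0) (z : ℂ) (hz : 0 < z.im)
    (g : V.grp)
    (hP : ¬ ∀ a b : ℂ, a • cm (c.conj 1) + b • cm (c.conj g) ∈ FEnd (fun p => V.F p z) 0 →
      a = 0 ∧ b = 0) :
    ∃ b : ℂ, cm (c.conj g) - b • cm c.N ∈ FEnd (fun p => V.F p z) 0 := by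
  by_contra hno
  apply hP
  intro a b hab
  rw [SV5_conj_one] at hab
  have hb : b = 0 := by
    by_contra hb
    apply hno
    refine ⟨-(a / b), ?_⟩
    have h1 := Submodule.smul_mem _ (b⁻¹) hab
    have h2 : b⁻¹ • (a • cm c.N + b • cm (c.conj g)) = cm (c.conj g) - (-(a / b)) • cm c.N := by
      rw [smul_add, smul_smul, smul_smul, inv_mul_cancel₀ hb, one_smul, neg_smul, sub_neg_eq_add,
        add_comm, mul_comm, div_eq_mul_inv]
    rw [h2] at h1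
    exact h1
  refine ⟨?_, hb⟩
  by_contra ha
  rw [hb, zero_smul, add_zero] at hab
  have h1 := Submodule.smul_mem _ (a⁻¹) hab
  rw [smul_smul, inv_mul_cancel₀ ha, one_smul] at h1
  exact N_not_mem V c hN z hz h1

theorem SV5_fin (S : Set ℂ) (P : ℂ → ℝ → Prop) (hS : S.Finite)
    (hsub : ∀ (z : ℂ) (h : ℝ), P z h → z ∈ S) (e : ℕ) :
    ∃ C : ℝ, ∀ h : ℝ, 2 ≤ h → {z : ℂ | P z h}.Finite ∧
      (({z : ℂ | P z h}.ncard : ℕ) : ℝ) ≤ C * Real.log h ^ e := by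
  refine ⟨(S.ncard : ℝ) / Real.log 2 ^ e, fun h hh => ?_⟩
  have h1 : {z : ℂ | P z h} ⊆ S := fun z hz => hsub z h hz
  refine ⟨hS.subset h1, ?_⟩
  have h2 : ({z : ℂ | P z h}.ncard : ℝ) ≤ (S.ncard : ℝ) := by
    exact_mod_cast Set.ncard_le_ncard h1 hS
  have h3 : 0 < Real.log 2 := Real.log_pos (by norm_num)
  have h4 : Real.log 2 ≤ Real.log h := Real.log_le_log (by norm_num) hh
  have h5 : Real.log 2 ^ e ≤ Real.log h ^ e := pow_le_pow_left₀ h3.le h4 e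
  have h6 : 0 < Real.log 2 ^ e := pow_pos h3 e
  calc ({z : ℂ | P z h}.ncard : ℝ) ≤ (S.ncard : ℝ) := h2
    _ = (S.ncard : ℝ) / Real.log 2 ^ e * Real.log 2 ^ e := by field_simp
    _ ≤ (S.ncard : ℝ) / Real.log 2 ^ e * Real.log h ^ e := by
        apply mul_le_mul_of_nonneg_left h5
        positivity

theorem strip_unit {n : ℕ} (V : PolVHS n) (c : Cusp V) (hN : c.N ≠ 0)
    (hmon : ∀ g : V.grp, c.conj g ∈ genericMT V)
    (hgen : ∀ X ∈ genericMT V, ∃ Y ∈ Submodule.span ℚ (Set.range c.conj),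
      ∀ X' ∈ genericMT V, (X - Y) * X' = X' * (X - Y))
    (hns : ¬ IsShimuraLine V c.N) (y₀ : ℝ) (hy₀ : 0 < y₀) :
    ∃ C : ℝ, ∀ h : ℝ, 2 ≤ h → {z : ℂ | |z.re| ≤ 1 ∧ y₀ ≤ z.im ∧ IsCM V z h}.Finite ∧
      (({z : ℂ | |z.re| ≤ 1 ∧ y₀ ≤ z.im ∧ IsCM V z h}.ncard : ℕ) : ℝ) ≤ C * Real.log h ^ 7 := by
  obtain ⟨g, hg⟩ := exists_noncomm V c hN hmon hgen
  by_cases hP : ∃ (z' : ℂ) (h' : ℝ) (g₁ g₂ : V.grp), 0 < z'.im ∧ IsCM V z' h' ∧
      ∀ a b : ℂ, a • cm (c.conj g₁) + b • cm (c.conj g₂) ∈ FEnd (fun p => V.F p z') 0 →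
        a = 0 ∧ b = 0
  · obtain ⟨z', h', g₁, g₂, hz', hcm, hI⟩ := hP
    exact strip_one V c g hg hns z' hz' h' hcm g₁ g₂ hI y₀ hy₀
  · have hdep : ∀ (z : ℂ) (h : ℝ), 0 < z.im → IsCM V z h → ∀ g : V.grp,
        ∃ b : ℂ, cm (c.conj g) - b • cm c.N ∈ FEnd (fun p => V.F p z) 0 := by
      intro z h hz hcm g
      apply SV5_dep V c hN z hz g
      intro hall
      exact hP ⟨z, h, 1, g, hz, hcm, hall⟩
    have hfin : {z : ℂ | |z.re| ≤ 1 ∧ y₀ ≤ z.im ∧ ∃ h : ℝ, IsCM V z h}.Finite := by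
      by_contra hinf
      apply hns
      apply shimura V c hN hmon hgen
      intro g
      refine accum_strip V c (cm (c.conj g)) (N_not_mem V c hN) y₀ hy₀ _ hinf
        (fun z hz => ⟨hz.1, hz.2.1⟩) ?_
      rintro z ⟨h1, h2, h, h3⟩
      exact hdep z h (lt_of_lt_of_le hy₀ h2) h3 g
    exact SV5_fin _ (fun z h => |z.re| ≤ 1 ∧ y₀ ≤ z.im ∧ IsCM V z h) hfin
      (fun z h hz => ⟨hz.1, hz.2.1, h, hz.2.2⟩) 7

end MP2794d1.PC
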