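import Pool.Agent.Lib.MP_2794d1_ag.F07
import Pool.Agent.Lib.MP_2794d1_ag.F08
import Pool.Agent.Lib.MP_2794d1_ag.PC.Defs

/-!
SV6: translations. `cm_equiv`: if `A` works at `z` (`IsCM V z h`) then `A' = ρ(g) A ρ(g⁻¹)` works at `mob g z`: it preserves
`V.F p (mob g z) = (V.F p z).map (im ρ(g))` (`V.equiv`, `F08_rho`), its characteristic polynomial is that of `A`
(`Matrix.charpoly` of a conjugate: `Matrix.charpoly_units_conj`), entries at most `C h` with
`C = 1 + (sum of the entries of ρ(g)) (sum of the entries of ρ(g⁻¹))`, absolute values.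
`strip_all`: the set with `|re z| ≤ b` is contained in the union over the integers `j`, `|j| ≤ b + 1`, of the translates by `j`
(the elements `c.T ^ j`, `mob (c.T ^ j) z = z + j`, also for negative `j`: `mob_mob`, `mob_one`) of the points `w` with
`|re w| ≤ 1`, and if `z = w + j` is CM of height `h` then `w` is CM of height `C_j h ≤ h ^ l` for all `h ≥ 2` and a
suitable `l`, `log (h ^ l) = l log h`. Finite union of injective images: compare with the image of a product of finsets.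
-/

namespace MP2794d1.PC

open Matrix Complex Filter Topology

theorem cm_equiv {n : ℕ} (V : PolVHS n) (g : V.grp) : ∃ C : ℝ, 1 ≤ C ∧ ∀ z : ℂ, 0 < z.im →
    ∀ h : ℝ, 0 ≤ h → IsCM V z h → IsCM V (mob g z) (C * h) := by
  obtain ⟨h1, h2⟩ := F08_rho V g
  set P : Matrix (Fin n) (Fin n) ℤ := (V.rho g : Matrix (Fin n) (Fin n) ℤ) with hP
  set P' : Matrix (Fin n) (Fin n) ℤ := (V.rho g⁻¹ : Matrix (Fin n) (Fin n) ℤ) with hP'
  set m : ℝ := ∑ i, ∑ k, |(P i k : ℝ)| with hm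
  set m' : ℝ := ∑ i, ∑ k, |(P' i k : ℝ)| with hm'
  have hm0 : 0 ≤ m := Finset.sum_nonneg fun i _ => Finset.sum_nonneg fun k _ => abs_nonneg _
  have hm0' : 0 ≤ m' := Finset.sum_nonneg fun i _ => Finset.sum_nonneg fun k _ => abs_nonneg _
  refine ⟨1 + m * m', by nlinarith [mul_nonneg hm0 hm0'], ?_⟩
  rintro z hz h hh ⟨A, hA1, hA2, hA3⟩
  refine ⟨P * A * P', ?_, ?_, ?_⟩
  · intro i j
    have e1 : (((P * A * P') i j : ℤ) : ℝ) =
        ∑ l, (∑ k, (P i k : ℝ) * (A k l : ℝ)) * (P' l j : ℝ) := by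
      rw [Matrix.mul_apply]
      push_cast
      refine Finset.sum_congr rfl fun l _ => ?_
      rw [Matrix.mul_apply]
      push_cast
      rfl
    rw [e1]
    have e2 : ∀ l, |(∑ k, (P i k : ℝ) * (A k l : ℝ)) * (P' l j : ℝ)| ≤ (m * h) * |(P' l j : ℝ)| := by
      intro l
      rw [abs_mul]
      refine mul_le_mul_of_nonneg_right ?_ (abs_nonneg _)
      calc |∑ k, (P i k : ℝ) * (A k l : ℝ)| ≤ ∑ k, |(P i k : ℝ) * (A k l : ℝ)| :=
            Finset.abs_sum_le_sum_abs _ _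
        _ ≤ ∑ k, |(P i k : ℝ)| * h := by
            refine Finset.sum_le_sum fun k _ => ?_
            rw [abs_mul]
            exact mul_le_mul_of_nonneg_left (hA1 k l) (abs_nonneg _)
        _ = (∑ k, |(P i k : ℝ)|) * h := by rw [Finset.sum_mul]
        _ ≤ m * h := by
            refine mul_le_mul_of_nonneg_right ?_ hh
            exact Finset.single_le_sum (f := fun i => ∑ k, |(P i k : ℝ)|)
              (fun i _ => Finset.sum_nonneg fun k _ => abs_nonneg _) (Finset.mem_univ i)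
    calc |∑ l, (∑ k, (P i k : ℝ) * (A k l : ℝ)) * (P' l j : ℝ)|
        ≤ ∑ l, |(∑ k, (P i k : ℝ) * (A k l : ℝ)) * (P' l j : ℝ)| := Finset.abs_sum_le_sum_abs _ _
      _ ≤ ∑ l, (m * h) * |(P' l j : ℝ)| := Finset.sum_le_sum fun l _ => e2 l
      _ = (m * h) * ∑ l, |(P' l j : ℝ)| := by rw [Finset.mul_sum]
      _ ≤ (m * h) * m' := by
          refine mul_le_mul_of_nonneg_left ?_ (mul_nonneg hm0 hh)
          refine Finset.sum_le_sum fun l _ => ?_
          exact Finset.single_le_sum (f := fun k => |(P' l k : ℝ)|)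
            (fun k _ => abs_nonneg _) (Finset.mem_univ j)
      _ ≤ (1 + m * m') * h := by nlinarith
  · let M : (Matrix (Fin n) (Fin n) ℂ)ˣ := ⟨im P, im P', h1, h2⟩
    have h3 := Matrix.charpoly_units_conj M (im A)
    have h4 : im (P * A * P') = M.val * im A * M⁻¹.val := by
      rw [F08_im_mul, F08_im_mul]
      rfl
    rw [h4, Matrix.coe_units_inv, h3]
    exact hA2
  · intro p x hx
    rw [V.equiv g p z hz] at hx ⊢
    obtain ⟨w, hw, rfl⟩ := hx
    refine ⟨im A *ᵥ w, hA3 p w hw, ?_⟩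
    show im P *ᵥ (im A *ᵥ w) = im (P * A * P') *ᵥ (im P *ᵥ w)
    rw [F08_im_mul, F08_im_mul, Matrix.mulVec_mulVec, Matrix.mulVec_mulVec, Matrix.mul_assoc,
      Matrix.mul_assoc, h2, Matrix.mul_one]

lemma SV6_nat {n : ℕ} (V : PolVHS n) (c : Cusp V) (k : ℕ) (z : ℂ) (hz : 0 < z.im) :
    mob (c.T ^ k : V.grp) z = z + k := by
  induction k with
  | zero =>
    have h1 : (((c.T ^ 0 : V.grp)) : Matrix.SpecialLinearGroup (Fin 2) ℝ) = 1 := by
      rw [pow_zero]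
      rfl
    rw [h1, mob_one]
    simp
  | succ k ih =>
    have h1 : (((c.T ^ (k + 1) : V.grp)) : Matrix.SpecialLinearGroup (Fin 2) ℝ) =
        (c.T : Matrix.SpecialLinearGroup (Fin 2) ℝ) * ((c.T ^ k : V.grp) :
          Matrix.SpecialLinearGroup (Fin 2) ℝ) := by
      rw [pow_succ']
      rfl
    rw [h1, ← mob_mob _ _ z hz, ih, c.T_eq]
    push_cast
    ring

lemma SV6_int {n : ℕ} (V : PolVHS n) (c : Cusp V) (j : ℤ) (z : ℂ) (hz : 0 < z.im) :
    mob (c.T ^ j : V.grp) z = z + j := by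
  rcases Int.eq_nat_or_neg j with ⟨k, hk | hk⟩
  · subst hk
    have h1 : (c.T ^ (k : ℤ) : V.grp) = c.T ^ k := _root_.zpow_natCast _ _
    rw [h1, SV6_nat V c k z hz]
    simp
  · subst hk
    have hw : 0 < (z - k).im := by simpa using hz
    have h2 := SV6_nat V c k (z - k) hw
    rw [sub_add_cancel] at h2
    have h3 : mob (c.T ^ (-(k : ℤ)) : V.grp) (mob (c.T ^ k : V.grp) (z - k)) = z - k := by
      rw [mob_mob _ _ _ hw]
      have h4 : (((c.T ^ (-(k : ℤ)) : V.grp)) : Matrix.SpecialLinearGroup (Fin 2) ℝ) *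
          ((c.T ^ k : V.grp) : Matrix.SpecialLinearGroup (Fin 2) ℝ) = 1 := by
        have h5 : (c.T ^ (-(k : ℤ)) : V.grp) * c.T ^ k = 1 := by
          rw [_root_.zpow_neg, _root_.zpow_natCast, inv_mul_cancel]
        have h6 := congrArg (fun x : V.grp => (x : Matrix.SpecialLinearGroup (Fin 2) ℝ)) h5
        exact h6
      rw [h4, mob_one]
    rw [h2] at h3
    rw [h3]
    push_cast
    ring

lemma SV6_mono {n : ℕ} (V : PolVHS n) (z : ℂ) (h h' : ℝ) (hh : h ≤ h') (hz : IsCM V z h) :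
    IsCM V z h' := by
  obtain ⟨A, h1, h2, h3⟩ := hz
  exact ⟨A, fun i j => (h1 i j).trans hh, h2, h3⟩

theorem strip_all {n : ℕ} (V : PolVHS n) (c : Cusp V) (y₀ : ℝ) (hy₀ : 0 < y₀)
    (hu : ∃ C : ℝ, ∀ h : ℝ, 2 ≤ h → {z : ℂ | |z.re| ≤ 1 ∧ y₀ ≤ z.im ∧ IsCM V z h}.Finite ∧
      (({z : ℂ | |z.re| ≤ 1 ∧ y₀ ≤ z.im ∧ IsCM V z h}.ncard : ℕ) : ℝ) ≤ C * Real.log h ^ 7)
    (b : ℝ) :
    ∃ C : ℝ, ∀ h : ℝ, 2 ≤ h → {z : ℂ | |z.re| ≤ b ∧ y₀ ≤ z.im ∧ IsCM V z h}.Finite ∧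
      (({z : ℂ | |z.re| ≤ b ∧ y₀ ≤ z.im ∧ IsCM V z h}.ncard : ℕ) : ℝ) ≤ C * Real.log h ^ 7 := by
  classical
  obtain ⟨C₀, hC₀⟩ := hu
  have hce : ∀ j : ℤ, ∃ C : ℝ, 1 ≤ C ∧ ∀ z : ℂ, 0 < z.im → ∀ h : ℝ, 0 ≤ h → IsCM V z h →
      IsCM V (mob (c.T ^ j : V.grp) z) (C * h) := fun j => cm_equiv V (c.T ^ j)
  choose Cj hCj1 hCj using hce
  set K : ℤ := ⌈b + 1⌉ with hK
  set J : Finset ℤ := Finset.Icc (-K) K with hJ
  set M : ℝ := ∑ j ∈ J, Cj (-j) with hM
  obtain ⟨l, hl⟩ := pow_unbounded_of_one_lt M (by norm_num : (1 : ℝ) < 2)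
  refine ⟨C₀ * ((l + 1 : ℕ) : ℝ) ^ 7 * (J.card : ℝ), fun h hh => ?_⟩
  have hh' : (2 : ℝ) ≤ h ^ (l + 1) := by
    calc (2 : ℝ) ≤ h := hh
      _ = h ^ 1 := (pow_one h).symm
      _ ≤ h ^ (l + 1) := pow_le_pow_right₀ (by linarith) (by omega)
  obtain ⟨hfin, hcard⟩ := hC₀ (h ^ (l + 1)) hh'
  set U : Set ℂ := {z : ℂ | |z.re| ≤ 1 ∧ y₀ ≤ z.im ∧ IsCM V z (h ^ (l + 1))} with hU
  have hsub : {z : ℂ | |z.re| ≤ b ∧ y₀ ≤ z.im ∧ IsCM V z h} ⊆
      ↑((hfin.toFinset ×ˢ J).image (fun x : ℂ × ℤ => x.1 + (x.2 : ℂ))) := by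
    rintro z ⟨hz1, hz2, hz3⟩
    have hz : 0 < z.im := lt_of_lt_of_le hy₀ hz2
    set j : ℤ := round z.re with hj
    have hr : |z.re - j| ≤ 1 / 2 := abs_sub_round z.re
    have hjb : |(j : ℝ)| ≤ b + 1 := by
      have h5 : |(j : ℝ)| ≤ |z.re| + |z.re - j| := by
        have := abs_sub_abs_le_abs_sub (j : ℝ) z.re
        rw [abs_sub_comm] at this
        linarith
      linarith
    have hjJ : j ∈ J := by
      rw [hJ, Finset.mem_Icc]
      have h6 : b + 1 ≤ (K : ℝ) := Int.le_ceil _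
      have h7 := abs_le.1 hjb
      constructor
      · have : (-(K : ℝ)) ≤ (j : ℝ) := by linarith [h7.1]
        exact_mod_cast this
      · have : (j : ℝ) ≤ (K : ℝ) := by linarith [h7.2]
        exact_mod_cast this
    refine Finset.mem_coe.2 (Finset.mem_image.2 ⟨(z - (j : ℂ), j), ?_, ?_⟩)
    · rw [Finset.mem_product]
      refine ⟨?_, hjJ⟩
      rw [Set.Finite.mem_toFinset]
      have h8 : (z - (j : ℂ)).re = z.re - j := by simp
      have h9 : (z - (j : ℂ)).im = z.im := by simp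
      refine ⟨?_, ?_, ?_⟩
      · rw [h8]
        linarith
      · rw [h9]
        exact hz2
      · have h10 := hCj (-j) z hz h (by linarith) hz3
        rw [SV6_int V c (-j) z hz] at h10
        have h11 : z + ((-j : ℤ) : ℂ) = z - (j : ℂ) := by
          push_cast
          ring
        rw [h11] at h10
        refine SV6_mono V _ _ _ ?_ h10
        have h12 : Cj (-j) ≤ M :=
          Finset.single_le_sum (f := fun j => Cj (-j))
            (fun i _ => le_trans zero_le_one (hCj1 (-i))) hjJ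
        have h13 : (2 : ℝ) ^ l ≤ h ^ l := pow_le_pow_left₀ (by norm_num) hh l
        rw [pow_succ]
        refine mul_le_mul_of_nonneg_right ?_ (by linarith)
        linarith
    · show z - (j : ℂ) + (j : ℂ) = z
      ring
  refine ⟨Set.Finite.subset (Finset.finite_toSet _) hsub, ?_⟩
  have h1 : {z : ℂ | |z.re| ≤ b ∧ y₀ ≤ z.im ∧ IsCM V z h}.ncard ≤ hfin.toFinset.card * J.card := by
    calc _ ≤ (↑((hfin.toFinset ×ˢ J).image (fun x : ℂ × ℤ => x.1 + (x.2 : ℂ))) : Set ℂ).ncard :=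
          Set.ncard_le_ncard hsub (Finset.finite_toSet _)
      _ = ((hfin.toFinset ×ˢ J).image (fun x : ℂ × ℤ => x.1 + (x.2 : ℂ))).card :=
          Set.ncard_coe_finset _
      _ ≤ (hfin.toFinset ×ˢ J).card := Finset.card_image_le
      _ = _ := Finset.card_product _ _
  have h2 : hfin.toFinset.card = U.ncard := (Set.ncard_eq_toFinset_card U hfin).symm
  rw [h2] at h1
  have h3 : Real.log (h ^ (l + 1)) = ((l + 1 : ℕ) : ℝ) * Real.log h := Real.log_pow _ _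
  rw [h3] at hcard
  calc (({z : ℂ | |z.re| ≤ b ∧ y₀ ≤ z.im ∧ IsCM V z h}.ncard : ℕ) : ℝ)
      ≤ ((U.ncard * J.card : ℕ) : ℝ) := by exact_mod_cast h1
    _ = (U.ncard : ℝ) * (J.card : ℝ) := by push_cast; ring
    _ ≤ (C₀ * (((l + 1 : ℕ) : ℝ) * Real.log h) ^ 7) * (J.card : ℝ) :=
        mul_le_mul_of_nonneg_right hcard (Nat.cast_nonneg _)
    _ = _ := by ring

end MP2794d1.PC
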