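import Pool.Agent.Lib.MP_2794d1_ag.PC.Main
import Pool.Agent.Lib.MP_2794d1_ag.PC.SV5
import Pool.Agent.Lib.MP_2794d1_ag.PC.SV6

/-! Main theorem with the strip. -/

namespace MP2794d1.PC

open Matrix Complex Filter Topology

theorem main_strip {n : ℕ} (V : PolVHS n) (c : Cusp V) (hN : c.N ≠ 0)
    (hmon : ∀ g : V.grp, c.conj g ∈ genericMT V)
    (hgen : ∀ X ∈ genericMT V, ∃ Y ∈ Submodule.span ℚ (Set.range c.conj),
      ∀ X' ∈ genericMT V, (X - Y) * X' = X' * (X - Y)) :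
    IsShimuraLine V c.N ∨
    ((∀ K : Set ℂ, IsCompact K → (∀ z ∈ K, 0 < z.im) → ∃ C : ℝ, ∀ h : ℝ, 2 ≤ h →
      {z | z ∈ K ∧ IsCM V z h}.Finite ∧
      (({z | z ∈ K ∧ IsCM V z h}.ncard : ℕ) : ℝ) ≤ C * Real.log h ^ 6) ∧
    ∀ b y₀ : ℝ, 0 < y₀ → ∃ C : ℝ, ∀ h : ℝ, 2 ≤ h →
      {z : ℂ | |z.re| ≤ b ∧ y₀ ≤ z.im ∧ IsCM V z h}.Finite ∧
      (({z : ℂ | |z.re| ≤ b ∧ y₀ ≤ z.im ∧ IsCM V z h}.ncard : ℕ) : ℝ) ≤ C * Real.log h ^ 7) := by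
  by_cases hs : IsShimuraLine V c.N
  · exact Or.inl hs
  · refine Or.inr ⟨?_, fun b y₀ hy₀ => ?_⟩
    · rcases main_polylog V c hN hmon hgen with h | h
      · exact absurd h hs
      · exact h
    · exact strip_all V c y₀ hy₀ (strip_unit V c hN hmon hgen hs y₀ hy₀) b

end MP2794d1.PC
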