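import Pool.Agent.Lib.MP_2794d1_ag.PC.CH1
import Pool.Agent.Lib.MP_2794d1_ag.S03

/-!
SV2: some `N_g` does not commute with `N`. Otherwise `N_g` and `N_{g'}` commute for all `g, g'`:
`c.conj g' * c.conj g = ρ(g') (N * c.conj (g'⁻¹ * g)) ρ(g')⁻¹` (unfold `Cusp.conj`; `V.rho` multiplicative), so all elements of
the span of the `N_g` commute, and by `hgen` `N` commutes with `genericMT V`. So `cm c.N` commutes with `cx (genericMT V)`, so
with the grading `μ` at `i` (`gr_mem`, `exists_gr`), so `cm c.N ∈ FEnd 0` by `FEnd0_of_comm` (E05), against `N_not_mem` (S03).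
-/

namespace MP2794d1.PC

open Matrix Complex Filter Topology

/-- the monodromy matrix over the rational numbers -/
noncomputable def SV2_A {n : ℕ} (V : PolVHS n) (g : V.grp) : Matrix (Fin n) (Fin n) ℚ :=
  (V.rho g : Matrix (Fin n) (Fin n) ℤ).map (fun q : ℤ => (q : ℚ))

theorem SV2_mul {n : ℕ} (V : PolVHS n) (g h : V.grp) : SV2_A V (g * h) = SV2_A V g * SV2_A V h := by
  unfold SV2_A
  rw [map_mul, Units.val_mul]
  exact Matrix.map_mul (f := Int.castRingHom ℚ)

theorem SV2_inv {n : ℕ} (V : PolVHS n) (g : V.grp) : SV2_A V g * SV2_A V g⁻¹ = 1 := by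
  rw [← SV2_mul, mul_inv_cancel]
  unfold SV2_A
  rw [map_one]
  ext i j
  rw [Matrix.map_apply, Units.val_one, Matrix.one_apply, Matrix.one_apply]
  split_ifs <;> norm_num

theorem SV2_conj {n : ℕ} (V : PolVHS n) (c : Cusp V) (g : V.grp) :
    c.conj g = SV2_A V g * c.N * SV2_A V g⁻¹ := rfl

theorem SV2_conj_shift {n : ℕ} (V : PolVHS n) (c : Cusp V) (g h : V.grp) :
    c.conj g = SV2_A V h * c.conj (h⁻¹ * g) * SV2_A V h⁻¹ := by
  rw [SV2_conj, SV2_conj, _root_.mul_inv_rev, inv_inv, SV2_mul, SV2_mul]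
  have e1 : SV2_A V h * SV2_A V h⁻¹ = 1 := SV2_inv V h
  calc SV2_A V g * c.N * SV2_A V g⁻¹
      = 1 * SV2_A V g * c.N * SV2_A V g⁻¹ * 1 := by rw [Matrix.one_mul, Matrix.mul_one]
    _ = (SV2_A V h * SV2_A V h⁻¹) * SV2_A V g * c.N * SV2_A V g⁻¹ *
          (SV2_A V h * SV2_A V h⁻¹) := by rw [e1]
    _ = SV2_A V h * (SV2_A V h⁻¹ * SV2_A V g * c.N * (SV2_A V g⁻¹ * SV2_A V h)) *
          SV2_A V h⁻¹ := by simp only [Matrix.mul_assoc]

theorem SV2_self {n : ℕ} (V : PolVHS n) (c : Cusp V) (h : V.grp) :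
    c.conj h = SV2_A V h * c.N * SV2_A V h⁻¹ := rfl

theorem SV2_comm {n : ℕ} (V : PolVHS n) (c : Cusp V)
    (hall : ∀ g : V.grp, c.N * c.conj g = c.conj g * c.N) (g h : V.grp) :
    c.conj h * c.conj g = c.conj g * c.conj h := by
  have e2 : SV2_A V h⁻¹ * SV2_A V h = 1 := by
    have := SV2_inv V h⁻¹
    rwa [inv_inv] at this
  rw [SV2_conj_shift V c g h, SV2_self V c h]
  have hk := hall (h⁻¹ * g)
  calc SV2_A V h * c.N * SV2_A V h⁻¹ * (SV2_A V h * c.conj (h⁻¹ * g) * SV2_A V h⁻¹)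
      = SV2_A V h * c.N * (SV2_A V h⁻¹ * SV2_A V h) * c.conj (h⁻¹ * g) * SV2_A V h⁻¹ := by
        simp only [Matrix.mul_assoc]
    _ = SV2_A V h * (c.N * c.conj (h⁻¹ * g)) * SV2_A V h⁻¹ := by
        rw [e2, Matrix.mul_one]
        simp only [Matrix.mul_assoc]
    _ = SV2_A V h * (c.conj (h⁻¹ * g) * c.N) * SV2_A V h⁻¹ := by rw [hk]
    _ = SV2_A V h * c.conj (h⁻¹ * g) * (SV2_A V h⁻¹ * SV2_A V h) * c.N * SV2_A V h⁻¹ := by
        rw [e2, Matrix.mul_one]
        simp only [Matrix.mul_assoc]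
    _ = SV2_A V h * c.conj (h⁻¹ * g) * SV2_A V h⁻¹ * (SV2_A V h * c.N * SV2_A V h⁻¹) := by
        simp only [Matrix.mul_assoc]

theorem SV2_conj_one {n : ℕ} (V : PolVHS n) (c : Cusp V) : c.conj 1 = c.N := by
  rw [SV2_conj, inv_one]
  have h1 : SV2_A V 1 = 1 := by
    have := SV2_inv V 1
    unfold SV2_A
    rw [map_one]
    ext i j
    rw [Matrix.map_apply, Units.val_one, Matrix.one_apply, Matrix.one_apply]
    split_ifs <;> norm_num
  rw [h1, Matrix.one_mul, Matrix.mul_one]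

theorem exists_noncomm {n : ℕ} (V : PolVHS n) (c : Cusp V) (hN : c.N ≠ 0)
    (hmon : ∀ g : V.grp, c.conj g ∈ genericMT V)
    (hgen : ∀ X ∈ genericMT V, ∃ Y ∈ Submodule.span ℚ (Set.range c.conj),
      ∀ X' ∈ genericMT V, (X - Y) * X' = X' * (X - Y)) :
    ∃ g : V.grp, c.N * c.conj g ≠ c.conj g * c.N := by
  by_contra hno
  have hall : ∀ g : V.grp, c.N * c.conj g = c.conj g * c.N := by
    intro g
    by_contra hg
    exact hno ⟨g, hg⟩
  have hNm : c.N ∈ genericMT V := by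
    have := hmon 1
    rwa [SV2_conj_one] at this
  have hspan : ∀ Y ∈ Submodule.span ℚ (Set.range c.conj), c.N * Y = Y * c.N := by
    intro Y hY
    induction hY using Submodule.span_induction with
    | mem Y hY =>
      obtain ⟨g, rfl⟩ := hY
      exact hall g
    | zero => simp
    | add A B _ _ hA hB => rw [mul_add, add_mul, hA, hB]
    | smul q A _ hA => rw [mul_smul_comm, smul_mul_assoc, hA]
  have hm : ∀ X ∈ genericMT V, X * c.N = c.N * X := by
    intro X hX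
    obtain ⟨Y, hY, hc⟩ := hgen X hX
    have h1 := hc c.N hNm
    have h2 := hspan Y hY
    have e : X = (X - Y) + Y := by abel
    rw [e, add_mul, mul_add, h1, h2]
  have hz : 0 < Complex.I.im := by simp
  obtain ⟨μ, hμ⟩ := exists_gr (V.phs Complex.I hz)
  have hμm := gr_mem V Complex.I hz μ hμ
  have h2 : ∀ M ∈ cx (genericMT V : Set (Matrix (Fin n) (Fin n) ℚ)),
      M * cm c.N = cm c.N * M := by
    intro M hM
    unfold cx at hM
    induction hM using Submodule.span_induction with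
    | mem M hM =>
      obtain ⟨Z, hZ, rfl⟩ := hM
      rw [← CH1_cm_mul, ← CH1_cm_mul, hm Z hZ]
    | zero => simp
    | add A B _ _ hA hB => rw [add_mul, mul_add, hA, hB]
    | smul a A _ hA => rw [smul_mul_assoc, mul_smul_comm, hA]
  apply N_not_mem V c hN Complex.I hz
  apply FEnd0_of_comm (V.phs Complex.I hz) hμ
  unfold br
  rw [h2 μ hμm, sub_self]

end MP2794d1.PC
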